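import Pool.Agent.Work.MP_9d1ffa_al.Ct.CDefs

/-! Conditions on an action on a tree together with an action on a set. -/

namespace Pool.Agent.Work.MP_9d1ffa_al

open MulAction

variable {G V X : Type} [Group G] [MulAction G V]

/-- if `D` fixes a vertex, `r` and `s` normalise `D` and their squares lie in `D`, then `D`, `r` and
`s` have a common fixed point in `X` -/
def Fix (ρ : G →* Equiv.Perm X) (V : Type) [MulAction G V] : Prop :=
  ∀ (D : Subgroup G) (r s : G), (∃ v : V, ∀ g ∈ D, g • v = v) →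
    r ∈ Subgroup.normalizer (D : Set G) → s ∈ Subgroup.normalizer (D : Set G) → r * r ∈ D →
    s * s ∈ D → ∃ z, (∀ g ∈ D, ρ g z = z) ∧ ρ r z = z ∧ ρ s z = z

/-- `x` lies on a geodesic from `a` to `b` -/
def Bw (T : SimpleGraph V) (a x b : V) : Prop := T.dist a x + T.dist x b = T.dist a b

/-- `g` exchanges `a` and `b` -/
def Rv (g : G) (a b : V) : Prop := g • a = b ∧ g • b = a

open Classical in
/-- for every group `K` over `G`, the even Wall groups of the obstruction category vanish -/
def VanF (ρ : G →* Equiv.Perm X) : Prop :=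
  ∀ (K : Type) [Group K] (φ : K →* G) (ε : ℤˣ) (a : Ob X) (ψ μ : Matrix a.I a.I (ZG K)),
    Ctl (ρ.comp φ) a a ψ → Ctl (ρ.comp φ) a a μ → cmul (symF ε ψ) μ = 1 → cmul μ (symF ε ψ) = 1 →
    HypC (ρ.comp φ) ε a ψ

/-- the elements that exchange `a` and `x`, and those that exchange `y` and `b`, lift to a group
over `G` with vanishing Wall groups, compatibly with the stabiliser of `(a, b)` -/
def Lift (ρ : G →* Equiv.Perm X) (a x y b : V) : Prop :=
  ∃ (H : Type) (_ : Group H) (π : H →* G) (E E' : Subgroup H), VanF (ρ.comp π) ∧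
    Set.InjOn π E ∧ Set.InjOn π E' ∧ (∀ g : G, Rv g a x → g ∈ E.map π) ∧
    (∀ g : G, Rv g y b → g ∈ E'.map π) ∧ stabilizer G (a, b) ≤ (E ⊓ E').map π

/-- `[a, x]` and `[y, b]` are reversible nondegenerate segments in `[a, b]`, the elements that
reverse one of them do not all normalise the stabiliser of `(a, b)`, and they do not lift -/
def Bad (ρ : G →* Equiv.Perm X) (T : SimpleGraph V) (a x y b : V) : Prop :=
  a ≠ x ∧ y ≠ b ∧ Bw T a x b ∧ Bw T a y b ∧ (∃ g : G, Rv g a x) ∧ (∃ g : G, Rv g y b) ∧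
    (∃ g : G, (Rv g a x ∨ Rv g y b) ∧ g ∉ Subgroup.normalizer (stabilizer G (a, b) : Set G)) ∧
    ¬ Lift ρ a x y b

/-- a translate of `[a, b]` lies in `[c, e]` -/
def Tin (G : Type) [Group G] [MulAction G V] (T : SimpleGraph V) (a b c e : V) : Prop :=
  ∃ g : G, Bw T c (g • a) e ∧ Bw T c (g • b) e

/-- there is no sequence of bad pairs of segments such that both members of each pair contain a
translate of the hull of the previous pair -/
def NoChain (ρ : G →* Equiv.Perm X) (T : SimpleGraph V) : Prop :=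
  ¬ ∃ a x y b : ℕ → V, ∀ n, Bad ρ T (a n) (x n) (y n) (b n) ∧
    Tin G T (a n) (b n) (a (n + 1)) (x (n + 1)) ∧ Tin G T (a n) (b n) (y (n + 1)) (b (n + 1))

end Pool.Agent.Work.MP_9d1ffa_al
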