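import Pool.Agent.Work.MP_9d1ffa_al.Ct.BFn
import Pool.Agent.Work.MP_9d1ffa_al.Ct.CSp

/-! Consequences of an Eilenberg swindle.  `Flq.van1`: `V = reix (F.S.w I I) ...`, more precisely
`V = F.S.w I I * F.S.map U * (F.S.w I I).ct` is an isometry on `S I + S I` whose blocks are the images of the
blocks of `U` (`Fn.w_conj`), and `reix (F.u I) (dsum U V) = V` by `F.nat` on the blocks; `nul_dsum_inv` gives
`Nul (dsum V V')` for the inverse `V'`; rewrite the first `V`, use `Nul.reindex`, `OU3_re`, `OU3_assoc` and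
`Nul.cancel` (all in `Ct/SU3.lean`).  `padF_pd`, `nul_pd`: build the full subcategory `full` on the subtype
`{a // Pd a}` (all fields are those of `𝒞`), restrict the swindle to it and apply `exists_padF`
(`stab_of_absorb`, `Flq.sfi`) and `Flq.van1` there; the statements in the subcategory are
definitionally the statements in `𝒞` (for `RU` use `Submonoid.closure_induction` and the three
constructors of `GenU`). -/

namespace Pool.Agent.Work.MP_9d1ffa_al.Ct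

set_option linter.unusedSectionVars false
set_option linter.unusedVariables false

variable {O : Type 1} [Add O] [Zero O] {𝒞 : SCat O} {η : ℤˣ} {J : O}

theorem RA_mul (S : Fn 𝒞 𝒞) (x y : 𝒞.Hom (J + J) (J + J)) :
    S.w J J * S.map x * (S.w J J).ct * (S.w J J * S.map y * (S.w J J).ct) =
      S.w J J * S.map (x * y) * (S.w J J).ct := by
  rw [S.map_mul]
  simp only [Hm.mul_assoc]
  rw [← Hm.mul_assoc (S.w J J).ct, S.unt_w.2, Hm.one_mul]

theorem RA_uni (S : Fn 𝒞 𝒞) {U : 𝒞.Hom (J + J) (J + J)} (hU : Uni η U) :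
    Uni η (S.w J J * S.map U * (S.w J J).ct) := by
  obtain ⟨U', -, h1, h2⟩ := hU.inv
  have e : hypF 𝒞 (S.ob J) = S.w J J * S.map (hypF 𝒞 J) * (S.w J J).ct := by
    rw [hypF, hypF, S.w_blocks, S.map_zero', S.map_one]
  refine ⟨OU1_unit (V := S.w J J * S.map U' * (S.w J J).ct) ?_ ?_, ?_⟩
  · rw [RA_mul, h1, S.map_one, Hm.mul_one, S.unt_w.1]
  · rw [RA_mul, h2, S.map_one, Hm.mul_one, S.unt_w.1]
  · rw [e, RA_mul, conjTranspose_mul, conjTranspose_mul, conjTranspose_conjTranspose,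
      ← Hm.mul_assoc (S.w J J) (S.map U).ct, ← S.map_ct, RA_mul]
    exact (S.eqv hU.2).conj _

theorem RA_nul {I : O} {U : 𝒞.Hom (I + I) (I + I)} {u : 𝒞.Hom J I} (h : Nul η (reix u U))
    (hu : Unt u) : Nul η U :=
  reix_reix hu U ▸ h.reindex hu.ct

theorem Flq.van1 (F : Flq 𝒞) (η : ℤˣ) : Van1 𝒞 η := by
  intro I U hU
  have hV := RA_uni F.S hU
  obtain ⟨V', h1, h2, -⟩ := hV.inv
  have e : reix (F.u I) (dsum U (F.S.w I I * F.S.map U * (F.S.w I I).ct)) =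
      F.S.w I I * F.S.map U * (F.S.w I I).ct := by
    rw [Fn.w_conj, dsum_eq, reix_blocks]
    simp only [toBlocks_fromBlocks₁₁, toBlocks_fromBlocks₁₂, toBlocks_fromBlocks₂₁,
      toBlocks_fromBlocks₂₂, F.conj]
  have h3 := nul_dsum_inv hV h2
  have h4 := h3
  rw [← e, OU3_re, OU3_assoc] at h4
  exact (RA_nul (RA_nul h4 ((F.unt I).sum unt_one)) unt_assoc.ct).cancel h3 (hV.dsum h1)

/-- a class of objects that is closed under sums -/
structure RA_P (O : Type 1) [Add O] [Zero O] where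
  P : O → Prop
  h0 : P 0
  hadd : ∀ a b, P a → P b → P (a + b)

/-- the objects of the class -/
def RA_P.T (P : RA_P O) : Type 1 := {a // P.P a}

instance (P : RA_P O) : Add P.T := ⟨fun a b => ⟨a.1 + b.1, P.hadd _ _ a.2 b.2⟩⟩

instance (P : RA_P O) : Zero P.T := ⟨⟨0, P.h0⟩⟩

/-- the full subcategory -/
def RA_full (𝒞 : SCat O) (P : RA_P O) : SCat P.T where
  Hom a b := 𝒞.Hom a.1 b.1
  acg a b := 𝒞.acg a.1 b.1
  mul := 𝒞.mul
  one a := 𝒞.one a.1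
  cj := 𝒞.cj
  inl a b := 𝒞.inl a.1 b.1
  inr a b := 𝒞.inr a.1 b.1
  mul_assoc := 𝒞.mul_assoc
  one_mul := 𝒞.one_mul
  mul_one := 𝒞.mul_one
  mul_add := 𝒞.mul_add
  add_mul := 𝒞.add_mul
  cj_add := 𝒞.cj_add
  cj_mul := 𝒞.cj_mul
  cj_cj := 𝒞.cj_cj
  inl_inl a b := 𝒞.inl_inl a.1 b.1
  inr_inr a b := 𝒞.inr_inr a.1 b.1
  inl_inr a b := 𝒞.inl_inr a.1 b.1
  total a b := 𝒞.total a.1 b.1
  one_zero := 𝒞.one_zero

/-- the restriction of a swindle -/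
def RA_flq (F : Flq 𝒞) (P : RA_P O) (hS : ∀ a, P.P a → P.P (F.S.ob a)) : Flq (RA_full 𝒞 P) where
  S :=
    { ob := fun a => ⟨F.S.ob a.1, hS _ a.2⟩
      map := F.S.map
      map_add := F.S.map_add
      map_mul := F.S.map_mul
      map_one := fun a => F.S.map_one a.1
      map_ct := F.S.map_ct }
  u a := F.u a.1
  unt a := F.unt a.1
  nat := F.nat

theorem RA_ru {P : RA_P O} {I : P.T} {U : (RA_full 𝒞 P).Hom (I + I) (I + I)}
    (h : U ∈ RU (RA_full 𝒞 P) η I) :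
    (show 𝒞.Hom (I.1 + I.1) (I.1 + I.1) from U) ∈ RU 𝒞 η I.1 := by
  induction h using Submonoid.closure_induction with
  | mem x hx =>
    cases hx with
    | gl g g' h1 h2 => exact (GenU.gl (𝒞 := 𝒞) g g' h1 h2).mem
    | sh χ => exact (GenU.sh (𝒞 := 𝒞) χ).mem
    | sw κ s h => exact (GenU.sw (𝒞 := 𝒞) κ.1 s h).mem
  | one => exact (RU 𝒞 η I.1).one_mem
  | mul x y _ _ hx hy => exact (RU 𝒞 η I.1).mul_mem hx hy

theorem padF_pd (F : Flq 𝒞) (Pd : O → Prop) (h0 : Pd 0) (hadd : ∀ a b, Pd a → Pd b → Pd (a + b))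
    (hS : ∀ a, Pd a → Pd (F.S.ob a)) (hJ : Pd J) {E : 𝒞.Hom (J + J) (J + J)} (hE : E * E = E) :
    ∃ κ : O, Pd κ ∧ FreeOn (J + κ) (dsum E (fromBlocks 1 0 0 0 : 𝒞.Hom (κ + κ) (κ + κ))) ∧
      FreeIdem (1 - dsum E (fromBlocks 1 0 0 0 : 𝒞.Hom (κ + κ) (κ + κ))) := by
  have F' := RA_flq F ⟨Pd, h0, hadd⟩ hS
  obtain ⟨κ, h1, b, h2⟩ := exists_padF (𝒞 := RA_full 𝒞 ⟨Pd, h0, hadd⟩) (J := ⟨J, hJ⟩) (E := E)
    (stab_of_absorb fun a => ⟨_, _, F'.unt a⟩) (F'.sfi _ _ hE)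
    (F'.sfi _ _ (IsIdempotentElem.one_sub hE))
  exact ⟨κ.1, κ.2, h1, b.1, h2⟩

theorem nul_pd (F : Flq 𝒞) (Pd : O → Prop) (h0 : Pd 0) (hadd : ∀ a b, Pd a → Pd b → Pd (a + b))
    (hS : ∀ a, Pd a → Pd (F.S.ob a)) (hJ : Pd J) {U : 𝒞.Hom (J + J) (J + J)} (hU : Uni η U) :
    ∃ κ : O, Pd κ ∧ dsum U (1 : 𝒞.Hom (κ + κ) (κ + κ)) ∈ RU 𝒞 η (J + κ) := by
  obtain ⟨κ, h⟩ := (RA_flq F ⟨Pd, h0, hadd⟩ hS).van1 η ⟨J, hJ⟩ U hU
  exact ⟨κ.1, κ.2, RA_ru h⟩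

end Pool.Agent.Work.MP_9d1ffa_al.Ct
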