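import Pool.Agent.Work.MP_9d1ffa_al.Rt.LSw
import Pool.Agent.Work.MP_9d1ffa_al.Rt.RA
import Pool.Agent.Work.MP_9d1ffa_al.Ct.CSp

-- merged part: Pool.Agent.Work.MP_9d1ffa_al.Rt.LEx
section
/-! Existence of edge frames. -/

namespace Pool.Agent.Work.MP_9d1ffa_al.Ct.Rl

open MonoidAlgebra

set_option linter.unusedSectionVars false
set_option linter.unusedVariables false

variable {X Γ V : Type} [Group Γ] [MulAction Γ V] {ε : ℤˣ} {ρ : Γ →* Equiv.Perm X}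
  {I J J' κ κ' : LOb X (V × V)}
  {W : (LV ρ V).Hom (I + I) (I + I)} {θ : (LV ρ V).Hom I I} {P : (LV ρ V).Hom I J}
  {Q : (LV ρ V).Hom I J'} {U : (LA ρ V).Hom (J + J) (J + J)}

/-- there is a swindle at the edges that preserves the positive objects -/
def TC.Sw (C : TC Γ V) (ρ : Γ →* Equiv.Perm X) : Prop :=
  ∃ F : Flq (LA ρ V), ∀ a, C.Gd a → C.Gd (F.S.ob a)

theorem OEx_eqv_mp {η : ℤˣ} {R R' : Setoid (V × V)} (f : AH R R') {a : (LC ρ R).Hom I I} (h : Eqv η 0 a) :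
    Eqv η 0 (mp f a) := by
  obtain ⟨χ, rfl⟩ := h
  exact ⟨mp f χ, by rw [zero_add, zero_add, mp_sub, mp_zsmul, mp_ct]⟩

theorem OEx_eqv_rs {η : ℤˣ} {L : LOb X (V × V)} {R R' : Setoid (V × V)} (f : AH R' R)
    {a : (LC ρ R).Hom L L} (h : Eqv η 0 a) : Eqv η 0 (rs f a) := by
  obtain ⟨χ, rfl⟩ := h
  exact ⟨rs f χ, by rw [zero_add, zero_add, rs_sub, rs_zsmul, rs_ct]⟩

theorem OEx_mp_pd {L : LOb X (V × V)} {R R' : Setoid (V × V)} (f : AH R R')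
    (Y : (LC ρ R).Hom (J + J) L) :
    mp f (OEx_pd κ Y) = OEx_pd κ (mp f Y) := by
  rw [OEx_pd, mp_fromRows, mp_fromRows, mp_fromRows, mp_zero, OEx_pd, mp_toRows₁, mp_toRows₂]

theorem OEx_side_pd {L : LOb X (V × V)} {C : TC Γ V} {Y : (LG ρ V).Hom (J + J) L} (h : C.Side Y) :
    C.Side (OEx_pd κ Y) :=
  TC.side_fromRows.2 ⟨sup_fromRows.2 ⟨h.1, sup_zero⟩, sup_fromRows.2 ⟨h.2, sup_zero⟩⟩

theorem OEx_cols_dg {L : LOb X (V × V)} {C : TC Γ V} (a : (LG ρ V).Hom L J) (b : (LG ρ V).Hom L κ)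
    (T : TU ρ C J J') (T' : TU ρ C κ κ') :
    fromCols a b * (T.sum T').T = fromCols (a * T.T) (b * T'.T) := by
  rw [TU.sum_T, fromCols_mul_fromBlocks]
  simp

theorem OEx_cols_dg' {L : LOb X (V × V)} {C : TC Γ V} (a : (LG ρ V).Hom L J') (b : (LG ρ V).Hom L κ')
    (T : TU ρ C J J') (T' : TU ρ C κ κ') :
    fromCols a b * (T.sum T').T.ct = fromCols (a * T.T.ct) (b * T'.T.ct) := by
  rw [TU.sum_T, fromBlocks_conjTranspose, fromCols_mul_fromBlocks]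
  simp

theorem OEx_mp_cols {L : LOb X (V × V)} {R R' : Setoid (V × V)} (f : AH R R') (B : (LC ρ R).Hom L I)
    (P : (LC ρ R).Hom I J) : mp f (B * fromCols P (0 : (LC ρ R).Hom I κ)) = fromCols (mp f (B * P)) 0 := by
  rw [mul_fromCols, Hm.mul_zero, mp_fromCols, mp_zero]

theorem TC.lin_pad (D : TC Γ V) (T : TU ρ D J J') (T' : TU ρ D κ κ') (θ : (LV ρ V).Hom I I)
    (P : (LV ρ V).Hom I J) (Q : (LV ρ V).Hom I J') :
    D.lin (T.sum T') θ (fromCols P 0) (fromCols Q 0) = D.lin T θ P Q := by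
  rw [TC.lin, TC.lin, mp_fromCols, mp_fromCols, mp_zero, mp_zero, OEx_cols_dg,
    conjTranspose_fromCols_eq_fromRows_conjTranspose, fromCols_mul_fromRows]
  simp

theorem OEx_sys_pad (D : TC Γ V) (T : TU ρ D J J') (T' : TU ρ D κ κ') :
    D.sys (T.sum T') ε W θ (fromCols P 0) (fromCols Q 0) = D.sys T ε W θ P Q := by
  rw [TC.sys, TC.lin_pad, TC.sys]

theorem OEx_sig_pad (D : TC Γ V) (T : TU ρ D J J') (T' : TU ρ D κ κ') :
    D.sig (T.sum T') ε (fromCols P 0) (fromCols Q 0) = OEx_pd κ (D.sig T ε P Q) := by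
  rw [TC.sig, TC.sig, mp_fromCols, mp_fromCols, mp_zero, mp_zero,
    conjTranspose_fromCols_eq_fromRows_conjTranspose,
    conjTranspose_fromCols_eq_fromRows_conjTranspose, TU.sum_T, fromBlocks_mul_fromRows, OEx_pd,
    toRows₁_fromRows, toRows₂_fromRows]
  congr 1
  · simp [fromRows_neg]
  · simp [fromRows_smul]

theorem TC.EF.pad {C : TC Γ V} {T : TU ρ C J J'} (h : C.EF T ε W θ P Q U)
    (T' : TU ρ C κ κ') : C.EF (T.sum T') ε W θ (fromCols P 0) (fromCols Q 0)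
      (dsum U (1 : (LA ρ V).Hom (κ + κ) (κ + κ))) := by
  obtain ⟨hU, Y, h1, h2, h3, h4⟩ := h
  refine ⟨hU.dsum uni_one, OEx_pd κ Y, ?_, OEx_side_pd h2, ?_, ?_⟩
  · rw [OEx_sys_pad, OEx_sig_pad, OEx_pd_mul, h1, mp_dsum, OEx_dsum_pd]
  · rw [OEx_mp_cols, mul_fromCols, Hm.mul_zero, OEx_col₁, mp_fromCols, OEx_fromCols_add,
      OEx_cols_dg, OEx_pd_mul, OEx_mp_pd, ← OEx_pd_add, OEx_pd_mul, zero_add, mp_fromRows,
      mp_fromRows, mp_zero, mp_zero, mp_one, fromRows_mul, fromRows_mul, Hm.zero_mul,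
      Hm.zero_mul, Hm.one_mul]
    refine TC.side_fromCols.2 ⟨OEx_side_pd h3, TC.side_fromRows.2 ⟨?_, sup_zero⟩⟩
    exact sup_fromRows.2 ⟨sup_zero, T'.sup.mono fun _ _ => C.tpos⟩
  · rw [OEx_mp_cols, mul_fromCols, Hm.mul_zero, OEx_cols_dg', OEx_col₂, mp_fromCols,
      OEx_fromCols_sub, OEx_pd_mul, OEx_pd_mul, OEx_mp_pd, ← OEx_pd_sub, Hm.zero_mul, zero_sub,
      mp_fromRows, mp_fromRows, mp_zero, mp_zero, mp_one]
    refine TC.side_fromCols.2 ⟨OEx_side_pd h4, TC.Side.neg (TC.side_fromRows.2 ⟨sup_zero, ?_⟩)⟩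
    exact sup_fromRows.2 ⟨sup_zero, sup_one.mono fun _ _ e => C.npos_v (congrArg Prod.fst e)⟩

section Cuts

variable {L : LOb X (V × V)} (C : TC Γ V) (T : TU ρ C J J')

theorem OEx_sup_v {M N : LOb X (V × V)} {y : (LG ρ V).Hom L M} (hy : Sup C.pos y)
    (B : (LV ρ V).Hom M N) : Sup C.pos (y * mp C.vh B) :=
  hy.mul (sup_mp _ B) fun _ _ _ ha e => (C.right e).2 ha

theorem OEx_sup_v' {M N : LOb X (V × V)} {y : (LG ρ V).Hom L M}
    (hy : Sup (fun x y => ¬ C.pos x y) y) (B : (LV ρ V).Hom M N) :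
    Sup (fun x y => ¬ C.pos x y) (y * mp C.vh B) :=
  hy.mul (sup_mp _ B) fun _ _ _ ha e k => ha ((C.right e).1 k)

theorem OEx_sup_va {M N : LOb X (V × V)} (B : (LA ρ V).Hom M L) {y : (LG ρ V).Hom L N}
    (hy : Sup C.pos y) : Sup C.pos (mp C.ah B * y) :=
  (sup_mp _ B).mul hy (by
    rintro _ _ _ rfl hb
    exact hb)

theorem OEx_sup_va' {M N : LOb X (V × V)} (B : (LA ρ V).Hom M L) {y : (LG ρ V).Hom L N}
    (hy : Sup (fun x y => ¬ C.pos x y) y) : Sup (fun x y => ¬ C.pos x y) (mp C.ah B * y) :=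
  (sup_mp _ B).mul hy (by
    rintro _ _ _ rfl hb
    exact hb)

theorem OEx_sup_mp {M N : LOb X (V × V)} (B : (LA ρ V).Hom M N) :
    Sup (fun x y => ¬ C.pos x y) (mp C.ah B) :=
  (sup_mp _ B).mono fun _ _ e => C.npos_v (congrArg Prod.fst e)

theorem OEx_rs_pos {M : LOb X (V × V)} {y : (LG ρ V).Hom L M} (hy : Sup C.pos y) :
    rs C.ah y = 0 :=
  hy.rs_zero fun _ _ h e => C.npos_v (congrArg Prod.fst e) h

theorem OEx_rs_neg {y : (LG ρ V).Hom L J'} (hy : Sup (fun x y => ¬ C.pos x y) y) :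
    rs C.ah (y * T.T.ct) = 0 :=
  (hy.mul T.sup_ct (T := fun x y => C.O y ∧ ¬ C.pos x y.swap) (by
    rintro a _ _ ha ⟨h, rfl⟩
    exact ⟨h, ha⟩)).rs_zero (by
    rintro x _ h rfl
    exact h.2 (C.tpos ⟨h.1, rfl⟩))

theorem OEx_bd (y : (LG ρ V).Hom L I) : rs C.ah (y * C.bd T W P Q) =
    fromCols (rs C.ah (y * mp C.vh (W.toBlocks₁₁ * P)))
      (rs C.ah (y * mp C.vh (W.toBlocks₁₁ * Q) * T.T.ct)) := by
  rw [TC.bd, mul_fromCols, rs_fromCols, Hm.mul_assoc]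

theorem OEx_iso (hW : Uni (-ε) W) (z : (LA ρ V).Hom L (J + J)) (y : (LG ρ V).Hom L I)
    (e : y * C.sys T ε W θ P Q = mp C.ah z * C.sig T ε P Q) :
    Eqv (-ε) 0
      (-(z.toCols₁ * (rs C.ah (y * mp C.vh (W.toBlocks₁₁ * Q) * T.T.ct)).ct) +
        (ε : ℤ) • (z.toCols₂ * (rs C.ah (y * mp C.vh (W.toBlocks₁₁ * P))).ct)) := by
  have h1 : Eqv (-ε) 0 (W.toBlocks₁₁ * W.toBlocks₁₂.ct) := by
    rw [← fromBlocks_toBlocks W] at hW
    exact (uni_iff.1 hW).2.1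
  have h2 := (OEx_eqv_mp C.vh (OEx_eqv_ct h1)).conj y
  have h3 : Eqv (-ε) 0 (sy ε (y * mp C.vh W.toBlocks₁₁ * C.lin T θ P Q *
      (y * mp C.vh W.toBlocks₁₁).ct)) :=
    ⟨_, by rw [zero_add, Units.val_neg, neg_smul, sub_neg_eq_add, sy]⟩
  have h4 := h3.add h2.neg
  rw [Hm.mul_zero, Hm.zero_mul, neg_zero, add_zero] at h4
  have h5 : sy ε (y * mp C.vh W.toBlocks₁₁ * C.lin T θ P Q * (y * mp C.vh W.toBlocks₁₁).ct) +
      -(y * mp C.vh (W.toBlocks₁₁ * W.toBlocks₁₂.ct).ct * y.ct) =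
      y * C.sys T ε W θ P Q * (y * mp C.vh W.toBlocks₁₁).ct := by
    rw [sy_conj, TC.sys, sysM, mp_toBlocks₁₁, mp_toBlocks₁₂, conjTranspose_mul W.toBlocks₁₁,
      conjTranspose_conjTranspose, mp_mul, mp_ct, conjTranspose_mul y, ← sub_eq_add_neg]
    simp only [Hm.mul_sub, Hm.sub_mul, Hm.mul_assoc]
  rw [h5, e, Hm.mul_assoc] at h4
  have h6 := OEx_eqv_rs C.ah h4
  have h7 : C.sig T ε P Q * (y * mp C.vh W.toBlocks₁₁).ct =
      fromRows (-(y * mp C.vh (W.toBlocks₁₁ * Q) * T.T.ct).ct)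
        ((ε : ℤ) • (y * mp C.vh (W.toBlocks₁₁ * P)).ct) := by
    rw [TC.sig, fromRows_mul]
    simp only [mp_mul, conjTranspose_mul, conjTranspose_conjTranspose, Hm.neg_mul, Hm.smul_mul,
      Hm.mul_assoc]
  rw [rs_mp_mul, h7, rs_fromRows, rs_neg, rs_zsmul, rs_ct, rs_ct, ← fromCols_toCols z,
    fromCols_mul_fromRows, Hm.mul_neg, Hm.mul_smul] at h6
  exact h6

theorem OEx_fm_sig : fm C.pos (C.sig T ε P Q) =
    mp C.ah (fromBlocks 1 0 0 0 : (LA ρ V).Hom (J + J) (J + J)) * C.sig T ε P Q := by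
  have h1 : Sup C.pos (T.T * (mp C.vh Q).ct) := by
    rw [← mp_ct]
    exact OEx_sup_v C (T.sup.mono fun _ _ => C.tpos) _
  have h2 : Sup (fun x y => ¬ C.pos x y) (mp C.vh P).ct := by
    rw [← mp_ct]
    exact (sup_mp _ _).mono fun _ _ e => C.npos_v e
  rw [TC.sig, fm_fromRows, h1.neg.fm_eq, (h2.zsmul _).fm_zero fun _ _ e => e, mp_blocks, mp_one,
    mp_zero, fromBlocks_mul_fromRows]
  simp

theorem OEx_e₁ : (fromBlocks 1 0 0 0 : (LA ρ V).Hom (J + J) (J + J)) =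
    fromCols (fromRows 1 0) 0 := by
  rw [← fromCols_fromRows_eq_fromBlocks, fromRows_zero]

theorem OEx_mul_e (z : (LA ρ V).Hom L (J + J)) :
    z * (fromRows 1 0 : (LA ρ V).Hom (J + J) J) = z.toCols₁ := by
  conv_lhs => rw [← fromCols_toCols z]
  rw [fromCols_mul_fromRows, Hm.mul_one, Hm.mul_zero, add_zero]

theorem OEx_frame {E : (LA ρ V).Hom (J + J) (J + J)} {Y : (LG ρ V).Hom (J + J) I}
    (h1 : Y * C.sys T ε W θ P Q = C.sig T ε P Q)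
    (h2 : E = fromBlocks 1 0 0 0 + rs C.ah (Y * C.bd T W P Q))
    (h3 : mp C.ah E * Y = fm C.pos Y) (hU : Uni (-ε) U) (u1 : U.toRows₁ * E = U.toRows₁)
    (u2 : U.toRows₂ * E = 0) : C.EF T ε W θ P Q U := by
  have s1 : Sup C.pos (mp C.ah U.toRows₁ * Y) := by
    rw [← u1, mp_mul, Hm.mul_assoc, h3]
    exact OEx_sup_va C _ (sup_fm _ _)
  have s2 : Sup (fun x y => ¬ C.pos x y) (mp C.ah U.toRows₂ * Y) := by
    rw [← fm_add_not C.inv_pos Y, Hm.mul_add, ← h3, ← Hm.mul_assoc, ← mp_mul, u2, mp_zero,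
      Hm.zero_mul, zero_add]
    exact OEx_sup_va' C _ (sup_fm _ _)
  rw [OEx_bd, OEx_e₁, OEx_fromCols_add, zero_add] at h2
  have c1 : U.toCols₁.toRows₁ = U.toRows₁.toCols₁ := (Hm.mul_assoc _ _ _).symm
  have c2 : U.toCols₁.toRows₂ = U.toRows₂.toCols₁ := (Hm.mul_assoc _ _ _).symm
  have c3 : U.toCols₂.toRows₁ = U.toRows₁.toCols₂ := (Hm.mul_assoc _ _ _).symm
  have c4 : U.toCols₂.toRows₂ = U.toRows₂.toCols₂ := (Hm.mul_assoc _ _ _).symm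
  refine ⟨hU, mp C.ah U * Y, by rw [Hm.mul_assoc, h1], ⟨by rwa [toRows₁_mul, mp_toRows₁],
    by rwa [toRows₂_mul, mp_toRows₂]⟩, ⟨?_, ?_⟩, ⟨?_, ?_⟩⟩
  · rw [toRows₁_mul, toRows₁_add, toRows₁_mul, toRows₁_mul, mp_toRows₁, mp_toRows₁, c1]
    rw [Hm.add_mul]
    refine ((OEx_sup_v C s1 _).mul T.sup ?_).add ((sup_mp _ _).mul T.sup ?_)
    · exact fun _ _ _ => C.up
    · rintro _ _ _ rfl e
      exact C.tpos e
  · rw [toRows₂_mul, toRows₂_add, toRows₂_mul, toRows₂_mul, mp_toRows₂, mp_toRows₂, c2]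
    have a1 := (OEx_sup_v' C s2 (W.toBlocks₁₁ * P)).add (OEx_sup_mp C U.toRows₂.toCols₁)
    have a2 : rs C.ah (mp C.ah U.toRows₂ * Y * mp C.vh (W.toBlocks₁₁ * P) +
        mp C.ah U.toRows₂.toCols₁) = 0 := by
      have := congrArg SCat.Hom.toCols₁ u2
      rw [OEx_toCols₁_mul, h2, toCols₁_fromCols, Hm.mul_add, OEx_mul_e] at this
      rw [rs_add, rs_mp, Hm.mul_assoc, rs_mp_mul, add_comm]
      exact this.trans toCols₁_zero
    have a3 := C.fm_t T (mp C.ah U.toRows₂ * Y * mp C.vh (W.toBlocks₁₁ * P) +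
      mp C.ah U.toRows₂.toCols₁)
    rw [a2, a1.fm_zero fun _ _ e => e, mp_zero, Hm.zero_mul, add_zero] at a3
    rw [← fm_add_not C.inv_pos (_ * T.T), a3, zero_add]
    exact sup_fm _ _
  · rw [toRows₁_sub, toRows₁_mul, toRows₁_mul, toRows₁_mul, mp_toRows₁, mp_toRows₁, c3]
    have a1 := OEx_sup_v C s1 (W.toBlocks₁₁ * Q)
    have a2 : rs C.ah (mp C.ah U.toRows₁ * Y * mp C.vh (W.toBlocks₁₁ * Q) * T.T.ct) =
        U.toRows₁.toCols₂ := by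
      have := congrArg SCat.Hom.toCols₂ u1
      rw [OEx_toCols₂_mul, h2, toCols₂_fromCols] at this
      rw [Hm.mul_assoc, Hm.mul_assoc, rs_mp_mul, ← Hm.mul_assoc]
      exact this
    have a3 := C.fm_tinv T (mp C.ah U.toRows₁ * Y * mp C.vh (W.toBlocks₁₁ * Q))
    rw [a2, a1.fm_eq] at a3
    rw [← a3]
    exact sup_fm _ _
  · rw [toRows₂_sub, toRows₂_mul, toRows₂_mul, toRows₂_mul, mp_toRows₂, mp_toRows₂, c4]
    refine ((OEx_sup_v' C s2 _).mul T.sup_ct ?_).sub (OEx_sup_mp C _)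
    exact fun _ _ _ => C.npos_tinv

end Cuts

/-- an idempotent whose image and kernel are the two edge Lagrangians -/
theorem TC.exists_idem (C : TC Γ V) (T : TU ρ C J J') (hW : Uni (-ε) W)
    (hs : IsUnit (C.sys T ε W θ P Q)) :
    ∃ (E : (LA ρ V).Hom (J + J) (J + J)) (Y : (LG ρ V).Hom (J + J) I), E * E = E ∧
      Y * C.sys T ε W θ P Q = C.sig T ε P Q ∧
      E = fromBlocks 1 0 0 0 + rs C.ah (Y * C.bd T W P Q) ∧
      mp C.ah E * Y = fm C.pos Y ∧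
      Eqv (-ε) 0 (E * hypF (LA ρ V) J * E.ct) ∧
      Eqv (-ε) 0 ((1 - E) * hypF (LA ρ V) J * (1 - E).ct) := by
  obtain ⟨u, hu⟩ := hs
  have m1 : C.sys T ε W θ P Q * u.inv = 1 := hu ▸ u.val_inv
  have m2 : u.inv * C.sys T ε W θ P Q = 1 := hu ▸ u.inv_val
  obtain ⟨Y, hY⟩ : ∃ Y : (LG ρ V).Hom (J + J) I, Y * C.sys T ε W θ P Q = C.sig T ε P Q :=
    ⟨C.sig T ε P Q * u.inv, by rw [Hm.mul_assoc, m2, Hm.mul_one]⟩
  obtain ⟨E, hE⟩ : ∃ E : (LA ρ V).Hom (J + J) (J + J),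
      E = fromBlocks 1 0 0 0 + rs C.ah (Y * C.bd T W P Q) := ⟨_, rfl⟩
  have k1 : fm C.pos Y * C.sys T ε W θ P Q = mp C.ah E * C.sig T ε P Q := by
    rw [C.key_pos, hY, OEx_fm_sig, hE, mp_add, Hm.add_mul]
  have k2 : mp C.ah E * Y = fm C.pos Y := by
    rw [← Hm.mul_one (fm C.pos Y), ← m1, ← Hm.mul_assoc, k1, ← hY, Hm.mul_assoc,
      Hm.mul_assoc, m1, Hm.mul_one]
  have k3 : fm (fun x y => ¬ C.pos x y) Y * C.sys T ε W θ P Q = mp C.ah (1 - E) * C.sig T ε P Q := by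
    rw [mp_sub, mp_one, Hm.sub_mul, Hm.one_mul, ← k1, eq_sub_iff_add_eq', ← Hm.add_mul,
      fm_add_not C.inv_pos, hY]
  have r1 := OEx_rs_pos C (OEx_sup_v C (sup_fm C.pos Y) (W.toBlocks₁₁ * P))
  have r2 := OEx_rs_neg C T (OEx_sup_v' C (sup_fm (fun x y => ¬ C.pos x y) Y) (W.toBlocks₁₁ * Q))
  have hE' := hE
  rw [OEx_bd, OEx_e₁, OEx_fromCols_add, zero_add] at hE'
  have r3 : rs C.ah (fm C.pos Y * mp C.vh (W.toBlocks₁₁ * Q) * T.T.ct) = E.toCols₂ := by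
    rw [hE', toCols₂_fromCols]
    conv_rhs => rw [← fm_add_not C.inv_pos Y, Hm.add_mul, Hm.add_mul, rs_add, r2, add_zero]
  have r4 : rs C.ah (fm (fun x y => ¬ C.pos x y) Y * mp C.vh (W.toBlocks₁₁ * P)) =
      -(1 - E).toCols₁ := by
    have : (1 - E).toCols₁ = fromRows 1 0 - E.toCols₁ := by
      simp
    rw [this, hE', toCols₁_fromCols, sub_add_cancel_left, neg_neg]
    conv_rhs => rw [← fm_add_not C.inv_pos Y, Hm.add_mul, rs_add, r1, zero_add]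
  refine ⟨E, Y, ?_, hY, hE, k2, ?_, ?_⟩
  · have a1 := OEx_bd C T (W := W) (P := P) (Q := Q) (fm C.pos Y)
    rw [r1, r3, ← k2, Hm.mul_assoc, rs_mp_mul] at a1
    conv_lhs => rw [show E * E = E * fromBlocks 1 0 0 0 + E * rs C.ah (Y * C.bd T W P Q) by
      rw [← Hm.mul_add, ← hE]]
    rw [a1, OEx_e₁, mul_fromCols, OEx_mul_e, Hm.mul_zero, OEx_fromCols_add, add_zero, zero_add,
      fromCols_toCols]
  · have a1 := (OEx_iso C T hW E _ k1).neg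
    rw [r1, r3, conjTranspose_zero, Hm.mul_zero, smul_zero, add_zero, neg_neg, neg_zero] at a1
    rwa [OEx_hyp]
  · have a1 := OEx_eqv_ct (OEx_eqv_smul (OEx_iso C T hW (1 - E) _ k3) (-ε))
    rw [r2, r4, conjTranspose_zero, Hm.mul_zero, neg_zero, zero_add, neg_smul, eps_eps,
      conjTranspose_neg (1 - E).toCols₁, Hm.mul_neg, neg_neg, conjTranspose_mul,
      conjTranspose_conjTranspose] at a1
    rwa [OEx_hyp]

theorem OEx_bd_pad (D : TC Γ V) (T : TU ρ D J J') (T' : TU ρ D κ κ')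
    (Y : (LG ρ V).Hom (J + J) I) : OEx_pd κ Y * D.bd (T.sum T') W (fromCols P 0) (fromCols Q 0) =
      dsum (Y * D.bd T W P Q) 0 := by
  rw [TC.bd, TC.bd, OEx_mp_cols, OEx_mp_cols, OEx_cols_dg', Hm.zero_mul, OEx_pd_mul]
  obtain ⟨y, z, rfl⟩ := exists_rows Y
  rw [fromRows_mul_fromCols, fromRows_mul_fromCols, ← fromBlocks_zero (I := κ) (J := κ) (K := κ)
    (L := κ), dsum_blocks]
  refine ext_cols (ext_cols ?_ ?_) (ext_cols ?_ ?_) <;> simp [OEx_pd]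

theorem OEx_E_pad {R R' : Setoid (V × V)} (f : AH R' R) (M : (LC ρ R).Hom (J + J) (J + J)) :
    fromBlocks 1 0 0 0 + rs f (dsum M (0 : (LC ρ R).Hom (κ + κ) (κ + κ))) =
      dsum (fromBlocks 1 0 0 0 + rs f M) (fromBlocks 1 0 0 0) := by
  obtain ⟨a, b, c, d, rfl⟩ := exists_blocks M
  rw [← fromBlocks_zero (I := κ) (J := κ) (K := κ) (L := κ), dsum_blocks, rs_blocks, rs_blocks,
    rs_blocks, rs_blocks, rs_blocks, rs_blocks, fromBlocks_add, fromBlocks_add, dsum_blocks,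
    ← fromBlocks_one (I := J) (J := κ), fromBlocks_add]
  simp [rs_zero]

theorem TC.exists_ef {C : TC Γ V} {T : TU ρ C J J'} (hA : C.Sw ρ) (hW : Uni (-ε) W)
    (hs : IsUnit (C.sys T ε W θ P Q)) :
    ∃ (κ κ' : LOb X (V × V)) (T' : TU ρ C κ κ') (U : (LA ρ V).Hom ((J + κ) + (J + κ)) ((J + κ) + (J + κ))),
      C.EF (T.sum T') ε W θ (fromCols P 0) (fromCols Q 0) U := by
  obtain ⟨E, Y, h0, h1, h2, -⟩ := C.exists_idem T hW hs
  obtain ⟨F, hF⟩ := hA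
  obtain ⟨κ, hκ, f1, f2⟩ := padF_pd F C.Gd C.gd_zero (fun _ _ => TC.Gd.add C) hF T.gd h0
  have T' := TU.src ρ hκ
  have hs' : IsUnit (C.sys (T.sum T') ε W θ (fromCols P 0) (fromCols Q 0)) := by
    rwa [OEx_sys_pad]
  obtain ⟨E', Y', -, k1, k2, k3, k4, k5⟩ := C.exists_idem _ hW hs'
  have e1 : Y' = OEx_pd κ Y := by
    obtain ⟨u, hu⟩ := hs
    have m1 : C.sys T ε W θ P Q * u.inv = 1 := hu ▸ u.val_inv
    rw [OEx_sys_pad, OEx_sig_pad, ← h1, ← OEx_pd_mul] at k1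
    rw [← Hm.mul_one Y', ← m1, ← Hm.mul_assoc, k1, Hm.mul_assoc, m1, Hm.mul_one]
  have e2 : E' = dsum E (fromBlocks 1 0 0 0) := by
    rw [k2, e1, OEx_bd_pad, OEx_E_pad, ← h2]
  rw [← e2] at f1 f2
  obtain ⟨U, u0, u1, u2⟩ := exists_frame f1 f2 k4 k5
  exact ⟨κ, _, T', U, OEx_frame C _ k1 k2 k3 u0 u1 u2⟩

end Pool.Agent.Work.MP_9d1ffa_al.Ct.Rl
end

-- merged part: Pool.Agent.Work.MP_9d1ffa_al.Rt.LIns
section
/-! Linear representatives of Witt classes; changing the edge frame by elementary isometries. -/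

namespace Pool.Agent.Work.MP_9d1ffa_al.Ct.Rl

set_option linter.unusedSectionVars false
set_option linter.unusedVariables false
set_option linter.unusedSimpArgs false

open MonoidAlgebra

variable {X Γ V : Type} [Group Γ] [MulAction Γ V] {ε : ℤˣ} {ρ : Γ →* Equiv.Perm X}
  {I J J' K L M N κ κ' : LOb X (V × V)}
  {C : TC Γ V} {T : TU ρ C J J'}
  {x : L0 (LG ρ V) ε} {U : (LA ρ V).Hom (J + J) (J + J)}

theorem CIn0_ef {θ : (LV ρ V).Hom I I}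
    {P : (LV ρ V).Hom I J} {Q : (LV ρ V).Hom I J'} : C.EF T ε 1 θ P Q U ↔ Uni (-ε) U ∧ ∃ Y : (LG ρ V).Hom (J + J) I,
      Y * sy ε (C.lin T θ P Q) = -(mp C.ah U.toCols₁ * T.T * (mp C.vh Q).ct) +
        (ε : ℤ) • (mp C.ah U.toCols₂ * (mp C.vh P).ct) ∧ C.Side Y ∧
      C.Side ((Y * mp C.vh P + mp C.ah U.toCols₁) * T.T) ∧
      C.Side (Y * mp C.vh Q * T.T.ct - mp C.ah U.toCols₂) := by
  have e1 : (1 : (LV ρ V).Hom (I + I) (I + I)).toBlocks₁₁ = 1 := by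
    rw [← fromBlocks_one, toBlocks_fromBlocks₁₁]
  have e2 : mp C.ah U * C.sig T ε P Q = -(mp C.ah U.toCols₁ * T.T * (mp C.vh Q).ct) +
      (ε : ℤ) • (mp C.ah U.toCols₂ * (mp C.vh P).ct) := by
    conv_lhs => rw [← fromCols_toCols U, mp_fromCols, TC.sig, fromCols_mul_fromRows]
    rw [Hm.mul_neg, Hm.mul_smul, Hm.mul_assoc]
  rw [TC.EF, TC.sys_one, e1, Hm.one_mul, Hm.one_mul, e2]

theorem CIn0_col (U : (LA ρ V).Hom (J + J) (J + J)) (a b c d : (LA ρ V).Hom J J) :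
    U * fromBlocks a b c d =
      fromCols (U.toCols₁ * a + U.toCols₂ * c) (U.toCols₁ * b + U.toCols₂ * d) := by
  conv_lhs => rw [← fromCols_toCols U, fromCols_mul_fromBlocks]

theorem TC.Rep.gl (h : C.Rep T ε x U) (g g' : (LA ρ V).Hom J J) (h1 : g * g' = 1)
    (h2 : g' * g = 1) : C.Rep T ε x (U * fromBlocks g 0 0 g'.ct) := by
  obtain ⟨I, θ, P, Q, hns, hef, hx⟩ := h
  obtain ⟨hU, Y, hY, s1, s2, s3⟩ := CIn0_ef.1 hef
  have a1 : mp C.ah g * (T.T * mp C.vh (C.jm T T g')) = T.T := by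
    rw [← Hm.mul_assoc, C.mp_va_dg T T, Hm.mul_assoc, ← mp_mul, ← C.jm_mul, h1, C.jm_one,
      mp_one, Hm.mul_one]
  have a2 : (mp C.vh (Q * (C.jm T T g').ct)).ct = mp C.vh (C.jm T T g') * (mp C.vh Q).ct := by
    rw [mp_mul, mp_ct, conjTranspose_mul, conjTranspose_conjTranspose]
  have a3 : mp C.vh (P * mp C.ih g) = mp C.vh P * mp C.ah g := by rw [mp_mul, C.mp_va]
  have e : C.lin T θ (P * mp C.ih g) (Q * (C.jm T T g').ct) = C.lin T θ P Q := by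
    rw [TC.lin, TC.lin, a2, a3, Hm.mul_assoc, Hm.mul_assoc, ← Hm.mul_assoc T.T,
      ← Hm.mul_assoc (mp C.ah g), a1, Hm.mul_assoc]
  refine ⟨I, θ, P * mp C.ih g, Q * (C.jm T T g').ct, e ▸ hns,
    CIn0_ef.2 ⟨hU.mul (GenU.gl g g' h1 h2).uni, Y, ?_, s1, ?_, ?_⟩, e ▸ hx⟩
  all_goals rw [CIn0_col]
  all_goals simp only [toCols₁_fromCols, toCols₂_fromCols, Hm.mul_zero, add_zero, zero_add]
  · have b : (mp C.ah g').ct * ((mp C.ah g).ct * (mp C.vh P).ct) = (mp C.vh P).ct := by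
      rw [← Hm.mul_assoc, ← conjTranspose_mul, ← mp_mul, h1, mp_one, conjTranspose_one,
        Hm.one_mul]
    have b' : mp C.ah g * (T.T * (mp C.vh (C.jm T T g') * (mp C.vh Q).ct)) =
        T.T * (mp C.vh Q).ct := by
      rw [← Hm.mul_assoc T.T, ← Hm.mul_assoc, a1]
    rw [e, hY, a2, a3]
    simp only [mp_mul, mp_ct, conjTranspose_mul, Hm.mul_assoc, b, b']
  · have := s2.mul_v (C.jm T T g)
    rwa [Hm.mul_assoc, ← C.mp_va_dg T T, ← Hm.mul_assoc, Hm.add_mul, ← mp_mul,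
      Hm.mul_assoc Y, ← a3] at this
  · have := s3.mul_v (mp C.ih g'.ct)
    have b : T.T.ct * mp C.ah g'.ct = mp C.vh (C.jm T T g').ct * T.T.ct := by
      rw [mp_ct, mp_ct, ← conjTranspose_mul, ← conjTranspose_mul, C.mp_va_dg T T]
    rwa [← C.mp_va, Hm.sub_mul, ← mp_mul, Hm.mul_assoc _ T.T.ct, b,
      ← Hm.mul_assoc, Hm.mul_assoc Y, ← mp_mul] at this

theorem TC.Rep.sh (h : C.Rep T ε x U) (χ : (LA ρ V).Hom J J) :
    C.Rep T ε x (U * fromBlocks 1 (sy ε χ) 0 1) := by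
  obtain ⟨I, θ, P, Q, hns, hef, hx⟩ := h
  obtain ⟨hU, Y, hY, s1, s2, s3⟩ := CIn0_ef.1 hef
  have hT : T.T * T.T.ct = 1 := T.u1
  have hc := C.mp_va_dg T T χ
  have hc' : (mp C.ah χ).ct * T.T = T.T * (mp C.vh (C.jm T T χ)).ct := by
    rw [← mp_ct, ← mp_ct, ← C.jm_ct, C.mp_va_dg T T]
  have p1 : mp C.vh (fromRows P (0 : (LV ρ V).Hom (J' + J') J)) = fromRows (mp C.vh P) 0 := by
    rw [mp_fromRows, mp_zero]
  have q1 : mp C.vh (fromRows (0 : (LV ρ V).Hom I J') (fromRows (1 : (LV ρ V).Hom J' J')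
      (0 : (LV ρ V).Hom J' J'))) = fromRows 0 (fromRows 1 0) := by
    rw [mp_fromRows, mp_fromRows, mp_zero, mp_zero, mp_one]
  have e : C.lin T (fromBlocks (θ - (ε : ℤ) • (P * mp C.ih χ * P.ct)) (fromCols 0 Q) 0
      (CIn0k ε (C.jm T T χ))) (fromRows P 0) (fromRows 0 (fromRows 1 0)) =
      CIn0f ε (mp C.vh θ) (mp C.vh P) (mp C.vh Q) T.T (mp C.ah χ) (mp C.vh (C.jm T T χ)) := by
    rw [TC.lin, p1, q1, fromRows_mul, conjTranspose_fromRows_eq_fromCols_conjTranspose,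
      conjTranspose_fromRows_eq_fromCols_conjTranspose, fromRows_mul_fromCols, mp_blocks,
      fromBlocks_add, CIn0f, CIn0k, CIn0k]
    simp only [mp_sub, mp_zsmul, mp_mul, mp_ct, mp_fromCols, mp_zero, mp_blocks, mp_neg, mp_one,
      conjTranspose_zero, conjTranspose_one, Hm.mul_zero, Hm.zero_mul, add_zero,
      mul_fromCols, Hm.mul_one, fromCols_add, zero_add, ← C.mp_va]
  have iso : Iso ε (fromBlocks (C.lin T θ P Q) 0 0 _) _ :=
    CIn0_iso (ε := ε) (mp C.vh θ) (mp C.vh P) (mp C.vh Q) hT hc hc'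
  have zk := CIn0_zk (ε := ε) (mp C.vh (C.jm T T χ))
  refine ⟨I + (J' + J'), _, _, _, e ▸ NS.iso iso (hns.sum zk.ns),
    CIn0_ef.2 ⟨hU.mul (genU_sy ε χ).uni, fromCols Y (fromCols (Y * mp C.vh Q +
      (Y * mp C.vh P + mp C.ah U.toCols₁) * T.T * sy ε (mp C.vh (C.jm T T χ)))
      ((ε : ℤ) • ((Y * mp C.vh P + mp C.ah U.toCols₁) * T.T))), ?_, ?_, ?_, ?_⟩, ?_⟩
  · rw [e, CIn0_eq _ _ _ hT hc hc' hY, CIn0_col, p1, q1,
      conjTranspose_fromRows_eq_fromCols_conjTranspose,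
      conjTranspose_fromRows_eq_fromCols_conjTranspose,
      conjTranspose_fromRows_eq_fromCols_conjTranspose]
    simp only [toCols₁_fromCols, toCols₂_fromCols, Hm.mul_zero, add_zero, zero_add,
      Hm.mul_one, conjTranspose_zero, conjTranspose_one, mul_fromCols, fromCols_neg, neg_zero,
      fromCols_smul, smul_zero, fromCols_add, mp_add, mp_mul, mp_sy]
  · refine TC.side_fromCols.2 ⟨s1, TC.side_fromCols.2 ⟨(s1.mul_v Q).add ?_, s2.zsmul _⟩⟩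
    rw [← mp_sy]
    exact s2.mul_v _
  · rw [CIn0_col, p1, fromCols_mul_fromRows]
    simpa only [toCols₁_fromCols, Hm.mul_zero, add_zero, Hm.mul_one] using s2
  · have hs : T.T * (sy ε (mp C.vh (C.jm T T χ)) * T.T.ct) = sy ε (mp C.ah χ) := by
      rw [← Hm.mul_assoc, ← mp_sy, ← mp_sy, ← C.jm_sy, ← C.mp_va_dg T T, Hm.mul_assoc, T.u1,
        Hm.mul_one]
    have := s3.add (s1.mul_v (P * mp C.ih (sy ε χ)))
    rw [CIn0_col, q1, fromCols_mul_fromRows, fromCols_mul_fromRows]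
    convert this using 1
    simp only [toCols₂_fromCols, Hm.mul_zero, add_zero, zero_add, Hm.mul_one, mp_add,
      mp_mul, ← C.mp_va, mp_sy, Hm.add_mul, Hm.mul_assoc, hs]
    abel
  · rw [e, ← cls_iso iso, cls_sum hns zk.ns, (cls_eq_zero zk.ns).2 zk, add_zero, hx]

theorem CIns_rel (T : TU ρ C J J') (τ : TU ρ C κ κ') (s : (LA ρ V).Hom κ J)
    (hs : s * s.ct = 1) :
    CIns_Rel T.T T.T.ct τ.T τ.T.ct (mp C.ah s) (mp C.vh (C.jm τ T s)) where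
  t1 := T.u1
  t2 := T.u2
  s1 := τ.u1
  s2 := τ.u2
  tc := rfl
  sc := rfl
  ab := C.mp_va_dg τ T s
  bb := by rw [← mp_ct, ← TC.jm_ct, ← mp_mul, ← TC.jm_mul, hs, TC.jm_one, mp_one]

theorem TC.Rep.sw (h : C.Rep T ε x U) (s : (LA ρ V).Hom κ J) (hs : s * s.ct = 1) :
    C.Rep T ε x (U * fromBlocks (1 - s.ct * s) (s.ct * s) (((-ε : ℤˣ) : ℤ) • (s.ct * s))
      (1 - s.ct * s)) := by
  obtain ⟨I, θ, P, Q, h1, ⟨h2, Y, y1, y2, y3, y4⟩, h3⟩ := h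
  obtain ⟨κ', ⟨τ⟩⟩ : ∃ κ', Nonempty (TU ρ C κ κ') := ⟨_, ⟨TU.src ρ (C.gd_of_iso T.gd hs)⟩⟩
  have r := CIns_rel T τ s hs
  obtain ⟨U₁, U₂, rfl⟩ : ∃ U₁ U₂, U = fromCols U₁ U₂ := ⟨_, _, (fromCols_toCols U).symm⟩
  rw [CIns_one, Hm.one_mul, toCols₁_fromCols] at y3
  rw [CIns_one, Hm.one_mul, toCols₂_fromCols] at y4
  rw [TC.sys_one, TC.lin, TC.sig, mp_fromCols] at y1
  have eP : mp C.vh (fromRows (P * mp C.ih (1 - s.ct * s)) (fromRows (mp C.ih s) 0)) =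
      fromRows (mp C.vh P * (1 - (mp C.ah s).ct * mp C.ah s))
        (fromRows (mp C.ah s) (0 : (LG ρ V).Hom κ' J)) := by
    rw [mp_fromRows, mp_fromRows, mp_mul, mp_zero, ← C.mp_va, ← C.mp_va, mp_sub, mp_one, mp_mul,
      mp_ct]
  have eQ : mp C.vh (fromRows (Q * C.jm T T (1 - s.ct * s)) (fromRows 0 (C.jm τ T s))) =
      fromRows (mp C.vh Q * (1 - (mp C.vh (C.jm τ T s)).ct * mp C.vh (C.jm τ T s)))
        (fromRows (0 : (LG ρ V).Hom κ J') (mp C.vh (C.jm τ T s))) := by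
    rw [TC.jm_sub, TC.jm_one, C.jm_mul T τ T, TC.jm_ct]
    simp only [mp_fromRows, mp_mul, mp_zero, mp_sub, mp_one, mp_ct]
  have eL : C.lin T (fromBlocks θ (fromCols (-((ε : ℤ) • (P * (mp C.ih s).ct)))
      ((ε : ℤ) • (Q * (C.jm τ T s).ct))) 0 0)
      (fromRows (P * mp C.ih (1 - s.ct * s)) (fromRows (mp C.ih s) 0))
      (fromRows (Q * C.jm T T (1 - s.ct * s)) (fromRows 0 (C.jm τ T s))) =
      fromBlocks (mp C.vh θ + mp C.vh P * T.T *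
          (1 - (mp C.vh (C.jm τ T s)).ct * mp C.vh (C.jm τ T s)) * (mp C.vh Q).ct)
        (fromCols (-((ε : ℤ) • (mp C.vh P * (mp C.ah s).ct)))
          ((ε : ℤ) • (mp C.vh Q * (mp C.vh (C.jm τ T s)).ct))) 0 (fromBlocks 0 τ.T 0 0) := by
    rw [TC.lin, eP, eQ, mp_blocks, mp_zero, mp_zero, CIns_lin r, mp_fromCols, mp_neg, mp_zsmul,
      mp_zsmul, mp_mul, mp_mul, mp_ct, mp_ct, ← C.mp_va]
  have hi := CIns_iso (ε := ε) r (mp C.vh θ) (mp C.vh P) (mp C.vh Q)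
  have hz := CIns_z (ε := ε) r
  have eU : mp C.ah (U₁ * (1 - s.ct * s) - (ε : ℤ) • (U₂ * (s.ct * s))) =
      mp C.ah U₁ * (1 - (mp C.ah s).ct * mp C.ah s) -
        (ε : ℤ) • (mp C.ah U₂ * ((mp C.ah s).ct * mp C.ah s)) := by
    simp only [mp_mul, mp_sub, mp_one, mp_ct, mp_zsmul]
  have eU' : mp C.ah (U₁ * (s.ct * s) + U₂ * (1 - s.ct * s)) =
      mp C.ah U₁ * ((mp C.ah s).ct * mp C.ah s) + mp C.ah U₂ * (1 - (mp C.ah s).ct * mp C.ah s) := by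
    simp only [mp_mul, mp_sub, mp_add, mp_one, mp_ct]
  have sa : ∀ {K : LOb X (V × V)} {W : (LG ρ V).Hom (J + J) J},
      C.Side W → ∀ B : (LA ρ V).Hom J K, C.Side (W * mp C.ah B) := fun hX B => by
    rw [C.mp_va]
    exact hX.mul_v _
  refine ⟨I + (κ + κ'),
    fromBlocks θ (fromCols (-((ε : ℤ) • (P * (mp C.ih s).ct))) ((ε : ℤ) • (Q * (C.jm τ T s).ct))) 0 0,
    fromRows (P * mp C.ih (1 - s.ct * s)) (fromRows (mp C.ih s) 0),
    fromRows (Q * C.jm T T (1 - s.ct * s)) (fromRows 0 (C.jm τ T s)), ?_,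
    ⟨h2.mul (GenU.sw κ s hs).uni,
      fromCols Y (fromCols
        (-((ε : ℤ) • ((Y * mp C.vh Q * T.T.ct - mp C.ah U₂) * (mp C.ah s).ct)))
        ((Y * mp C.vh P + mp C.ah U₁) * T.T * (mp C.vh (C.jm τ T s)).ct)), ?_, ?_, ?_, ?_⟩, ?_⟩
  · rw [eL]
    exact NS.iso hi (h1.sum hz.ns)
  · rw [TC.sys_one, eL, TC.sig, eP, eQ, CIns_frame, mp_fromCols, eU, eU']
    exact CIns_sys r _ _ _ _ _ _ y1
  · refine TC.side_fromCols.2 ⟨y2, TC.side_fromCols.2 ⟨?_, ?_⟩⟩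
    · rw [← mp_ct]
      exact ((sa y4 _).zsmul _).neg
    · rw [← mp_ct]
      exact y3.mul_v _
  · rw [CIns_one, Hm.one_mul, eP, CIns_frame, toCols₁_fromCols, eU, CIns_third r]
    refine TC.Side.add ?_ (TC.Side.zsmul ?_ _).neg
    · have := y3.mul_v (1 - (C.jm τ T s).ct * C.jm τ T s)
      rwa [mp_sub, mp_one, mp_mul, mp_ct] at this
    · have := y2.mul_v (Q * ((C.jm τ T s).ct * C.jm τ T s))
      rwa [mp_mul, mp_mul, mp_ct] at this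
  · rw [CIns_one, Hm.one_mul, eQ, CIns_frame, toCols₂_fromCols, eU', CIns_fourth r]
    refine TC.Side.add ?_ ?_
    · have := sa y4 (1 - s.ct * s)
      rwa [mp_sub, mp_one, mp_mul, mp_ct] at this
    · have := y2.mul_v (P * ((mp C.ih s).ct * mp C.ih s))
      rwa [mp_mul, mp_mul, mp_ct, ← C.mp_va] at this
  · rw [eL, ← cls_iso hi, ← h3]
    exact (cls_sum h1 hz.ns).trans (by rw [(cls_eq_zero hz.ns).2 hz, add_zero])

theorem TC.Rep.mem (h : C.Rep T ε x U) {r : (LA ρ V).Hom (J + J) (J + J)}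
    (hr : r ∈ RU (LA ρ V) (-ε) J) : C.Rep T ε x (U * r) := by
  induction hr using Submonoid.closure_induction_right with
  | one => rwa [Hm.mul_one]
  | mul_right a ha b hb ih =>
    rw [← Hm.mul_assoc]
    cases hb with
    | gl g g' h1 h2 => exact ih.gl g g' h1 h2
    | sh χ =>
      have := ih.sh χ
      rwa [sy, ← sub_neg_eq_add, ← neg_smul, ← Units.val_neg] at this
    | sw κ s hs => exact ih.sw s hs

theorem TC.Rep.pad (h : C.Rep T ε x U) (T' : TU ρ C κ κ') :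
    C.Rep (T.sum T') ε x (dsum U (1 : (LA ρ V).Hom (κ + κ) (κ + κ))) := by
  obtain ⟨I, θ, P, Q, h1, h2, h3⟩ := h
  exact ⟨I, θ, fromCols P 0, fromCols Q 0, by rwa [TC.lin_pad], h2.pad T', by rwa [TC.lin_pad]⟩

theorem TC.Rep.norm (h : C.Rep T ε x U) (hA : C.Sw ρ) :
    ∃ (L L' : LOb X (V × V)) (T' : TU ρ C L L'), C.Rep T' ε x (1 : (LA ρ V).Hom (L + L) (L + L)) := by
  obtain ⟨F, hF⟩ := hA
  have hU : Uni (-ε) U := by
    obtain ⟨_, _, _, _, _, h, _⟩ := h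
    exact h.1
  obtain ⟨κ, hκ, hm⟩ := nul_pd F C.Gd C.gd_zero (fun _ _ => TC.Gd.add C) hF T.gd hU
  obtain ⟨V, -, h1, -⟩ := (Uni.of_mem hm).inv
  exact ⟨J + κ, _, _, h1 ▸ (h.pad (TU.src ρ hκ)).mem (ru_inv hm h1)⟩

end Pool.Agent.Work.MP_9d1ffa_al.Ct.Rl
end
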