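import Pool.Agent.Work.MP_9d1ffa_al.Ct.BFn

/-! The Eilenberg swindle towards points that depend on the basis element.  Generalises
`Ct/BSw.lean` (copy the proofs of `swO`, `swU`, `ctl_swM`, `swF`; in `ctl_swN` the point `φ' j` is moved by `g` to
`φ i`, `Finsupp.mapDomain_single`, `mapDomain_add`, `mapDomain_smul`).  `z_fix`: restrict to the subgroup `H` of
the elements that fix `y` (`AH.of ρ H.subtype`, `Sup.mp_rs`, `rs_mul_mp`, `rs_mp_mul`, `rs_one`, `Z.mp`). -/

namespace Pool.Agent.Work.MP_9d1ffa_al.Ct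

open MonoidAlgebra

set_option linter.unusedSectionVars false
set_option linter.unusedVariables false

variable {X G : Type} [Group G] {ρ : G →* Equiv.Perm X} {ε : ℤˣ}

theorem RS_pos (z y : X) : 0 ≤ Finsupp.single z (1 : ℝ) y := by
  classical
  rw [Finsupp.single_apply]
  split_ifs
  exacts [zero_le_one, le_rfl]

theorem RS_two {μ : X →₀ ℝ} (h : l1 μ = 1) (z : X) : l1 (μ - Finsupp.single z 1) ≤ 2 := by
  rw [sub_eq_add_neg]
  refine (l1_add_le _ _).trans ?_
  rw [l1_neg, h, l1_single]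
  norm_num

theorem RS_two' {μ ν : X →₀ ℝ} (h : l1 μ = 1) (h' : l1 ν = 1) : l1 (μ - ν) ≤ 2 := by
  rw [sub_eq_add_neg]
  refine (l1_add_le _ _).trans ?_
  rw [l1_neg, h, h']
  norm_num

/-- the sum of all shifts of an object, moved slowly to the points `φ i` -/
noncomputable def swP (a : Ob X) (φ : a.I → X) (h : (Set.range φ).Finite) : Ob X where
  I := a.I × ℕ
  t p := a.t p.1 + p.2
  x p := BSw_w (a.t p.1) p.2 • a.x p.1 + (1 - BSw_w (a.t p.1) p.2) • Finsupp.single (φ p.1) 1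
  fin := (swO id a).fin
  pos p y := add_nonneg (mul_nonneg (BSw_w0 _ _) (a.pos _ y))
    (mul_nonneg (sub_nonneg.2 (BSw_w1 _ _)) (RS_pos _ y))
  tot p := by
    rw [l1_add_pos (fun y => mul_nonneg (BSw_w0 _ _) (a.pos _ y))
      fun y => mul_nonneg (sub_nonneg.2 (BSw_w1 _ _)) (RS_pos _ y), l1_smul,
      l1_smul, l1_single, a.tot, abs_of_nonneg (BSw_w0 _ _),
      abs_of_nonneg (sub_nonneg.2 (BSw_w1 _ _)), abs_one]
    ring
  cpt := by
    classical
    obtain ⟨F, hF⟩ := a.cpt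
    refine ⟨F ∪ h.toFinset, fun p y hy => Finset.mem_union.2 ?_⟩
    rcases Finset.mem_union.1 (Finsupp.support_add hy) with k | k
    · exact Or.inl (hF _ y (Finsupp.support_smul k))
    · have := Finset.mem_singleton.1 (Finsupp.support_single_subset (Finsupp.support_smul k))
      exact Or.inr (h.mem_toFinset.2 ⟨p.1, this.symm⟩)

theorem ctl_swE (ρ : G →* Equiv.Perm X) (a : Ob X) (φ : a.I → X) (h : (Set.range φ).Finite) :
    Ctl ρ (swP a φ h) (a + swP a φ h) (pmM swE fun _ => 1) := by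
  refine ctl_pmM (a := swP a φ h) (b := a + swP a φ h) swE _
    ⟨{1}, fun _ => Finset.mem_singleton_self _⟩ ⟨1, ?_⟩ fun δ hδ => ?_
  · rintro ⟨i, _ | n⟩
    · exact ⟨show a.t i + 0 ≤ a.t i + 1 by omega, show a.t i ≤ a.t i + 0 + 1 by omega⟩
    · exact ⟨show a.t i + (n + 1) ≤ a.t i + n + 1 by omega,
        show a.t i + n ≤ a.t i + (n + 1) + 1 by omega⟩
  · obtain ⟨N, hN⟩ := BSw_small 2 hδ
    refine ⟨N, ?_⟩
    rintro ⟨i, _ | n⟩ hi <;> rw [mapDomain_rho_one]
    · have : (swP a φ h).x (i, 0) = a.x i := by simp [swP, BSw_wz]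
      rw [this]
      change l1 (a.x i - a.x i) ≤ δ
      rw [sub_self, l1_zero]
      exact hδ.le
    · have e : (swP a φ h).x (i, n + 1) - (swP a φ h).x (i, n) =
          (BSw_w (a.t i) (n + 1) - BSw_w (a.t i) n) • (a.x i - Finsupp.single (φ i) 1) := by
        simp only [swP]
        module
      change l1 ((swP a φ h).x (i, n + 1) - (swP a φ h).x (i, n)) ≤ δ
      rw [e, l1_smul]
      refine le_trans ?_ (hN (a.t i) (n + 1) hi)
      exact (mul_le_mul (BSw_step _ _) (RS_two (a.tot i) _) (l1_nonneg _)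
        (by positivity)).trans_eq (by ring)

theorem ctl_swN {a b : Ob X} {φ : a.I → X} {φ' : b.I → X} (h : (Set.range φ).Finite)
    (h' : (Set.range φ').Finite) {A : Matrix a.I b.I (ZG G)} (hA : Ctl ρ a b A)
    (e : ∀ i j g, (A i j).coeff g ≠ 0 → φ i = ρ g (φ' j)) :
    Ctl ρ (swP a φ h) (swP b φ' h') (swM A) := by
  obtain ⟨⟨S, h1⟩, ⟨c, h2⟩, h3⟩ := hA
  refine ⟨⟨S, fun p q g e => h1 _ _ g (BSw_ne e).2⟩, ⟨c, fun p q e => ?_⟩, fun δ hδ => ?_⟩
  · obtain ⟨g, hg⟩ := CA_ne.1 e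
    have := h2 _ _ (CA_ne.2 ⟨g, (BSw_ne hg).2⟩)
    have := (BSw_ne hg).1
    simp only [swP]
    omega
  · obtain ⟨n₀, hn⟩ := h3 (δ / 3) (by positivity)
    obtain ⟨N, hN⟩ := BSw_small (2 * n₀ + 2 * c) (δ := δ / 3) (by positivity)
    refine ⟨N, ?_⟩
    rintro ⟨i, n⟩ ⟨j, m⟩ g hi e0
    obtain ⟨rfl, e'⟩ : n = m ∧ (A i j).coeff g ≠ 0 := BSw_ne e0
    have hc := h2 _ _ (CA_ne.2 ⟨g, e'⟩)
    have k1 := hN (a.t i) n hi
    have k2 := BSw_diff n hc.1 hc.2
    have t1 : l1 ((b.x j).mapDomain (ρ g)) = 1 := (l1_mapDomain_perm _ _).trans (b.tot j)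
    have e1 : (swP a φ h).x (i, n) - ((swP b φ' h').x (j, n)).mapDomain (ρ g) =
        BSw_w (a.t i) n • (a.x i - (b.x j).mapDomain (ρ g)) +
          (BSw_w (a.t i) n - BSw_w (b.t j) n) •
            ((b.x j).mapDomain (ρ g) - Finsupp.single (φ i) 1) := by
      simp only [swP, Finsupp.mapDomain_add, Finsupp.mapDomain_smul, Finsupp.mapDomain_single,
        ← e i j g e']
      module
    have k3 : BSw_w (a.t i) n * l1 (a.x i - (b.x j).mapDomain (ρ g)) ≤
        δ / 3 + 2 * n₀ / ((a.t i : ℝ) + n + 1) := by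
      by_cases ht : n₀ ≤ a.t i
      · have k4 := mul_le_mul (BSw_w1 (a.t i) n) (hn i j g ht e') (l1_nonneg _) zero_le_one
        have : (0 : ℝ) ≤ 2 * n₀ / ((a.t i : ℝ) + n + 1) := by positivity
        linarith
      · have k4 : BSw_w (a.t i) n ≤ n₀ / ((a.t i : ℝ) + n + 1) := by
          have : (a.t i : ℝ) + 1 ≤ n₀ := by exact_mod_cast not_le.1 ht
          unfold BSw_w
          gcongr
        have k5 := mul_le_mul k4 (RS_two' (a.tot i) t1) (l1_nonneg _) (by positivity)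
        have : 2 * (n₀ : ℝ) / ((a.t i : ℝ) + n + 1) = n₀ / ((a.t i : ℝ) + n + 1) * 2 := by ring
        linarith
    have k6 := mul_le_mul k2 (RS_two t1 (φ i)) (l1_nonneg _) (by positivity)
    rw [e1]
    refine (l1_add_le _ _).trans ?_
    rw [l1_smul, l1_smul, abs_of_nonneg (BSw_w0 _ _)]
    have : (2 * (n₀ : ℝ) + 2 * c) / ((a.t i : ℝ) + n + 1) =
      2 * n₀ / ((a.t i : ℝ) + n + 1) + c / ((a.t i : ℝ) + n + 1) * 2 := by ring
    linarith

theorem flq_fix (y : X) (h : ∀ g, ρ g y = y) : Nonempty (Flq (OC ρ)) := by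
  have hf : ∀ a : Ob X, (Set.range fun _ : a.I => y).Finite := fun a =>
    (Set.finite_singleton y).subset Set.range_const_subset
  exact ⟨{
    S :=
      { ob := fun a => swP a (fun _ => y) (hf a)
        map := fun A => mk (swM (val A))
          (ctl_swN (hf _) (hf _) (val_ctl A) fun _ _ g _ => (h g).symm)
        map_add := fun A B => val_inj (swM_add _ _)
        map_mul := fun A B => val_inj (swM_cmul _ _)
        map_one := fun a => val_inj (@swM_one G _ a.I (fun _ _ => Classical.propDecidable _)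
          fun _ _ => Classical.propDecidable _)
        map_ct := fun A => val_inj (by
          funext p q
          by_cases e : p.2 = q.2
          · simp [val_ct, swM, e]
          · simp [val_ct, swM, e, Ne.symm e]) }
    u := fun a => mk (pmM swE fun _ => 1) (ctl_swE ρ a _ (hf a))
    unt := fun a =>
      ⟨val_inj (@pmM_mul_ct _ _ _ _ (fun _ _ => Classical.propDecidable _) _ swE_bij.1 _),
        val_inj (@pmM_ct_mul _ _ _ _ (fun _ _ => Classical.propDecidable _) _ swE_bij _)⟩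
    nat := fun {a b} A => val_inj (by
      funext p q
      obtain ⟨q, rfl⟩ := swE_bij.2 q
      rw [val_mul, val_mul, val_fromBlocks]
      refine (pmM_cmul _ _ _ _ _).trans (Eq.trans ?_ (cmul_pmM swE_bij.1 _ _ _ _).symm)
      rw [CB_one, one_mul, mul_one]
      exact swM_nat _ p q) }⟩

/-- a form that only involves elements with a common fixed point -/
theorem z_fix {I : Ob X} {ψ : (OC ρ).Hom I I} (y : X) (hψ : Sup (fun g => ρ g y = y) ψ)
    (h : NS ε ψ) : Z ε ψ := by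
  obtain ⟨H, hH⟩ : ∃ H : Subgroup G, ∀ g, g ∈ H ↔ ρ g y = y :=
    ⟨(MulAction.stabilizer (Equiv.Perm X) y).comap ρ, fun _ => Iff.rfl⟩
  obtain ⟨F⟩ := flq_fix (ρ := ρ.comp H.subtype) y fun g => (hH g).1 g.2
  obtain ⟨μ, -, h2⟩ := h.inv
  have hf : Function.Injective (AH.of ρ H.subtype).f := H.subtype_injective
  have e1 : mp (AH.of ρ H.subtype) (rs (AH.of ρ H.subtype) hf ψ) = ψ :=
    (hψ.mono fun g k => ⟨⟨g, (hH g).2 k⟩, rfl⟩).mp_rs
  rw [← e1] at h2 ⊢
  refine (F.van0 ε _ _ (ns_of_left (C := rs (AH.of ρ H.subtype) hf μ) ?_)).mp _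
  rw [← rs_mul_mp, mp_sy, h2, rs_one]

end Pool.Agent.Work.MP_9d1ffa_al.Ct
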