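import Pool.Agent.Work.MP_9d1ffa_al.Rt.RO
import Pool.Agent.Work.MP_9d1ffa_al.Ct.CSp
import Pool.Agent.Work.MP_9d1ffa_al.Rt.RS
import Pool.Agent.Work.MP_9d1ffa_al.OK1

-- merged part: Pool.Agent.Work.MP_9d1ffa_al.Rt.RF
section
/-! A morphism factors through the set of its terms.  The basis of the middle object is the type of
triples `(i, j, g)` with `(val A i j).coeff g ≠ 0`; the object is `tw ρ I (fun x => x.1) (fun x => c (p i) (g • q j)) _ _`
(finite fibres: `val_fin` and finite supports; finite range of the group elements: `prs_finite`).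
The left factor has the entry `single (γ x) (coefficient)` at `(s x, x)` (it is supported like the adjoint of
`pmM s (γ⁻¹)`; use `Ctl.mono`), the right factor is `pmM t (fun x => (γ x)⁻¹ * g)`, controlled by
`ctl_pmM` and `l1_mapDomain_perm`, `mapDomain_rho_mul`.  Compare `UWit_fac` in `../UWit.lean`. -/

namespace Pool.Agent.Work.MP_9d1ffa_al.Ct.Ru

open MonoidAlgebra

set_option linter.unusedSectionVars false
set_option linter.unusedVariables false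

variable {X G P Q : Type} [Group G] [MulAction G P] [MulAction G Q] {ρ : G →* Equiv.Perm X}
  {I J : Ob X}

theorem exists_fac (A : (OC ρ).Hom I J) {p : I.I → P} {q : J.I → Q} (hp : (Set.range p).Finite)
    (hq : (Set.range q).Finite) (c : P → Q → G) :
    ∃ (L : Ob X) (s : L.I → I.I) (t : L.I → J.I) (γ : L.I → G) (u : (OC ρ).Hom I L)
      (v : (OC ρ).Hom L J), (∀ x, (val A (s x) (t x)).coeff (γ x) ≠ 0) ∧
      (∀ i x g, (val u i x).coeff g ≠ 0 → i = s x ∧ g = c (p (s x)) (γ x • q (t x))) ∧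
      (∀ x j g, (val v x j).coeff g ≠ 0 → j = t x ∧ g = (c (p (s x)) (γ x • q (t x)))⁻¹ * γ x) ∧
      u * v = A := by
  classical
  obtain ⟨⟨S, hS⟩, ⟨d, hd⟩, hδ⟩ := val_ctl A
  let ι := {x : I.I × J.I × G // (val A x.1 x.2.1).coeff x.2.2 ≠ 0}
  let cc : ι → G := fun x => c (p x.1.1) (x.1.2.2 • q x.1.2.1)
  have h1 : ∀ i, {x : ι | x.1.1 = i}.Finite := fun i => by
    refine Set.Finite.of_finite_image (f := fun x : ι => x.1.2)
      (((val_fin A i).prod S.finite_toSet).subset ?_) ?_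
    · rintro _ ⟨x, rfl, rfl⟩
      exact ⟨CA_ne.2 ⟨_, x.2⟩, hS _ _ _ x.2⟩
    · intro x hx y hy e
      exact Subtype.ext (Prod.ext (hx.trans hy.symm) e)
  have h2 : (Set.range cc).Finite :=
    ((prs_finite hp hq A).image fun t => c t.1 t.2).subset (by
      rintro _ ⟨x, rfl⟩
      exact ⟨_, ⟨_, _, _, x.2, rfl⟩, rfl⟩)
  let U : Matrix I.I ι (ZG G) := Matrix.of fun i x =>
    if i = x.1.1 then single (cc x) ((val A x.1.1 x.1.2.1).coeff x.1.2.2) else 0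
  have hU : ∀ i x g, (U i x).coeff g ≠ 0 → i = x.1.1 ∧ g = cc x := fun i x g e => by
    simp only [U, Matrix.of_apply] at e
    split_ifs at e with h
    · refine ⟨h, by_contra fun k => e ?_⟩
      rw [coeff_single, Finsupp.single_eq_of_ne k]
    · exact absurd rfl e
  have cU : Ctl ρ I (tw ρ I (fun x : ι => x.1.1) cc h1 h2) U := by
    refine ⟨⟨h2.toFinset, fun i x g e => h2.mem_toFinset.2 ⟨x, (hU i x g e).2.symm⟩⟩,
      ⟨0, fun i x e => ?_⟩, fun δ h => ⟨0, fun i x g _ e => ?_⟩⟩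
    · obtain ⟨g, e⟩ := CA_ne.1 e
      obtain ⟨rfl, -⟩ := hU i x g e
      exact ⟨le_rfl, le_rfl⟩
    · obtain ⟨rfl, rfl⟩ := hU i x g e
      change l1 (I.x x.1.1 - ((I.x x.1.1).mapDomain (ρ (cc x)⁻¹)).mapDomain (ρ (cc x))) ≤ δ
      rw [← mapDomain_rho_mul, mul_inv_cancel, mapDomain_rho_one, sub_self, l1_zero]
      exact h.le
  have cV : Ctl ρ (tw ρ I (fun x : ι => x.1.1) cc h1 h2) J
      (pmM (fun x : ι => x.1.2.1) fun x => (cc x)⁻¹ * x.1.2.2) := by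
    refine ctl_pmM (a := tw ρ I (fun x : ι => x.1.1) cc h1 h2) _ _
      ⟨(h2.toFinset ×ˢ S).image fun t => t.1⁻¹ * t.2, fun x => Finset.mem_image.2
        ⟨(cc x, x.1.2.2), Finset.mem_product.2 ⟨h2.mem_toFinset.2 ⟨x, rfl⟩, hS _ _ _ x.2⟩, rfl⟩⟩
      ⟨d, fun x => hd _ _ (CA_ne.2 ⟨_, x.2⟩)⟩ fun δ h => ?_
    obtain ⟨n, hn⟩ := hδ δ h
    refine ⟨n, fun x hx => ?_⟩
    change l1 ((I.x x.1.1).mapDomain (ρ (cc x)⁻¹) -
      (J.x x.1.2.1).mapDomain (ρ ((cc x)⁻¹ * x.1.2.2))) ≤ δ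
    rw [mapDomain_rho_mul, ← Finsupp.mapDomain_sub, l1_mapDomain_perm]
    exact hn _ _ _ hx x.2
  refine ⟨tw ρ I (fun x : ι => x.1.1) cc h1 h2, fun x => x.1.1, fun x => x.1.2.1, fun x => x.1.2.2,
    mk U cU, mk _ cV, fun x => x.2, hU, fun x j g e => ?_, val_inj ?_⟩
  · exact ⟨(CA_pm e).1.symm, (CA_pm e).2.symm⟩
  · funext i j
    have h3 : {x : ι | x.1.1 = i ∧ x.1.2.1 = j}.Finite := (h1 i).subset fun x hx => hx.1
    have k : cmul U (pmM (fun x : ι => x.1.2.1) fun x => (cc x)⁻¹ * x.1.2.2) i j =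
        ∑ x ∈ h3.toFinset, U i x * pmM (fun x : ι => x.1.2.1) (fun x => (cc x)⁻¹ * x.1.2.2) x j := by
      refine cmul_eq_sum _ _ i j _ fun x e => h3.mem_toFinset.2 ⟨?_, ?_⟩
      · obtain ⟨g, e⟩ := CA_ne.1 (left_ne_zero_of_mul e)
        exact (hU i x g e).1.symm
      · obtain ⟨g, e⟩ := CA_ne.1 (right_ne_zero_of_mul e)
        exact (CA_pm e).1
    refine k.trans (Eq.trans ?_
      (Machine_sum_single (val A i j) (val A i j).coeff.support fun g e => Finsupp.mem_support_iff.2 e))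
    rw [Finset.sum_coe_sort _ fun g => (single g ((val A i j).coeff g) : ZG G)]
    refine Finset.sum_bij (fun x _ => x.1.2.2) (fun x hx => ?_) (fun x hx y hy e => ?_)
      (fun g hg => ?_) fun x hx => ?_
    · obtain ⟨rfl, rfl⟩ := h3.mem_toFinset.1 hx
      exact Finsupp.mem_support_iff.2 x.2
    · obtain ⟨a, b⟩ := h3.mem_toFinset.1 hx
      obtain ⟨a', b'⟩ := h3.mem_toFinset.1 hy
      exact Subtype.ext (Prod.ext (a.trans a'.symm) (Prod.ext (b.trans b'.symm) e))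
    · exact ⟨⟨(i, j, g), Finsupp.mem_support_iff.1 hg⟩, h3.mem_toFinset.2 ⟨rfl, rfl⟩, rfl⟩
    · obtain ⟨rfl, rfl⟩ := h3.mem_toFinset.1 hx
      simp only [U, pmM, Matrix.of_apply, if_true, single_mul_single, mul_inv_cancel_left, mul_one]

end Pool.Agent.Work.MP_9d1ffa_al.Ct.Ru
end

-- merged part: Pool.Agent.Work.MP_9d1ffa_al.Rt.RA2
section
/-! Algebra in an additive category with involution.  `z_schur` and `z_refine` are ports of
`../USchur.lean` (`schur` is in `Ct/SS.lean`).  `hz_add`: conjugate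
`fromBlocks (a 1; 0 c) 0 0 (b 1; 0 c)` (basis e₁ f₁ e₂ f₂) by the change of basis
e₁ + e₂, f₁, e₂, f₂ - f₁; the result is equivalent (`eqv_blocks`) to `(a + b 1; 0 c) ⊕ (b 1; 0 0)` because
`b + ε b* = 0` and `c + c = c - ε c*`; the last form is hyperbolic by `z_lag'`; finish with `Z.cancel`.
`hz_swap`: conjugate by `fromBlocks 0 1 (ε • 1) 0`. -/

namespace Pool.Agent.Work.MP_9d1ffa_al.Ct

set_option linter.unusedSectionVars false
set_option linter.unusedVariables false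

variable {O : Type 1} [Add O] [Zero O] {𝒞 : SCat O} {ε : ℤˣ} {I J : O}

theorem z_schur {ψ μ : 𝒞.Hom I I} (h1 : sy ε ψ * μ = 1) (h2 : μ * sy ε ψ = 1) {φ : 𝒞.Hom J J}
    (A : 𝒞.Hom I J) (hu : IsUnit (1 + A * (sy ε φ * A.ct * μ))) (hψ : Z ε ψ) (hφ : Z ε φ)
    (h : Z ε (φ + (sy ε φ * A.ct * μ) * ψ * (sy ε φ * A.ct * μ).ct)) :
    Z ε (ψ + A * φ * A.ct) :=
  Z.cancel (Z.iso (schur h1 h2 φ A hu) (hψ.sum hφ)) h

theorem z_refine {φ μ : 𝒞.Hom I I} (h1 : sy ε φ * μ = 1) (h2 : μ * sy ε φ = 1) (hφ : Z ε φ)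
    (u : 𝒞.Hom I J) (A : 𝒞.Hom J J) (hu : IsUnit (1 + u * sy ε A * u.ct * μ))
    (h : Z ε (fromBlocks (-A) 1 0 (u.ct * μ * φ * μ.ct * u))) : Z ε (φ + u * A * u.ct) := by
  have z0 : Z ε (fromBlocks A (1 : 𝒞.Hom J J) (0 : 𝒞.Hom J J) 0) :=
    z_lag' A 1 0 1 (by simp) (by simp)
  have hs : sy ε (fromBlocks A (1 : 𝒞.Hom J J) (0 : 𝒞.Hom J J) 0) =
      fromBlocks (sy ε A) 1 ((ε : ℤ) • 1) 0 := by
    rw [sy_blocks, sy_zero]
    simp
  have hX : (fromCols u (0 : 𝒞.Hom I J)).ct = fromRows u.ct 0 := by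
    rw [conjTranspose_fromCols_eq_fromRows_conjTranspose, conjTranspose_zero]
  have hY : sy ε (fromBlocks A (1 : 𝒞.Hom J J) (0 : 𝒞.Hom J J) 0) *
      (fromCols u (0 : 𝒞.Hom I J)).ct * μ =
      fromRows (sy ε A * u.ct * μ) ((ε : ℤ) • (u.ct * μ)) := by
    rw [hs, hX, fromBlocks_mul_fromRows, fromRows_mul]
    simp only [Hm.mul_zero, add_zero, Hm.smul_mul, Hm.one_mul]
  have hA : fromCols u (0 : 𝒞.Hom I J) * fromBlocks A (1 : 𝒞.Hom J J) (0 : 𝒞.Hom J J) 0 *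
      (fromCols u (0 : 𝒞.Hom I J)).ct = u * A * u.ct := by
    rw [hX, fromCols_mul_fromBlocks, fromCols_mul_fromRows]
    simp
  rw [← hA]
  refine z_schur h1 h2 (fromCols u 0) ?_ hφ z0 ?_
  · rw [hY, fromCols_mul_fromRows]
    simpa [Hm.mul_assoc] using hu
  · rw [hY]
    have k1 : fromBlocks (1 : 𝒞.Hom J J) (-((ε : ℤ) • sy ε A)) 0 (1 : 𝒞.Hom J J) *
        fromBlocks 1 ((ε : ℤ) • sy ε A) 0 1 = 1 := by
      simp [fromBlocks_multiply]
    have k2 : fromBlocks (1 : 𝒞.Hom J J) ((ε : ℤ) • sy ε A) 0 (1 : 𝒞.Hom J J) *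
        fromBlocks 1 (-((ε : ℤ) • sy ε A)) 0 1 = 1 := by
      simp [fromBlocks_multiply]
    refine Z.iso (iso_conj _ k1 k2).symm ?_
    have k3 : fromBlocks (1 : 𝒞.Hom J J) (-((ε : ℤ) • sy ε A)) 0 (1 : 𝒞.Hom J J) *
        fromRows (sy ε A * u.ct * μ) ((ε : ℤ) • (u.ct * μ)) =
        fromRows 0 ((ε : ℤ) • (u.ct * μ)) := by
      rw [fromBlocks_mul_fromRows, Hm.neg_mul, Hm.smul_mul, Hm.mul_smul, eps_eps]
      simp [Hm.mul_assoc]
    have k4 : fromBlocks (1 : 𝒞.Hom J J) (-((ε : ℤ) • sy ε A)) 0 (1 : 𝒞.Hom J J) *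
        fromBlocks A (1 : 𝒞.Hom J J) (0 : 𝒞.Hom J J) 0 *
        (fromBlocks (1 : 𝒞.Hom J J) (-((ε : ℤ) • sy ε A)) 0 (1 : 𝒞.Hom J J)).ct =
        fromBlocks (-((ε : ℤ) • A.ct)) 1 0 0 := by
      rw [fromBlocks_conjTranspose, conjTranspose_neg, ct_zsmul, sy_ct, eps_eps]
      simp [fromBlocks_multiply, sy]
    have k5 : ∀ (H : 𝒞.Hom (J + J) (J + J)) (Y : 𝒞.Hom (J + J) I),
        H * (Y * φ * Y.ct) * H.ct = H * Y * φ * (H * Y).ct := by
      intro H Y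
      simp only [conjTranspose_mul, Hm.mul_assoc]
    have k6 : (ε : ℤ) • (u.ct * μ) * φ * ((ε : ℤ) • (u.ct * μ)).ct = u.ct * μ * φ * μ.ct * u := by
      rw [ct_zsmul, Hm.smul_mul, Hm.smul_mul, Hm.mul_smul, eps_eps, conjTranspose_mul,
        conjTranspose_conjTranspose, Hm.mul_assoc (u.ct * μ * φ)]
    rw [Hm.mul_add, Hm.add_mul, k4, k5, k3, fromRows_mul,
      conjTranspose_fromRows_eq_fromCols_conjTranspose, fromRows_mul_fromCols, k6, fromBlocks_add]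
    refine Z.eqv (eqv_blocks ?_ ?_ ?_) h
    · simpa using (eqv_swap (ε := ε) A).neg
    · simpa using Eqv.refl _
    · simp

theorem hz_add {a b c : 𝒞.Hom I I} (hb : sy ε b = 0) (hc : sy ε c = 0)
    (h : Z ε (fromBlocks a 1 0 c)) (h' : Z ε (fromBlocks b 1 0 c)) :
    Z ε (fromBlocks (a + b) 1 0 c) := by
  have e := iso_conj (ε := ε) (fromBlocks (fromBlocks a 1 0 c) 0 0 (fromBlocks b 1 0 c))
    (g := (fromBlocks (fromBlocks 1 0 0 1) (fromBlocks 1 0 0 0) (fromBlocks 0 0 0 (-1))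
      (fromBlocks 1 0 0 1) : 𝒞.Hom ((I + I) + (I + I)) ((I + I) + (I + I))))
    (g' := fromBlocks 1 (fromBlocks (-1) 0 0 0) (fromBlocks 0 0 0 1) 1)
    (by simp [fromBlocks_multiply, fromBlocks_add]) (by simp [fromBlocks_multiply, fromBlocks_add])
  simp only [fromBlocks_multiply, fromBlocks_conjTranspose, fromBlocks_add, conjTranspose_zero,
    conjTranspose_one, conjTranspose_neg, Hm.mul_zero, Hm.zero_mul, Hm.mul_one, Hm.one_mul,
    Hm.neg_mul, Hm.mul_neg, add_zero, zero_add, neg_zero, neg_neg, neg_add_cancel] at e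
  refine Z.cancel (Z.eqv (eqv_blocks (b' := 0) (c' := 0) (Eqv.refl _)
    (eqv_blocks (b' := 1) (c' := 0) (d' := 0) (Eqv.refl b) (Eqv.symm ⟨c, ?_⟩) rfl) ?_)
    (Z.iso e (h.sum h'))) (z_lag' b 1 0 1 (by simp) (by simp))
  · rw [zero_add, sub_eq_add_neg, neg_eq_of_add_eq_zero_left hc]
  · have e1 := sy_blocks (ε := ε) b 0 0 (-c)
    rw [sy_neg, hb, hc] at e1
    simpa [sy] using e1

theorem RA2_g : (fromBlocks 0 1 ((ε : ℤ) • 1) 0 : 𝒞.Hom (I + I) (I + I)) *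
    (fromBlocks 0 ((ε : ℤ) • 1) 1 0 : 𝒞.Hom (I + I) (I + I)) = 1 ∧
    (fromBlocks 0 ((ε : ℤ) • 1) 1 0 : 𝒞.Hom (I + I) (I + I)) *
    (fromBlocks 0 1 ((ε : ℤ) • 1) 0 : 𝒞.Hom (I + I) (I + I)) = 1 := by
  constructor <;> simp only [fromBlocks_multiply, Hm.mul_zero, Hm.zero_mul, Hm.mul_one, Hm.one_mul,
    Hm.smul_mul, add_zero, zero_add, eps_eps, fromBlocks_one]

theorem hz_swap {a c : 𝒞.Hom I I} (h : Z ε (fromBlocks a 1 0 c)) : Z ε (fromBlocks c 1 0 a) := by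
  have e := iso_conj (ε := ε) (fromBlocks a 1 0 c) (RA2_g (ε := ε)).1 RA2_g.2
  simp only [fromBlocks_multiply, fromBlocks_conjTranspose, conjTranspose_zero, conjTranspose_one,
    ct_zsmul, Hm.mul_zero, Hm.zero_mul, Hm.mul_one, Hm.one_mul, Hm.smul_mul, Hm.mul_smul, add_zero,
    zero_add, smul_zero, eps_eps] at e
  refine Z.eqv (eqv_blocks (Eqv.refl _) (Eqv.refl _) ?_) (Z.iso e h)
  rw [ct_zsmul, eps_eps]
  simp

theorem RA2_sum {ι : Type} (s : Finset ι) {a : ι → 𝒞.Hom I I} {c : 𝒞.Hom I I} (hc : sy ε c = 0) :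
    (∀ i ∈ s, sy ε (a i) = 0) → (∀ i ∈ s, Z ε (fromBlocks (a i) 1 0 c)) →
      Z ε (fromBlocks (∑ i ∈ s, a i) 1 0 c) := by
  induction s using Finset.cons_induction with
  | empty => exact fun _ _ => z_lag 1 0 c 1 (by simp) (by simp)
  | cons i s hi ih =>
    intro ha h
    rw [Finset.sum_cons, add_comm]
    exact hz_add (ha i (Finset.mem_cons_self _ _)) hc
      (ih (fun j hj => ha j (Finset.mem_cons_of_mem hj)) fun j hj => h j (Finset.mem_cons_of_mem hj))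
      (h i (Finset.mem_cons_self _ _))

theorem hz_sum {ι κ : Type} (s : Finset ι) (t : Finset κ) {a : ι → 𝒞.Hom I I} {c : κ → 𝒞.Hom I I}
    (ha : ∀ i ∈ s, sy ε (a i) = 0) (hc : ∀ j ∈ t, sy ε (c j) = 0)
    (h : ∀ i ∈ s, ∀ j ∈ t, Z ε (fromBlocks (a i) 1 0 (c j))) :
    Z ε (fromBlocks (∑ i ∈ s, a i) 1 0 (∑ j ∈ t, c j)) := by
  have h1 : sy ε (∑ i ∈ s, a i) = 0 :=
    Finset.sum_induction a (fun x => sy ε x = 0) (fun x y hx hy => by rw [sy_add, hx, hy, add_zero])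
      sy_zero ha
  exact hz_swap (RA2_sum t h1 hc fun j hj => hz_swap (RA2_sum s (hc j hj) ha fun i hi => h i hi j hj))

/-- a nilpotent perturbation of the hyperbolic form is nonsingular -/
theorem ns_of_nil {a c : 𝒞.Hom I I}
    (h : IsNilpotent (fromBlocks 0 ((ε : ℤ) • sy ε a) ((1 : ℤ) • sy ε c) 0)) :
    NS ε (fromBlocks a 1 0 c) := by
  have h0 : IsUnit (fromBlocks 0 1 ((ε : ℤ) • 1) 0 : 𝒞.Hom (I + I) (I + I)) :=
    ⟨⟨_, _, RA2_g.1, RA2_g.2⟩, rfl⟩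
  have h1 := h.isUnit_one_add.mul h0
  rw [← fromBlocks_one, fromBlocks_add] at h1
  rw [NS, sy_blocks]
  simpa only [fromBlocks_multiply, conjTranspose_zero, conjTranspose_one, Hm.mul_zero, Hm.mul_one,
    Hm.mul_smul, add_zero, zero_add, smul_zero, eps_eps, one_smul] using h1

end Pool.Agent.Work.MP_9d1ffa_al.Ct
end

-- merged part: Pool.Agent.Work.MP_9d1ffa_al.Rt.RH
section
/-! Forms with trivial symmetrisation in the presence of involutions.  `eqv_inv`: as `eqv_int` in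
`Ct/CHess.lean`; `N` is the part of `Y` on the triples (k, k, g) with `g = g⁻¹` and `χ` the part on the triples
with (k, l, g) < (l, k, g⁻¹) for a well order.  `z_hess`: write `N = ∑ g ∈ s, fm (· = g) N` (`eq_sum_fm`, with `s`
a finite set of elements with `g * g = 1`), each part has trivial symmetrisation (`fm_ct`, `fm_add`), apply `hz_sum` and
`z_fix` (`ns_of_nil` with the zero matrix gives `NS`). -/

namespace Pool.Agent.Work.MP_9d1ffa_al.Ct

open MonoidAlgebra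

set_option linter.unusedSectionVars false
set_option linter.unusedVariables false

variable {X G : Type} [Group G] {ρ : G →* Equiv.Perm X} {ε : ℤˣ} {I : Ob X}

theorem eqv_inv {Y : (OC ρ).Hom I I} (hY : sy ε Y = 0) :
    ∃ N : (OC ρ).Hom I I, Sup (fun g => g * g = 1) N ∧ Eqv ε Y N := by
  classical
  obtain ⟨_, -⟩ := exists_wellFoundedLT (I.I × I.I × G)
  have hx : ∀ k l g, (val Y k l).coeff g + (ε : ℤ) * (val Y l k).coeff g⁻¹ = 0 := fun k l g => by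
    have := congrArg (fun A : (OC ρ).Hom I I => (val A k l).coeff g) hY
    simpa only [sy, val_add, val_zsmul, val_zero, Matrix.add_apply, Matrix.smul_apply, coeff_add,
      coeff_smul, Finsupp.add_apply, Finsupp.smul_apply, coeff_ct, smul_eq_mul, Matrix.zero_apply,
      coeff_zero, Finsupp.zero_apply] using this
  have c : ∀ S : I.I → I.I → G → Prop,
      Ctl ρ I I (Matrix.of fun k l => fil (S k l) (val Y k l)) := fun S => by
    refine (val_ctl Y).mono fun i j g h e => h ?_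
    rw [Matrix.of_apply, coeff_fil, e, ite_self]
  refine ⟨mk _ (c fun k l g => (k, l, g) = (l, k, g⁻¹)), fun k l g h => ?_,
    Eqv.symm ⟨mk _ (c fun k l g => (k, l, g) < (l, k, g⁻¹)), hom_ext fun k l g => ?_⟩⟩
  · rw [val_mk, Matrix.of_apply, coeff_fil] at h
    by_contra e
    exact h (if_neg fun e' => e (mul_eq_one_iff_eq_inv.2 (congrArg (fun t => t.2.2) e')))
  · have e2 := hx k l g
    simp only [val_sub, val_add, val_zsmul, Matrix.sub_apply, Matrix.add_apply, Matrix.smul_apply,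
      coeff_sub, coeff_add, coeff_smul, Finsupp.sub_apply, Finsupp.add_apply, Finsupp.smul_apply,
      coeff_ct, val_mk, Matrix.of_apply, coeff_fil, inv_inv, smul_eq_mul]
    rcases lt_trichotomy (k, l, g) (l, k, g⁻¹) with h | h | h
    · rw [if_pos h, if_neg h.not_gt, if_neg h.ne]
      ring
    · rw [if_pos h, if_neg h.not_lt, if_neg h.not_gt]
      ring
    · rw [if_pos h, if_neg h.not_gt, if_neg h.ne']
      linarith

theorem RH_sum {Y : (OC ρ).Hom I I} (hY : sy ε Y = 0) :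
    ∃ (s : Finset G) (a : G → (OC ρ).Hom I I), (∀ g ∈ s, g * g = 1) ∧
      (∀ g ∈ s, sy ε (a g) = 0 ∧ Sup (· = g) (a g)) ∧ Eqv ε Y (∑ g ∈ s, a g) := by
  classical
  obtain ⟨N, h1, h2⟩ := eqv_inv hY
  obtain ⟨s, hs⟩ := exists_sup_finset N
  have h3 : sy ε N = 0 := h2.sy_eq.symm.trans hY
  refine ⟨s.filter fun g => g * g = 1, fun g => fm (· = g) N, fun g hg => (Finset.mem_filter.1 hg).2,
    fun g hg => ⟨?_, sup_fm _ _⟩, h2.trans (Eqv.of_eq (eq_sum_fm _ fun k l g e =>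
      Finset.mem_filter.2 ⟨hs k l g e, h1 k l g e⟩))⟩
  have e : (fun x : G => x⁻¹ = g) = (· = g) := funext fun x => by
    rw [inv_eq_iff_eq_inv, ← mul_eq_one_iff_eq_inv.1 (Finset.mem_filter.1 hg).2]
  rw [sy, fm_ct, e, ← fm_zsmul, ← fm_add]
  exact (congrArg _ h3).trans (fm_zero _)

theorem z_hess (h : ∀ r s : G, r * r = 1 → s * s = 1 → ∃ z, ρ r z = z ∧ ρ s z = z)
    {A B : (OC ρ).Hom I I} (hA : sy ε A = 0) (hB : sy ε B = 0) : Z ε (fromBlocks A 1 0 B) := by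
  obtain ⟨s, a, hs, ha, e⟩ := RH_sum hA
  obtain ⟨t, b, ht, hb, e'⟩ := RH_sum hB
  refine Z.eqv (eqv_blocks e.symm e'.symm rfl)
    (hz_sum s t (fun g hg => (ha g hg).1) (fun g hg => (hb g hg).1) fun g hg g' hg' => ?_)
  obtain ⟨z, h1, h2⟩ := h g g' (hs g hg) (ht g' hg')
  refine z_fix z (sup_fromBlocks.2 ⟨(ha g hg).2.mono ?_, sup_one.mono ?_, sup_zero,
    (hb g' hg').2.mono ?_⟩) (ns_of_nil ?_)
  · rintro _ rfl; exact h1
  · rintro _ rfl; rw [map_one]; rfl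
  · rintro _ rfl; exact h2
  · rw [(ha g hg).1, (hb g' hg').1, smul_zero, smul_zero, fromBlocks_zero]
    exact IsNilpotent.zero

/-- changing the quadratic refinement -/
theorem z_of_sub_hess (h : ∀ r s : G, r * r = 1 → s * s = 1 → ∃ z, ρ r z = z ∧ ρ s z = z)
    {ψ D : (OC ρ).Hom I I} (hD : sy ε D = 0) (hz : Z ε (ψ - D)) : Z ε ψ := by
  have hψ : NS ε ψ := by
    have := hz.ns
    unfold NS at this ⊢
    rwa [sub_eq_add_neg, sy_add, sy_neg, hD, neg_zero, add_zero] at this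
  obtain ⟨Y, hY, hI⟩ := CHess_iso hψ hD
  exact ((z_hess h hD hY).iso hI.symm).cancel hz.neg

end Pool.Agent.Work.MP_9d1ffa_al.Ct
end

-- merged part: Pool.Agent.Work.MP_9d1ffa_al.Rt.RW
section
/-! A nilpotent perturbation of a hyperbolic form comes from a map of filtered forms.  Port of
`../UWit.lean`; `UWit_fac` is `exists_fac` with `c = fun _ _ => 1` and `X2 = v.ct`.  The new positions
have finite range because they are functions of the pairs in `prs` (`prs_finite`). -/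

namespace Pool.Agent.Work.MP_9d1ffa_al.Ct.Ru

open MonoidAlgebra

set_option linter.unusedSectionVars false
set_option linter.unusedVariables false

variable {X G P : Type} [Group G] [MulAction G P] [Nonempty X] {ρ : G →* Equiv.Perm X}
  {rev : P → P} {mv : P → P → Prop} {hull : P → P → P} {ε : ℤˣ} {k : ℕ}

theorem RW_on {Q : Type} [MulAction G Q] {I : Ob X} (r : Q → Q) (rr : ∀ a, r (r a) = a)
    (p : I.I → Q) (m n : ℤ) : MOn (I := I + I) (J := I + I) (Sum.elim p fun i => r (p i))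
      (Sum.elim p fun i => r (p i)) (fun a b => b = r a)
      (fromBlocks 0 (m • 1) (n • 1) 0 : (OC ρ).Hom (I + I) (I + I)) :=
  mOn_fromBlocks.2 ⟨mOn_zero _ _ _,
    fun i j g e => ((mOn_one fun i => r (p i)).zsmul m i j g e).symm,
    fun i j g e => ((mOn_one p).zsmul n i j g e).symm.trans (rr _).symm, mOn_zero _ _ _⟩

theorem RW_sy (ε : ℤˣ) (I : Ob X) :
    sy ε (hypF (OC ρ) I) = fromBlocks 0 ((1 : ℤ) • 1) ((ε : ℤ) • 1) 0 := by
  simp [hypF, sy_blocks, sy_zero]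

theorem RW_fin {Q ι : Type} {p : ι → Q} (hp : (Set.range p).Finite) (r : Q → Q) :
    (Set.range (Sum.elim p fun i => r (p i))).Finite := by
  rw [Set.Sum.elim_range]
  exact hp.union ((hp.image r).subset (by
    rintro _ ⟨i, rfl⟩
    exact ⟨_, ⟨i, rfl⟩, rfl⟩))

/-- the hyperbolic form as a filtered form -/
noncomputable def RW_hyp (Γ : Geo2 G rev mv hull) (ε : ℤˣ) {I : Ob X} (p : I.I → P)
    (hp : (Set.range p).Finite) (F : ℕ → AddSubgroup (Vec ρ (I + I)))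
    (hF : Filt (I := I + I) (Sum.elim p fun i => rev (p i)) F k) : Obj ρ rev ε k where
  I := I + I
  p := Sum.elim p fun i => rev (p i)
  fp := RW_fin hp rev
  φ := hypF (OC ρ) I
  μ := fromBlocks 0 ((ε : ℤ) • 1) 1 0
  F := F
  hF := hF
  onφ := by simpa only [one_smul, zero_smul, hypF] using RW_on (ρ := ρ) rev Γ.rr p 1 0
  onμ := by simpa only [one_smul] using RW_on (ρ := ρ) rev Γ.rr p ε 1
  e1 := by
    rw [RW_sy, fromBlocks_multiply]
    simp only [one_smul, Hm.zero_mul, Hm.mul_zero, Hm.mul_one, Hm.smul_mul, Hm.one_mul, eps_eps,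
      add_zero, zero_add, fromBlocks_one]
  e2 := by
    rw [RW_sy, fromBlocks_multiply]
    simp only [one_smul, Hm.zero_mul, Hm.mul_zero, Hm.mul_one, Hm.smul_mul, Hm.one_mul, eps_eps,
      add_zero, zero_add, fromBlocks_one]
  z := z_hyp I

theorem witness (Γ : Geo2 G rev mv hull) (hP : ∀ k, PZ ρ rev ε k mv 1) {I : Ob X} (p : I.I → P)
    (hp : (Set.range p).Finite) (ψ : (OC ρ).Hom (I + I) (I + I))
    (hψ : MOn (I := I + I) (J := I + I) (Sum.elim p fun i => rev (p i))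
      (Sum.elim p fun i => rev (p i)) (fun a b => mv a (rev b)) ψ)
    (hn : NilP (I := I + I) (Sum.elim p fun i => rev (p i))
      (sy ε ψ * fromBlocks 0 ((ε : ℤ) • 1) 1 0)) :
    Z ε (hypF (OC ρ) I + ψ) := by
  let Pk : (I + I).I → P := Sum.elim p fun i => rev (p i)
  have hk : (Set.range Pk).Finite := RW_fin hp rev
  obtain ⟨L, s, t, γ, X1, v, h0, h1, h2, h3⟩ := exists_fac ψ hk hk fun _ _ => 1
  let q0 : L.I → P × P := fun x => (Pk (s x), rev (γ x • Pk (t x)))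
  let r : P × P → P × P := fun τ => (rev τ.2, rev τ.1)
  let qf : (L + L).I → P × P := Sum.elim q0 fun x => r (q0 x)
  let q : L.I → P := fun x => hull (q0 x).1 (q0 x).2
  have hq : (Set.range q).Finite :=
    ((prs_finite hk hk ψ).image fun τ => hull τ.1 (rev τ.2)).subset (by
      rintro _ ⟨x, rfl⟩
      exact ⟨_, ⟨s x, t x, γ x, h0 x, rfl⟩, rfl⟩)
  have h2' : ∀ k x g, (val v.ct k x).coeff g ≠ 0 → k = t x ∧ g = (γ x)⁻¹ := fun k x g e => by
    rw [coeff_ct] at e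
    obtain ⟨e1, e2⟩ := h2 x k _ e
    rw [inv_one, one_mul] at e2
    exact ⟨e1, inv_eq_iff_eq_inv.1 e2⟩
  have hm : ∀ x, mv (q0 x).1 (q0 x).2 := fun x => hψ _ _ _ (h0 x)
  have hX : fromCols X1 v.ct * hypF (OC ρ) L * (fromCols X1 v.ct).ct = ψ := by
    rw [hypF, fromCols_mul_fromBlocks, conjTranspose_fromCols_eq_fromRows_conjTranspose,
      fromCols_mul_fromRows]
    simpa using h3
  have hρ : Inv G fun (σ : P) (τ : P × P) => τ.1 = σ := fun g a b e => congrArg (g • ·) e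
  have hβ : Inv G fun (τ : P × P) (σ : P) => σ = τ.2 := fun g a b e => congrArg (g • ·) e
  have hu : MOn Pk qf (fun σ τ => τ.1 = σ) (fromCols X1 v.ct) := by
    refine mOn_fromCols.2 ⟨fun k x g e => ?_, fun k x g e => ?_⟩
    · obtain ⟨rfl, rfl⟩ := h1 k x g e
      rw [one_smul]
      rfl
    · obtain ⟨rfl, rfl⟩ := h2' k x g e
      show (γ x)⁻¹ • rev (rev (γ x • Pk (t x))) = Pk (t x)
      rw [Γ.rr, inv_smul_smul]
  have hH : MOn qf qf (fun a b => b = r a) (sy ε (hypF (OC ρ) L)) := by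
    rw [RW_sy]
    exact RW_on r (fun a => Prod.ext (Γ.rr _) (Γ.rr _)) q0 _ _
  have hμ : MOn Pk Pk (fun a b => b = rev a)
      (fromBlocks 0 ((ε : ℤ) • 1) 1 0 : (OC ρ).Hom (I + I) (I + I)) := by
    simpa only [one_smul] using RW_on (ρ := ρ) rev Γ.rr p ε 1
  have hb : MOn qf Pk (fun τ σ => σ = τ.2)
      (sy ε (hypF (OC ρ) L) * (fromCols X1 v.ct).ct *
        (fromBlocks 0 ((ε : ℤ) • 1) 1 0 : (OC ρ).Hom (I + I) (I + I))) := by
    refine ((hH.mul (hu.ct hρ) fun g a b => hρ g b a).mul hμ (inv_rev Γ)).mono ?_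
    rintro a c ⟨_, ⟨_, rfl, rfl⟩, rfl⟩
    exact Γ.rr _
  have hXX : ∀ μ : (OC ρ).Hom (I + I) (I + I),
      fromCols X1 v.ct * (sy ε (hypF (OC ρ) L) * (fromCols X1 v.ct).ct * μ) = sy ε ψ * μ :=
    fun μ => by
      rw [← hX, sy_conj]
      simp only [Hm.mul_assoc]
  obtain ⟨F, F', k, f1, f2, f3, f4⟩ := nil2_of_nilP Pk qf _ _ hρ hβ _ _ hu hb
    (fun a b c e e' => e.trans e'.symm)
    (fun a b c e k1 k2 k3 k4 => Prod.ext (k1.trans k2.symm) (k3.symm.trans k4))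
    ((hXX _).symm ▸ hn)
  have f5 : Filt (I := L + L) (Sum.elim q fun x => rev (q x)) F' k := by
    have := f2.coarse (fun τ => hull τ.1 τ.2) fun g a => Γ.eqv g _ _
    have e : (fun i => hull (qf i).1 (qf i).2) = Sum.elim q fun x => rev (q x) := by
      funext i
      rcases i with x | x
      · rfl
      · exact (Γ.rh _ _).symm
    exact e ▸ this
  have hmv : MOn (J := L + L) Pk (Sum.elim q fun x => rev (q x)) mv (fromCols X1 v.ct) := by
    refine mOn_fromCols.2 ⟨fun k x g e => ?_, fun k x g e => ?_⟩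
    · obtain ⟨rfl, rfl⟩ := h1 k x g e
      rw [one_smul]
      exact Γ.hl _ _ (hm x)
    · obtain ⟨rfl, rfl⟩ := h2' k x g e
      have h4 := Γ.inv (γ x)⁻¹ _ _ (Γ.hl _ _ (Γ.sym _ _ (hm x)))
      rw [← Γ.rh] at h4
      have h5 : (γ x)⁻¹ • rev (q0 x).2 = Pk (t x) := by
        show (γ x)⁻¹ • rev (rev (γ x • Pk (t x))) = Pk (t x)
        rw [Γ.rr, inv_smul_smul]
      rw [h5] at h4
      exact h4
  have := hP k (RW_hyp Γ ε p hp F f1) (RW_hyp Γ ε q hq F' f5) (fromCols X1 v.ct) ⟨hmv, f3, f4⟩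
  rw [← hX]
  exact this

end Pool.Agent.Work.MP_9d1ffa_al.Ct.Ru
end

-- merged part: Pool.Agent.Work.MP_9d1ffa_al.Rt.RR
section
/-! Reduction of a single orbit to a local system.  Port of `../URef.lean`; `URef_hf`, `URef_hi` are
used as they are, `URef_factor` follows from `exists_fac` with `c a b` a chosen element `γ` such that
`a = γ • σ`, `b = γ • τ` (if there is one). -/

namespace Pool.Agent.Work.MP_9d1ffa_al.Ct.Ru

open MonoidAlgebra

set_option linter.unusedSectionVars false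
set_option linter.unusedVariables false

variable {X G P : Type} [Group G] [MulAction G P] [Nonempty X] {ρ : G →* Equiv.Perm X}
  {rev : P → P} {mv : P → P → Prop} {hull : P → P → P} {ε : ℤˣ} {k : ℕ}

/-- a morphism supported on one orbit factors through a basis located at the pair -/
theorem RR_factor {I J : Ob X} {p : I.I → P} {q : J.I → P} (hp : (Set.range p).Finite)
    (hq : (Set.range q).Finite) {σ τ : P} {A : (OC ρ).Hom I J} (ho : MOn p q (Orb G σ τ) A) :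
    ∃ (L : Ob X) (u : (OC ρ).Hom I L) (v : (OC ρ).Hom L J), u * v = A ∧
      MOn p (fun _ : L.I => σ) Eq u ∧ MOn (fun _ : L.I => τ) q Eq v := by
  classical
  have hc : ∀ a b : P, ∃ γ : G, Orb G σ τ a b → a = γ • σ ∧ b = γ • τ := fun a b => by
    by_cases h : Orb G σ τ a b
    · obtain ⟨γ, h⟩ := h
      exact ⟨γ, fun _ => h⟩
    · exact ⟨1, fun h' => absurd h' h⟩
  choose c hc using hc
  obtain ⟨L, s, t, γ, u, v, h0, hu, hv, e⟩ := exists_fac A hp hq c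
  refine ⟨L, u, v, e, fun i x g h => ?_, fun x j g h => ?_⟩
  · obtain ⟨rfl, rfl⟩ := hu i x g h
    exact (hc _ _ (ho _ _ _ (h0 x))).1
  · obtain ⟨rfl, rfl⟩ := hv x j g h
    rw [mul_smul, eq_inv_smul_iff]
    exact (hc _ _ (ho _ _ _ (h0 x))).2.symm

theorem RR_left {I L : Ob X} {p : I.I → P} {σ : P} {u : (OC ρ).Hom I L}
    (h : ∀ i t g, (val u i t).coeff g ≠ 0 → p i = g • σ) (η : P) :
    MOn p (fun _ : L.I => η) (Orb G σ η) u := fun i t g e => ⟨g, h i t g e, rfl⟩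

theorem RR_right {J L : Ob X} {q : J.I → P} {τ : P} {v : (OC ρ).Hom L J}
    (h : ∀ t j g, (val v t j).coeff g ≠ 0 → g • q j = τ) (η : P) :
    MOn (fun _ : L.I => η) q (Orb G η τ) v := fun t j g e =>
  ⟨1, (one_smul _ _).symm, by rw [one_smul]; exact h t j g e⟩

theorem refine_orb (Γ : Geo2 G rev mv hull) {σ τ : P} (h : mv σ τ)
    (hl : LocZ ρ rev ε σ τ (hull σ τ)) (M N : Obj ρ rev ε k) (A : (OC ρ).Hom M.I N.I)
    (hA : JJ mv M N 1 A) (ho : MOn M.p N.p (Orb G σ τ) A) : Z ε (M.φ + A * N.φ * A.ct) := by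
  obtain ⟨L, u, v, huv, hu, hv⟩ := RR_factor M.fp N.fp ho
  have iE : Inv G fun b a : P => a = b := fun g a b e => by rw [show b = a from e]
  have iR : Inv G fun b a : P => b = rev a := fun g a b e => inv_rev Γ g b a e
  have huc := hu.ct inv_eq
  have hvc := hv.ct inv_eq
  have hadj : sy ε N.φ * v.ct * (u.ct * M.μ) = adj M N A := by
    rw [adj, ← huv, conjTranspose_mul]
    simp only [Hm.mul_assoc]
  have hu' : ∀ j t g, (val (sy ε N.φ * v.ct) j t).coeff g ≠ 0 → N.p j = g • rev τ :=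
    fun j t g e => by
      obtain ⟨b, e1, e2⟩ := ((mOn_sy (ε := ε) Γ N.onφ).mul hvc iE) j t g e
      rw [← Γ.re, e2, e1, Γ.rr]
  have hv' : ∀ t i g, (val (u.ct * M.μ) t i).coeff g ≠ 0 → g • M.p i = rev σ :=
    fun t i g e => by
      obtain ⟨b, e1, e2⟩ := (huc.mul M.onμ (inv_rev Γ)) t i g e
      rw [e2, e1]
  have hn : Nil2 (fun _ : L.I => hull σ τ) (fun _ : L.I => rev (hull σ τ))
      (v * (sy ε N.φ * v.ct)) (u.ct * M.μ * u) := by
    rw [Γ.rh]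
    refine nil2_transfer M.p N.p _ _ (Orb G σ (hull σ τ)) (Orb G (hull σ τ) τ)
      (Orb G (rev τ) (hull (rev τ) (rev σ))) (Orb G (hull (rev τ) (rev σ)) (rev σ))
      (inv_orb _ _) (inv_orb _ _) (inv_orb _ _) (inv_orb _ _) u v _ _ (RR_left hu _)
      (RR_right (fun t j g e => (hv t j g e).symm) _) (RR_left hu' _) (RR_right hv' _)
      (URef_hf Γ h) (URef_hf Γ (Γ.sym _ _ h)) (URef_hi Γ h) (URef_hi Γ (Γ.sym _ _ h)) ?_
    rw [huv, hadj]
    exact ⟨M.F, N.F, k, M.hF, N.hF, hA.2.1, hA.2.2⟩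
  have e0 : A * N.φ * A.ct = u * (v * N.φ * v.ct) * u.ct := by
    rw [← huv, conjTranspose_mul]
    simp only [Hm.mul_assoc]
  rw [e0]
  refine z_refine M.e1 M.e2 M.z u _ ?_ (hl L _ _ ?_ ?_ ?_)
  · have e : u * sy ε (v * N.φ * v.ct) * u.ct * M.μ = A * adj M N A := by
      rw [sy_conj, ← hadj, ← huv]
      simp only [Hm.mul_assoc]
    rw [e]
    exact (hA.mul Γ (hA.adj Γ)).isUnit Γ (by norm_num)
  · intro i j g e
    obtain ⟨b, ⟨c, e1, e2⟩, e3⟩ := (((hv.mul N.onφ (inv_rev Γ)).mul hvc iE).neg) i j g e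
    rw [e3, e2, ← e1]
  · intro i j g e
    obtain ⟨b, ⟨c, ⟨d, ⟨f, e1, e2⟩, e3⟩, e4⟩, e5⟩ :=
      ((((huc.mul M.onμ (inv_rev Γ)).mul M.onφ (inv_rev Γ)).mul (M.onμ.ct (inv_rev Γ)) iR).mul hu
        inv_eq) i j g e
    rw [← e5, ← Γ.rr b, ← e4, e3, e2, e1, Γ.rr]
  · have e1 : sy ε (-(v * N.φ * v.ct)) = (-1 : ℤ) • (v * (sy ε N.φ * v.ct)) := by
      rw [sy_neg, sy_conj, neg_one_zsmul, Hm.mul_assoc]
    have e2 : sy ε (u.ct * M.μ * M.φ * M.μ.ct * u) = (ε : ℤ) • (u.ct * M.μ * u) := by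
      have : u.ct * M.μ * M.φ * M.μ.ct * u = u.ct * M.μ * M.φ * (u.ct * M.μ).ct := by
        rw [conjTranspose_mul, conjTranspose_conjTranspose]
        simp only [Hm.mul_assoc]
      rw [this, sy_conj, conjTranspose_mul, conjTranspose_conjTranspose, Hm.mul_assoc u.ct, M.e2,
        Hm.mul_one, M.mu_ct, Hm.smul_mul, Hm.mul_smul, Hm.mul_assoc]
    rw [e1, e2]
    exact hn.zsmul _ _

theorem locZ_of_not {σ τ η : P}
    (h : (¬ ∃ g : G, g • σ = rev σ) ∨ ¬ ∃ g : G, g • τ = rev τ) : LocZ ρ rev ε σ τ η := by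
  intro J A B hA hB _
  rcases h with h | h
  · have e : B = 0 := MOn.eq_zero (p := fun _ => σ) (q := fun _ => σ) fun i j g e =>
      h ⟨g, hB i j g e⟩
    rw [e]
    exact z_lag' A 1 0 1 (by simp) (by simp)
  · have e : A = 0 := MOn.eq_zero (p := fun _ => σ) (q := fun _ => σ) fun i j g e =>
      h ⟨g, hA i j g e⟩
    rw [e]
    exact z_lag 1 0 B 1 (by simp) (by simp)

end Pool.Agent.Work.MP_9d1ffa_al.Ct.Ru
end

-- merged part: Pool.Agent.Work.MP_9d1ffa_al.Rt.RU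
section
/-! Perturbations of a filtered form.  Port of `../ULazA.lean`. -/

namespace Pool.Agent.Work.MP_9d1ffa_al.Ct.Ru

open MonoidAlgebra

set_option linter.unusedSectionVars false
set_option linter.unusedVariables false

variable {X G P : Type} [Group G] [MulAction G P] [Nonempty X] {ρ : G →* Equiv.Perm X}
  {rev : P → P} {mv : P → P → Prop} {hull : P → P → P} {ε : ℤˣ} {k : ℕ}
  {M N : Obj ρ rev ε k} {j w : ℕ} {ψ : (OC ρ).Hom M.I M.I}

theorem rep_absorb (Γ : Geo2 G rev mv hull) (hj : 1 ≤ j) (hP : PZ ρ rev ε k mv j)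
    (h : Rep mv M j ψ) : Z ε ψ := by
  obtain ⟨N, U, B, hU, hB, hψ⟩ := h
  obtain ⟨U', hU', e1, e2⟩ := hU.inv Γ hj
  have hU1 : JJ mv M M j (U + U' * U) := hU.add ((hU'.mul Γ hU).anti (by omega))
  have hB1 : JJ mv M N j (B + U' * B) := hB.add ((hU'.mul Γ hB).anti (by omega))
  obtain ⟨K0, Y0, hY0, f0⟩ := exists_neg hU1
  obtain ⟨K, Y, hY, f⟩ := exists_sum hY0 hB1
  have a1 : (1 + U) * (U + U' * U) = U := by
    rw [show U + U' * U = (1 + U') * U by noncomm_ring, ← Hm.mul_assoc, e1, Hm.one_mul]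
  have a2 : (1 + U) * (B + U' * B) = B := by
    rw [show B + U' * B = (1 + U') * B by rw [Hm.add_mul, Hm.one_mul],
      ← Hm.mul_assoc, e1, Hm.one_mul]
  have a3 : ∀ (L : Obj ρ rev ε k) (T : (OC ρ).Hom M.I L.I),
      (1 + U) * (T * L.φ * T.ct) * (1 + U).ct = (1 + U) * T * L.φ * ((1 + U) * T).ct := by
    intro L T
    simp only [conjTranspose_mul, Hm.mul_assoc]
  refine Z.eqv (Eqv.trans ?_ hψ) (Z.iso (iso_conj _ e1 e2) (hP M K Y hY))
  have a4 : (1 + U) * (M.φ + Y * K.φ * Y.ct) * (1 + U).ct =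
      (U + 1) * M.φ * (U + 1).ct + (-(U * M.φ * U.ct) + B * N.φ * B.ct) := by
    have d : ∀ g g' a b c : (OC ρ).Hom M.I M.I,
        g * (a + (-b + c)) * g' = g * a * g' + (-(g * b * g') + g * c * g') := by
      intro g g' a b c
      noncomm_ring
    rw [f, f0, d, a3 M, a3 N, a1, a2, add_comm U 1]
  rw [a4]
  refine ((eqv_cross U 1 M.φ).symm.add (Eqv.refl _)).trans (Eqv.of_eq ?_)
  simp only [conjTranspose_one, Hm.mul_one, Hm.one_mul]
  abel

theorem RU_sy (Γ : Geo2 G rev mv hull) (h : Rep mv M j ψ) :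
    ∃ U, JJ mv M M j U ∧ sy ε ψ = (1 + U) * sy ε M.φ := by
  obtain ⟨N, U, B, hU, hB, hψ⟩ := h
  refine ⟨U + adj M M U + B * adj M N B,
    (hU.add (hU.adj Γ)).add ((hB.mul Γ (hB.adj Γ)).anti (by omega)), ?_⟩
  have a : sy ε (U * sy ε M.φ) = U * sy ε M.φ + sy ε M.φ * U.ct := by
    rw [sy, conjTranspose_mul, sy_ct, Hm.smul_mul, eps_eps]
  rw [← hψ.sy_eq, sy_add, sy_add, sy_conj, a, Hm.mul_assoc B, ← adj_mul_sy, ← adj_mul_sy,
    ← Hm.mul_assoc B]
  noncomm_ring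

theorem rep_schur (Γ : Geo2 G rev mv hull) (hj : 1 ≤ j) (hw : 1 ≤ w) (h : Rep mv M j ψ)
    (hz : Z ε ψ) {A : (OC ρ).Hom M.I N.I} (hA : JJ mv M N w A) :
    ∃ ψ', Rep mv N (j + w) ψ' ∧
      (Z ε (ψ' + adj M N A * M.φ * (adj M N A).ct) → Z ε (ψ + A * N.φ * A.ct)) := by
  obtain ⟨V, hV, eV⟩ := RU_sy Γ h
  obtain ⟨V', hV', e1, e2⟩ := hV.inv Γ hj
  obtain ⟨N0, U, X0, hU, hX0, hψ⟩ := h
  have h1 : sy ε ψ * (M.μ * (1 + V')) = 1 := by
    rw [eV, Hm.mul_assoc, ← Hm.mul_assoc _ M.μ, M.e1, Hm.one_mul, e1]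
  have h2 : M.μ * (1 + V') * sy ε ψ = 1 := by
    rw [eV, Hm.mul_assoc, ← Hm.mul_assoc _ (1 + V), e2, Hm.one_mul, M.e2]
  have hD : JJ mv N M w (adj M N A) := hA.adj Γ
  generalize eD : adj M N A = D at hD ⊢
  have eY : sy ε N.φ * A.ct * (M.μ * (1 + V')) = D + D * V' := by
    rw [← Hm.mul_assoc, ← eD, adj, Hm.mul_add, Hm.mul_one]
  have hY' : JJ mv N M (w + j) (D * V') := hD.mul Γ hV'
  generalize D * V' = Y' at hY' eY
  have hY : JJ mv N M w (D + Y') := hD.add (hY'.anti (by omega))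
  have hu : IsUnit (1 + A * (sy ε N.φ * A.ct * (M.μ * (1 + V')))) := by
    rw [eY]
    exact (hA.mul Γ hY).isUnit Γ (by omega)
  obtain ⟨K, X', hX', f⟩ := exists_sum hY' (hY.mul Γ hX0)
  refine ⟨_, ⟨K, (D + Y') * U * adj N M (D + Y') + D * adj N M Y', X',
    (((hY.mul Γ hU).mul Γ (hY.adj Γ)).anti (by omega)).add
      ((hD.mul Γ (hY'.adj Γ)).anti (by omega)), hX'.anti (by omega), Eqv.refl _⟩, fun hz' => ?_⟩
  refine z_schur h1 h2 A hu hz N.z (Z.eqv ?_ hz')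
  rw [eY]
  refine Eqv.trans ?_ ((Eqv.refl N.φ).add (hψ.conj (D + Y')))
  have a : (D + Y') * (M.φ + U * sy ε M.φ + X0 * N0.φ * X0.ct) * (D + Y').ct =
      (D + Y') * M.φ * (D + Y').ct + ((D + Y') * U * adj N M (D + Y') * sy ε N.φ +
        (D + Y') * X0 * N0.φ * ((D + Y') * X0).ct) := by
    generalize D + Y' = Y
    rw [Hm.mul_assoc _ (adj N M Y), adj_mul_sy]
    simp only [conjTranspose_mul, Hm.mul_add, Hm.add_mul, Hm.mul_assoc, add_assoc]
  rw [a]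
  refine Eqv.trans (Eqv.of_eq ?_)
    ((Eqv.refl N.φ).add ((eqv_cross D Y' M.φ).add (Eqv.refl _)))
  rw [f, Hm.add_mul, Hm.mul_assoc D (adj N M Y'), adj_mul_sy, ← Hm.mul_assoc D]
  abel

end Pool.Agent.Work.MP_9d1ffa_al.Ct.Ru
end

-- merged part: Pool.Agent.Work.MP_9d1ffa_al.Rt.RZ
section
/-! Reduction to single orbits of pairs of positions.  Port of `../ULazB.lean`; the size of a
morphism is `(prs M.p N.p A).ncard` (finite by `prs_finite M.fp N.fp`; it drops strictly when an orbit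
is filtered out, `Set.ncard_lt_ncard`). -/

namespace Pool.Agent.Work.MP_9d1ffa_al.Ct.Ru

open MonoidAlgebra

set_option linter.unusedSectionVars false
set_option linter.unusedVariables false

variable {X G P : Type} [Group G] [MulAction G P] [Nonempty X] {ρ : G →* Equiv.Perm X}
  {rev : P → P} {mv : P → P → Prop} {hull : P → P → P} {ε : ℤˣ} {k : ℕ}

theorem RZ_size_lt {I J : Ob X} {p : I.I → P} {q : J.I → P} (hp : (Set.range p).Finite)
    (hq : (Set.range q).Finite) (R : P → P → Prop) (a : (OC ρ).Hom I J) (i : I.I) (j : J.I) (g : G)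
    (hg : (val a i j).coeff g ≠ 0) (hR : ¬ R (p i) (g • q j)) :
    (prs p q (mfil p q R a)).ncard < (prs p q a).ncard := by
  refine Set.ncard_lt_ncard ⟨?_, fun h => ?_⟩ (prs_finite hp hq a)
  · rintro _ ⟨i, j, g, e, rfl⟩
    refine ⟨i, j, g, fun e' => e ?_, rfl⟩
    rw [coeff_mfil, e', ite_self]
  · obtain ⟨i', j', g', e, e'⟩ := h ⟨i, j, g, hg, rfl⟩
    have := mOn_mfil p q R a i' j' g' e
    rw [← (Prod.mk.inj e').1, ← (Prod.mk.inj e').2] at this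
    exact hR this

theorem RZ_anti {M : Obj ρ rev ε k} {j j' : ℕ} (h : j ≤ j') {ψ : (OC ρ).Hom M.I M.I}
    (hψ : Rep mv M j' ψ) : Rep mv M j ψ := by
  obtain ⟨N, U, A, hU, hX, e⟩ := hψ
  exact ⟨N, U, A, hU.anti h, hX.anti h, e⟩

theorem RZ_addU {M : Obj ρ rev ε k} {j : ℕ} {ψ V : (OC ρ).Hom M.I M.I}
    (hψ : Rep mv M j ψ) (hV : JJ mv M M j V) : Rep mv M j (ψ + V * sy ε M.φ) := by
  obtain ⟨N, U, A, hU, hX, e⟩ := hψ
  refine ⟨N, U + V, A, hU.add hV, hX, (Eqv.of_eq ?_).trans (e.add (Eqv.refl _))⟩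
  rw [Hm.add_mul]
  abel

theorem RZ_addX {M N : Obj ρ rev ε k} {j : ℕ} {ψ : (OC ρ).Hom M.I M.I}
    {Y : (OC ρ).Hom M.I N.I} (hψ : Rep mv M j ψ) (hY : JJ mv M N j Y) :
    Rep mv M j (ψ + Y * N.φ * Y.ct) := by
  obtain ⟨N', U, A, hU, hX, e⟩ := hψ
  obtain ⟨K, W, hW, eW⟩ := exists_sum hX hY
  refine ⟨K, U, W, hU, hW, (Eqv.of_eq ?_).trans (e.add (Eqv.refl _))⟩
  rw [eW]
  abel

theorem RZ_adj_orb (Γ : Geo2 G rev mv hull) {M N : Obj ρ rev ε k} {σ τ : P}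
    {A : (OC ρ).Hom M.I N.I} (hX : MOn M.p N.p (Orb G σ τ) A) :
    MOn N.p M.p (Orb G (rev τ) (rev σ)) (adj M N A) :=
  (mOn_adj Γ (inv_orb σ τ) hX).mono fun b a ⟨γ, e1, e2⟩ =>
    ⟨γ, by rw [← Γ.re, ← e2, Γ.rr], by rw [← Γ.re, ← e1, Γ.rr]⟩

theorem RZ_PP (Γ : Geo2 G rev mv hull)
    (hloc : ∀ σ τ, mv σ τ → ∀ (M N : Obj ρ rev ε k) (A : (OC ρ).Hom M.I N.I),
      JJ mv M N 1 A → MOn M.p N.p (Orb G σ τ) A → Z ε (M.φ + A * N.φ * A.ct))
    {w : ℕ} (hw : 1 ≤ w) (hP : PZ ρ rev ε k mv (w + 1)) (n : ℕ) :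
    ∀ j, w + 1 ≤ j → k ≤ j + n → ∀ (M N : Obj ρ rev ε k) (σ τ : P), mv σ τ →
      ∀ A : (OC ρ).Hom M.I N.I, JJ mv M N w A → MOn M.p N.p (Orb G σ τ) A →
        ∀ ψ, Rep mv M j ψ → Z ε (ψ + A * N.φ * A.ct) := by
  induction n with
  | zero =>
    intro j hj hk M N σ τ hm A hX hO ψ hψ
    obtain ⟨N', U, Y, hU, hY, e⟩ := hψ
    rw [hU.eq_zero hk, hY.eq_zero hk] at e
    simp only [Hm.zero_mul, add_zero] at e
    exact Z.eqv (e.add (Eqv.refl _)) (hloc σ τ hm M N A (hX.anti hw) hO)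
  | succ n ih =>
    intro j hj hk M N σ τ hm A hX hO ψ hψ
    have hz : Z ε ψ := rep_absorb Γ (by omega) hP (RZ_anti hj hψ)
    obtain ⟨ψ', h1, h2⟩ := rep_schur Γ (by omega) hw hψ hz hX
    exact h2 (ih (j + 1) (by omega) (by omega) N M (rev τ) (rev σ) (Γ.sym σ τ hm) _ (hX.adj Γ)
      (RZ_adj_orb Γ hO) ψ' (RZ_anti (by omega) h1))

theorem RZ_D (Γ : Geo2 G rev mv hull)
    (hloc : ∀ σ τ, mv σ τ → ∀ (M N : Obj ρ rev ε k) (A : (OC ρ).Hom M.I N.I),
      JJ mv M N 1 A → MOn M.p N.p (Orb G σ τ) A → Z ε (M.φ + A * N.φ * A.ct))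
    {w : ℕ} (hw : 1 ≤ w) (hP : PZ ρ rev ε k mv (w + 1)) (M N : Obj ρ rev ε k) (n : ℕ) :
    ∀ (A : (OC ρ).Hom M.I N.I) (ψ : (OC ρ).Hom M.I M.I), (prs M.p N.p A).ncard < n →
      JJ mv M N w A → Rep mv M (w + 1) ψ → Z ε (ψ + A * N.φ * A.ct) := by
  induction n with
  | zero => intro A ψ h; omega
  | succ n ih =>
    intro A ψ hn hX hψ
    by_cases h0 : A = 0
    · rw [h0, Hm.zero_mul, Hm.zero_mul, add_zero]
      exact rep_absorb Γ (by omega) hP hψ
    obtain ⟨i, j, g, hg⟩ : ∃ i j g, (val A i j).coeff g ≠ 0 := by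
      by_contra hne
      push Not at hne
      exact h0 (hom_ext fun i j g => by simpa [val_zero] using hne i j g)
    have hO := inv_orb (G := G) (M.p i) (g • N.p j)
    have hO' : Inv G fun x y => ¬ Orb G (M.p i) (g • N.p j) x y :=
      fun γ x y h e => h ((hO.iff γ x y).1 e)
    have ha1 := hX.mfil Γ hO
    have ha2 := hX.mfil Γ hO'
    have hs := mfil_add_not M.p N.p (Orb G (M.p i) (g • N.p j)) A
    have hlt := RZ_size_lt M.fp N.fp (fun x y => ¬ Orb G (M.p i) (g • N.p j) x y) A i j g hg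
      (fun h => h ⟨1, by simp, by simp⟩)
    have hon := mOn_mfil M.p N.p (Orb G (M.p i) (g • N.p j)) A
    have hm : mv (M.p i) (g • N.p j) := hX.1 i j g hg
    generalize mfil M.p N.p (Orb G (M.p i) (g • N.p j)) A = A₀ at ha1 hs hon
    generalize mfil M.p N.p (fun x y => ¬ Orb G (M.p i) (g • N.p j) x y) A = A₁ at ha2 hs hlt
    have r0 : Rep mv M (w + 1) (ψ + A₀ * adj M N A₁ * sy ε M.φ) :=
      RZ_addU hψ ((ha1.mul Γ (ha2.adj Γ)).anti (by omega))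
    have z1 := ih A₁ _ (by omega) ha2 r0
    have r1 := RZ_addX (RZ_anti (Nat.le_succ w) r0) ha2
    obtain ⟨ψ', h1, h2⟩ := rep_schur Γ hw hw r1 z1 ha1
    have z2 := h2 (RZ_PP Γ hloc hw hP k (w + 1) le_rfl (by omega) N M _ _ (Γ.sym _ _ hm) _
      (ha1.adj Γ) (RZ_adj_orb Γ hon) ψ' (RZ_anti (by omega) h1))
    refine Z.eqv ((Eqv.of_eq ?_).trans ((Eqv.refl ψ).add (eqv_cross A₀ A₁ N.φ))) z2 |> (hs ▸ ·)
    rw [Hm.mul_assoc A₀ (adj M N A₁), adj_mul_sy, ← Hm.mul_assoc]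
    abel

theorem laz_main (Γ : Geo2 G rev mv hull)
    (hloc : ∀ σ τ, mv σ τ → ∀ (M N : Obj ρ rev ε k) (A : (OC ρ).Hom M.I N.I),
      JJ mv M N 1 A → MOn M.p N.p (Orb G σ τ) A → Z ε (M.φ + A * N.φ * A.ct)) :
    PZ ρ rev ε k mv 1 := by
  have key : ∀ n w : ℕ, 1 ≤ w → k ≤ w + n → PZ ρ rev ε k mv w := by
    intro n
    induction n with
    | zero =>
      intro w hw hk M N A hX
      rw [hX.eq_zero hk, Hm.zero_mul, Hm.zero_mul, add_zero]
      exact M.z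
    | succ n ih =>
      intro w hw hk M N A hX
      exact RZ_D Γ hloc hw (ih (w + 1) (by omega) (by omega)) M N _ A M.φ (Nat.lt_succ_self _)
        hX ⟨M, 0, 0, JJ.zero, JJ.zero, Eqv.of_eq (by simp)⟩
  exact key k 1 le_rfl (by omega)

end Pool.Agent.Work.MP_9d1ffa_al.Ct.Ru
end

-- merged part: Pool.Agent.Work.MP_9d1ffa_al.Rt.RL
section
/-! The reduction theorem and its higher levels.  `ll_main` and `locZ_level` are ports of
`../ULev.lean`.  `locZ_step` is proved like `locZ_level` with `geo2_big` in place of `Geo2.eqStab`.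
`locZ_fix`: `z_fix`, `ns_of_nil`, `Nil2.zsmul`, `Nil2.nilP`, `NilP.isNilpotent`, `sup_fromBlocks`. -/

namespace Pool.Agent.Work.MP_9d1ffa_al.Ct.Ru

open MonoidAlgebra

set_option linter.unusedSectionVars false
set_option linter.unusedVariables false

open MulAction

variable {X G P : Type} [Group G] [MulAction G P] [Nonempty X] {ρ : G →* Equiv.Perm X}
  {rev : P → P} {mv : P → P → Prop} {hull : P → P → P} {ε : ℤˣ} {k : ℕ}

theorem ll_main (Γ : Geo2 G rev mv hull)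
    (hloc : ∀ σ τ, mv σ τ → (∃ g : G, g • σ = rev σ) → (∃ g : G, g • τ = rev τ) →
      LocZ ρ rev ε σ τ (hull σ τ))
    {I : Ob X} (p : I.I → P) (hp : (Set.range p).Finite) (ψ : (OC ρ).Hom (I + I) (I + I))
    (hψ : MOn (I := I + I) (J := I + I) (Sum.elim p fun i => rev (p i))
      (Sum.elim p fun i => rev (p i)) (fun a b => mv a (rev b)) ψ)
    (hn : NilP (I := I + I) (Sum.elim p fun i => rev (p i))
      (sy ε ψ * fromBlocks 0 ((ε : ℤ) • 1) 1 0)) :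
    Z ε (hypF (OC ρ) I + ψ) := by
  refine witness Γ (fun k => laz_main Γ fun σ τ h M N A hA ho => refine_orb Γ h ?_ M N A hA ho)
    p hp ψ hψ hn
  by_cases a : ∃ g : G, g • σ = rev σ
  · by_cases b : ∃ g : G, g • τ = rev τ
    · exact hloc σ τ h a b
    · exact locZ_of_not (Or.inr b)
  · exact locZ_of_not (Or.inl a)

theorem RL_gen (Γ : Geo2 G rev mv hull) {E : P → P → Prop}
    (Γ' : Geo2 G rev (fun a b => mv a b ∧ E a b) hull) {σ τ : P} (h : mv σ τ)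
    (hA : ∀ g : G, g • τ = rev τ → E (hull σ τ) (rev (g • hull σ τ)))
    (hB : ∀ g : G, g • σ = rev σ → E (rev (hull σ τ)) (g • hull σ τ))
    (hloc : ∀ σ' τ', mv σ' τ' ∧ E σ' τ' →
      (∃ g : G, g • σ' = rev σ') → (∃ g : G, g • τ' = rev τ') → LocZ ρ rev ε σ' τ' (hull σ' τ')) :
    LocZ ρ rev ε σ τ (hull σ τ) := by
  intro J A B hA' hB' hn
  have m1 : mv σ (hull σ τ) := Γ.hl _ _ h
  have m2 : mv (hull σ τ) τ := by
    have := Γ.sym _ _ (Γ.hl _ _ (Γ.sym _ _ h))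
    rwa [← Γ.rh, Γ.rr, Γ.rr] at this
  have e1 : hypF (OC ρ) J + fromBlocks A 0 0 B = fromBlocks A 1 0 B := by
    simp only [hypF, fromBlocks_add, zero_add, add_zero]
  have e2 : sy ε (fromBlocks A 0 0 B) * fromBlocks 0 ((ε : ℤ) • 1) 1 0 =
      fromBlocks 0 ((ε : ℤ) • sy ε A) ((1 : ℤ) • sy ε B) 0 := by
    rw [sy_blocks, fromBlocks_multiply]
    simp only [conjTranspose_zero, smul_zero, add_zero, Hm.mul_zero,
      Hm.mul_smul, Hm.mul_one, zero_add, one_smul]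
  rw [← e1]
  refine ll_main Γ' hloc (fun _ => hull σ τ) ((Set.finite_singleton _).subset Set.range_const_subset)
    _ (mOn_fromBlocks.2 ⟨fun i j g e => ?_, mOn_zero _ _ _, mOn_zero _ _ _, fun i j g e => ?_⟩) ?_
  · have hg := hA' i j g e
    refine ⟨Γ.tr _ _ _ m2 ?_, hA g hg⟩
    have := Γ.sym _ _ (Γ.inv g _ _ m2)
    rwa [hg, Γ.rr] at this
  · have hg := hB' i j g e
    simp only [Sum.elim_inr, ← Γ.re, Γ.rr]
    refine ⟨Γ.tr _ _ _ (Γ.sym _ _ m1) ?_, hB g hg⟩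
    have := Γ.inv g _ _ m1
    rwa [hg] at this
  · rw [e2]
    exact (hn.zsmul _ _).nilP

theorem locZ_level (Γ : Geo2 G rev mv hull) {σ τ : P} (h : mv σ τ)
    (hA : ∀ g : G, g • τ = rev τ → stabilizer G (g • hull σ τ) = stabilizer G (hull σ τ))
    (hB : ∀ g : G, g • σ = rev σ → stabilizer G (g • hull σ τ) = stabilizer G (hull σ τ))
    (hloc : ∀ σ' τ', mv σ' τ' → stabilizer G σ' = stabilizer G τ' →
      (∃ g : G, g • σ' = rev σ') → (∃ g : G, g • τ' = rev τ') → LocZ ρ rev ε σ' τ' (hull σ' τ')) :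
    LocZ ρ rev ε σ τ (hull σ τ) := by
  have sr : ∀ x : P, stabilizer G (rev x) = stabilizer G x := fun x => by
    ext g
    simp only [mem_stabilizer_iff, ← Γ.re]
    exact ⟨Γ.rev_inj, congrArg rev⟩
  exact RL_gen Γ Γ.eqStab h (fun g hg => ((sr _).trans (hA g hg)).symm)
    (fun g hg => (sr _).trans (hB g hg).symm) fun σ' τ' h' => hloc σ' τ' h'.1 h'.2

theorem geo2_big (Γ : Geo2 G rev mv hull) (Big : P → Prop) (h1 : ∀ (g : G) a, Big a → Big (g • a))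
    (h2 : ∀ a, Big a → Big (rev a)) (h3 : ∀ a b, mv a b → Big a → Big (hull a b)) :
    Geo2 G rev (fun a b => mv a b ∧ Big a ∧ Big b) hull := by
  exact ⟨Γ.rr, Γ.re, fun g a b e => ⟨Γ.inv g a b e.1, h1 g a e.2.1, h1 g b e.2.2⟩,
    fun a b c e e' => ⟨Γ.tr a b c e.1 e'.1, e.2.1, e'.2.2⟩,
    fun a b e => ⟨Γ.sym a b e.1, h2 b e.2.2, h2 a e.2.1⟩, Γ.eqv, fun a b e => Γ.stab a b e.1,
    fun a b e => ⟨Γ.hl a b e.1, e.2.1, h3 a b e.1 e.2.1⟩, Γ.rh⟩

theorem locZ_step (Γ : Geo2 G rev mv hull) (Big : P → Prop)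
    (h1 : ∀ (g : G) a, Big a → Big (g • a)) (h2 : ∀ a, Big a → Big (rev a))
    (h3 : ∀ a b, mv a b → Big a → Big (hull a b)) {σ τ : P} (h : mv σ τ) (hb : Big (hull σ τ))
    (hloc : ∀ σ' τ', mv σ' τ' → Big σ' → Big τ' → LocZ ρ rev ε σ' τ' (hull σ' τ')) :
    LocZ ρ rev ε σ τ (hull σ τ) := by
  exact RL_gen Γ (geo2_big Γ Big h1 h2 h3) h (fun g _ => ⟨hb, h2 _ (h1 g _ hb)⟩)
    (fun g _ => ⟨h2 _ hb, h1 g _ hb⟩) fun σ' τ' h' _ _ => hloc σ' τ' h'.1 h'.2.1 h'.2.2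

theorem locZ_fix {σ τ η : P} (z : X) (h : ∀ g : G, (g • σ = rev σ ∨ g • τ = rev τ) → ρ g z = z) :
    LocZ ρ rev ε σ τ η := by
  intro J A B hA hB hn
  refine z_fix z (sup_fromBlocks.2 ⟨hA.mono fun g hg => h g (Or.inr hg), sup_one.mono ?_, sup_zero,
    hB.mono fun g hg => h g (Or.inl hg)⟩) (ns_of_nil (hn.zsmul _ _).nilP.isNilpotent)
  rintro _ rfl
  rw [map_one]
  rfl

end Pool.Agent.Work.MP_9d1ffa_al.Ct.Ru
end
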