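import Pool.Agent.Work.MP_9d1ffa_al.Rt.LSw
import Pool.Agent.Work.MP_9d1ffa_al.Rt.RL
import Pool.Agent.Work.MP_9d1ffa_al.Ct.CSp

/-! A linear form with trivial edge frame is stably hyperbolic. -/

namespace Pool.Agent.Work.MP_9d1ffa_al.Ct.Rl

set_option linter.unusedSectionVars false
set_option linter.unusedVariables false

open MonoidAlgebra

variable {X Γ V : Type} [Group Γ] [MulAction Γ V] {ε : ℤˣ} {ρ : Γ →* Equiv.Perm X}
  {I J J' K L M N κ κ' : LOb X (V × V)}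
  {C : TC Γ V} {T : TU ρ C J J'}

theorem CSp_unsmul {S : V × V → V × V → Prop} {B : (LG ρ V).Hom L M}
    (h : Sup S ((ε : ℤ) • B)) : Sup S B := by
  have := h.zsmul (ε : ℤ)
  rwa [eps_eps] at this

theorem CSp_unneg {S : V × V → V × V → Prop} {B : (LG ρ V).Hom L M}
    (h : Sup S (-B)) : Sup S B := by
  have := h.neg
  rwa [neg_neg] at this

/-- with the trivial edge frame the vertex form is nonsingular -/
theorem CSp_vertex_ns {θ : (LV ρ V).Hom I I} {P : (LV ρ V).Hom I J} {Q : (LV ρ V).Hom I J'}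
    {μ : (LG ρ V).Hom I I}
    (h1 : sy ε (C.lin T θ P Q) * μ = 1) (h2 : μ * sy ε (C.lin T θ P Q) = 1)
    (h : C.EF T ε 1 θ P Q 1) :
    sy ε θ * rs C.vh μ = 1 ∧ rs C.vh μ * sy ε θ = 1 ∧
      Sup C.pos (T.T * (mp C.vh Q).ct * μ) ∧
      Sup C.pos (T.T * (mp C.vh Q).ct * μ * mp C.vh Q * T.T.ct) ∧
      Sup (fun x y => ¬ C.pos x y) ((mp C.vh P).ct * μ) ∧
      Sup (fun x y => ¬ C.pos x y.swap) ((mp C.vh P).ct * μ * mp C.vh P) := by
  obtain ⟨-, Y, hY, s1, s2, s3⟩ := h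
  rw [TC.sys_one, mp_one, Hm.one_mul] at hY
  have hY' : Y = fromRows (-(T.T * (mp C.vh Q).ct * μ)) ((ε : ℤ) • ((mp C.vh P).ct * μ)) := by
    rw [← Hm.mul_one Y, ← h1, ← Hm.mul_assoc, hY, TC.sig, fromRows_mul, Hm.neg_mul,
      Hm.smul_mul]
  have e0 : (1 : (LV ρ V).Hom (I + I) (I + I)).toBlocks₁₁ = 1 := by
    rw [← fromBlocks_one, toBlocks_fromBlocks₁₁]
  have e1 : (1 : (LA ρ V).Hom (J + J) (J + J)).toCols₁ = fromRows 1 0 := by
    simp
  have e2 : (1 : (LA ρ V).Hom (J + J) (J + J)).toCols₂ = fromRows 0 1 := by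
    simp
  rw [e0, Hm.one_mul] at s2 s3
  rw [e1, mp_fromRows, mp_zero] at s2
  rw [e2, mp_fromRows, mp_zero] at s3
  subst hY'
  rw [TC.side_fromRows] at s1
  rw [fromRows_mul, fromRows_add, fromRows_mul, TC.side_fromRows] at s2
  rw [fromRows_mul, fromRows_mul, fromRows_sub, TC.side_fromRows] at s3
  have a1 : Sup C.pos (T.T * (mp C.vh Q).ct * μ) := CSp_unneg s1.1
  have a3 : Sup (fun x y => ¬ C.pos x y) ((mp C.vh P).ct * μ) := CSp_unsmul s1.2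
  have a2 : Sup C.pos (T.T * (mp C.vh Q).ct * μ * mp C.vh Q * T.T.ct) := by
    have := s3.1
    rw [sub_zero, Hm.neg_mul, Hm.neg_mul] at this
    exact CSp_unneg this
  have a4 : Sup (fun x y => ¬ C.pos x y.swap) ((mp C.vh P).ct * μ * mp C.vh P) := by
    have := s2.2
    rw [add_zero, Hm.smul_mul, Hm.smul_mul] at this
    exact Sup.of_mul_tu (S := fun x y => ¬ C.pos x y) T (CSp_unsmul this)
  have a0 : sy ε θ * rs C.vh μ = 1 := by
    have := congrArg (rs C.vh) h1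
    have z1 : rs C.vh (T.T * (mp C.vh Q).ct * μ) = 0 := a1.rs_zero fun _ _ h e => C.npos_v e h
    have z2 : rs C.vh (T.T.ct * ((mp C.vh P).ct * μ)) = 0 := by
      refine (T.sup_ct.mul a3 (T := fun x y => C.O x.swap ∧ ¬ C.pos x.swap y) ?_).rs_zero
        fun x y hx e => hx.2 ((C.right e).2 (C.tpos ⟨hx.1, rfl⟩))
      rintro _ b _ ⟨o, rfl⟩ hb
      exact ⟨o, hb⟩
    rw [TC.sy_lin, Hm.add_mul, Hm.add_mul, Hm.smul_mul, rs_add, rs_add, rs_zsmul,
      rs_mp_mul, rs_one, Hm.mul_assoc (mp C.vh P), Hm.mul_assoc (mp C.vh P), rs_mp_mul, z1,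
      Hm.mul_assoc (mp C.vh Q * _), Hm.mul_assoc (mp C.vh Q), rs_mp_mul, z2,
      Hm.mul_zero, Hm.mul_zero, smul_zero, add_zero, add_zero] at this
    exact this
  exact ⟨a0, CSp_other a0, a1, a2, a3, a4⟩

theorem CSp_sy_fm (B : (LG ρ V).Hom J J) : sy ε (fm Eq B) = fm Eq (sy ε B) := by
  rw [sy, sy, fm_add, fm_zsmul, fm_ct, (sup_self B.ct).fm_congr (S₂ := Eq) fun _ _ _ => eq_comm]

theorem CSp_conj_fm {S S' : V × V → V × V → Prop} (T : TU ρ C J J') {B : (LG ρ V).Hom J' J'}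
    (h : Sup S' (T.T * B * T.T.ct)) : Sup S' (T.T * fm S B * T.T.ct) := by
  rw [← fm_mul_left (T := fun x y => S x.swap y) T.sup B (by
      rintro _ _ _ ⟨-, rfl⟩
      rfl),
    ← fm_mul_right (T := fun x y => S x.swap y.swap) _ T.sup_ct (by
      rintro _ _ _ ⟨-, rfl⟩
      rfl)]
  exact h.fm _

/-- the unitary nilpotent forms of the tree are stably hyperbolic -/
def TC.UN (C : TC Γ V) (ρ : Γ →* Equiv.Perm X) (ε : ℤˣ) : Prop :=
  ∀ (J : Ob X) (p : J.I → V × V), (Set.range p).Finite → ∀ ψ μ : (OC ρ).Hom (J + J) (J + J),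
    Ru.MOn (I := J + J) (J := J + J) (Sum.elim p fun i => (p i).swap)
      (Sum.elim p fun i => (p i).swap) (fun a b => stp C.d a b.swap) ψ →
    Ru.MOn (I := J + J) (J := J + J) (Sum.elim p fun i => (p i).swap)
      (Sum.elim p fun i => (p i).swap) (OSn_cone C.d) μ →
    (1 + sy ε ψ * fromBlocks 0 ((ε : ℤ) • 1) 1 0) * (1 + μ) = 1 → Z ε (hypF (OC ρ) J + ψ)

/-- the form left over after splitting off the vertex form -/
theorem z_rest (hU : C.UN ρ ε) (T : TU ρ C J J') {a b c d a' b' c' d' : (LG ρ V).Hom J J}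
    (n11 : Sup (fun x y => x.2 = y.2 ∧ ¬ x = y) a) (n12 : Sup (fun x y => x.2 = y.1) b)
    (n21 : Sup (fun x y => x.1 = y.2) c) (n22 : Sup (fun x y => x.1 = y.1 ∧ ¬ x = y) d)
    (m11 : Sup C.pos a') (m12 : Sup C.pos b') (m21 : Sup (fun x y => ¬ C.pos x y.swap) c')
    (m22 : Sup (fun x y => ¬ C.pos x y.swap) d')
    (h : (1 + sy ε (fromBlocks a b c d) * fromBlocks 0 ((ε : ℤ) • 1) 1 0) *
      (1 + fromBlocks a' b' c' d') = 1) :
    Z ε (hypF (OC ρ) J.ob + vo (fromBlocks a b c d)) := by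
  have o : ∀ {S : V × V → V × V → Prop} {A : (LG ρ V).Hom J J}, Sup S A → ∀ i j g,
      (val (vo A) i j).coeff g ≠ 0 → (C.O (J.lab i) ∧ C.O (g • J.lab j)) ∧
        S (J.lab i) (g • J.lab j) := fun {S A} h =>
    (((T.sup_row A).and (T.sup_col A)).and h).mOn
  have d1 : ∀ {x : V × V}, C.O x → C.d x.2 x.1 = 1 := fun h => (C.tr.symm _ _).trans (C.Oadj _ h)
  have np : ∀ {x y : V × V}, C.O x → ¬ C.pos x y → OSn_cone C.d x.swap y := fun {x y} h k => by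
    have := adj_cases C.tr (C.Oadj x h) y.1
    have k' : ¬ C.d y.1 x.2 < C.d y.1 x.1 := fun e => k ⟨h, e⟩
    exact ⟨d1 h, by simp only [Prod.fst_swap, Prod.snd_swap]; omega⟩
  refine hU J.ob J.lab J.fin _ (vo (fromBlocks a' b' c' d')) ?_ ?_ (congrArg vo h)
  · refine Ru.mOn_fromBlocks.2 ⟨fun i j g e => ?_, fun i j g e => ?_, fun i j g e => ?_,
      fun i j g e => ?_⟩
    · obtain ⟨⟨x, y⟩, z, w⟩ := o n11 i j g e
      exact ⟨z.symm, C.Oadj _ x, d1 y, fun k => w (Prod.ext k.symm z)⟩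
    · obtain ⟨⟨x, y⟩, z⟩ := o n12 i j g e
      exact ⟨z.symm, C.Oadj _ x, C.Oadj _ y, fun k =>
        C.Oanti _ x ((Prod.ext z.symm k : g • J.lab j = (J.lab i).swap) ▸ y)⟩
    · obtain ⟨⟨x, y⟩, z⟩ := o n21 i j g e
      exact ⟨z.symm, d1 x, d1 y, fun k =>
        C.Oanti _ x ((Prod.ext k z.symm : g • J.lab j = (J.lab i).swap) ▸ y)⟩
    · obtain ⟨⟨x, y⟩, z, w⟩ := o n22 i j g e
      exact ⟨z.symm, d1 x, C.Oadj _ y, fun k => w (Prod.ext z k.symm)⟩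
  · refine Ru.mOn_fromBlocks.2 ⟨fun i j g e => ?_, fun i j g e => ?_, fun i j g e => ?_,
      fun i j g e => ?_⟩
    · obtain ⟨⟨x, y⟩, z⟩ := o m11 i j g e
      exact ⟨C.Oadj _ x, z.2⟩
    · obtain ⟨⟨x, y⟩, z⟩ := o m12 i j g e
      exact ⟨C.Oadj _ x, (C.up z ⟨y, rfl⟩).2⟩
    · obtain ⟨⟨x, y⟩, z⟩ := o m21 i j g e
      exact np x fun k => z (C.up k ⟨y, rfl⟩)
    · obtain ⟨⟨x, y⟩, z⟩ := o m22 i j g e
      exact np x z

theorem TC.Rep.split_one [Nonempty V] (hV : Van0 (LV ρ V) ε) (hU : C.UN ρ ε)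
    (h2 : ∀ r s : Γ, r * r = 1 → s * s = 1 → ∃ z, ρ r z = z ∧ ρ s z = z)
    {x : L0 (LG ρ V) ε} (h : C.Rep T ε x (1 : (LA ρ V).Hom (J + J) (J + J))) : x = 0 := by
  obtain ⟨I, θ, P, Q, hns, hef, rfl⟩ := h
  obtain ⟨μ, l1, l2⟩ := hns.inv
  obtain ⟨a0, a0', a1, a2, a3, a4⟩ := CSp_vertex_ns l1 l2 hef
  have b4 : mp C.vh (P.ct * rs C.vh μ * P) =
      fm ((sV V).r) ((mp C.vh P).ct * μ * mp C.vh P) := by
    rw [← mp_rs (f := C.vh), rs_mul_mp, ← mp_ct, rs_mp_mul]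
  have b2 : mp C.vh (Q.ct * rs C.vh μ * Q) =
      fm ((sV V).r) ((mp C.vh Q).ct * μ * mp C.vh Q) := by
    rw [← mp_rs (f := C.vh), rs_mul_mp, ← mp_ct, rs_mp_mul]
  generalize rs C.vh μ = m at a0 a0' b2 b4
  have k1 : sy ε (mp C.vh θ) * mp C.vh m = 1 := by rw [← mp_sy, ← mp_mul, a0, mp_one]
  have k2 : mp C.vh m * sy ε (mp C.vh θ) = 1 := by rw [← mp_sy, ← mp_mul, a0', mp_one]
  have nθ : NS ε θ := ns_of_left a0'
  set F : (LG ρ V).Hom I (J + J) := fromCols (mp C.vh P) (mp C.vh Q * T.T.ct) with hF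
  have hFc : F.ct = fromRows (mp C.vh P).ct (T.T * (mp C.vh Q).ct) := by
    rw [hF, conjTranspose_fromCols_eq_fromRows_conjTranspose, conjTranspose_mul,
      conjTranspose_conjTranspose]
  have hlin : mp C.vh θ + F * hypF (LG ρ V) J * F.ct = C.lin T θ P Q := by
    rw [hFc, hF, hypF, fromCols_mul_fromBlocks, fromCols_mul_fromRows, TC.lin]
    simp only [Hm.mul_zero, add_zero, zero_add, Hm.mul_one, Hm.zero_mul,
      Hm.mul_assoc]
  set R : (LG ρ V).Hom (J + J) I := sy ε (hypF (LG ρ V) J) * F.ct with hR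
  have hR1 : R = fromRows (T.T * (mp C.vh Q).ct) ((ε : ℤ) • (mp C.vh P).ct) := by
    rw [hR, hFc, CSp_sy_hyp, fromBlocks_mul_fromRows]
    simp only [Hm.zero_mul, add_zero, zero_add, Hm.one_mul, Hm.smul_mul]
  have hFR : F * R = sy ε (C.lin T θ P Q) - sy ε (mp C.vh θ) := by
    rw [← hlin, sy_add, sy_conj, hR, Hm.mul_assoc, add_sub_cancel_left]
  have hu : IsUnit (1 + F * (R * mp C.vh m)) := by
    rw [← Hm.mul_assoc, hFR, Hm.sub_mul, k1, add_sub_cancel]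
    exact IsUnit.mul hns ⟨⟨_, _, k2, k1⟩, rfl⟩
  have hiso := schur k1 k2 (hypF (LG ρ V) J) F hu
  rw [hlin, ← hR] at hiso
  set ξ : (LG ρ V).Hom (J + J) (J + J) := R * mp C.vh m * mp C.vh θ * (R * mp C.vh m).ct with hξ
  have nξ : NS ε (hypF (LG ρ V) J + ξ) := (NS.iso hiso ((ns_mp C.vh nθ).sum ns_hyp)).right
  have hcls := cls_iso hiso
  rw [cls_sum (ns_mp C.vh nθ) ns_hyp, cls_sum hns nξ, (cls_eq_zero ns_hyp).2 (z_hyp J), add_zero,
    (cls_eq_zero (ns_mp C.vh nθ)).2 (z_mp C.vh (hV _ _ nθ))] at hcls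
  have hM : sy ε (m * θ * m.ct) = (ε : ℤ) • m := by
    rw [sy_conj, a0', Hm.one_mul, inv_ct a0 a0']
  have hξ1 : ξ = R * mp C.vh (m * θ * m.ct) * R.ct := by
    rw [hξ, mp_mul, mp_mul, mp_ct, conjTranspose_mul]
    simp only [Hm.mul_assoc]
  generalize m * θ * m.ct = M at hM hξ1
  have hξ2 : ξ = fromBlocks (T.T * mp C.vh (Q.ct * M * Q) * T.T.ct)
      ((ε : ℤ) • (T.T * mp C.vh (Q.ct * M * P))) ((ε : ℤ) • (mp C.vh (P.ct * M * Q) * T.T.ct))
      (mp C.vh (P.ct * M * P)) := by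
    rw [hξ1, hR1, conjTranspose_fromRows_eq_fromCols_conjTranspose, fromRows_mul,
      fromRows_mul_fromCols]
    simp only [conjTranspose_mul, conjTranspose_conjTranspose, ct_zsmul, mp_mul, mp_ct,
      Hm.smul_mul, Hm.mul_smul, eps_eps, Hm.mul_assoc]
  set D : (LG ρ V).Hom (J + J) (J + J) :=
    fromBlocks (fm Eq (T.T * mp C.vh (Q.ct * M * Q) * T.T.ct)) 0 0
      (fm Eq (mp C.vh (P.ct * M * P))) with hD
  have hD0 : sy ε D = 0 := by
    have c1 : sy ε (T.T * mp C.vh (Q.ct * M * Q) * T.T.ct) =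
        (ε : ℤ) • (T.T * mp C.vh (Q.ct * m * Q) * T.T.ct) := by
      rw [sy_conj, ← mp_sy]
      have := sy_conj (ε := ε) Q.ct M
      rw [conjTranspose_conjTranspose] at this
      rw [this, hM, Hm.mul_smul, Hm.smul_mul, mp_zsmul, Hm.mul_smul, Hm.smul_mul]
    have c2 : sy ε (mp C.vh (P.ct * M * P)) = (ε : ℤ) • mp C.vh (P.ct * m * P) := by
      rw [← mp_sy]
      have := sy_conj (ε := ε) P.ct M
      rw [conjTranspose_conjTranspose] at this
      rw [this, hM, Hm.mul_smul, Hm.smul_mul, mp_zsmul]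
    have d1 : Sup C.pos (T.T * mp C.vh (Q.ct * m * Q) * T.T.ct) := by
      rw [b2]
      refine CSp_conj_fm T ?_
      simpa only [Hm.mul_assoc] using a2
    have d2 : Sup (fun x y => ¬ C.pos x y.swap) (mp C.vh (P.ct * m * P)) := by
      rw [b4]
      exact a4.fm _
    rw [hD, sy_blocks, CSp_sy_fm, CSp_sy_fm, c1, c2, (d1.zsmul _).fm_zero,
      ((d2.and (T.sup_col _)).zsmul _).fm_zero]
    · simp
    · rintro _ _ hg rfl
      exact hg.1 (C.tpos ⟨hg.2, rfl⟩)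
    · rintro _ _ hg rfl
      exact C.npos_v rfl hg
  have hξD : ξ - D = fromBlocks (T.T * mp C.vh (Q.ct * M * Q) * T.T.ct -
        fm Eq (T.T * mp C.vh (Q.ct * M * Q) * T.T.ct))
      ((ε : ℤ) • (T.T * mp C.vh (Q.ct * M * P))) ((ε : ℤ) • (mp C.vh (P.ct * M * Q) * T.T.ct))
      (mp C.vh (P.ct * M * P) - fm Eq (mp C.vh (P.ct * M * P))) := by
    rw [hξ2, hD, sub_eq_add_neg, fromBlocks_neg, fromBlocks_add]
    simp only [← sub_eq_add_neg, sub_zero]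
  have hμ : -(R * μ * F) = fromBlocks (-(T.T * (mp C.vh Q).ct * μ * mp C.vh P))
      (-(T.T * (mp C.vh Q).ct * μ * mp C.vh Q * T.T.ct))
      (-((ε : ℤ) • ((mp C.vh P).ct * μ * mp C.vh P)))
      (-((ε : ℤ) • ((mp C.vh P).ct * μ * mp C.vh Q * T.T.ct))) := by
    rw [hR1, hF, fromRows_mul, fromRows_mul_fromCols, fromBlocks_neg]
    simp only [Hm.smul_mul, Hm.mul_assoc]
  have hE : (1 + sy ε (ξ - D) * fromBlocks 0 ((ε : ℤ) • 1) 1 0) * (1 + -(R * μ * F)) = 1 := by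
    have c1 : sy ε (ξ - D) = R * mp C.vh m * F * sy ε (hypF (LG ρ V) J) := by
      rw [sub_eq_add_neg, sy_add, sy_neg, hD0, neg_zero, add_zero, hξ1, sy_conj, ← mp_sy, hM,
        mp_zsmul]
      conv_lhs => rw [hR, conjTranspose_mul, conjTranspose_conjTranspose, sy_ct, ← hR]
      simp only [Hm.mul_smul, Hm.smul_mul, eps_eps, Hm.mul_assoc]
    have c2 : sy ε (hypF (LG ρ V) J) * fromBlocks 0 ((ε : ℤ) • (1 : (LG ρ V).Hom J J)) 1 0 = 1 := by
      rw [CSp_sy_hyp, fromBlocks_multiply]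
      simp only [Hm.mul_zero, Hm.zero_mul, add_zero, zero_add, Hm.mul_one,
        Hm.smul_mul, Hm.one_mul, eps_eps, fromBlocks_one]
    have c3 : R * mp C.vh m * F * (R * μ * F) = R * mp C.vh m * F - R * μ * F := by
      calc R * mp C.vh m * F * (R * μ * F) = R * (mp C.vh m * ((F * R) * μ)) * F := by
            simp only [Hm.mul_assoc]
        _ = _ := by
            rw [hFR, Hm.sub_mul, l1, Hm.mul_sub, Hm.mul_one, ← Hm.mul_assoc _ _ μ,
              k2, Hm.one_mul, Hm.mul_sub, Hm.sub_mul]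
    rw [c1, Hm.mul_assoc _ (sy ε (hypF (LG ρ V) J)), c2, Hm.mul_one, add_mul, mul_add,
      mul_add, one_mul, one_mul, mul_one, mul_neg, c3]
    abel
  have hZ : Z ε (hypF (OC ρ) J.ob + vo (ξ - D)) := by
    have iE : Inv Γ (Eq : V × V → V × V → Prop) := fun g _ _ e => congrArg (g • ·) e
    have t1 : ∀ B : (LV ρ V).Hom J' J', Sup (fun x y => x.2 = y.2) (T.T * mp C.vh B * T.T.ct) :=
      fun B => (T.sup.mul (sup_mp _ _) (T := fun x y => x.2 = y.1) (by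
        rintro _ _ _ ⟨-, rfl⟩ e
        exact e)).mul T.sup_ct (by
          rintro _ _ _ e ⟨-, rfl⟩
          exact e)
    rw [hξD, hμ] at hE
    rw [hξD]
    refine z_rest hU T (sup_sub_fm iE (t1 _)) ((T.sup.mul (sup_mp _ _) ?_).zsmul _)
      (((sup_mp _ _).mul T.sup_ct ?_).zsmul _) (sup_sub_fm iE (sup_mp _ _))
      (a1.mul (sup_mp _ _) fun _ _ _ ha e => (C.right e).2 ha).neg a2.neg (a4.zsmul _).neg
      (((a3.mul (sup_mp _ _) (T := fun x y => ¬ C.pos x y)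
        fun _ _ _ ha e k => ha ((C.right e).1 k)).mul T.sup_ct ?_).zsmul _).neg hE
    · rintro _ _ _ ⟨-, rfl⟩ e
      exact e
    · rintro _ _ _ e ⟨-, rfl⟩
      exact e
    · rintro _ _ _ ha ⟨-, rfl⟩
      exact ha
  have hZ' : Z ε (hypF (LG ρ V) J + ξ) := z_of_vo (z_of_sub_hess h2 (D := vo D)
    ((vo_sy ε D).symm.trans (congrArg vo hD0)) (by
      rw [vo_add, add_sub_assoc]
      exact hZ))
  rw [(cls_eq_zero nξ).2 hZ', add_zero] at hcls
  exact hcls.symm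

end Pool.Agent.Work.MP_9d1ffa_al.Ct.Rl
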