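import Pool.Agent.Work.MP_9d1ffa_al.Rt.RO
import Pool.Agent.Work.MP_9d1ffa_al.Ct.CC
import Pool.Agent.Work.MP_9d1ffa_al.Geo
import Pool.Agent.Work.MP_9d1ffa_al.Rt.RL
import Pool.Agent.Work.MP_9d1ffa_al.Rt.RS
import Pool.Agent.Work.MP_9d1ffa_al.Rt.RDefs
import Pool.Agent.Work.MP_9d1ffa_al.Ct.CSp

-- merged part: Pool.Agent.Work.MP_9d1ffa_al.Rt.LD
section
/-! Cutting a tree along all its edges. -/

namespace Pool.Agent.Work.MP_9d1ffa_al.Ct.Rl

open MonoidAlgebra Pool.Agent.Work.MP_904812_al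

set_option linter.unusedSectionVars false
set_option linter.unusedVariables false

variable {X Γ V : Type} [Group Γ] [MulAction Γ V]

/-- all morphisms -/
noncomputable abbrev LG (ρ : Γ →* Equiv.Perm X) (V : Type) [MulAction Γ V] :
    SCat (LOb X (V × V)) := LC ρ (sT (V × V))

/-- the morphisms at the vertices -/
noncomputable abbrev LV (ρ : Γ →* Equiv.Perm X) (V : Type) [MulAction Γ V] :
    SCat (LOb X (V × V)) := LC ρ (sV V)

/-- the morphisms at the edges -/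
noncomputable abbrev LA (ρ : Γ →* Equiv.Perm X) (V : Type) [MulAction Γ V] :
    SCat (LOb X (V × V)) := LC ρ (sA (V × V))

/-- an action on a tree with an invariant orientation -/
structure TC (Γ V : Type) [Group Γ] [MulAction Γ V] where
  d : V → V → ℤ
  tr : Tr d
  iso : ∀ (g : Γ) x y, d (g • x) (g • y) = d x y
  O : V × V → Prop
  Oinv : ∀ (g : Γ) x, O x → O (g • x)
  Oadj : ∀ x, O x → d x.1 x.2 = 1
  Oanti : ∀ x, O x → ¬ O x.swap
  Otot : ∀ x : V × V, d x.1 x.2 = 1 → O x ∨ O x.swap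

namespace TC

variable (C : TC Γ V)

/-- `x` is a positive edge and the first vertex of `y` lies on its positive side -/
def pos (x y : V × V) : Prop := C.O x ∧ C.d y.1 x.2 < C.d y.1 x.1

/-- `x` is a positive edge and `y` is the opposite edge -/
def tt (x y : V × V) : Prop := C.O x ∧ y = x.swap

/-- all labels are positive edges -/
def Gd (J : LOb X (V × V)) : Prop := ∀ i, C.O (J.lab i)

theorem vh (C : TC Γ V) : AH (sV V) (sT (V × V)) := ⟨fun _ _ _ => trivial⟩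

theorem ih (C : TC Γ V) : AH (sA (V × V)) (sV V) := ⟨fun _ _ e => congrArg Prod.fst e⟩

theorem ah (C : TC Γ V) : AH (sA (V × V)) (sT (V × V)) := ⟨fun _ _ _ => trivial⟩

theorem inv_pos : Inv Γ C.pos := fun g x y h =>
  ⟨C.Oinv g x h.1, by simpa [C.iso] using h.2⟩

theorem inv_tt : Inv Γ C.tt := fun g x y h => ⟨C.Oinv g x h.1, h.2 ▸ rfl⟩

theorem right {x y z : V × V} (h : y.1 = z.1) : C.pos x z ↔ C.pos x y := by rw [pos, pos, h]

theorem npos_v {x y : V × V} (h : x.1 = y.1) : ¬ C.pos x y := fun e => by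
  have h1 := e.2
  have h2 := C.tr.nonneg y.1 x.2
  rw [h, C.tr.self] at h1
  omega

theorem tpos {x y : V × V} (h : C.tt x y) : C.pos x y := by
  obtain ⟨h, rfl⟩ := h
  have h1 := C.Oadj x h
  refine ⟨h, ?_⟩
  rw [Prod.fst_swap, C.tr.self, C.tr.symm, h1]
  omega

/-- crossing a positive edge -/
theorem pos_t {x y : V × V} (h : C.O y) : C.pos x y.swap ↔ C.pos x y ∨ x = y := by
  by_cases e : x = y
  · subst e
    exact ⟨fun _ => Or.inr rfl, fun _ => C.tpos ⟨h, rfl⟩⟩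
  by_cases k : C.O x
  · have := side_edge C.tr (C.Oadj x k) (C.Oadj y h) (fun c => e (Eq.symm c))
      fun c => C.Oanti x k ((show y = x.swap from c) ▸ h)
    simp only [pos, k, true_and, e, or_false, Prod.fst_swap]
    exact this.symm
  · simp [pos, k, e]

theorem up {x y z : V × V} (h : C.pos x y) (k : C.tt y z) : C.pos x z :=
  k.2 ▸ (C.pos_t k.1).2 (Or.inl h)

theorem npos_tinv {x y z : V × V} (h : ¬ C.pos x y) (k : C.tt z y) : ¬ C.pos x z :=
  fun e => h (C.up e k)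

theorem Gd.add {J L : LOb X (V × V)} (h : C.Gd J) (h' : C.Gd L) : C.Gd (J + L) := Sum.rec h h'

theorem gd_zero : C.Gd (0 : LOb X (V × V)) := fun i => i.elim

end TC

variable {ρ : Γ →* Equiv.Perm X} {I J J' L L' M M' : LOb X (V × V)}

/-- a unitary morphism that crosses the positive edges -/
structure TU (ρ : Γ →* Equiv.Perm X) (C : TC Γ V) (J J' : LOb X (V × V)) where
  T : (LG ρ V).Hom J J'
  gd : C.Gd J
  sup : Sup C.tt T
  u1 : T * T.ct = 1
  u2 : T.ct * T = 1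

namespace TU

variable {C : TC Γ V}

theorem unt (T : TU ρ C J J') : Unt T.T := ⟨T.u1, T.u2⟩

theorem sup_ct (T : TU ρ C J J') : Sup (fun x y => C.tt y x) T.T.ct := T.sup.ct

/-- the sum -/
noncomputable def sum (T : TU ρ C J J') (T' : TU ρ C L L') : TU ρ C (J + L) (J' + L') :=
  ⟨fromBlocks T.T 0 0 T'.T, TC.Gd.add C T.gd T'.gd,
    sup_fromBlocks.2 ⟨T.sup, sup_zero, sup_zero, T'.sup⟩, (T.unt.sum T'.unt).1,
    (T.unt.sum T'.unt).2⟩

theorem sum_T (T : TU ρ C J J') (T' : TU ρ C L L') : (T.sum T').T = fromBlocks T.T 0 0 T'.T := rfl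

/-- the crossing with a given source -/
noncomputable def src (ρ : Γ →* Equiv.Perm X) (h : C.Gd J) : TU ρ C J (rel J Prod.swap) where
  T := lt (I := J) (J := rel J Prod.swap) (1 : (OC ρ).Hom J.ob J.ob)
  gd := h
  sup := sup_of_mOn C.inv_tt fun i j g e => by
    have := Ru.mOn_one (G := Γ) (ρ := ρ) J.lab i j g e
    exact ⟨h i, congrArg Prod.swap this.symm⟩
  u1 := vo_inj ((Hm.one_mul _).trans (conjTranspose_one (𝒞 := OC ρ) (I := J.ob)))
  u2 := vo_inj ((Hm.mul_one _).trans (conjTranspose_one (𝒞 := OC ρ) (I := J.ob)))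

theorem sup_col (T : TU ρ C J J') {R : Setoid (V × V)} (Y : (LC ρ R).Hom L J) :
    Sup (fun _ y => C.O y) Y := Rl.sup_col (fun j g => C.Oinv g _ (T.gd j)) Y

theorem sup_row (T : TU ρ C J J') {R : Setoid (V × V)} (Y : (LC ρ R).Hom J L) :
    Sup (fun x _ => C.O x) Y := Rl.sup_row (fun j g => C.Oinv g _ (T.gd j)) Y

end TU

theorem Sup.of_mul_tu {C : TC Γ V} {S : V × V → V × V → Prop} {A : (LG ρ V).Hom L J}
    (T : TU ρ C J J') (h : Sup S (A * T.T)) : Sup (fun x y => S x y.swap) A := by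
  rw [← Hm.mul_one A, ← T.u1, ← Hm.mul_assoc]
  exact h.mul T.sup_ct fun x y z e k => k.2 ▸ e

theorem Sup.of_tu_mul {C : TC Γ V} {S : V × V → V × V → Prop} {A : (LG ρ V).Hom J' L}
    (T : TU ρ C J J') (h : Sup S (T.T * A)) : Sup (fun x y => S x.swap y) A := by
  rw [← Hm.one_mul A, ← T.u2, Hm.mul_assoc]
  exact T.sup_ct.mul h fun x y z k e => by rwa [k.2, Prod.swap_swap]

namespace TC

variable (C : TC Γ V)

/-- the labels of the source of an isometric embedding at the edges -/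
theorem gd_of_iso (hJ : C.Gd J) {s : (LA ρ V).Hom L J} (hs : s * s.ct = 1) : C.Gd L := fun i => by
  classical
  have e : (val (vo s * (vo s).ct) i i).coeff 1 ≠ 0 := by
    rw [← vo_ct, ← vo_mul, hs, vo_one, val_one]
    simp [MonoidAlgebra.one_def]
  obtain ⟨j, a, b, -, h1, -⟩ := coeff_mul_ne e
  have := (sup_self s).mOn i j a h1
  exact (show L.lab i = a • J.lab j from this) ▸ C.Oinv a _ (hJ j)

theorem mp_va (U : (LA ρ V).Hom I J) : mp C.ah U = mp C.vh (mp C.ih U) := rfl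

/-- the image of a morphism at the edges at the other ends of the edges -/
noncomputable def jm (T₁ : TU ρ C J J') (T₂ : TU ρ C L L') (U : (LA ρ V).Hom J L) :
    (LV ρ V).Hom J' L' := rs C.vh (T₁.T.ct * mp C.ah U * T₂.T)

variable (T₁ : TU ρ C J J') (T₂ : TU ρ C L L') (T₃ : TU ρ C M M')

theorem mp_jm (U : (LA ρ V).Hom J L) : mp C.vh (C.jm T₁ T₂ U) = T₁.T.ct * mp C.ah U * T₂.T := by
  refine Sup.mp_rs ((T₁.sup_ct.mul (sup_mp C.ah U) (T := fun x y => x = y.swap) ?_).mul T₂.sup ?_)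
  · rintro _ _ _ ⟨-, rfl⟩ rfl
    rfl
  · rintro _ _ _ rfl ⟨-, rfl⟩
    rfl

theorem mp_va_dg (U : (LA ρ V).Hom J L) : mp C.ah U * T₂.T = T₁.T * mp C.vh (C.jm T₁ T₂ U) := by
  rw [mp_jm, ← Hm.mul_assoc, ← Hm.mul_assoc, T₁.u1, Hm.one_mul]

theorem jm_mul (U : (LA ρ V).Hom J L) (U' : (LA ρ V).Hom L M) :
    C.jm T₁ T₃ (U * U') = C.jm T₁ T₂ U * C.jm T₂ T₃ U' := mp_inj C.vh (by
  rw [mp_mul, mp_jm, mp_jm, mp_jm, mp_mul]
  simp only [Hm.mul_assoc]
  rw [← Hm.mul_assoc T₂.T, T₂.u1, Hm.one_mul])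

theorem jm_one : C.jm T₁ T₁ 1 = 1 := mp_inj C.vh (by
  rw [mp_jm, mp_one, mp_one, Hm.mul_one, T₁.u2])

theorem jm_ct (U : (LA ρ V).Hom J L) : C.jm T₂ T₁ U.ct = (C.jm T₁ T₂ U).ct := mp_inj C.vh (by
  rw [mp_ct, mp_jm, mp_jm, mp_ct, conjTranspose_mul, conjTranspose_mul,
    conjTranspose_conjTranspose, Hm.mul_assoc])

theorem jm_add (U U' : (LA ρ V).Hom J L) : C.jm T₁ T₂ (U + U') = C.jm T₁ T₂ U + C.jm T₁ T₂ U' := by
  rw [jm, jm, jm, mp_add, Hm.mul_add, Hm.add_mul, rs_add]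

theorem jm_sub (U U' : (LA ρ V).Hom J L) : C.jm T₁ T₂ (U - U') = C.jm T₁ T₂ U - C.jm T₁ T₂ U' := by
  rw [jm, jm, jm, mp_sub, Hm.mul_sub, Hm.sub_mul, rs_sub]

theorem jm_neg (U : (LA ρ V).Hom J L) : C.jm T₁ T₂ (-U) = -C.jm T₁ T₂ U := by
  rw [jm, jm, mp_neg, Hm.mul_neg, Hm.neg_mul, rs_neg]

theorem jm_zero : C.jm T₁ T₂ 0 = 0 := by
  rw [jm, mp_zero, Hm.mul_zero, Hm.zero_mul, rs_zero]

theorem jm_zsmul (n : ℤ) (U : (LA ρ V).Hom J L) : C.jm T₁ T₂ (n • U) = n • C.jm T₁ T₂ U := by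
  rw [jm, jm, mp_zsmul, Hm.mul_smul, Hm.smul_mul, rs_zsmul]

theorem jm_sy (ε : ℤˣ) (U : (LA ρ V).Hom J J) : C.jm T₁ T₁ (sy ε U) = sy ε (C.jm T₁ T₁ U) := by
  rw [sy, sy, jm_add, jm_zsmul, jm_ct]

theorem jm_blocks {N N' : LOb X (V × V)} (T₄ : TU ρ C N N') (a : (LA ρ V).Hom J M) (b : (LA ρ V).Hom J N)
    (c : (LA ρ V).Hom L M) (d : (LA ρ V).Hom L N) :
    C.jm (T₁.sum T₂) (T₃.sum T₄) (fromBlocks a b c d) =
      fromBlocks (C.jm T₁ T₃ a) (C.jm T₁ T₄ b) (C.jm T₂ T₃ c) (C.jm T₂ T₄ d) := by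
  rw [jm, jm, jm, jm, jm, TU.sum_T, TU.sum_T, mp_blocks, fromBlocks_conjTranspose,
    fromBlocks_multiply, fromBlocks_multiply, rs_blocks]
  simp only [conjTranspose_zero, Hm.zero_mul, Hm.mul_zero, add_zero, zero_add]

theorem jm_eq (U : (LA ρ V).Hom (J + J) (J + J)) : C.jm (T₁.sum T₁) (T₁.sum T₁) U =
    fromBlocks (C.jm T₁ T₁ U.toBlocks₁₁) (C.jm T₁ T₁ U.toBlocks₁₂) (C.jm T₁ T₁ U.toBlocks₂₁)
      (C.jm T₁ T₁ U.toBlocks₂₂) := by
  rw [← jm_blocks, fromBlocks_toBlocks]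

theorem uni_jm {η : ℤˣ} {U : (LA ρ V).Hom (J + J) (J + J)} (h : Uni η U) :
    Uni η (C.jm (T₁.sum T₁) (T₁.sum T₁) U) := by
  obtain ⟨U', -, h1, h2⟩ := h.inv
  obtain ⟨-, χ, h3⟩ := h
  have e : C.jm (T₁.sum T₁) (T₁.sum T₁) (hypF (LA ρ V) J) = hypF (LV ρ V) J' := by
    rw [hypF, hypF, jm_blocks, jm_zero, jm_one]
  refine ⟨⟨⟨_, C.jm (T₁.sum T₁) (T₁.sum T₁) U', ?_, ?_⟩, rfl⟩, C.jm (T₁.sum T₁) (T₁.sum T₁) χ, ?_⟩
  · exact (C.jm_mul _ _ _ _ _).symm.trans (by rw [h1, jm_one])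
  · exact (C.jm_mul _ _ _ _ _).symm.trans (by rw [h2, jm_one])
  · rw [← e, ← jm_ct, ← jm_ct, ← jm_mul, ← jm_mul, h3, jm_sub, jm_add, jm_zsmul]

variable (T : TU ρ C J J')

/-- a quadratic form that is linear in the stable letter -/
noncomputable def lin (θ : (LV ρ V).Hom I I) (P : (LV ρ V).Hom I J) (Q : (LV ρ V).Hom I J') :
    (LG ρ V).Hom I I :=
  mp C.vh θ + mp C.vh P * T.T * (mp C.vh Q).ct

/-- the sources placed at the two ends of the base edge -/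
noncomputable def sig (ε : ℤˣ) (P : (LV ρ V).Hom I J) (Q : (LV ρ V).Hom I J') :
    (LG ρ V).Hom (J + J) I :=
  fromRows (-(T.T * (mp C.vh Q).ct)) ((ε : ℤ) • (mp C.vh P).ct)

/-- the boundary values at the base edge -/
noncomputable def bd (W : (LV ρ V).Hom (I + I) (I + I)) (P : (LV ρ V).Hom I J)
    (Q : (LV ρ V).Hom I J') : (LG ρ V).Hom I (J + J) :=
  fromCols (mp C.vh (W.toBlocks₁₁ * P)) (mp C.vh (W.toBlocks₁₁ * Q) * T.T.ct)

/-- the system of a linear form with a boundary condition at the base vertex -/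
noncomputable def sys (ε : ℤˣ) (W : (LV ρ V).Hom (I + I) (I + I)) (θ : (LV ρ V).Hom I I)
    (P : (LV ρ V).Hom I J) (Q : (LV ρ V).Hom I J') : (LG ρ V).Hom I I :=
  sysM ε (mp C.vh W) (C.lin T θ P Q)

/-- the vertex form does not couple the edges, and `U` lists its boundary values -/
def Loc (ε : ℤˣ) (W : (LV ρ V).Hom (I + I) (I + I)) (θ : (LV ρ V).Hom I I) (P : (LV ρ V).Hom I J)
    (Q : (LV ρ V).Hom I J') (U : (LA ρ V).Hom (J + J) (J + J)) : Prop :=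
  ∃ (n₁ : (LV ρ V).Hom J' I) (n₂ : (LV ρ V).Hom J I),
    n₁ * (W.toBlocks₁₁ * P) = 0 ∧ n₁ * (W.toBlocks₁₁ * Q) = C.jm T T U.toBlocks₁₂ ∧
    n₁ * sysM ε W θ = -(C.jm T T U.toBlocks₁₁ * Q.ct) ∧
    n₂ * (W.toBlocks₁₁ * P) = -mp C.ih U.toBlocks₂₁ ∧ n₂ * (W.toBlocks₁₁ * Q) = 0 ∧
    n₂ * sysM ε W θ = (ε : ℤ) • (mp C.ih U.toBlocks₂₂ * P.ct)

/-- the upper rows are supported on the positive side and the lower rows on the other side -/
def Side (Y : (LG ρ V).Hom (J + J) L) : Prop :=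
  Sup C.pos Y.toRows₁ ∧ Sup (fun x y => ¬ C.pos x y) Y.toRows₂

/-- the rows of `U` are the boundary values of the solutions on the two sides of the base edge -/
def EF (ε : ℤˣ) (W : (LV ρ V).Hom (I + I) (I + I)) (θ : (LV ρ V).Hom I I) (P : (LV ρ V).Hom I J)
    (Q : (LV ρ V).Hom I J') (U : (LA ρ V).Hom (J + J) (J + J)) : Prop :=
  Uni (-ε) U ∧ ∃ Y : (LG ρ V).Hom (J + J) I,
    Y * C.sys T ε W θ P Q = mp C.ah U * C.sig T ε P Q ∧ C.Side Y ∧
    C.Side ((Y * mp C.vh (W.toBlocks₁₁ * P) + mp C.ah U.toCols₁) * T.T) ∧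
    C.Side (Y * mp C.vh (W.toBlocks₁₁ * Q) * T.T.ct - mp C.ah U.toCols₂)

/-- the form `φ` is, up to a hyperbolic summand, linear in the stable letter -/
def LinOK (ε : ℤˣ) (φ : (LG ρ V).Hom I I) : Prop :=
  ∃ (N : LOb X (V × V)) (κ : (LG ρ V).Hom N N) (Y : (LG ρ V).Hom I N) (J J' : LOb X (V × V)) (T : TU ρ C J J')
    (θ : (LV ρ V).Hom (I + N) (I + N)) (P : (LV ρ V).Hom (I + N) J) (Q : (LV ρ V).Hom (I + N) J'),
    NS ε κ ∧ Z ε κ ∧ Eqv ε (fromBlocks (φ + Y * κ * Y.ct) (Y * κ) (κ * Y.ct) κ) (C.lin T θ P Q)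

/-- the class `x` is represented by a linear form with edge frame `U` -/
def Rep (ε : ℤˣ) (x : L0 (LG ρ V) ε) (U : (LA ρ V).Hom (J + J) (J + J)) : Prop :=
  ∃ (I : LOb X (V × V)) (θ : (LV ρ V).Hom I I) (P : (LV ρ V).Hom I J) (Q : (LV ρ V).Hom I J'),
    NS ε (C.lin T θ P Q) ∧ C.EF T ε 1 θ P Q U ∧ cls ε (C.lin T θ P Q) = x

end TC

end Pool.Agent.Work.MP_9d1ffa_al.Ct.Rl
end

-- merged part: Pool.Agent.Work.MP_9d1ffa_al.Rt.LCut
section
/-! Filters along the positive edges. -/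

namespace Pool.Agent.Work.MP_9d1ffa_al.Ct.Rl

set_option linter.unusedSectionVars false
set_option linter.unusedVariables false

open MonoidAlgebra

variable {X Γ V : Type} [Group Γ] [MulAction Γ V] {ε : ℤˣ} {ρ : Γ →* Equiv.Perm X}
  {I J J' K L M N κ κ' : LOb X (V × V)}

theorem mp_sysM {R R' : Setoid (V × V)} (f : AH R R') (W : (LC ρ R).Hom (I + I) (I + I))
    (ψ : (LC ρ R).Hom I I) :
    mp f (sysM ε W ψ) = sysM ε (mp f W) (mp f ψ) := by
  rw [sysM, sysM, mp_sub, mp_mul, mp_sy, mp_toBlocks₁₁, mp_toBlocks₁₂]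

namespace TC

variable (C : TC Γ V) (T : TU ρ C J J')

theorem sy_lin (θ : (LV ρ V).Hom I I) (P : (LV ρ V).Hom I J) (Q : (LV ρ V).Hom I J') :
    sy ε (C.lin T θ P Q) = mp C.vh (sy ε θ) + mp C.vh P * T.T * (mp C.vh Q).ct +
      (ε : ℤ) • (mp C.vh Q * T.T.ct * (mp C.vh P).ct) := by
  rw [TC.lin, mp_sy, sy, sy, conjTranspose_add, conjTranspose_mul, conjTranspose_mul,
    conjTranspose_conjTranspose, smul_add, ← Hm.mul_assoc]
  abel

theorem sys_eq (W : (LV ρ V).Hom (I + I) (I + I)) (θ : (LV ρ V).Hom I I) (P : (LV ρ V).Hom I J)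
    (Q : (LV ρ V).Hom I J') :
    C.sys T ε W θ P Q = mp C.vh (sysM ε W θ) + mp C.vh (W.toBlocks₁₁ * P) * T.T * (mp C.vh Q).ct +
      (ε : ℤ) • (mp C.vh (W.toBlocks₁₁ * Q) * T.T.ct * (mp C.vh P).ct) := by
  rw [TC.sys, sysM, TC.sy_lin, mp_sysM, sysM, mp_sy, mp_mul, mp_mul, mp_toBlocks₁₁,
    Hm.mul_add, Hm.mul_add, Hm.mul_smul]
  simp only [Hm.mul_assoc]
  abel

theorem sys_one (θ : (LV ρ V).Hom I I) (P : (LV ρ V).Hom I J) (Q : (LV ρ V).Hom I J') :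
    C.sys T ε 1 θ P Q = sy ε (C.lin T θ P Q) := by
  rw [TC.sys, mp_one, sysM_one]

theorem fm_v (Y : (LG ρ V).Hom L I) (B : (LV ρ V).Hom I J) :
    fm C.pos (Y * mp C.vh B) = fm C.pos Y * mp C.vh B := by
  exact fm_mul_right Y (sup_mp C.vh B) fun _ _ _ e => C.right e

theorem fm_va (B : (LA ρ V).Hom L I) (Y : (LG ρ V).Hom I J) :
    fm C.pos (mp C.ah B * Y) = mp C.ah B * fm C.pos Y := by
  refine fm_mul_left (sup_mp C.ah B) Y ?_
  rintro _ _ _ rfl
  rfl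

theorem fm_t (Y : (LG ρ V).Hom L J) :
    fm C.pos (Y * T.T) = fm C.pos Y * T.T + mp C.ah (rs C.ah Y) * T.T := by
  rw [← Hm.add_mul, mp_rs, fm_mul_right (S := fun x y => C.pos x y.swap) Y T.sup
    (by rintro a _ _ ⟨-, rfl⟩; rfl), (T.sup_col Y).fm_congr fun x y h => C.pos_t h,
    fm_or C.inv_pos fun x y e k => C.npos_v (congrArg Prod.fst k) e]
  rfl

theorem fm_tinv (Y : (LG ρ V).Hom L J') :
    fm C.pos (Y * T.T.ct) = fm C.pos Y * T.T.ct - mp C.ah (rs C.ah (Y * T.T.ct)) := by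
  have h := C.fm_t T (Y * T.T.ct)
  rw [Hm.mul_assoc, T.u2, Hm.mul_one] at h
  rw [h, Hm.add_mul, Hm.mul_assoc, Hm.mul_assoc, T.u1, Hm.mul_one,
    Hm.mul_one, add_sub_cancel_right]

theorem key_pos (W : (LV ρ V).Hom (I + I) (I + I)) (θ : (LV ρ V).Hom I I) (P : (LV ρ V).Hom I J)
    (Q : (LV ρ V).Hom I J') (y : (LG ρ V).Hom L I) :
    fm C.pos y * C.sys T ε W θ P Q = fm C.pos (y * C.sys T ε W θ P Q) +
      mp C.ah (rs C.ah (y * C.bd T W P Q)) * C.sig T ε P Q := by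
  rw [TC.sys_eq, TC.bd, TC.sig, mul_fromCols, rs_fromCols, mp_fromCols, fromCols_mul_fromRows,
    ← mp_ct, ← mp_ct]
  simp only [Hm.mul_add, Hm.mul_smul, fm_add, fm_zsmul, ← Hm.mul_assoc, C.fm_v, C.fm_t,
    C.fm_tinv, Hm.add_mul, Hm.sub_mul, Hm.mul_neg, smul_sub]
  abel

theorem key_neg (W : (LV ρ V).Hom (I + I) (I + I)) (θ : (LV ρ V).Hom I I) (P : (LV ρ V).Hom I J)
    (Q : (LV ρ V).Hom I J') (y : (LG ρ V).Hom L I) :
    fm (fun x y => ¬ C.pos x y) y * C.sys T ε W θ P Q =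
      fm (fun x y => ¬ C.pos x y) (y * C.sys T ε W θ P Q) -
        mp C.ah (rs C.ah (y * C.bd T W P Q)) * C.sig T ε P Q := by
  have h1 := fm_add_not C.inv_pos y
  have h2 := fm_add_not C.inv_pos (y * C.sys T ε W θ P Q)
  rw [eq_sub_of_add_eq' h1, eq_sub_of_add_eq' h2, Hm.sub_mul, C.key_pos]
  abel

variable {C}

theorem Side.mul_v {Y : (LG ρ V).Hom (L + L) I} (h : C.Side Y) (B : (LV ρ V).Hom I J) :
    C.Side (Y * mp C.vh B) := by
  rw [Side, toRows₁_mul, toRows₂_mul]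
  constructor
  · exact h.1.mul (sup_mp C.vh B) fun _ _ _ ha e => (C.right e).2 ha
  · exact h.2.mul (sup_mp C.vh B) fun _ _ _ ha e k => ha ((C.right e).1 k)

theorem Side.add {Y Y' : (LG ρ V).Hom (L + L) I} (h : C.Side Y) (h' : C.Side Y') : C.Side (Y + Y') := by
  rw [Side, toRows₁_add, toRows₂_add]
  exact ⟨h.1.add h'.1, h.2.add h'.2⟩

theorem Side.neg {Y : (LG ρ V).Hom (L + L) I} (h : C.Side Y) : C.Side (-Y) := by
  rw [Side, toRows₁_neg, toRows₂_neg]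
  exact ⟨h.1.neg, h.2.neg⟩

theorem Side.zsmul {Y : (LG ρ V).Hom (L + L) I} (h : C.Side Y) (n : ℤ) : C.Side (n • Y) := by
  rw [Side, toRows₁_smul, toRows₂_smul]
  exact ⟨h.1.zsmul n, h.2.zsmul n⟩

theorem side_fromCols {Y : (LG ρ V).Hom (L + L) I} {Y' : (LG ρ V).Hom (L + L) J} :
    C.Side (fromCols Y Y') ↔ C.Side Y ∧ C.Side Y' := by
  rw [Side, toRows₁_fromCols, toRows₂_fromCols, sup_fromCols, sup_fromCols]
  exact and_and_and_comm

theorem side_fromRows {Y Y' : (LG ρ V).Hom L I} :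
    C.Side (fromRows Y Y') ↔ Sup C.pos Y ∧ Sup (fun x y => ¬ C.pos x y) Y' := by
  rw [Side, toRows₁_fromRows, toRows₂_fromRows]

end TC

end Pool.Agent.Work.MP_9d1ffa_al.Ct.Rl
end

-- merged part: Pool.Agent.Work.MP_9d1ffa_al.Rt.LLin
section
/-! Linearisation of quadratic forms along the edges of a tree. -/

namespace Pool.Agent.Work.MP_9d1ffa_al.Ct.Rl

set_option linter.unusedSectionVars false
set_option linter.unusedVariables false

open MonoidAlgebra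

variable {X Γ V : Type} [Group Γ] [MulAction Γ V] {ε : ℤˣ} {ρ : Γ →* Equiv.Perm X}
  {I J J' K L M N κ κ' : LOb X (V × V)}

section

variable {C : TC Γ V} {φ φ' : (LG ρ V).Hom I I}

/-- the form is linear in the stable letter -/
def CLin_L (C : TC Γ V) (ε : ℤˣ) (F : (LG ρ V).Hom I I) : Prop :=
  ∃ (J J' : LOb X (V × V)) (T : TU ρ C J J') (θ : (LV ρ V).Hom I I) (P : (LV ρ V).Hom I J)
    (Q : (LV ρ V).Hom I J'), Eqv ε F (C.lin T θ P Q)

theorem CLin_mk {k : (LG ρ V).Hom J J} (hz : Z ε k) (Y : (LG ρ V).Hom I J)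
    (h : CLin_L C ε (CLin_ext φ Y k)) : C.LinOK ε φ :=
  let ⟨K, K', T, θ, P, Q, h⟩ := h
  ⟨J, k, Y, K, K', T, θ, P, Q, hz.ns, hz, h⟩

theorem CLin_out (h : C.LinOK ε φ) : ∃ (N : LOb X (V × V)) (k : (LG ρ V).Hom N N) (Y : (LG ρ V).Hom I N),
    Z ε k ∧ CLin_L C ε (CLin_ext φ Y k) :=
  let ⟨N, k, Y, K, K', T, θ, P, Q, _, hz, h⟩ := h
  ⟨N, k, Y, hz, K, K', T, θ, P, Q, h⟩

theorem CLin_sub (h : CLin_L C ε φ) (e : (LV ρ V).Hom J I) {e' : (LG ρ V).Hom J I}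
    (he : mp C.vh e = e') : CLin_L C ε (e' * φ * e'.ct) := by
  obtain ⟨K, K', T, θ, P, Q, h⟩ := h
  refine ⟨K, K', T, e * θ * e.ct, e * P, e * Q, (h.conj e').trans (Eqv.of_eq ?_)⟩
  simp only [TC.lin, mp_mul, mp_ct, he, Hm.mul_add, Hm.add_mul, conjTranspose_mul, Hm.mul_assoc]

theorem CLin_add (h : CLin_L C ε φ) (h' : CLin_L C ε φ') : CLin_L C ε (φ + φ') := by
  obtain ⟨K, L, T, θ, P, Q, h⟩ := h
  obtain ⟨K', L', T', θ', P', Q', h'⟩ := h'
  refine ⟨K + K', L + L', T.sum T', θ + θ', fromCols P P', fromCols Q Q',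
    (h.add h').trans (Eqv.of_eq ?_)⟩
  simp only [TC.lin, mp_add, mp_fromCols, TU.sum_T, fromCols_mul_fromBlocks,
    conjTranspose_fromCols_eq_fromRows_conjTranspose, fromCols_mul_fromRows, Hm.mul_zero,
    add_zero, zero_add]
  abel

theorem CLin_lin (T : TU ρ C J J') (θ : (LV ρ V).Hom I I) (P : (LV ρ V).Hom I J)
    (Q : (LV ρ V).Hom I J') : C.LinOK ε (C.lin T θ P Q) := by
  refine CLin_mk (z_hyp 0) 0 ?_
  convert CLin_sub (J := I + (0 + 0)) ⟨J, J', T, θ, P, Q, Eqv.refl _⟩ (fromRows 1 0) rfl using 1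
  refine ext_cols ?_ ?_ <;> simp [CLin_ext, hypF, to_zero (1 : (LG ρ V).Hom 0 0), mp_fromRows, mp_one,
    mp_zero, conjTranspose_fromRows_eq_fromCols_conjTranspose]

theorem CLin_eqv (h : C.LinOK ε φ) (e : Eqv ε φ φ') : C.LinOK ε φ' :=
  let ⟨N, k, Y, K, K', T, θ, P, Q, h1, hz, h⟩ := h
  ⟨N, k, Y, K, K', T, θ, P, Q, h1, hz,
    (eqv_blocks (e.symm.add (Eqv.refl _)) (Eqv.refl _) rfl).trans h⟩

theorem CLin_mp (θ : (LV ρ V).Hom I I) : C.LinOK ε (mp C.vh θ) := by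
  have h := CLin_lin (ε := ε) (TU.src ρ C.gd_zero) θ 0 0
  rwa [TC.lin, mp_zero, Hm.zero_mul, Hm.zero_mul, add_zero] at h

theorem CLin_ok_add (h : C.LinOK ε φ) (h' : C.LinOK ε φ') : C.LinOK ε (φ + φ') := by
  obtain ⟨N, k, Y, hz, h⟩ := CLin_out h
  obtain ⟨N', k', Y', hz', h'⟩ := CLin_out h'
  refine CLin_mk (hz.sum hz') (fromCols Y Y') ?_
  rw [CLin_ext_add _ _ _ _ _ _ rfl rfl]
  refine CLin_add (CLin_sub h (fromBlocks 1 0 0 (fromRows 1 0)) ?_)
    (CLin_sub h' (fromBlocks 1 0 0 (fromRows 0 1)) ?_) <;>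
    simp only [mp_blocks, mp_fromRows, mp_one, mp_zero]

theorem CLin_of_ext {k : (LG ρ V).Hom J J} (hz : Z ε k) (Y : (LG ρ V).Hom I J)
    (h : C.LinOK ε (CLin_ext φ Y k)) : C.LinOK ε φ := by
  obtain ⟨N, k', Y', hz', h⟩ := CLin_out h
  obtain ⟨a, b, rfl⟩ := exists_rows Y'
  refine CLin_mk (CLin_z hz hz' b) (fromCols Y (a - Y * b)) ?_
  rw [CLin_ext_ext]
  exact CLin_sub h (sAssoc _ I J N)
    (by simp only [sAssoc, mp_blocks, mp_fromRows, mp_fromCols, mp_one, mp_zero])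

theorem CLin_step {S S' : LOb X (V × V)} (τ : (LG ρ V).Hom S S')
    (hτ : ∀ (L : LOb X (V × V)) (Y : (LV ρ V).Hom L S) (W : (LV ρ V).Hom L S'),
      C.LinOK ε (mp C.vh Y * τ * (mp C.vh W).ct)) {n : ℤ}
    (ih : ∀ (L : LOb X (V × V)) (φ : (LG ρ V).Hom L L), Sup (fun x y => C.d x.1 y.1 ≤ n) φ →
      C.LinOK ε φ) (u : (LV ρ V).Hom I S) {v : (LG ρ V).Hom S' I}
    (hv : Sup (fun x y => C.d x.1 y.1 ≤ n) v) : C.LinOK ε (mp C.vh u * (τ * v)) := by
  refine CLin_of_ext (CLin_zk (J := S')) (fromCols (-((1 : (LG ρ V).Hom I I) * v.ct))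
    (-(mp C.vh u * τ))) ?_
  have h1 := hτ _ (fromRows u 0) (fromRows (0 : (LV ρ V).Hom I S')
    (fromRows (1 : (LV ρ V).Hom S' S') (0 : (LV ρ V).Hom S' S')))
  have h2 := ih _ (mp C.vh (fromRows (0 : (LV ρ V).Hom I S')
    (fromRows (0 : (LV ρ V).Hom S' S') (1 : (LV ρ V).Hom S' S'))) * v *
      mp C.vh (fromRows (1 : (LV ρ V).Hom I I) (0 : (LV ρ V).Hom (S' + S') I)).ct)
    (((sup_mp C.vh _).mul hv (T := fun x y => C.d x.1 y.1 ≤ n) fun x y z e k =>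
      (show x.1 = y.1 from e) ▸ k).mul (sup_mp C.vh _) fun x y z k e =>
        (show y.1 = z.1 from e) ▸ k)
  have h3 := CLin_ok_add (CLin_ok_add h1 h2) (CLin_mp (fromBlocks 0 0 0 (fromBlocks 0 0 (-1) 0)))
  simp only [mp_ct, mp_fromRows, mp_blocks, mp_zero, mp_one, mp_neg] at h3
  rwa [← CLin_ext_mul, conjTranspose_one, Hm.mul_one] at h3

theorem CLin_tu (T : TU ρ C J J') (Y : (LV ρ V).Hom I J) (W : (LV ρ V).Hom I J') :
    C.LinOK ε (mp C.vh Y * T.T * (mp C.vh W).ct) := by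
  have h := CLin_lin (ε := ε) T 0 Y W
  rwa [TC.lin, mp_zero, zero_add] at h

theorem CLin_tu' (T : TU ρ C J J') (Y : (LV ρ V).Hom I J') (W : (LV ρ V).Hom I J) :
    C.LinOK ε (mp C.vh Y * T.T.ct * (mp C.vh W).ct) := by
  have h := CLin_eqv (CLin_tu (ε := ε) T ((ε : ℤ) • W) Y) (eqv_swap _)
  rwa [mp_zsmul, Hm.smul_mul, Hm.smul_mul, ct_zsmul, eps_eps, conjTranspose_mul,
    conjTranspose_mul, conjTranspose_conjTranspose, ← Hm.mul_assoc] at h

end

/-- a morphism factors through an object labelled by intermediate edges -/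
theorem exists_lfac {R : V × V → V × V → V × V → Prop} {φ : (LG ρ V).Hom I J}
    (h : Sup (fun x y => ∃ e, R x e y) φ) :
    ∃ (L : LOb X (V × V)) (u : (OC ρ).Hom I.ob L.ob) (v : (OC ρ).Hom L.ob J.ob), u * v = vo φ ∧
      Ru.MOn I.lab L.lab (fun x e => ∃ y, R x e y) u ∧
      Ru.MOn L.lab J.lab (fun e y => ∃ x, R x e y) v ∧ ∀ k, ∃ x y, R x (L.lab k) y := by
  classical
  obtain ⟨L, s, t, γ, u, v, h0, h1, h2, h3⟩ := Ru.exists_fac (vo φ) I.fin J.fin fun _ _ => (1 : Γ)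
  let c : (V × V) × V × V → V × V := fun z => if k : ∃ e, R z.1 e z.2 then k.choose else z.1
  have hc : ∀ k, R (I.lab (s k)) (c (I.lab (s k), γ k • J.lab (t k))) (γ k • J.lab (t k)) :=
    fun k => by
      have e := h.mOn _ _ _ (h0 k)
      simpa only [c, dif_pos e] using e.choose_spec
  refine ⟨⟨L, fun k => c (I.lab (s k), γ k • J.lab (t k)),
    ((Ru.prs_finite I.fin J.fin (vo φ)).image c).subset ?_⟩, u, v, h3, fun i k g e => ?_,
    fun k j g e => ?_, fun k => ⟨_, _, hc k⟩⟩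
  · rintro _ ⟨k, rfl⟩
    exact ⟨_, ⟨_, _, _, h0 k, rfl⟩, rfl⟩
  · obtain ⟨rfl, rfl⟩ := h1 i k g e
    exact ⟨_, by rw [one_smul]; exact hc k⟩
  · obtain ⟨rfl, rfl⟩ := h2 k j g e
    exact ⟨_, by rw [inv_one, one_mul]; exact hc k⟩

theorem TC.linOK_le (C : TC Γ V) (n : ℕ) : ∀ (I : LOb X (V × V)) (φ : (LG ρ V).Hom I I),
    Sup (fun x y => C.d x.1 y.1 ≤ n) φ → C.LinOK ε φ := by
  have hV : Inv Γ (sV V).r := fun g x y e => congrArg (g • ·) e
  have hd : ∀ n : ℤ, Inv Γ fun x y : V × V => C.d x.1 y.1 ≤ n := fun n g x y e => by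
    simpa [C.iso] using e
  induction n with
  | zero =>
    intro I φ h
    rw [← Sup.mp_rs (f := C.vh) (h.mono fun x y e =>
      C.tr.eq_of (le_antisymm (by simpa using e) (C.tr.nonneg _ _)))]
    exact CLin_mp _
  | succ n ih =>
    intro I φ h
    let S : V × V → V × V → Prop := fun x y => ∃ e, C.O e ∧ x.1 = e.1 ∧ C.d e.2 y.1 ≤ n
    have hS : Inv Γ S := fun g x y ⟨e, a, b, c⟩ =>
      ⟨g • e, C.Oinv g e a, congrArg (g • ·) b, by simpa [C.iso] using c⟩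
    rw [← fm_add_not hV φ, ← fm_add_not hS (fm (fun x y => ¬ _) φ)]
    refine CLin_ok_add (mp_rs (f := C.vh) φ ▸ CLin_mp _) (CLin_ok_add ?_ ?_)
    · obtain ⟨L, u, v, e, hu, hv, hL⟩ := exists_lfac (sup_fm S (fm (fun x y => ¬ (sV V).r x y) φ))
      have gd : C.Gd L := fun k => let ⟨_, _, a, _⟩ := hL k; a
      have := CLin_step (ε := ε) (TU.src ρ gd).T (fun _ => CLin_tu _) ih
        (lmk u (Ru.MOn.mono hu fun x y ⟨_, _, a, _⟩ => (cl_iff hV).2 a))
        (v := lt (I := rel L Prod.swap) v) (sup_of_mOn (hd n) fun k j g c =>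
          let ⟨_, _, _, a⟩ := hv k j g c; a)
      convert this using 1
      exact vo_inj (e.symm.trans (congrArg (u * ·) (Hm.one_mul v).symm))
    · have k : Sup (fun x y => ∃ e, C.O e ∧ x.1 = e.2 ∧ C.d e.1 y.1 ≤ n)
          (fm (fun x y => ¬ S x y) (fm (fun x y => ¬ (sV V).r x y) φ)) := by
        refine ((((h.fm _).and (sup_fm _ _)).fm _).and (sup_fm _ _)).mono
          fun x y ⟨⟨a, b⟩, c⟩ => ?_
        have p := C.tr.nonneg x.1 y.1
        have q : C.d x.1 y.1 ≠ 0 := fun z => b (C.tr.eq_of z)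
        obtain ⟨w, w1, w2⟩ := C.tr.ex_pt x.1 y.1 1 zero_le_one (by omega)
        have w3 : C.d w y.1 ≤ n := by push_cast at a; omega
        exact (C.Otot (x.1, w) w1).elim (fun o => absurd ⟨_, o, rfl, w3⟩ c)
          fun o => ⟨_, o, rfl, w3⟩
      obtain ⟨L, u, v, e, hu, hv, hL⟩ := exists_lfac k
      have gd : C.Gd L := fun k => let ⟨_, _, a, _⟩ := hL k; a
      have := CLin_step (ε := ε) (TU.src ρ gd).T.ct (fun _ => CLin_tu' _) ih
        (lmk (J := rel L Prod.swap) u fun i j g c => (cl_iff hV).2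
          (let ⟨_, _, a, _⟩ := hu i j g c; a))
        (v := lt v) (sup_of_mOn (hd n) fun k j g c => let ⟨_, _, _, a⟩ := hv k j g c; a)
      convert this using 1
      refine vo_inj (e.symm.trans (congrArg (u * ·) ?_))
      exact ((congrArg (· * v) (conjTranspose_one (𝒞 := OC ρ) (I := L.ob))).trans
        (Hm.one_mul v)).symm

theorem TC.linOK_all (C : TC Γ V) (φ : (LG ρ V).Hom I I) : C.LinOK ε φ := by
  obtain ⟨n, hn⟩ := ((Ru.prs_finite I.fin I.fin (vo φ)).image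
    fun z => (C.d z.1.1 z.2.1).toNat).bddAbove
  refine C.linOK_le n I φ (sup_of_mOn (fun g x y e => by simpa [C.iso] using e)
    ((Ru.mOn_prs _ _ _).mono fun x y e => ?_))
  have := hn ⟨_, e, rfl⟩
  simp only at this
  omega

end Pool.Agent.Work.MP_9d1ffa_al.Ct.Rl
end

-- merged part: Pool.Agent.Work.MP_9d1ffa_al.Rt.LSw
section
/-! The Eilenberg swindle in the categories of morphisms with labels. -/

namespace Pool.Agent.Work.MP_9d1ffa_al.Ct.Rl

open MonoidAlgebra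

set_option linter.unusedSectionVars false
set_option linter.unusedVariables false

variable {X Z G : Type} [Group G] [MulAction G Z] {ρ : G →* Equiv.Perm X} {R : Setoid Z}

theorem fin_lab (π : Z → X) (a : LOb X Z) : (Set.range fun i => π (a.lab i)).Finite :=
  (a.fin.image π).subset (by
    rintro _ ⟨i, rfl⟩
    exact ⟨_, ⟨i, rfl⟩, rfl⟩)

/-- the sum of all shifts of an object, moved slowly to points that depend on the labels -/
noncomputable def swL (π : Z → X) (a : LOb X Z) : LOb X Z :=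
  ⟨swP a.ob (fun i => π (a.lab i)) (fin_lab π a), fun p => a.lab p.1, a.fin.subset (by
    rintro _ ⟨p, rfl⟩
    exact ⟨p.1, rfl⟩)⟩

/-- the shift -/
noncomputable def swV (ρ : G →* Equiv.Perm X) (R : Setoid Z) (π : Z → X) (a : LOb X Z) :
    (LC ρ R).Hom (swL π a) (a + swL π a) :=
  lmk (I := swL π a) (J := a + swL π a) (mk (pmM swE fun _ => 1) (ctl_swE ρ a.ob _ (fin_lab π a)))
    (os_pm (I := swL π a) (J := a + swL π a) (e := swE) rfl (by
      rintro ⟨i, _ | n⟩ g <;> exact R.iseqv.refl _))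

/-- the sum of all shifts of a morphism -/
noncomputable def swH {π : Z → X} (h : ∀ (g : G) x y, R.r x (g • y) → π x = ρ g (π y))
    {a b : LOb X Z} (A : (LC ρ R).Hom a b) : (LC ρ R).Hom (swL π a) (swL π b) :=
  lmk (I := swL π a) (J := swL π b) (mk (swM (val (vo A))) (ctl_swN (fin_lab π a) (fin_lab π b)
    (val_ctl (vo A)) fun i j g e => h g _ _ ((sup_self A).mOn i j g e)))
    fun p q g e => vo_os A p.1 q.1 g (BSw_ne e).2

/-- the swindle -/
noncomputable def flqL {π : Z → X} (h : ∀ (g : G) x y, R.r x (g • y) → π x = ρ g (π y)) :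
    Flq (LC ρ R) where
  S :=
    { ob := swL π
      map := swH h
      map_add := fun A B => vo_inj (val_inj (swM_add _ _))
      map_mul := fun A B => vo_inj (val_inj (swM_cmul _ _))
      map_one := fun a => vo_inj (val_inj (@swM_one G _ a.ob.I
        (fun _ _ => Classical.propDecidable _) fun _ _ => Classical.propDecidable _))
      map_ct := fun A => vo_inj (val_inj (by
        funext p q
        change swM (val (vo A).ct) p q = val (vo (swH h A)).ct p q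
        rw [val_ct, val_ct]
        change _ = (swM (val (vo A))).conjTranspose p q
        by_cases e : p.2 = q.2
        · simp [swM, e]
        · simp [swM, e, Ne.symm e])) }
  u a := swV ρ R π a
  unt a :=
    ⟨vo_inj (val_inj (@pmM_mul_ct _ _ _ _ (fun _ _ => Classical.propDecidable _) _ swE_bij.1 _)),
      vo_inj (val_inj (@pmM_ct_mul _ _ _ _ (fun _ _ => Classical.propDecidable _) _ swE_bij _))⟩
  nat {a b} A := vo_inj (val_inj (by
    funext p q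
    obtain ⟨q, rfl⟩ := swE_bij.2 q
    rw [vo_mul, vo_mul, vo_fromBlocks, val_mul, val_mul, val_fromBlocks]
    refine (pmM_cmul _ _ _ _ _).trans (Eq.trans ?_ (cmul_pmM swE_bij.1 _ _ _ _).symm)
    rw [CB_one, one_mul, mul_one]
    exact swM_nat _ p q))

theorem exists_pi {V : Type} [MulAction G V] (hF : Fix ρ V) :
    ∃ π : V → X, ∀ (g : G) v, π (g • v) = ρ g (π v) := by
  let _ : MulAction G X := MulAction.compHom X ρ
  refine exists_eqv (ρ := MulAction.toPermHom G V) (V := X) fun v => ?_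
  obtain ⟨z, hz, -⟩ := hF (MulAction.stabilizer G v) 1 1 ⟨v, fun _ h => h⟩ (one_mem _) (one_mem _)
    (by simp) (by simp)
  exact ⟨z, hz⟩

end Pool.Agent.Work.MP_9d1ffa_al.Ct.Rl
end
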