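import Pool.Agent.Work.MP_9d1ffa_al.Rt.RL
import Pool.Agent.Work.MP_9d1ffa_al.Rt.RDefs
import Pool.Agent.Work.MP_9d1ffa_al.OFr
import Pool.Agent.Work.MP_9d1ffa_al.Walls
import Pool.Agent.Work.MP_9d1ffa_al.Rt.LSw
import Pool.Agent.Work.MP_9d1ffa_al.Rt.LIns
import Pool.Agent.Work.MP_9d1ffa_al.Rt.LSp

-- merged part: Pool.Agent.Work.MP_9d1ffa_al.Rt.RLf
section
/-! Lifting a local system along a homomorphism. -/

namespace Pool.Agent.Work.MP_9d1ffa_al.Ct

open MonoidAlgebra MulAction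

set_option linter.unusedSectionVars false
set_option linter.unusedVariables false

variable {X G H P : Type} [Group G] [Group H] [MulAction G P] {ρ : G →* Equiv.Perm X}
  {σ : H →* Equiv.Perm X} {ε : ℤˣ} {I J : Ob X}

theorem vanF_iff : VanF ρ ↔ ∀ (K : Type) [Group K] (φ : K →* G) (ε : ℤˣ), Van0 (OC (ρ.comp φ)) ε := by
  constructor
  · intro h K _ φ ε a ψ hψ
    obtain ⟨μ, h1, h2⟩ := hψ.inv
    have k1 := congrArg val h1
    have k2 := congrArg val h2
    rw [val_mul, val_sy, val_one] at k1 k2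
    exact z_iff_hypC.2 (h K φ ε a (val ψ) (val μ) (val_ctl ψ) (val_ctl μ) k1 k2)
  · intro h K _ φ ε a ψ μ c1 c2 h1 h2
    refine (z_iff_hypC (ψ := mk ψ c1)).1 (h K φ ε a _ (ns_of_left (C := mk μ c2) (val_inj ?_)))
    rw [val_mul, val_sy, val_one, val_mk, val_mk]
    exact h2

theorem mp_fm (f : AH σ ρ) {S T : H → Prop} {T' : G → Prop} {y : (OC σ).Hom I J} (hy : Sup S y)
    (h : ∀ a, S a → (T a ↔ T' (f.f a))) : mp f (fm T y) = fm T' (mp f y) := by
  have h1 : Sup T' (mp f (fm T y)) :=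
    Sup.map (S := fun a => S a ∧ T a) f (fun k l g e => ⟨hy.fm T k l g e, sup_fm T y k l g e⟩)
      fun a e => (h a e.1).1 e.2
  have h2 : Sup (fun g => ¬ T' g) (mp f (fm (fun a => ¬ T a) y)) :=
    Sup.map (S := fun a => S a ∧ ¬ T a) f (fun k l g e => ⟨hy.fm _ k l g e, sup_fm _ y k l g e⟩)
      fun a e k => e.2 ((h a e.1).2 k)
  conv_rhs => rw [← fm_add_not T y, mp_add, fm_add, h1.fm_eq, h2.fm_zero fun _ e => e, add_zero]

theorem mp_eq_zero (f : AH σ ρ) {S : H → Prop} {y : (OC σ).Hom I J} (hy : Sup S y)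
    (h : Set.InjOn f.f {a | S a}) (e : mp f y = 0) : y = 0 := hom_ext fun i j a => by
  by_contra c
  have c' : (val y i j).coeff a ≠ 0 := by simpa [val_zero] using c
  have k : (val (mp f y) i j).coeff (f.f a) = (val y i j).coeff a :=
    Finsupp.mapDomain_apply' {a | S a} (val y i j).coeff
      (fun b hb => hy i j b (Finsupp.mem_support_iff.1 hb)) h (hy i j a c')
  rw [e, val_zero] at k
  exact c' (by simpa using k.symm)

namespace Ru

variable [Nonempty X]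

theorem proj_const (θ : P) (S : P → Prop) (x : Vec ρ J) :
    proj (fun _ => θ) S x = fm (fun g => S (g • θ)) x := vec_ext fun i g => by
  rw [coeff_proj, coeff_fm]

/-- the lift of a filtration -/
def liftF (f : AH σ ρ) (D : Subgroup H) (N : AddSubgroup (Vec ρ J)) : AddSubgroup (Vec σ J) where
  carrier := {y | ∀ c : H ⧸ D, mp f (proj (fun _ => ((1 : H) : H ⧸ D)) (· = c) y) ∈ N}
  add_mem' {x y} hx hy c := by
    rw [map_add, mp_add]
    exact N.add_mem (hx c) (hy c)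
  zero_mem' c := by
    rw [map_zero, mp_zero]
    exact N.zero_mem
  neg_mem' {x} hx c := by
    rw [map_neg, mp_neg]
    exact N.neg_mem (hx c)

theorem sup_coset (D : Subgroup H) (c : H) (y : Vec σ J) :
    Sup (fun a => c⁻¹ * a ∈ D) (proj (fun _ => ((1 : H) : H ⧸ D)) (· = (c : H ⧸ D)) y) := by
  rw [proj_const]
  refine (sup_fm _ y).mono fun a e => ?_
  rw [Quotient.smul_coe, smul_eq_mul, mul_one] at e
  exact QuotientGroup.eq.1 e.symm

theorem injOn_coset (f : AH σ ρ) {E : Subgroup H} (h : Set.InjOn f.f E) (c : H) :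
    Set.InjOn f.f {a | c⁻¹ * a ∈ E} := fun a ha b hb e =>
  mul_left_cancel (h ha hb (by rw [map_mul, map_mul, e]))

theorem filt_lift (f : AH σ ρ) {D : Subgroup H} (h : Set.InjOn f.f D) {q : J.I → P}
    {F : ℕ → AddSubgroup (Vec ρ J)} {k : ℕ} (hF : Filt q F k) :
    Filt (fun _ => ((1 : H) : H ⧸ D)) (fun m => liftF f D (F m)) k where
  top := eq_top_iff.2 fun y _ c => hF.top ▸ trivial
  anti m y hy c := hF.anti m (hy c)
  bot := eq_bot_iff.2 fun y hy => mem_of_proj (fun _ => ((1 : H) : H ⧸ D)) fun c => by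
    obtain ⟨c, rfl⟩ := QuotientGroup.mk_surjective c
    have := hy c
    rw [hF.bot] at this
    exact mp_eq_zero f (sup_coset D c y) (injOn_coset f h c) this
  gr m c y hy c' := by
    by_cases e : c' = c
    · rw [e, (vOn_proj _ _ y).proj_eq]
      exact hy c
    · rw [(vOn_proj _ _ y).proj_zero fun a k k' => e (k'.symm.trans k), mp_zero]
      exact zero_mem _

theorem lift_step (f : AH σ ρ) {D E : Subgroup H} (hD : D ≤ E) (h : Set.InjOn f.f E) {θ : P}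
    (hθ : stabilizer G θ = D.map f.f) {N : AddSubgroup (Vec ρ J)}
    (hN : ∀ s, ∀ x ∈ N, proj (fun _ => θ) (· = s) x ∈ N) {c : H} {w : Vec σ J}
    (h1 : mp f w ∈ N) (h2 : Sup (fun a => c⁻¹ * a ∈ E) w) : w ∈ liftF f D N := fun c' => by
  obtain ⟨c', rfl⟩ := QuotientGroup.mk_surjective c'
  have e : ∀ a : H, a • ((1 : H) : H ⧸ D) = (c' : H ⧸ D) ↔ c'⁻¹ * a ∈ D := fun a => by
    rw [Quotient.smul_coe, smul_eq_mul, mul_one, eq_comm, QuotientGroup.eq]
  rw [proj_const]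
  by_cases k : c⁻¹ * c' ∈ E
  · rw [mp_fm f (T' := fun g => g • θ = f.f c' • θ) h2 fun a ha => ?_,
      ← proj_const θ (· = f.f c' • θ)]
    · exact hN _ _ h1
    rw [e, ← inv_smul_eq_iff, smul_smul, ← mem_stabilizer_iff, hθ, ← map_inv, ← map_mul]
    refine ⟨fun z => ⟨_, z, rfl⟩, fun ⟨d, hd, z⟩ => ?_⟩
    have : c'⁻¹ * a ∈ E := by
      have := E.mul_mem (E.inv_mem k) ha
      rwa [mul_inv_rev, inv_inv, mul_assoc, mul_inv_cancel_left] at this
    exact h (hD hd) this z ▸ hd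
  · rw [h2.fm_zero fun a ha z => k ?_, mp_zero]
    · exact zero_mem _
    have := E.mul_mem ha (E.inv_mem (hD ((e a).1 z)))
    rwa [mul_inv_rev, inv_inv, mul_assoc, mul_inv_cancel_left] at this

theorem low_lift (f : AH σ ρ) {D E : Subgroup H} (hD : D ≤ E) (h : Set.InjOn f.f E) {θ : P}
    (hθ : stabilizer G θ = D.map f.f) {F F' : ℕ → AddSubgroup (Vec ρ J)} {k : ℕ}
    (hF : Filt (fun _ => θ) F' k) {A : (OC σ).Hom J J} (hA : Sup (· ∈ E) A)
    (hl : Low2 F F' 1 (mp f A)) :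
    Low2 (fun m => liftF f D (F m)) (fun m => liftF f D (F' m)) 1 A := by
  intro m y hy
  obtain ⟨s, hs⟩ := exists_pos_finset (fun _ => ((1 : H) : H ⧸ D)) y
  have e : ∀ (s : Finset (H ⧸ D)) (u : H ⧸ D → Vec σ J), (∑ c ∈ s, u c) * A = ∑ c ∈ s, u c * A :=
    fun s u => map_sum (AddMonoidHom.mk' (fun y : Vec σ J => y * A)
      fun _ _ => Hm.add_mul _ _ _) u s
  rw [← hs.sum_proj, e]
  refine sum_mem fun c _ => ?_
  obtain ⟨c, rfl⟩ := QuotientGroup.mk_surjective c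
  refine lift_step f hD h hθ (hF.gr _) (c := c) ?_ ((sup_coset D c y).mul hA fun a b ha hb => ?_)
  · rw [mp_mul]
    exact hl m _ (hy c)
  · rw [← mul_assoc]
    exact E.mul_mem (hD ha) hb

theorem exists_lift (f : AH σ ρ) {E : Subgroup H} (h : Set.InjOn f.f E) {A : (OC ρ).Hom I J}
    (hA : Sup (· ∈ E.map f.f) A) : ∃ A' : (OC σ).Hom I J, Sup (· ∈ E) A' ∧ mp f A' = A := by
  have hf : Function.Injective (f.comp (AH.of σ E.subtype)).f := fun a b e =>
    Subtype.ext (h a.2 b.2 e)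
  refine ⟨mp (AH.of σ E.subtype) (rs _ hf A), (sup_mp _ _).mono ?_, ?_⟩
  · rintro _ ⟨a, rfl⟩
    exact a.2
  · rw [mp_mp]
    exact Sup.mp_rs (hA.mono fun g ⟨a, ha, e⟩ => ⟨⟨a, ha⟩, e⟩)

theorem locZ_lift {rev : P → P} {s t η : P} (f : AH σ ρ) (hV : Van0 (OC σ) ε) {E E' : Subgroup H}
    (h : Set.InjOn f.f E) (h' : Set.InjOn f.f E') (k : ∀ g : G, g • s = rev s → g ∈ E.map f.f)
    (k' : ∀ g : G, g • t = rev t → g ∈ E'.map f.f) (hη : stabilizer G η ≤ (E ⊓ E').map f.f)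
    (hr : stabilizer G (rev η) = stabilizer G η) : LocZ ρ rev ε s t η := by
  intro J A B hA hB hn
  obtain ⟨A, a, rfl⟩ := exists_lift f h' (hA.mono k')
  obtain ⟨B, b, rfl⟩ := exists_lift f h (hB.mono k)
  obtain ⟨F, F', m, f1, f2, l1, l2⟩ := hn
  have e : stabilizer G η = (E ⊓ E' ⊓ (stabilizer G η).comap f.f).map f.f := by
    refine le_antisymm (fun g hg => ?_) fun _ ⟨d, hd, z⟩ => z ▸ hd.2
    obtain ⟨d, hd, rfl⟩ := hη hg
    exact ⟨d, ⟨hd, hg⟩, rfl⟩
  have sy' : ∀ {E : Subgroup H} {A : (OC σ).Hom J J}, Sup (· ∈ E) A → Sup (· ∈ E) (sy ε A) :=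
    fun a => a.add ((a.ct.mono fun g => inv_mem_iff.1).zsmul _)
  have i : Set.InjOn f.f (E ⊓ E' ⊓ (stabilizer G η).comap f.f : Subgroup H) :=
    h.mono fun _ z => z.1.1
  rw [← mp_sy] at l1 l2
  have hn : Nil2 (fun _ : J.I => ((1 : H) : H ⧸ (E ⊓ E' ⊓ (stabilizer G η).comap f.f)))
      (fun _ : J.I => ((1 : H) : H ⧸ (E ⊓ E' ⊓ (stabilizer G η).comap f.f))) (sy ε A) (sy ε B) :=
    ⟨_, _, m, filt_lift f i f1, filt_lift f i f2,
      low_lift f (inf_le_left.trans inf_le_right) h' (hr.trans e) f2 (sy' a) l1,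
      low_lift f (inf_le_left.trans inf_le_left) h e f1 (sy' b) l2⟩
  have := (hV _ _ (ns_of_nil (hn.zsmul _ _).nilP.isNilpotent)).mp (f := f)
  rwa [mp_blocks, mp_one, mp_zero] at this

end Ru

end Pool.Agent.Work.MP_9d1ffa_al.Ct
end

-- merged part: Pool.Agent.Work.MP_9d1ffa_al.Rt.RT
section
/-! Vanishing of the controlled unitary nilpotent forms of an action on a tree.
`d = fun a b => (T.dist a b : ℤ)`, `tr_of_isTree`, `dist_smul`, `Γ = geo2_tree` (see `../UFin.lean`).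
`locZ_eq`: `D = stabilizer σ` fixes `σ.1`; elements `r`, `s` that reverse `τ`, `σ` normalise `D` and their squares lie in
`D`; every reversing element is `r d` or `s d`; `locZ_fix`.
`bad_of_not`: `locZ_of_not`, `locZ_fix`, `locZ_level` with `locZ_eq` (`g` normalises `stabilizer η` iff
`stabilizer (g • η) = stabilizer η`, `stabilizer_smul_eq_stabilizer_map_conj`).
`locZ_all`: if a pair with `mvU` and `¬ LocZ` exists, `locZ_step` with `Big c := Tin G T σ.1 τ.2 c.1 c.2` gives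
the next one; build the sequence by choice on the subtype of such pairs and contradict `NoChain`.
`unil_tree`: `ll_main`; the first half of `tree_init` in `../UGeo.lean` shows `MOn p p (stp d) ν`;
`nilP_of_cone` with `OSn_cone`, `OSn_n1`, `OSn_n2` as in `Cut.nil` of `../OSn.lean`; `stp_mvT`. -/

namespace Pool.Agent.Work.MP_9d1ffa_al.Ct.Ru

open MonoidAlgebra

set_option linter.unusedSectionVars false
set_option linter.unusedVariables false

open MulAction Pool.Agent.Work.MP_904812_al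

variable {X G V : Type} [Group G] [MulAction G V] [Nonempty X] {ρ : G →* Equiv.Perm X} {ε : ℤˣ}
  {T : SimpleGraph V}

theorem RT_norm_iff {P : Type} [MulAction G P] (η : P) (g : G) :
    g ∈ Subgroup.normalizer (stabilizer G η : Set G) ↔ stabilizer G (g • η) = stabilizer G η := by
  rw [← inv_mem_iff, Subgroup.mem_normalizer_iff, Subgroup.ext_iff]
  refine forall_congr' fun x => ?_
  rw [inv_inv, mem_stabilizer_iff, mem_stabilizer_iff, mem_stabilizer_iff, mul_smul, mul_smul,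
    inv_smul_eq_iff]
  exact Iff.comm

theorem RT_stab_swap (σ : V × V) : stabilizer G σ.swap = stabilizer G σ := by
  ext g
  rw [mem_stabilizer_iff, mem_stabilizer_iff, Prod.ext_iff, Prod.ext_iff]
  exact and_comm

theorem RT_sq {σ : V × V} {g : G} (h : g • σ = σ.swap) : g * g ∈ stabilizer G σ := by
  rw [mem_stabilizer_iff, mul_smul, h]
  exact congrArg Prod.swap h

theorem RT_rv {σ : V × V} {g : G} : Rv g σ.1 σ.2 ↔ g • σ = σ.swap :=
  ⟨fun h => Prod.ext h.1 h.2, fun h => ⟨congrArg Prod.fst h, congrArg Prod.snd h⟩⟩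

theorem locZ_eq (hF : Fix ρ V) {σ τ η : V × V} (h : stabilizer G σ = stabilizer G τ)
    (hσ : ∃ g : G, g • σ = σ.swap) (hτ : ∃ g : G, g • τ = τ.swap) :
    LocZ ρ Prod.swap ε σ τ η := by
  obtain ⟨s, hs⟩ := hσ
  obtain ⟨r, hr⟩ := hτ
  obtain ⟨z, h1, h2, h3⟩ := hF (stabilizer G σ) r s ⟨σ.1, fun g hg => congrArg Prod.fst hg⟩
    (by rw [h, RT_norm_iff, hr, RT_stab_swap]) (by rw [RT_norm_iff, hs, RT_stab_swap])
    (h ▸ RT_sq hr) (RT_sq hs)
  have key : ∀ c g : G, ρ c z = z → c⁻¹ * g ∈ stabilizer G σ → ρ g z = z := fun c g hc hg => by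
    have e : g = c * (c⁻¹ * g) := by group
    rw [e, map_mul, Equiv.Perm.mul_apply, h1 _ hg, hc]
  refine locZ_fix z ?_
  rintro g (hg | hg)
  · exact key s g h3 (by rw [mem_stabilizer_iff, mul_smul, hg, inv_smul_eq_iff, hs])
  · exact key r g h2 (by rw [h, mem_stabilizer_iff, mul_smul, hg, inv_smul_eq_iff, hr])

theorem bad_of_not (hT : T.IsTree) (act : ∀ (g : G) (a b : V), T.Adj a b → T.Adj (g • a) (g • b))
    (hF : Fix ρ V) {σ τ : V × V} (hm : mvU (fun a b => (T.dist a b : ℤ)) σ τ)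
    (h : ¬ LocZ ρ Prod.swap ε σ τ (σ.1, τ.2)) : Bad ρ T σ.1 σ.2 τ.1 τ.2 := by
  have iso : ∀ (g : G) x y, (T.dist (g • x) (g • y) : ℤ) = T.dist x y := fun g x y => by
    rw [dist_smul hT act]
  have Γ := geo2_tree (tr_of_isTree hT) iso
  refine ⟨hm.1, hm.2.1, ?_, ?_, ?_, ?_, ?_, ?_⟩
  · have := hm.2.2.2
    simp only [Bt] at this
    rw [Bw]
    exact_mod_cast this
  · have := hm.2.2.1
    simp only [Bt] at this
    rw [Bw]
    exact_mod_cast this
  · by_contra e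
    exact h (locZ_of_not (Or.inl fun ⟨g, hg⟩ => e ⟨g, RT_rv.2 hg⟩))
  · by_contra e
    exact h (locZ_of_not (Or.inr fun ⟨g, hg⟩ => e ⟨g, RT_rv.2 hg⟩))
  · by_contra e
    have e' : ∀ g : G, (Rv g σ.1 σ.2 ∨ Rv g τ.1 τ.2) →
        stabilizer G (g • (σ.1, τ.2)) = stabilizer G (σ.1, τ.2) := fun g hg => by
      by_contra c
      exact e ⟨g, hg, fun k => c ((RT_norm_iff _ g).1 k)⟩
    exact h (locZ_level Γ hm (fun g hg => e' g (Or.inr (RT_rv.2 hg)))
      (fun g hg => e' g (Or.inl (RT_rv.2 hg))) fun σ' τ' _ hs hσ hτ => locZ_eq hF hs hσ hτ)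
  · rintro ⟨H, _, π, E, E', v, i, i', k, k', hη⟩
    exact h (locZ_lift (AH.of ρ π) (vanF_iff.1 v H (MonoidHom.id H) ε) i i'
      (fun g hg => k g (RT_rv.2 hg)) (fun g hg => k' g (RT_rv.2 hg)) hη (RT_stab_swap _))

theorem locZ_all (hT : T.IsTree) (act : ∀ (g : G) (a b : V), T.Adj a b → T.Adj (g • a) (g • b))
    (hF : Fix ρ V) (hW : NoChain ρ T) (σ τ : V × V) (hm : mvU (fun a b => (T.dist a b : ℤ)) σ τ) :
    LocZ ρ Prod.swap ε σ τ (σ.1, τ.2) := by
  have iso : ∀ (g : G) x y, (T.dist (g • x) (g • y) : ℤ) = T.dist x y := fun g x y => by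
    rw [dist_smul hT act]
  have Γ := geo2_tree (tr_of_isTree hT) iso
  have tri : ∀ x y z, T.dist x z ≤ T.dist x y + T.dist y z := fun x y z =>
    hT.connected.dist_triangle
  have step : ∀ u : {u : (V × V) × V × V // mvU (fun a b => (T.dist a b : ℤ)) u.1 u.2 ∧
      ¬ LocZ ρ Prod.swap ε u.1 u.2 (u.1.1, u.2.2)},
      ∃ w : {u : (V × V) × V × V // mvU (fun a b => (T.dist a b : ℤ)) u.1 u.2 ∧
        ¬ LocZ ρ Prod.swap ε u.1 u.2 (u.1.1, u.2.2)},
        Tin G T u.1.1.1 u.1.2.2 w.1.1.1 w.1.1.2 ∧ Tin G T u.1.1.1 u.1.2.2 w.1.2.1 w.1.2.2 := by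
    rintro ⟨⟨σ, τ⟩, hm, hn⟩
    by_contra e
    refine hn (locZ_step Γ (fun c => Tin G T σ.1 τ.2 c.1 c.2) ?_ ?_ ?_ hm ⟨1, ?_, ?_⟩
      fun σ' τ' hm' b1 b2 => ?_)
    · rintro g c ⟨g', k1, k2⟩
      refine ⟨g * g', ?_, ?_⟩
      · simpa only [Bw, mul_smul, Prod.smul_fst, Prod.smul_snd, dist_smul hT act] using k1
      · simpa only [Bw, mul_smul, Prod.smul_fst, Prod.smul_snd, dist_smul hT act] using k2
    · rintro c ⟨g', k1, k2⟩
      have sy : ∀ x, Bw T c.1 x c.2 → Bw T c.2 x c.1 := fun x k => by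
        rw [Bw] at k ⊢
        have s1 := T.dist_comm (u := c.2) (v := x)
        have s2 := T.dist_comm (u := x) (v := c.1)
        have s3 := T.dist_comm (u := c.2) (v := c.1)
        omega
      exact ⟨g', sy _ k1, sy _ k2⟩
    · rintro a b hab ⟨g', k1, k2⟩
      have e4 : T.dist a.1 a.2 + T.dist a.2 b.2 = T.dist a.1 b.2 := by
        have := hab.2.2.2
        simp only [Bt] at this
        exact_mod_cast this
      have ex : ∀ x, Bw T a.1 x a.2 → Bw T a.1 x b.2 := fun x k => by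
        rw [Bw] at k ⊢
        have t1 := tri x a.2 b.2
        have t2 := tri a.1 x b.2
        omega
      exact ⟨g', ex _ k1, ex _ k2⟩
    · simp [Bw]
    · simp [Bw]
    · by_contra c
      exact e ⟨⟨(σ', τ'), hm', c⟩, b1, b2⟩
  by_contra hn
  choose nx hnx using step
  refine hW ⟨fun n => (nx^[n] ⟨(σ, τ), hm, hn⟩).1.1.1, fun n => (nx^[n] ⟨(σ, τ), hm, hn⟩).1.1.2,
    fun n => (nx^[n] ⟨(σ, τ), hm, hn⟩).1.2.1, fun n => (nx^[n] ⟨(σ, τ), hm, hn⟩).1.2.2,
    fun n => ⟨bad_of_not hT act hF (nx^[n] ⟨(σ, τ), hm, hn⟩).2.1 (nx^[n] ⟨(σ, τ), hm, hn⟩).2.2, ?_⟩⟩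
  simp only [Function.iterate_succ_apply']
  exact hnx _

theorem unil_tree (hT : T.IsTree) (act : ∀ (g : G) (a b : V), T.Adj a b → T.Adj (g • a) (g • b))
    (hF : Fix ρ V) (hW : NoChain ρ T) {J : Ob X} (p : J.I → V × V) (hp : (Set.range p).Finite)
    (ψ μ : (OC ρ).Hom (J + J) (J + J))
    (hψ : MOn (I := J + J) (J := J + J) (Sum.elim p fun i => (p i).swap)
      (Sum.elim p fun i => (p i).swap) (fun a b => stp (fun a b => (T.dist a b : ℤ)) a b.swap) ψ)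
    (hμ : MOn (I := J + J) (J := J + J) (Sum.elim p fun i => (p i).swap)
      (Sum.elim p fun i => (p i).swap) (OSn_cone fun a b => (T.dist a b : ℤ)) μ)
    (h : (1 + sy ε ψ * fromBlocks 0 ((ε : ℤ) • 1) 1 0) * (1 + μ) = 1) :
    Z ε (hypF (OC ρ) J + ψ) := by
  have iso : ∀ (g : G) x y, (T.dist (g • x) (g • y) : ℤ) = T.dist x y := fun g x y => by
    rw [dist_smul hT act]
  have htr := tr_of_isTree hT
  have hfin : (Set.range (Sum.elim p fun i => (p i).swap)).Finite := by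
    rw [Set.Sum.elim_range]
    exact hp.union ((hp.image Prod.swap).subset (by rintro _ ⟨i, rfl⟩; exact ⟨_, ⟨i, rfl⟩, rfl⟩))
  have h2 : MOn (I := J + J) (J := J + J) (Sum.elim p fun i => (p i).swap)
      (Sum.elim p fun i => (p i).swap) (fun a b => stp (fun a b => (T.dist a b : ℤ)) a b.swap)
      (sy ε ψ) :=
    hψ.add (((hψ.ct fun g x y e => inv_stp iso g x y.swap e).mono fun x y e =>
      ⟨e.1.symm, (htr.symm _ _).trans e.2.2.1, (htr.symm _ _).trans e.2.1, e.2.2.2.symm⟩).zsmul _)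
  have h3 : MOn (I := J + J) (J := J + J) (Sum.elim p fun i => (p i).swap)
      (Sum.elim p fun i => (p i).swap) (fun x y => y = x.swap)
      (fromBlocks 0 ((ε : ℤ) • 1) 1 0 : (OC ρ).Hom (J + J) (J + J)) := by
    refine mOn_fromBlocks.2 ⟨mOn_zero _ _ _, fun i j g e => ?_, fun i j g e => ?_, mOn_zero _ _ _⟩
    · exact congrArg Prod.swap ((mOn_one p).zsmul ε i j g e).symm
    · exact (mOn_one p i j g e).symm
  have h4 := (h2.mul h3 fun g x y (e : y = x.swap) => e ▸ rfl).mono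
    (R' := stp fun a b => (T.dist a b : ℤ)) fun x z ⟨y, k1, k2⟩ => k2 ▸ k1
  refine ll_main (geo2_tree htr iso) (fun σ τ hm _ _ => locZ_all hT act hF hW σ τ hm) p hp ψ
    (hψ.mono fun x y e => ?_) ?_
  · obtain ⟨k1, k2, -, k3, k4⟩ := stp_mvT htr e
    exact ⟨k1, k2, k3, k4⟩
  refine nilP_of_cone (I := J + J) _ hfin (stp fun x y => (T.dist x y : ℤ))
    (OSn_cone fun x y => (T.dist x y : ℤ)) (inv_stp iso) ?_
    (fun σ τ => ((T.dist σ.1 τ.1 : ℤ)).toNat) (fun g σ τ => by simp [dist_smul hT act])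
    (fun σ => by simp) ?_ (OSn_n1 htr) (OSn_n2 htr) _ μ h4 hμ h
  · rintro g σ τ ⟨a1, a2⟩
    exact ⟨by simpa [iso] using a1, by simpa [iso] using a2⟩
  · rintro σ ⟨a1, a2⟩
    have := htr.self σ.1
    simp only at a1 a2 this
    omega

end Pool.Agent.Work.MP_9d1ffa_al.Ct.Ru
end

-- merged part: Pool.Agent.Work.MP_9d1ffa_al.Rt.LTop
section
/-! Vanishing of the even Wall groups of the obstruction category of an action on a tree. -/

namespace Pool.Agent.Work.MP_9d1ffa_al.Ct.Rl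

set_option linter.unusedSectionVars false
set_option linter.unusedVariables false

open MonoidAlgebra MulAction

variable {X Γ V : Type} [Group Γ] [MulAction Γ V] {ε : ℤˣ} {ρ : Γ →* Equiv.Perm X}

theorem TC.van0 [Nonempty V] (C : TC Γ V) (hA : C.Sw ρ) (hV : Van0 (LV ρ V) ε) (hU : C.UN ρ ε)
    (h2 : ∀ r s : Γ, r * r = 1 → s * s = 1 → ∃ z, ρ r z = z ∧ ρ s z = z) :
    Van0 (LG ρ V) ε := fun I ψ hψ => by
  obtain ⟨N, κ, Y, J, J', T, θ, P, Q, k1, k2, k3⟩ := C.linOK_all (ε := ε) ψ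
  have k4 : Iso ε (fromBlocks ψ 0 0 κ) (C.lin T θ P Q) := (iso_ext ψ κ Y).trans (Iso.of_eqv k3)
  have k5 : NS ε (C.lin T θ P Q) := NS.iso k4 (hψ.sum k1)
  obtain ⟨κ₁, κ₂, T', U, hE⟩ := TC.exists_ef (C := C) (T := T) (W := 1) (θ := θ) (P := P)
    (Q := Q) hA uni_one (by rw [TC.sys_one]; exact k5)
  have hR : C.Rep (T.sum T') ε (cls ε ψ) U := ⟨_, θ, _, _, by rwa [TC.lin_pad], hE, by
    rw [TC.lin_pad, ← cls_iso k4, cls_sum hψ k1, (cls_eq_zero k1).2 k2, add_zero]⟩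
  obtain ⟨L, L', T'', hR'⟩ := hR.norm hA
  exact (cls_eq_zero hψ).1 (hR'.split_one hV hU h2)

theorem van0_of_lg [Nonempty V] (h : Van0 (LG ρ V) ε) : Van0 (OC ρ) ε := fun I ψ hψ => by
  let J : LOb X (V × V) := ⟨I, fun _ => Classical.arbitrary _, Set.finite_range_const⟩
  obtain ⟨μ, h1, h2⟩ := hψ.inv
  exact (voF ρ _).z (h J (lt (I := J) (J := J) ψ)
    (ns_of_left (C := lt (I := J) (J := J) μ) (vo_inj h2)))

theorem van0_tree {T : SimpleGraph V} (hT : T.IsTree)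
    (act : ∀ (g : Γ) (a b : V), T.Adj a b → T.Adj (g • a) (g • b))
    (noinv : ∀ (g : Γ) (a b : V), T.Adj a b → g • a = b → g • b ≠ a) (hF : Fix ρ V)
    (hW : NoChain ρ T) : Van0 (OC ρ) ε := by
  have adj : ∀ x y : V, (T.dist x y : ℤ) = 1 → T.Adj x y := fun x y e =>
    SimpleGraph.dist_eq_one_iff_adj.1 (by exact_mod_cast e)
  have : Nonempty V := hT.connected.nonempty
  obtain ⟨π, hπ⟩ := exists_pi hF
  have : Nonempty X := Nonempty.map π this
  have tr := tr_of_isTree hT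
  have iso : ∀ (g : Γ) x y, (T.dist (g • x) (g • y) : ℤ) = T.dist x y := fun g x y => by
    rw [dist_smul hT act]
  obtain ⟨O, o1, o2, o3⟩ := exists_orient tr fun g x y e => noinv g x y (adj x y e)
  let C : TC Γ V := ⟨_, tr, iso, fun x => (T.dist x.1 x.2 : ℤ) = 1 ∧ O x,
    fun g x h => ⟨(iso g _ _).trans h.1, o1 g x h.2⟩, fun x h => h.1,
    fun x h k => o2 x.1 x.2 h.1 h.2 k.2, fun x h => (o3 x.1 x.2 h).imp (fun k => ⟨h, k⟩)
      fun k => ⟨(tr.symm _ _).trans h, k⟩⟩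
  refine van0_of_lg (C.van0 ⟨flqL (π := fun x => π x.1) fun g x y e => ?_, fun a h p => h p.1⟩
    ((flqL (π := fun x => π x.1) fun g x y e => ?_).van0 ε)
    (fun J p hp ψ μ => Ru.unil_tree hT act hF hW p hp ψ μ) fun r s hr hs => ?_)
  · rw [show x = g • y from e]
    exact hπ g _
  · rw [show x.1 = g • y.1 from e]
    exact hπ g _
  · obtain ⟨z, -, k⟩ := hF ⊥ r s ⟨Classical.arbitrary V, fun g h => by
      rw [Subgroup.mem_bot.1 h, one_smul]⟩ (Subgroup.normalizer_eq_top (⊥ : Subgroup Γ) ▸ Subgroup.mem_top r)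
      (Subgroup.normalizer_eq_top (⊥ : Subgroup Γ) ▸ Subgroup.mem_top s) hr hs
    exact ⟨z, k⟩

variable {K : Type} [Group K] (φ : K →* Γ)

theorem fix_comp (hF : Fix ρ V) : @Fix K X _ (ρ.comp φ) V (MulAction.compHom V φ) := by
  rintro D r s ⟨v, hv⟩ hr hs h1 h2
  obtain ⟨z, k1, k2⟩ := hF (D.map φ) (φ r) (φ s) ⟨v, by
      rintro _ ⟨g, hg, rfl⟩
      exact hv g hg⟩ (Subgroup.le_normalizer_map φ ⟨r, hr, rfl⟩)
    (Subgroup.le_normalizer_map φ ⟨s, hs, rfl⟩) ⟨_, h1, map_mul φ r r⟩ ⟨_, h2, map_mul φ s s⟩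
  exact ⟨z, fun g hg => k1 _ ⟨g, hg, rfl⟩, k2⟩

theorem lift_comp {a x y b : V} (h : Lift ρ a x y b) :
    @Lift K V X _ (MulAction.compHom V φ) (ρ.comp φ) a x y b := by
  obtain ⟨H, _, π, E, E', v, i, i', k, k', hη⟩ := h
  let L := (π.comp (MonoidHom.fst H K)).eqLocus (φ.comp (MonoidHom.snd H K))
  let p : L →* H := (MonoidHom.fst H K).comp L.subtype
  let q : L →* K := (MonoidHom.snd H K).comp L.subtype
  have e : (ρ.comp φ).comp q = (ρ.comp π).comp p := MonoidHom.ext fun z => congrArg ρ z.2.symm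
  have inj : ∀ {E : Subgroup H}, Set.InjOn π E → Set.InjOn q (E.comap p) := fun i u hu w hw c =>
    Subtype.ext (Prod.ext (i hu hw (u.2.trans ((congrArg φ c).trans w.2.symm))) c)
  have sur : ∀ {E : Subgroup H} {g : K}, φ g ∈ E.map π → g ∈ (E.comap p).map q :=
    fun ⟨u, hu, c⟩ => ⟨⟨(u, _), c⟩, hu, rfl⟩
  refine ⟨L, inferInstance, q, E.comap p, E'.comap p, ?_, inj i, inj i', fun g hg => sur (k _ hg),
    fun g hg => sur (k' _ hg), fun g hg => sur (E := E ⊓ E') (hη hg)⟩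
  rw [e]
  exact fun M _ ψ => v M (p.comp ψ)

theorem noChain_comp {T : SimpleGraph V} (hW : NoChain ρ T) :
    @NoChain K V X _ (MulAction.compHom V φ) (ρ.comp φ) T := by
  rintro ⟨a, x, y, b, h⟩
  refine hW ⟨a, x, y, b, fun n => ?_⟩
  obtain ⟨⟨h1, h2, h3, h4, ⟨r, hr⟩, ⟨s, hs⟩, ⟨g, hg, hn⟩, hz⟩, ⟨u, hu⟩, ⟨v, hv⟩⟩ := h n
  refine ⟨⟨h1, h2, h3, h4, ⟨φ r, hr⟩, ⟨φ s, hs⟩, ⟨φ g, hg, fun k => hn ?_⟩,
    fun k => hz (lift_comp φ k)⟩, ⟨φ u, hu⟩, ⟨φ v, hv⟩⟩
  exact Subgroup.le_normalizer_comap φ (H := stabilizer Γ (a n, b n)) k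

theorem vanF_tree {T : SimpleGraph V} (hT : T.IsTree)
    (act : ∀ (g : Γ) (a b : V), T.Adj a b → T.Adj (g • a) (g • b))
    (noinv : ∀ (g : Γ) (a b : V), T.Adj a b → g • a = b → g • b ≠ a) (hF : Fix ρ V)
    (hW : NoChain ρ T) : VanF ρ := vanF_iff.2 fun K _ φ ε => by
  let _ : MulAction K V := MulAction.compHom V φ
  exact van0_tree hT (fun g => act (φ g)) (fun g => noinv (φ g)) (fix_comp φ hF)
    (noChain_comp φ hW)

end Pool.Agent.Work.MP_9d1ffa_al.Ct.Rl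
end
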