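import Pool.Agent.Work.MP_9d1ffa_al.Ct.BFn

/-! Automorphisms that are trivial in the first K-group of an additive category. -/

namespace Pool.Agent.Work.MP_9d1ffa_al.Ct

set_option linter.unusedSectionVars false
set_option linter.unusedVariables false

variable {O : Type 1} [Add O] [Zero O] {𝒞 : SCat O} {I J K L : O}

/-- products of commutators -/
def Cm (𝒞 : SCat O) (I : O) : Submonoid (𝒞.Hom I I) :=
  Submonoid.closure {A | ∃ u u' v v' : 𝒞.Hom I I, u * u' = 1 ∧ u' * u = 1 ∧ v * v' = 1 ∧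
    v' * v = 1 ∧ A = u * v * (u' * v')}

/-- stably a product of commutators -/
def TrK (A : 𝒞.Hom I I) : Prop := ∃ b : O, fromBlocks A 0 0 (1 : 𝒞.Hom b b) ∈ Cm 𝒞 (I + b)

/-- extension by the identity -/
def xt (i : 𝒞.Hom I J) (i' : 𝒞.Hom J I) (A : 𝒞.Hom I I) : 𝒞.Hom J J := i' * A * i + (1 - i' * i)

theorem xt_one (i : 𝒞.Hom I J) (i' : 𝒞.Hom J I) : xt i i' 1 = 1 := by simp [xt]

theorem xt_mul {i : 𝒞.Hom I J} {i' : 𝒞.Hom J I} (h : i * i' = 1) (A B : 𝒞.Hom I I) :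
    xt i i' (A * B) = xt i i' A * xt i i' B := by
  have h' : ∀ {K : O} (x : 𝒞.Hom I K), i * (i' * x) = x := fun x => by
    rw [← Hm.mul_assoc, h, Hm.one_mul]
  simp only [xt, Hm.add_mul, Hm.mul_add, Hm.sub_mul, Hm.mul_sub, Hm.mul_assoc, h', Hm.one_mul,
    Hm.mul_one]
  abel

theorem xt_xt (i : 𝒞.Hom I J) (i' : 𝒞.Hom J I) (k : 𝒞.Hom J K) (k' : 𝒞.Hom K J) (A : 𝒞.Hom I I) :
    xt k k' (xt i i' A) = xt (i * k) (k' * i') A := by
  simp only [xt, Hm.add_mul, Hm.mul_add, Hm.sub_mul, Hm.mul_sub, Hm.mul_assoc, Hm.one_mul,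
    Hm.mul_one]
  abel

theorem xt_inl (A : 𝒞.Hom I I) :
    xt (fromCols 1 (0 : 𝒞.Hom I J)) (fromRows 1 0) A = fromBlocks A 0 0 1 := by
  rw [xt, fromRows_mul, fromRows_mul_fromCols, fromRows_mul_fromCols, ← fromBlocks_one,
    fromBlocks_sub, fromBlocks_add]
  simp

theorem xt_inr (A : 𝒞.Hom I I) :
    xt (fromCols (0 : 𝒞.Hom I J) 1) (fromRows 0 1) A = fromBlocks 1 0 0 A := by
  rw [xt, fromRows_mul, fromRows_mul_fromCols, fromRows_mul_fromCols, ← fromBlocks_one,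
    fromBlocks_sub, fromBlocks_add]
  simp

theorem cm_xt {i : 𝒞.Hom I J} {i' : 𝒞.Hom J I} (h : i * i' = 1) {A : 𝒞.Hom I I}
    (hA : A ∈ Cm 𝒞 I) : xt i i' A ∈ Cm 𝒞 J := by
  induction hA using Submonoid.closure_induction with
  | one => rw [xt_one]; exact one_mem _
  | mul A B _ _ hA hB => rw [xt_mul h]; exact mul_mem hA hB
  | mem A hA =>
    obtain ⟨u, u', v, v', h1, h2, h3, h4, rfl⟩ := hA
    refine Submonoid.subset_closure ⟨xt i i' u, xt i i' u', xt i i' v, xt i i' v', ?_, ?_, ?_, ?_, ?_⟩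
    all_goals simp only [← xt_mul h, h1, h2, h3, h4, xt_one]

theorem cm_inv {A : 𝒞.Hom I I} (hA : A ∈ Cm 𝒞 I) : ∃ B, A * B = 1 ∧ B * A = 1 ∧ B ∈ Cm 𝒞 I := by
  induction hA using Submonoid.closure_induction with
  | one => exact ⟨1, one_mul _, one_mul _, one_mem _⟩
  | mul A B _ _ hA hB =>
    obtain ⟨A', a1, a2, a3⟩ := hA
    obtain ⟨B', b1, b2, b3⟩ := hB
    refine ⟨B' * A', ?_, ?_, mul_mem b3 a3⟩
    · rw [mul_assoc, ← mul_assoc B, b1, one_mul, a1]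
    · rw [mul_assoc, ← mul_assoc A', a2, one_mul, b2]
  | mem A hA =>
    obtain ⟨u, u', v, v', h1, h2, h3, h4, rfl⟩ := hA
    have k : ∀ {a b : 𝒞.Hom I I}, a * b = 1 → ∀ x : 𝒞.Hom I I, a * (b * x) = x := fun h x => by
      rw [← mul_assoc, h, one_mul]
    refine ⟨v * u * (v' * u'), ?_, ?_,
      Submonoid.subset_closure ⟨v, v', u, u', h3, h4, h1, h2, rfl⟩⟩
    all_goals simp only [mul_assoc, k h1, k h2, k h3, k h4, h1, h3]

theorem trK_of_xt {i : 𝒞.Hom I J} {i' : 𝒞.Hom J I} (h : i * i' = 1) {A : 𝒞.Hom I I}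
    (hA : xt i i' A ∈ Cm 𝒞 J) : TrK A := by
  have h' : ∀ {K : O} (x : 𝒞.Hom I K), i * (i' * x) = x := fun x => by
    rw [← Hm.mul_assoc, h, Hm.one_mul]
  have := cm_xt (i := fromCols i' (1 - i' * i)) (i' := fromRows i (1 - i' * i)) (by
    simp only [fromCols_mul_fromRows, Hm.sub_mul, Hm.mul_sub, Hm.mul_assoc, h', Hm.one_mul,
      Hm.mul_one]
    abel) hA
  refine ⟨J, ?_⟩
  rw [xt_xt] at this
  rw [← xt_inl]
  convert this using 2
  · simp [Hm.mul_sub, h, h']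
  · simp [Hm.sub_mul, Hm.mul_assoc, h]

theorem trK_xt {i : 𝒞.Hom I J} {i' : 𝒞.Hom J I} (h : i * i' = 1) {A : 𝒞.Hom I I} :
    TrK (xt i i' A) ↔ TrK A := by
  constructor
  · rintro ⟨b, hb⟩
    rw [← xt_inl, xt_xt] at hb
    refine trK_of_xt ?_ hb
    simp [fromCols_mul_fromRows, h]
  · rintro ⟨b, hb⟩
    refine ⟨b, ?_⟩
    have := cm_xt (i := fromBlocks i 0 0 (1 : 𝒞.Hom b b)) (i' := fromBlocks i' 0 0 1)
      (by simp [fromBlocks_multiply, h]) hb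
    rw [← xt_inl, xt_xt] at this
    rw [← xt_inl, xt_xt]
    convert this using 2
    · simp [fromCols_mul_fromBlocks]
    · simp [fromBlocks_mul_fromRows]

theorem trK_block {A : 𝒞.Hom I I} : TrK (fromBlocks A 0 0 (1 : 𝒞.Hom J J)) ↔ TrK A := by
  rw [← xt_inl]
  exact trK_xt (by simp [fromCols_mul_fromRows])

theorem trK_block' {A : 𝒞.Hom I I} : TrK (fromBlocks (1 : 𝒞.Hom J J) 0 0 A) ↔ TrK A := by
  rw [← xt_inr]
  exact trK_xt (by simp [fromCols_mul_fromRows])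

theorem TrK.conj {A : 𝒞.Hom I I} (hA : TrK A) {w : 𝒞.Hom J I} {w' : 𝒞.Hom I J} (h1 : w * w' = 1)
    (h2 : w' * w = 1) : TrK (w * A * w') := by
  have := (trK_xt h2).2 hA
  rwa [xt, h1, sub_self, add_zero] at this

theorem trK_of_mem {A : 𝒞.Hom I I} (h : A ∈ Cm 𝒞 I) : TrK A :=
  trK_of_xt (i := 1) (i' := 1) (Hm.one_mul _) (by simpa [xt] using h)

theorem trK_one : TrK (1 : 𝒞.Hom I I) := trK_of_mem (one_mem _)

theorem TrK.mul {A B : 𝒞.Hom I I} (hA : TrK A) (hB : TrK B) : TrK (A * B) := by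
  obtain ⟨b, hb⟩ := hA
  obtain ⟨c, hc⟩ := hB
  have h1 := cm_xt (i := fromBlocks (1 : 𝒞.Hom I I) 0 0 (fromCols (1 : 𝒞.Hom b b) (0 : 𝒞.Hom b c)))
    (i' := fromBlocks 1 0 0 (fromRows 1 0)) (by simp [fromBlocks_multiply, fromCols_mul_fromRows]) hb
  have h2 := cm_xt (i := fromBlocks (1 : 𝒞.Hom I I) 0 0 (fromCols (0 : 𝒞.Hom c b) (1 : 𝒞.Hom c c)))
    (i' := fromBlocks 1 0 0 (fromRows 0 1)) (by simp [fromBlocks_multiply, fromCols_mul_fromRows]) hc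
  rw [← xt_inl, xt_xt] at h1 h2
  simp only [fromCols_mul_fromBlocks, fromBlocks_mul_fromRows, Hm.mul_one, Hm.mul_zero, Hm.zero_mul,
    add_zero] at h1 h2
  refine ⟨b + c, ?_⟩
  rw [← xt_inl, xt_mul (by simp [fromCols_mul_fromRows])]
  exact mul_mem h1 h2

theorem TrK.inv {A : 𝒞.Hom I I} (hA : TrK A) : ∃ B, A * B = 1 ∧ B * A = 1 ∧ TrK B := by
  obtain ⟨m, hA⟩ := hA
  obtain ⟨C, h1, h2, h3⟩ := cm_inv hA
  obtain ⟨a, b, c, d, rfl⟩ := exists_blocks C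
  rw [fromBlocks_multiply, ← fromBlocks_one, fromBlocks_inj] at h1 h2
  simp only [Hm.zero_mul, Hm.mul_zero, Hm.one_mul, Hm.mul_one, add_zero, zero_add] at h1 h2
  refine ⟨a, h1.1, h2.1, m, ?_⟩
  rwa [h2.2.1, h1.2.2.1, h1.2.2.2] at h3

theorem TrK.of_mul_left {A B : 𝒞.Hom I I} (hA : TrK A) (h : TrK (A * B)) : TrK B := by
  obtain ⟨C, -, h2, h3⟩ := hA.inv
  have := h3.mul h
  rwa [← mul_assoc, h2, one_mul] at this

theorem TrK.of_mul_right {A B : 𝒞.Hom I I} (hB : TrK B) (h : TrK (A * B)) : TrK A := by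
  obtain ⟨C, h1, -, h3⟩ := hB.inv
  have := h.mul h3
  rwa [mul_assoc, h1, mul_one] at this

theorem trK_nil (u : 𝒞.Hom I J) (w : 𝒞.Hom J I) (h : w * u = 0) : TrK (1 + u * w) := by
  refine ⟨J, Submonoid.subset_closure ⟨fromBlocks 1 u 0 1, fromBlocks 1 (-u) 0 1,
    fromBlocks 1 0 w 1, fromBlocks 1 0 (-w) 1, ?_, ?_, ?_, ?_, ?_⟩⟩
  all_goals simp [fromBlocks_multiply, Hm.add_mul, Hm.mul_add, Hm.mul_assoc, h]
  rw [← Hm.mul_assoc w, h]
  simp

theorem trK_upper (x : 𝒞.Hom I J) : TrK (fromBlocks 1 x 0 1) := by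
  have := trK_nil (fromRows 1 (0 : 𝒞.Hom J I)) (fromCols (0 : 𝒞.Hom I I) x) (by simp [fromCols_mul_fromRows])
  rw [fromRows_mul_fromCols, ← fromBlocks_one, fromBlocks_add] at this
  simpa using this

theorem trK_lower (x : 𝒞.Hom J I) : TrK (fromBlocks 1 0 x 1) := by
  have := trK_nil (fromRows (0 : 𝒞.Hom I J) 1) (fromCols x (0 : 𝒞.Hom J J)) (by simp [fromCols_mul_fromRows])
  rw [fromRows_mul_fromCols, ← fromBlocks_one, fromBlocks_add] at this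
  simpa using this

theorem trK_swap (u : 𝒞.Hom I J) (w : 𝒞.Hom J I) (h : TrK (1 + w * u)) : TrK (1 + u * w) := by
  have := ((trK_lower w).mul (trK_block'.2 h)).mul (trK_upper (-u))
  have e : fromBlocks 1 0 w 1 * fromBlocks 1 0 0 (1 + w * u) * fromBlocks 1 (-u) 0 1 =
      fromBlocks 1 (-u) 0 1 * (fromBlocks (1 + u * w) 0 0 1 * fromBlocks 1 0 w 1) := by
    simp [fromBlocks_multiply]
  rw [e] at this
  exact trK_block.1 ((trK_lower w).of_mul_right ((trK_upper (-u)).of_mul_left this))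

theorem trK_pair {y y' : 𝒞.Hom I I} (h1 : y * y' = 1) (h2 : y' * y = 1) :
    TrK (fromBlocks y 0 0 y') :=
  trK_of_mem (Submonoid.subset_closure ⟨fromBlocks y 0 0 1, fromBlocks y' 0 0 1,
    fromBlocks 0 1 1 0, fromBlocks 0 1 1 0, by simp [fromBlocks_multiply, h1],
    by simp [fromBlocks_multiply, h2], by simp [fromBlocks_multiply],
    by simp [fromBlocks_multiply], by simp [fromBlocks_multiply]⟩)

theorem QA_r (c : 𝒞.Hom J K) (d : 𝒞.Hom J L) :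
    fromRows (0 : 𝒞.Hom I (K + L)) (fromCols c d) = fromBlocks 0 0 c d := by
  rw [fromBlocks, fromCols_zero]

theorem QA_c (c : 𝒞.Hom I L) (d : 𝒞.Hom J L) :
    fromCols (0 : 𝒞.Hom (I + J) K) (fromRows c d) = fromBlocks 0 c 0 d := by
  rw [← fromCols_fromRows_eq_fromBlocks, fromRows_zero]

theorem QA_c' (c : 𝒞.Hom I L) (d : 𝒞.Hom J L) :
    fromCols (fromRows c d) (0 : 𝒞.Hom (I + J) K) = fromBlocks c 0 d 0 := by
  rw [← fromCols_fromRows_eq_fromBlocks, fromRows_zero]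

theorem Fn.trK {O' : Type 1} [Add O'] [Zero O'] {𝒟 : SCat O'} (F : Fn 𝒞 𝒟) {A : 𝒞.Hom I I}
    (h : TrK A) : TrK (F.map A) := by
  have key : ∀ {J : O} {B : 𝒞.Hom J J}, B ∈ Cm 𝒞 J → F.map B ∈ Cm 𝒟 (F.ob J) := fun {J B} hB => by
    induction hB using Submonoid.closure_induction with
    | one => rw [F.map_one]; exact one_mem _
    | mul A B _ _ hA hB => rw [F.map_mul]; exact mul_mem hA hB
    | mem A hA =>
      obtain ⟨u, u', v, v', h1, h2, h3, h4, rfl⟩ := hA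
      refine Submonoid.subset_closure ⟨F.map u, F.map u', F.map v, F.map v', ?_, ?_, ?_, ?_, ?_⟩
      all_goals simp only [← F.map_mul, h1, h2, h3, h4, F.map_one]
  obtain ⟨b, hb⟩ := h
  have := (trK_of_mem (key hb)).conj F.unt_w.1 F.unt_w.2
  rw [F.w_blocks, F.map_zero', F.map_zero', F.map_one] at this
  exact trK_block.1 this

theorem Flq.trK (F : Flq 𝒞) {x x' : 𝒞.Hom I I} (h1 : x * x' = 1) (h2 : x' * x = 1) : TrK x := by
  have k := trK_pair (y := F.S.map x) (y' := F.S.map x') (by rw [← F.S.map_mul, h1, F.S.map_one])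
    (by rw [← F.S.map_mul, h2, F.S.map_one])
  have u1 := (F.unt I).1
  have u2 := (F.unt I).2
  have a := k.conj (w := fromBlocks (F.u I).ct 0 0 (1 : 𝒞.Hom (F.S.ob I) _))
    (w' := fromBlocks (F.u I) 0 0 1)
    (by simp [fromBlocks_multiply, u2]) (by simp [fromBlocks_multiply, u1])
  have b := (trK_xt (J := I + F.S.ob I + F.S.ob I) (i := fromBlocks (fromCols 0 1) 0 0 1)
    (i' := fromBlocks (fromRows 0 1) 0 0 1)
    (by simp [fromBlocks_multiply, fromCols_mul_fromRows])).2 k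
  refine trK_block.1 (trK_block.1 (b.of_mul_right ?_))
  convert a using 1
  have e : (F.u I).ct * F.S.map x * F.u I = fromBlocks x 0 0 (F.S.map x) := by
    rw [Hm.mul_assoc, ← F.nat, ← Hm.mul_assoc, u2, Hm.one_mul]
  have e' : (1 : 𝒞.Hom (I + F.S.ob I + F.S.ob I) (I + F.S.ob I + F.S.ob I)) =
      fromBlocks (fromBlocks 1 0 0 1) 0 0 1 := by simp
  rw [xt, e']
  simp only [fromBlocks_multiply, fromBlocks_sub, fromBlocks_add, fromRows_mul_fromCols, fromRows_mul,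
    Hm.mul_zero, Hm.zero_mul, Hm.mul_one, Hm.one_mul, add_zero, zero_add, sub_zero, sub_self, e,
    mul_fromCols, QA_r, QA_c]

/-- an object that absorbs `a` -/
structure Tv (𝒞 : SCat O) (a : O) where
  c : O
  i : 𝒞.Hom c a
  s : 𝒞.Hom c c
  h1 : i * i.ct + s * s.ct = 1
  h2 : i.ct * i = 1
  h3 : i.ct * s = 0
  h4 : s.ct * s = 1

/-- the torsion of an isomorphism is trivial -/
def Tv.D (t : Tv 𝒞 I) (t' : Tv 𝒞 J) (u : 𝒞.Hom I J) : Prop :=
  TrK (fromBlocks t.s (t.i * u * t'.i.ct) 0 t'.s.ct)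

theorem Tv.h3' (t : Tv 𝒞 I) : t.s.ct * t.i = 0 := by
  simpa using congrArg SCat.Hom.ct t.h3

theorem Tv.prod (t : Tv 𝒞 I) (t' : Tv 𝒞 J) (t'' : Tv 𝒞 K) (u : 𝒞.Hom I J) (v : 𝒞.Hom J K) :
    ∃ A B : 𝒞.Hom (t.c + t'.c + t''.c) (t.c + t'.c + t''.c), (TrK A ↔ t.D t' u) ∧
      (TrK B ↔ t'.D t'' v) ∧ (TrK (A * B) ↔ t.D t'' (u * v)) := by
  refine ⟨_, _, trK_block, trK_xt (i := fromBlocks (fromCols 0 1) 0 0 1)
    (i' := fromBlocks (fromRows 0 1) 0 0 1)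
    (by simp [fromBlocks_multiply, fromCols_mul_fromRows]), ?_⟩
  refine Iff.trans (iff_of_eq (congrArg TrK ?_)) (trK_xt (J := t.c + t'.c + t''.c)
    (i := fromBlocks (fromCols 1 0) 0 0 1) (i' := fromBlocks (fromRows 1 0) 0 0 1)
    (by simp [fromBlocks_multiply, fromCols_mul_fromRows]))
  have e' : (1 : 𝒞.Hom (t.c + t'.c + t''.c) (t.c + t'.c + t''.c)) =
      fromBlocks (fromBlocks 1 0 0 1) 0 0 1 := by simp
  have k2 : ∀ {L : O} (x : 𝒞.Hom J L), t'.i.ct * (t'.i * x) = x := fun x => by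
    rw [← Hm.mul_assoc, t'.h2, Hm.one_mul]
  have k3 : ∀ {L : O} (x : 𝒞.Hom J L), t'.s.ct * (t'.i * x) = 0 := fun x => by
    rw [← Hm.mul_assoc, t'.h3', Hm.zero_mul]
  rw [xt, xt, e']
  simp only [fromBlocks_multiply, fromBlocks_sub, fromBlocks_add, fromRows_mul_fromCols, fromRows_mul,
    fromBlocks_mul_fromRows, mul_fromCols, fromRows_add, fromCols_add, fromRows_zero, fromCols_zero,
    Hm.mul_zero, Hm.zero_mul, Hm.mul_one, Hm.one_mul, add_zero, zero_add, sub_zero, sub_self,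
    Hm.mul_assoc, k2, k3, t'.h3, t'.h4, QA_c, QA_c']

theorem Tv.D.mul {t : Tv 𝒞 I} {t' : Tv 𝒞 J} {t'' : Tv 𝒞 K} {u : 𝒞.Hom I J} {v : 𝒞.Hom J K}
    (hu : t.D t' u) (hv : t'.D t'' v) : t.D t'' (u * v) :=
  let ⟨_, _, h1, h2, h3⟩ := t.prod t' t'' u v
  h3.1 ((h1.2 hu).mul (h2.2 hv))

theorem Tv.D.cancel {t : Tv 𝒞 I} {t' : Tv 𝒞 J} {t'' : Tv 𝒞 K} {u : 𝒞.Hom I J} {v : 𝒞.Hom J K}
    (hu : t.D t' u) (h : t.D t'' (u * v)) : t'.D t'' v :=
  let ⟨_, _, h1, h2, h3⟩ := t.prod t' t'' u v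
  h2.1 ((h1.2 hu).of_mul_left (h3.2 h))

theorem Tv.D.trK {t : Tv 𝒞 I} {u : 𝒞.Hom I I} (h1 : t.D t 1) (h : t.D t u) : TrK u := by
  have k2 : ∀ {L : O} (x : 𝒞.Hom I L), t.i.ct * (t.i * x) = x := fun x => by
    rw [← Hm.mul_assoc, t.h2, Hm.one_mul]
  have k3 : ∀ {L : O} (x : 𝒞.Hom I L), t.s.ct * (t.i * x) = 0 := fun x => by
    rw [← Hm.mul_assoc, t.h3', Hm.zero_mul]
  refine (trK_xt t.h2).1 (trK_block'.1 (TrK.of_mul_left h1 ?_))
  unfold Tv.D at h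
  convert h using 1
  simp only [xt, fromBlocks_multiply, Hm.mul_zero, Hm.mul_one, add_zero, zero_add, Hm.zero_mul,
    Hm.mul_add, Hm.mul_sub, Hm.mul_assoc, k2, k3, sub_self, sub_zero]

theorem Flq.D (F : Flq 𝒞) (t : Tv 𝒞 I) (t' : Tv 𝒞 J) {u : 𝒞.Hom I J} {u' : 𝒞.Hom J I}
    (h1 : u * u' = 1) (h2 : u' * u = 1) : t.D t' u := by
  have k : ∀ {a b c : O} {x : 𝒞.Hom a b} {y : 𝒞.Hom b a}, x * y = 1 → ∀ z : 𝒞.Hom a c,
      x * (y * z) = z := fun h z => by rw [← Hm.mul_assoc, h, Hm.one_mul]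
  have k0 : ∀ {a b d c : O} {x : 𝒞.Hom a b} {y : 𝒞.Hom b d}, x * y = 0 → ∀ z : 𝒞.Hom d c,
      x * (y * z) = 0 := fun h z => by rw [← Hm.mul_assoc, h, Hm.zero_mul]
  refine F.trK (x' := fromBlocks t.s.ct 0 (t'.i * u' * t.i.ct) t'.s) ?_ ?_
  · simp only [fromBlocks_multiply, Hm.mul_zero, add_zero, zero_add, Hm.zero_mul, Hm.mul_assoc,
      k t'.h2, k h1, k0 t'.h3', t'.h3, t'.h4, add_comm (t.s * t.s.ct), t.h1, fromBlocks_one]
  · simp only [fromBlocks_multiply, Hm.mul_zero, add_zero, zero_add, Hm.zero_mul, Hm.mul_assoc,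
      k t.h2, k h2, k0 t.h3', t.h3, t.h4, t'.h1, fromBlocks_one]

/-- the absorbing object of a unitary isomorphism -/
def Tv.of {c : O} (u : 𝒞.Hom c (I + c)) (h : Unt u) : Tv 𝒞 I where
  c := c
  i := u.toCols₁
  s := u.toCols₂
  h1 := by
    have := h.1
    rwa [← fromCols_toCols u, conjTranspose_fromCols_eq_fromRows_conjTranspose,
      fromCols_mul_fromRows] at this
  h2 := by
    have := h.2
    rw [← fromCols_toCols u, conjTranspose_fromCols_eq_fromRows_conjTranspose,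
      fromRows_mul_fromCols, ← fromBlocks_one, fromBlocks_inj] at this
    exact this.1
  h3 := by
    have := h.2
    rw [← fromCols_toCols u, conjTranspose_fromCols_eq_fromRows_conjTranspose,
      fromRows_mul_fromCols, ← fromBlocks_one, fromBlocks_inj] at this
    exact this.2.1
  h4 := by
    have := h.2
    rw [← fromCols_toCols u, conjTranspose_fromCols_eq_fromRows_conjTranspose,
      fromRows_mul_fromCols, ← fromBlocks_one, fromBlocks_inj] at this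
    exact this.2.2.2

end Pool.Agent.Work.MP_9d1ffa_al.Ct
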