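import Pool.Agent.Work.MP_9d1ffa_al.Rt.QC
import Pool.Agent.Work.MP_9d1ffa_al.Rt.QA

/-! The nilpotent part of a linearised matrix. -/

namespace Pool.Agent.Work.MP_9d1ffa_al.Ct.Ru

open MonoidAlgebra MulAction

set_option linter.unusedSectionVars false
set_option linter.unusedVariables false

open Pool.Agent.Work.MP_904812_al

variable {X G V : Type} [Group G] [MulAction G V] [Nonempty X] {ρ : G →* Equiv.Perm X} {I : Ob X}
  {d : V → V → ℤ} {O : V × V → Prop} {z : I.I → V × V} {q : I.I → V} {β β' : (OC ρ).Hom I I}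

/-- the indicator of the sources located on edges -/
noncomputable def edgeD (ρ : G →* Equiv.Perm X) (z : I.I → V × V) : (OC ρ).Hom I I :=
  mfil z z (fun a _ => a.1 ≠ a.2) 1

theorem edgeD_apply (x : Vec ρ I) : x * edgeD ρ z = proj z (fun t => t.1 ≠ t.2) x := by
  have hi : Inv G (fun (a _ : V × V) => a.1 ≠ a.2) := fun g _ _ f e => f (MulAction.injective g e)
  let φ : Vec ρ I →+ Vec ρ I := Hm.rmul (edgeD ρ z) - proj z (fun t => t.1 ≠ t.2)
  have key : x ∈ φ.ker := by
    refine mem_of_proj z fun σ => ?_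
    have hc := vOn_proj z (· = σ) x
    rw [AddMonoidHom.mem_ker]
    change proj z (· = σ) x * edgeD ρ z - proj z (fun t => t.1 ≠ t.2) (proj z (· = σ) x) = 0
    rw [edgeD, hc.vecMul_mfil hi, Hm.mul_one, sub_eq_zero]
    exact hc.proj_congr fun a e => by rw [e]
  exact sub_eq_zero.1 (AddMonoidHom.mem_ker.1 key)

theorem proj_vecMul_eq {P : Type} [MulAction G P] {J : Ob X} {p : I.I → P} {r : J.I → P}
    {M : (OC ρ).Hom I J} (hM : MOn p r Eq M) (S : P → Prop) (x : Vec ρ I) :
    proj r S (x * M) = proj p S x * M := by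
  have h1 := ((vOn_proj p S x).vecMul hM inv_eq).mono (S' := S) fun _ ⟨_, a, b⟩ => b ▸ a
  have h2 := ((vOn_proj p (fun a => ¬ S a) x).vecMul hM inv_eq).mono (S' := fun a => ¬ S a)
    fun _ ⟨_, a, b⟩ => b ▸ a
  conv_lhs => rw [← proj_add_not p S x, Hm.add_mul, map_add, h1.proj_eq,
    h2.proj_zero (S' := S) (fun _ h => h), add_zero]

theorem vOn_of_proj {P : Type} [MulAction G P] {p : I.I → P} {S : P → Prop} {x : Vec ρ I}
    (h : ∀ t, ¬ S t → proj p (· = t) x = 0) : VOn p S x := fun i g e => by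
  by_contra a
  have := congrArg (fun v : Vec ρ I => (val v () i).coeff g) (h _ a)
  simp only [coeff_proj, if_true] at this
  exact e this

theorem edgeD_on : MOn z z Eq (edgeD ρ z) := (mOn_one z).mfil _

theorem row_inl {J K : Ob X} (A : (OC ρ).Hom I K) (B : (OC ρ).Hom J K) (i : I.I) :
    row (fromRows A B) (Sum.inl i) = row A i :=
  RV_ext (by funext j; rw [val_row, val_fromRows]; rfl)

theorem row_inr {J K : Ob X} (A : (OC ρ).Hom I K) (B : (OC ρ).Hom J K) (i : J.I) :
    row (fromRows A B) (Sum.inr i) = row B i :=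
  RV_ext (by funext j; rw [val_row, val_fromRows]; rfl)

theorem row_zero {J : Ob X} (i : I.I) : row (0 : (OC ρ).Hom I J) i = 0 := by
  rw [← row_one_mul, Hm.mul_zero]

/-- the oriented edges that label the two summands -/
def zz (z : I.I → V × V) : (I + I).I → V × V := Sum.elim (fun i => (z i).swap) z

theorem zz_fin (hz : (Set.range z).Finite) : (Set.range (zz z)).Finite :=
  ((hz.image Prod.swap).union hz).subset (by
    rintro _ ⟨i | i, rfl⟩
    exacts [Or.inl ⟨z i, ⟨i, rfl⟩, rfl⟩, Or.inr ⟨i, rfl⟩])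

theorem CoreH.edgeD_comm (h : CoreH d O z q β β') :
    pim z q β β' * edgeD ρ z = edgeD ρ z * pim z q β β' := by
  refine row_ext fun i => ?_
  rw [← row_one_mul (pim z q β β' * edgeD ρ z), ← row_one_mul (edgeD ρ z * _),
    ← Hm.mul_assoc, ← Hm.mul_assoc, edgeD_apply, edgeD_apply, proj_vecMul_eq h.pim_on]

theorem CoreH.edgeD_bm (h : CoreH d O z q β β') :
    edgeD ρ z * (β - bp z q β) = β - bp z q β := by
  refine row_ext fun i => ?_
  have hi := vOn_single (ρ := ρ) z i
  rw [← row_one_mul (edgeD ρ z * _), ← Hm.mul_assoc, edgeD_apply]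
  by_cases a : (z i).1 = (z i).2
  · rw [hi.proj_zero fun _ e f => f (e ▸ a), Hm.zero_mul]
    exact (VOn.mono (S := fun v => v = (z i).1 ∧ (z i).1 ≠ (z i).2) (mOn_iff.1 h.bm_on i)
      fun _ e => e.2 a).eq_zero.symm
  · rw [(hi.mono fun _ e => e ▸ a).proj_eq, row_one_mul]

/-- components of `y β'` point towards the position of `y` -/
theorem CoreH.nil_vec (h : CoreH d O z q β β') {v : V} {y : Vec ρ I} (hy : VOn q (· = v) y)
    (S : V × V → Prop) :
    VOn (zz z)
      (fun τ => d τ.1 τ.2 = 1 ∧ d v τ.1 < d v τ.2 ∧ (S τ ∨ S τ.swap))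
      (proj z S (y * β') * fromCols (pim z q β β' * edgeD ρ z) (1 - pim z q β β')) := by
  have comp : ∀ t, proj z (· = t) (proj z S (y * β')) = 0 ∨
      (S t ∧ CoreGood d O t ∧ proj z (· = t) (proj z S (y * β')) = proj z (· = t) (y * β')) := by
    intro t
    by_cases c0 : proj z (· = t) (proj z S (y * β')) = 0
    · exact Or.inl c0
    have hc := vOn_proj z (· = t) (proj z S (y * β'))
    have st : S t := by
      by_contra st
      exact c0 ((hc.and ((vOn_proj z S _).proj _)).mono fun _ a => st (a.1 ▸ a.2)).eq_zero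
    refine Or.inr ⟨st, ?_, ?_⟩
    · by_contra gt
      exact c0 ((hc.and (h.good _)).mono fun _ a => gt (a.1 ▸ a.2)).eq_zero
    · rw [proj_proj]
      congr 2
      funext a
      exact propext ⟨fun e => e.1, fun e => ⟨e, e ▸ st⟩⟩
  have h1 : VOn z (fun t => d t.1 t.2 = 1 ∧ d v t.2 < d v t.1 ∧ S t)
      (proj z S (y * β') * (pim z q β β' * edgeD ρ z)) := by
    refine vOn_of_proj fun t ht => ?_
    rw [proj_vecMul_eq ((h.pim_on.mul edgeD_on inv_eq).mono fun _ _ ⟨_, a, b⟩ => a.trans b)]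
    rcases comp t with c | ⟨st, e | ⟨e, o⟩, c⟩
    · rw [c, Hm.zero_mul]
    · rw [h.edgeD_comm, ← Hm.mul_assoc, edgeD_apply,
        (vOn_proj z (· = t) _).proj_zero fun _ a b => b (a ▸ e), Hm.zero_mul]
    · have a := adj_cases h.tr e v
      have : d v t.1 < d v t.2 := by
        by_contra f
        exact ht ⟨e, by omega, st⟩
      rw [c, ← Hm.mul_assoc, h.k1m e o (hy.mono fun _ a => a ▸ this), Hm.zero_mul]
  have h2 : VOn z (fun t => d t.1 t.2 = 1 ∧ d v t.1 < d v t.2 ∧ S t)
      (proj z S (y * β') * (1 - pim z q β β')) := by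
    refine vOn_of_proj fun t ht => ?_
    rw [proj_vecMul_eq ((mOn_one z).sub h.pim_on), Hm.mul_sub, Hm.mul_one, sub_eq_zero]
    rcases comp t with c | ⟨st, e | ⟨e, o⟩, c⟩
    · rw [c, Hm.zero_mul]
    · exact (h.pim_vert e (vOn_proj _ _ _)).symm
    · have a := adj_cases h.tr e v
      have : d v t.2 < d v t.1 := by
        by_contra f
        exact ht ⟨e, by omega, st⟩
      rw [c, h.k1p e o (hy.mono fun _ a => a ▸ this)]
  rw [mul_fromCols]
  intro j g e
  rw [val_fromCols] at e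
  rcases j with j | j
  · obtain ⟨a, b, c⟩ := h1 j g e
    exact ⟨(h.tr.symm _ _).trans a, b, Or.inr c⟩
  · obtain ⟨a, b, c⟩ := h2 j g e
    exact ⟨a, b, Or.inl c⟩

theorem CoreH.nil_row (h : CoreH d O z q β β') {a b : V} (e : d a b = 1) {y : Vec ρ I}
    (hy : VOn q (· = b) y)
    (hx : VOn z (fun t => d t.1 b < d t.1 a ∧ d t.2 b < d t.2 a) (y * β')) :
    VOn (zz z) (cone d (a, b))
      (y * β' * fromCols (pim z q β β' * edgeD ρ z) (1 - pim z q β β')) ∧
    VOn (zz z) (stp d (a, b))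
      (y * zet z q β' * fromCols (pim z q β β' * edgeD ρ z) (1 - pim z q β β')) := by
  constructor
  · have := h.nil_vec hy (fun t => d t.1 b < d t.1 a ∧ d t.2 b < d t.2 a)
    rw [hx.proj_eq] at this
    refine this.mono ?_
    rintro τ ⟨c1, c2, c3 | c3⟩
    · exact ⟨e, c1, c3.1, c3.2, c2⟩
    · exact ⟨e, c1, c3.2, c3.1, c2⟩
  · have := h.nil_vec hy
      (fun t => (b = t.1 ∨ b = t.2) ∧ d t.1 b < d t.1 a ∧ d t.2 b < d t.2 a)
    rw [← proj_proj, hx.proj_eq, ← zet_apply hy] at this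
    refine this.mono ?_
    rintro ⟨t1, t2⟩ ⟨c1, c2, c3⟩
    have s1 := h.tr.self a
    have s2 := h.tr.self b
    have n1 := h.tr.nonneg b t1
    have c4 : (b = t1 ∨ b = t2) ∧ d t2 b < d t2 a := by
      rcases c3 with c3 | c3
      · exact ⟨c3.1, c3.2.2⟩
      · exact ⟨c3.1.symm, c3.2.1⟩
    refine ⟨?_, e, c1, ?_⟩
    · rcases c4.1 with c | c
      · exact c.symm
      · simp only at c2
        rw [← c] at c2
        omega
    · intro f
      have f' : t2 = a := f
      have := c4.2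
      rw [f'] at this
      omega

theorem CoreH.nil_rows (h : CoreH d O z q β β') (k : (I + I).I) :
    row (fromRows (pim z q β β' * (β - bp z q β)) ((1 - pim z q β β') * bp z q β)) k = 0 ∨
    ∃ a b, d a b = 1 ∧ zz z k = (a, b) ∧
      VOn q (· = b)
        (row (fromRows (pim z q β β' * (β - bp z q β)) ((1 - pim z q β β') * bp z q β)) k) ∧
      VOn z (fun t => d t.1 b < d t.1 a ∧ d t.2 b < d t.2 a)
        (row (fromRows (pim z q β β' * (β - bp z q β)) ((1 - pim z q β β') * bp z q β)) k * β') := by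
  rcases k with i | i
  · have hi := vOn_single (ρ := ρ) z i
    have hc : VOn z (· = z i) (row (pim z q β β') i) :=
      VOn.mono (S := Eq (z i)) (mOn_iff.1 h.pim_on i) fun _ a => a.symm
    rw [row_inl, mul_row]
    rcases h.hz i with e | ⟨e, o⟩
    · exact Or.inl ((hc.vecMul_eq h.bm_on inv_bm).mono fun _ a => a.2 e).eq_zero
    · exact Or.inr ⟨(z i).2, (z i).1, (h.tr.symm _ _).trans e, rfl,
        (hc.vecMul_eq h.bm_on inv_bm).mono fun _ a => a.1, h.k2p e o hc (h.pim_row i)⟩
  · have hi := vOn_single (ρ := ρ) z i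
    have hc : VOn z (· = z i) (row (1 - pim z q β β') i) :=
      VOn.mono (S := Eq (z i)) (mOn_iff.1 ((mOn_one z).sub h.pim_on) i) fun _ a => a.symm
    have p0 : row (1 - pim z q β β') i * pim z q β β' = 0 := by
      rw [← mul_row, sub_mul, one_mul, h.pim_idem, sub_self, row_zero]
    rw [row_inr, mul_row]
    rcases h.hz i with e | ⟨e, o⟩
    · left
      rw [← h.pim_vert e hc, p0, Hm.zero_mul]
    · exact Or.inr ⟨(z i).1, (z i).2, e, rfl, hc.vecMul_eq h.bp_on inv_snd, h.k2m e o hc p0⟩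

theorem CoreH.nil (h : CoreH d O z q β β') (hz : (Set.range z).Finite) :
    ∃ ν : (OC ρ).Hom (I + I) (I + I),
      MOn (zz z) (zz z) (stp d) ν ∧
      NilP (zz z) ν ∧
      (TrK (1 + ν) → TrK (β * zet z q β')) := by
  set π := pim z q β β' with hπ
  set A := bp z q β with hA
  set ζ := zet z q β' with hζ
  set r := fromCols (π * edgeD ρ z) (1 - π) with hr
  set w := fromRows (π * (β - A)) ((1 - π) * A) with hw
  have idem : π * π = π := h.pim_idem
  have rw0 : r * w = β - gam z q β β' := by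
    have a : π * edgeD ρ z * (π * (β - A)) = π * (β - A) := by
      rw [h.edgeD_comm, mul_assoc, ← mul_assoc π, idem, ← mul_assoc, ← h.edgeD_comm, mul_assoc,
        h.edgeD_bm]
    have b : (1 - π) * ((1 - π) * A) = (1 - π) * A := by
      rw [← mul_assoc, mul_sub, mul_one, sub_mul 1 π π, one_mul, idem, sub_self, sub_zero]
    rw [hr, hw, fromCols_mul_fromRows, a, b, gam, ← hπ, ← hA]
    noncomm_ring
  have on1 : MOn (zz z) (zz z) (stp d)
      (w * ζ * r) := mOn_iff.2 fun k => by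
    rw [mul_row, mul_row]
    rcases h.nil_rows k with a | ⟨a, b, e, a1, a2, a3⟩
    · have a' : row w k = 0 := a
      rw [a', Hm.zero_mul, Hm.zero_mul]; exact vOn_zero _ _
    · rw [a1]; exact (h.nil_row e a2 a3).2
  have on2 : MOn (zz z) (zz z) (cone d)
      (w * β' * r) := mOn_iff.2 fun k => by
    rw [mul_row, mul_row]
    rcases h.nil_rows k with a | ⟨a, b, e, a1, a2, a3⟩
    · have a' : row w k = 0 := a
      rw [a', Hm.zero_mul, Hm.zero_mul]; exact vOn_zero _ _
    · rw [a1]; exact (h.nil_row e a2 a3).1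
  refine ⟨w * ζ * r, on1, ?_, fun t => ?_⟩
  · refine nilP_of_cone _ (zz_fin hz) (stp d) (cone d) (inv_stp h.iso) (inv_cone h.iso)
      (fun σ τ => (d σ.1 τ.1).toNat) (fun g σ τ => congrArg Int.toNat (h.iso g _ _)) (fun σ => by simp [h.tr.self]) (cone_irr h.tr)
      (cone_n1 h.tr) (cone_n2 h.tr) _ _ on1 on2.neg ?_
    have a : w * ζ * r * (w * β' * r) = w * ζ * r - w * β' * r := by
      have b : ζ * (r * w) * β' = ζ - β' := by
        rw [rw0, mul_sub, sub_mul, h.zet_gam, one_mul, mul_assoc, h.e1, mul_one]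
      calc w * ζ * r * (w * β' * r) = w * (ζ * (r * w) * β') * r := by
            simp only [Hm.mul_assoc]
        _ = _ := by rw [b, Hm.mul_sub, Hm.sub_mul]
    rw [add_mul, one_mul, mul_add, mul_one, mul_neg, a]
    abel
  · have := trK_swap r (w * ζ) t
    rw [← Hm.mul_assoc, rw0, sub_mul, h.gam_zet] at this
    simpa using this

end Pool.Agent.Work.MP_9d1ffa_al.Ct.Ru
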