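import Pool.Agent.Work.MP_9d1ffa_al.Rt.RN
import Pool.Agent.Work.MP_9d1ffa_al.Core

/-! Splitting a linearised matrix along the edges of the tree. -/

namespace Pool.Agent.Work.MP_9d1ffa_al.Ct.Ru

open MonoidAlgebra MulAction

set_option linter.unusedSectionVars false
set_option linter.unusedVariables false

open Pool.Agent.Work.MP_904812_al

variable {X G V : Type} [Group G] [MulAction G V] [Nonempty X] {ρ : G →* Equiv.Perm X} {I : Ob X}

/-- the hypotheses on a linearised matrix -/
structure CoreH (d : V → V → ℤ) (O : V × V → Prop) (z : I.I → V × V) (q : I.I → V)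
    (β β' : (OC ρ).Hom I I) : Prop where
  tr : Tr d
  iso : ∀ (g : G) x y, d (g • x) (g • y) = d x y
  oinv : ∀ (g : G) e, O e → O (g • e)
  oasym : ∀ x y, d x y = 1 → O (x, y) → ¬ O (y, x)
  hz : ∀ i, (z i).1 = (z i).2 ∨ (d (z i).1 (z i).2 = 1 ∧ O (z i))
  on : MOn z q (fun z v => v = z.1 ∨ v = z.2) β
  e1 : β * β' = 1
  e2 : β' * β = 1

/-- the part of `β` going to the second endpoint -/
noncomputable def bp (z : I.I → V × V) (q : I.I → V) (β : (OC ρ).Hom I I) : (OC ρ).Hom I I :=
  mfil z q (fun z v => v = z.2) β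

/-- the idempotent -/
noncomputable def pim (z : I.I → V × V) (q : I.I → V) (β β' : (OC ρ).Hom I I) :
    (OC ρ).Hom I I :=
  mfil z z Eq (bp z q β * β')

/-- the vertex part -/
noncomputable def gam (z : I.I → V × V) (q : I.I → V) (β β' : (OC ρ).Hom I I) :
    (OC ρ).Hom I I :=
  pim z q β β' * bp z q β + (1 - pim z q β β') * (β - bp z q β)

/-- its inverse -/
noncomputable def zet (z : I.I → V × V) (q : I.I → V) (β' : (OC ρ).Hom I I) : (OC ρ).Hom I I :=
  mfil q z (fun v z => v = z.1 ∨ v = z.2) β'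

variable {d : V → V → ℤ} {O : V × V → Prop} {z : I.I → V × V} {q : I.I → V}
  {β β' : (OC ρ).Hom I I}

section
variable {P : Type} [MulAction G P] {J K : Ob X} {p : I.I → P} {S S₁ S₂ : P → Prop} {x y : Vec ρ I}

theorem vOn_single (p : I.I → P) (i : I.I) : VOn p (· = p i) (row (1 : (OC ρ).Hom I I) i) :=
  fun j g e => (mOn_one (ρ := ρ) p i j g e).symm

theorem mul_row (A : (OC ρ).Hom I J) (B : (OC ρ).Hom J K) (i : I.I) :
    row (A * B) i = row A i * B := by
  rw [← row_one_mul, ← row_one_mul A, Hm.mul_assoc]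

theorem VOn.sub (hx : VOn p S x) (hy : VOn p S y) : VOn p S (x - y) := by
  rw [sub_eq_add_neg]
  exact hx.add hy.neg

theorem VOn.proj_congr (h : VOn p S x) (hS : ∀ a, S a → (S₁ a ↔ S₂ a)) :
    Ru.proj p S₁ x = Ru.proj p S₂ x :=
  RV_ext (MP_9d1ffa_al.VOn.proj_congr (x := val x ()) h hS)

end

theorem CoreH.bp_on (h : CoreH d O z q β β') : MOn z q (fun z v => v = z.2) (bp z q β) :=
  mOn_mfil _ _ _ _

theorem bm_eq : β - bp z q β = mfil z q (fun z v => ¬ v = z.2) β := by
  rw [sub_eq_iff_eq_add', bp, mfil_add_not]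

theorem CoreH.bm_on (h : CoreH d O z q β β') :
    MOn z q (fun z v => v = z.1 ∧ z.1 ≠ z.2) (β - bp z q β) := by
  rw [bm_eq]
  intro i j g e
  have a := h.on.mfil _ i j g e
  have b := mOn_mfil z q (fun z v => ¬ v = z.2) β i j g e
  rcases a with a | a
  · exact ⟨a, fun c => b (a.trans c)⟩
  · exact absurd a b

theorem CoreH.pim_on (h : CoreH d O z q β β') : MOn z z Eq (pim z q β β') :=
  mOn_mfil _ _ _ _

theorem CoreH.good (h : CoreH d O z q β β') (x : Vec ρ I) : VOn z (CoreGood d O) x := by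
  intro i g _
  rcases h.hz i with e | ⟨e, o⟩
  · exact Or.inl (congrArg (g • ·) e)
  · exact Or.inr ⟨(h.iso g _ _).trans e, h.oinv g _ o⟩

theorem CoreH.mul_inv (h : CoreH d O z q β β') (x : Vec ρ I) : x * β * β' = x := by
  rw [Hm.mul_assoc, h.e1, Hm.mul_one]

theorem CoreH.inv_mul (h : CoreH d O z q β β') (x : Vec ρ I) : x * β' * β = x := by
  rw [Hm.mul_assoc, h.e2, Hm.mul_one]

theorem CoreH.pim_apply (h : CoreH d O z q β β') {t : V × V} {c : Vec ρ I}
    (hc : VOn z (· = t) c) : c * pim z q β β' = proj z (· = t) (c * bp z q β * β') := by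
  rw [pim, hc.vecMul_mfil inv_eq, Hm.mul_assoc]
  congr 2
  funext a
  exact propext eq_comm

theorem CoreH.bp_apply (h : CoreH d O z q β β') {t : V × V} {c : Vec ρ I}
    (hc : VOn z (· = t) c) : c * bp z q β = proj q (· = t.2) (c * β) :=
  hc.vecMul_mfil inv_snd β

theorem CoreH.bp_vertex (h : CoreH d O z q β β') {t : V × V} (ht : t.1 = t.2) {c : Vec ρ I}
    (hc : VOn z (· = t) c) : c * bp z q β = c * β := by
  rw [h.bp_apply hc]
  exact ((hc.vecMul_eq h.on inv_ends).mono fun v e => e.elim (fun e => e.trans ht) id).proj_eq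

theorem CoreH.pim_vert (h : CoreH d O z q β β') {t : V × V} (ht : t.1 = t.2) {c : Vec ρ I}
    (hc : VOn z (· = t) c) : c * pim z q β β' = c := by
  rw [h.pim_apply hc, h.bp_vertex ht hc, h.mul_inv, hc.proj_eq]

theorem CoreH.pim_vertex (h : CoreH d O z q β β') {i : I.I} (hi : (z i).1 = (z i).2) :
    row (pim z q β β') i = row 1 i := by
  rw [← row_one_mul (pim z q β β'), h.pim_vert hi (vOn_single z i)]

/-- the projection onto the half tree, transported by `β` -/
noncomputable def coreQ (d : V → V → ℤ) (q : I.I → V) (β β' : (OC ρ).Hom I I) (u w : V) :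
    (Vec ρ I) →+ (Vec ρ I) where
  toFun x := proj q (fun v => d v w < d v u) (x * β) * β'
  map_zero' := by rw [Hm.zero_mul, map_zero, Hm.zero_mul]
  map_add' x y := by rw [Hm.add_mul, map_add, Hm.add_mul]

theorem coreQ_apply (u w : V) (x : Vec ρ I) :
    coreQ d q β β' u w x = proj q (fun v => d v w < d v u) (x * β) * β' := rfl

theorem CoreH.side (h : CoreH d O z q β β') {u w : V} (e : d u w = 1) (o : O (u, w))
    {t : V × V} (ht : CoreGood d O t) (hne : t ≠ (u, w)) : d t.1 w < d t.1 u ↔ d t.2 w < d t.2 u := by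
  rcases ht with a | ⟨a, b⟩
  · rw [a]
  · refine side_edge h.tr e a hne fun c => ?_
    have c' : t = (w, u) := c
    rw [c'] at b
    exact h.oasym u w e o b

theorem CoreH.q_plus (h : CoreH d O z q β β') {u w : V} (e : d u w = 1) (o : O (u, w))
    {x : Vec ρ I} (hx : VOn z (fun t => t ≠ (u, w) ∧ d t.1 w < d t.1 u) x) :
    coreQ d q β β' u w x = x := by
  rw [coreQ_apply, VOn.proj_eq, h.mul_inv]
  refine ((hx.and (h.good x)).vecMul h.on inv_ends).mono ?_
  rintro v ⟨t, ⟨⟨a, b⟩, c⟩, rfl | rfl⟩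
  · exact b
  · exact (h.side e o c a).1 b

theorem CoreH.q_minus (h : CoreH d O z q β β') {u w : V} (e : d u w = 1) (o : O (u, w))
    {x : Vec ρ I} (hx : VOn z (fun t => t ≠ (u, w) ∧ ¬ d t.1 w < d t.1 u) x) :
    coreQ d q β β' u w x = 0 := by
  rw [coreQ_apply, ((hx.and (h.good x)).vecMul h.on inv_ends).proj_zero, Hm.zero_mul]
  rintro v ⟨t, ⟨⟨a, b⟩, c⟩, rfl | rfl⟩
  · exact b
  · exact fun f => b ((h.side e o c a).2 f)

theorem CoreH.q_zero (h : CoreH d O z q β β') {u w : V} (e : d u w = 1)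
    {c : Vec ρ I} (hc : VOn z (· = (u, w)) c) :
    coreQ d q β β' u w c = c * bp z q β * β' := by
  rw [coreQ_apply, h.bp_apply hc]
  congr 1
  refine (hc.vecMul_eq h.on inv_ends).proj_congr ?_
  have s1 := h.tr.self u
  have s2 := h.tr.self w
  have s3 := h.tr.symm u w
  rintro v (rfl | rfl)
  · refine ⟨fun a => by omega, fun a => ?_⟩
    have a' : v = w := a
    rw [← a'] at e
    omega
  · exact ⟨fun _ => rfl, fun _ => by omega⟩

theorem CoreH.q_idem (h : CoreH d O z q β β') (u w : V) (x : Vec ρ I) :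
    coreQ d q β β' u w (coreQ d q β β' u w x) = coreQ d q β β' u w x := by
  rw [coreQ_apply u w (coreQ d q β β' u w x), coreQ_apply, h.inv_mul, (vOn_proj _ _ _).proj_eq]

theorem core_split (z : I.I → V × V) (e : V × V) (S : V × V → Prop) (x : Vec ρ I) :
    x = proj z (· = e) x + proj z (fun t => t ≠ e ∧ S t) x +
      proj z (fun t => t ≠ e ∧ ¬ S t) x :=
  vec_ext fun i g => by
    simp only [val_add, Matrix.add_apply, coeff_add, Finsupp.add_apply, coeff_proj]
    by_cases a : g • z i = e <;> by_cases b : S (g • z i) <;> simp [a, b]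

theorem CoreH.q_eq (h : CoreH d O z q β β') {u w : V} (e : d u w = 1) (o : O (u, w))
    (x : Vec ρ I) : coreQ d q β β' u w x = proj z (· = (u, w)) x * bp z q β * β' +
      proj z (fun t => t ≠ (u, w) ∧ d t.1 w < d t.1 u) x := by
  conv_lhs => rw [core_split z (u, w) (fun t => d t.1 w < d t.1 u) x]
  rw [map_add, map_add, h.q_zero e (vOn_proj _ _ _), h.q_plus e o (vOn_proj _ _ _),
    h.q_minus e o (vOn_proj _ _ _), add_zero]

theorem CoreH.proj_q (h : CoreH d O z q β β') {u w : V} (e : d u w = 1) (o : O (u, w))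
    (x : Vec ρ I) : proj z (· = (u, w)) (coreQ d q β β' u w x) =
      proj z (· = (u, w)) x * pim z q β β' := by
  rw [h.q_eq e o, map_add, h.pim_apply (vOn_proj _ _ _),
    (vOn_proj z (fun t => t ≠ (u, w) ∧ d t.1 w < d t.1 u) x).proj_zero fun _ a b => a.1 b,
    add_zero]

theorem CoreH.k1p (h : CoreH d O z q β β') {u w : V} (e : d u w = 1) (o : O (u, w))
    {y : Vec ρ I} (hy : VOn q (fun v => d v w < d v u) y) :
    proj z (· = (u, w)) (y * β') * pim z q β β' = proj z (· = (u, w)) (y * β') := by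
  rw [← h.proj_q e o, coreQ_apply, h.inv_mul, hy.proj_eq]

theorem CoreH.k1m (h : CoreH d O z q β β') {u w : V} (e : d u w = 1) (o : O (u, w))
    {y : Vec ρ I} (hy : VOn q (fun v => d v u < d v w) y) :
    proj z (· = (u, w)) (y * β') * pim z q β β' = 0 := by
  rw [← h.proj_q e o, coreQ_apply, h.inv_mul, hy.proj_zero fun _ a b => by omega, Hm.zero_mul,
    map_zero]

theorem CoreH.k2p (h : CoreH d O z q β β') {u w : V} (e : d u w = 1) (o : O (u, w))
    {c : Vec ρ I} (hc : VOn z (· = (u, w)) c) (hp : c * pim z q β β' = c) :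
    VOn z (fun t => d t.1 u < d t.1 w ∧ d t.2 u < d t.2 w) (c * (β - bp z q β) * β') := by
  set m := coreQ d q β β' u w c with hm
  have m0 : proj z (· = (u, w)) m = c := by rw [hm, h.proj_q e o, hc.proj_eq, hp]
  have m1 : proj z (fun t => t ≠ (u, w) ∧ d t.1 w < d t.1 u) m = 0 := by
    have a := h.q_eq e o m
    rw [hm, h.q_idem, ← hm, m0, ← h.q_zero e hc, ← hm] at a
    exact left_eq_add.1 a
  have m2 := core_split z (u, w) (fun t => d t.1 w < d t.1 u) m
  rw [m0, m1, add_zero] at m2
  have : c * (β - bp z q β) * β' =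
      -proj z (fun t => t ≠ (u, w) ∧ ¬ d t.1 w < d t.1 u) m := by
    rw [Hm.mul_sub, Hm.sub_mul, h.mul_inv, ← h.q_zero e hc, ← hm]
    conv_lhs => rw [m2]
    abel
  rw [this]
  refine (((vOn_proj z _ m).and (h.good _)).mono ?_).neg
  rintro t ⟨⟨a, b⟩, g⟩
  have s := h.side e o g a
  have a1 := adj_cases h.tr e t.1
  have a2 := adj_cases h.tr e t.2
  constructor
  · omega
  · by_contra f
    exact b (s.2 (by omega))

theorem CoreH.k2m (h : CoreH d O z q β β') {u w : V} (e : d u w = 1) (o : O (u, w))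
    {c : Vec ρ I} (hc : VOn z (· = (u, w)) c) (hp : c * pim z q β β' = 0) :
    VOn z (fun t => d t.1 w < d t.1 u ∧ d t.2 w < d t.2 u) (c * bp z q β * β') := by
  set m := coreQ d q β β' u w c with hm
  have m0 : proj z (· = (u, w)) m = 0 := by rw [hm, h.proj_q e o, hc.proj_eq, hp]
  have a := h.q_eq e o m
  rw [hm, h.q_idem, ← hm, m0, Hm.zero_mul, Hm.zero_mul, zero_add] at a
  rw [← h.q_zero e hc, ← hm, a]
  refine ((vOn_proj z _ m).and (h.good _)).mono ?_
  rintro t ⟨⟨a, b⟩, g⟩
  exact ⟨b, (h.side e o g a).1 b⟩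

theorem CoreH.pim_row (h : CoreH d O z q β β') (i : I.I) :
    row (pim z q β β') i * pim z q β β' = row (pim z q β β') i := by
  rcases h.hz i with e | ⟨e, o⟩
  · exact h.pim_vert e (VOn.mono (S := Eq (z i)) (mOn_iff.1 h.pim_on i) fun _ a => a.symm)
  · have a := h.pim_apply (vOn_single z i)
    rw [row_one_mul] at a
    rw [a]
    refine h.k1p e o (((vOn_single z i).vecMul_eq h.bp_on inv_snd).mono ?_)
    rintro v rfl
    have := h.tr.self (z i).2
    have := h.tr.symm (z i).1 (z i).2
    omega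

theorem CoreH.pim_idem (h : CoreH d O z q β β') :
    pim z q β β' * pim z q β β' = pim z q β β' := by
  refine row_ext fun i => ?_
  rw [mul_row]
  exact h.pim_row i

theorem gam_apply (x : Vec ρ I) : x * gam z q β β' = x * pim z q β β' * bp z q β +
    (x - x * pim z q β β') * (β - bp z q β) := by
  rw [gam, Hm.mul_add, ← Hm.mul_assoc, ← Hm.mul_assoc, Hm.mul_sub x 1, Hm.mul_one]

theorem zet_apply {v : V} {y : Vec ρ I} (hy : VOn q (· = v) y) :
    y * zet z q β' = proj z (fun t => v = t.1 ∨ v = t.2) (y * β') :=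
  hy.vecMul_mfil inv_ends' β'

theorem CoreH.gam_zet (h : CoreH d O z q β β') : gam z q β β' * zet z q β' = 1 := by
  refine row_ext fun i => ?_
  have hi := vOn_single (ρ := ρ) z i
  rw [mul_row, ← row_one_mul (gam z q β β'), gam_apply]
  set x : Vec ρ I := row 1 i
  rcases h.hz i with e | ⟨e, o⟩
  · rw [h.pim_vert e hi, sub_self, Hm.zero_mul, add_zero,
      zet_apply (hi.vecMul_eq h.bp_on inv_snd), h.bp_vertex e hi, h.mul_inv]
    exact (hi.mono fun _ a => Or.inr (a ▸ rfl)).proj_eq
  · have hc : VOn z (· = z i) (x * pim z q β β') :=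
      (hi.vecMul_eq h.pim_on inv_eq).mono fun _ a => a.symm
    have pc : x * pim z q β β' * pim z q β β' = x * pim z q β β' := by
      rw [Hm.mul_assoc, h.pim_idem]
    set c := x * pim z q β β'
    have hc' : VOn z (· = z i) (x - c) := hi.sub hc
    have pc' : (x - c) * pim z q β β' = 0 := by rw [Hm.sub_mul, pc, sub_self]
    have k1 := h.k2p e o hc pc
    have k2 := h.k2m e o hc' pc'
    have s1 := h.tr.self (z i).1
    have s2 := h.tr.self (z i).2
    have n1 := h.tr.nonneg (z i).1 (z i).2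
    have n2 := h.tr.nonneg (z i).2 (z i).1
    have a1 : c * bp z q β * zet z q β' = c := by
      have : c * bp z q β * β' = c - c * (β - bp z q β) * β' := by
        rw [Hm.mul_sub, Hm.sub_mul, h.mul_inv]; abel
      rw [zet_apply (hc.vecMul_eq h.bp_on inv_snd), this, map_sub, k1.proj_zero, sub_zero]
      · exact (hc.mono fun _ a => Or.inr (a ▸ rfl)).proj_eq
      · rintro t ⟨a, b⟩ (f | f)
        · rw [← f] at a; omega
        · rw [← f] at b; omega
    have a2 : (x - c) * (β - bp z q β) * zet z q β' = x - c := by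
      have : (x - c) * (β - bp z q β) * β' = (x - c) - (x - c) * bp z q β * β' := by
        rw [Hm.mul_sub, Hm.sub_mul ((x - c) * β), h.mul_inv]
      rw [zet_apply ((hc'.vecMul_eq h.bm_on inv_bm).mono fun _ a => a.1), this, map_sub,
        k2.proj_zero, sub_zero]
      · exact (hc'.mono fun _ a => Or.inl (a ▸ rfl)).proj_eq
      · rintro t ⟨a, b⟩ (f | f)
        · rw [← f] at a; omega
        · rw [← f] at b; omega
    rw [Hm.add_mul, a1, a2]
    abel

theorem CoreH.zet_gam (h : CoreH d O z q β β') : zet z q β' * gam z q β β' = 1 := by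
  refine row_ext fun j => ?_
  have hj := vOn_single (ρ := ρ) q j
  rw [mul_row, ← row_one_mul (zet z q β'), zet_apply hj]
  set y : Vec ρ I := row 1 j
  set v := q j
  let φ : (Vec ρ I) →+ (Vec ρ I) :=
    (Hm.rmul (gam z q β β')).comp (proj z fun t => v = t.1 ∨ v = t.2) -
      (proj q (· = v)).comp (Hm.rmul β)
  have φa : ∀ x, φ x = proj z (fun t => v = t.1 ∨ v = t.2) x * gam z q β β' -
      proj q (· = v) (x * β) := fun _ => rfl
  have key : y * β' ∈ φ.ker := by
    refine mem_of_proj z fun t => ?_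
    rw [AddMonoidHom.mem_ker, φa, sub_eq_zero]
    have hc := vOn_proj z (· = t) (y * β')
    by_cases c0 : proj z (· = t) (y * β') = 0
    · rw [c0]; simp
    have gt : CoreGood d O t := by
      by_contra gt
      exact c0 ((hc.and (h.good _)).mono fun _ a => gt (a.1 ▸ a.2)).eq_zero
    have hβ := hc.vecMul_eq h.on inv_ends
    by_cases hv : v = t.1 ∨ v = t.2
    · rw [(hc.mono fun _ a => a ▸ hv).proj_eq, gam_apply]
      rcases gt with e | ⟨e, o⟩
      · rw [h.pim_vert e hc, sub_self, Hm.zero_mul, add_zero, h.bp_apply hc]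
        have : v = t.2 := hv.elim (fun a => a.trans e) id
        rw [this]
      · have s1 := h.tr.self t.1
        have s2 := h.tr.self t.2
        have s3 := h.tr.symm t.1 t.2
        rcases hv with hv | hv
        · have k := h.k1m (y := y) e o (hj.mono fun _ a => by rw [a, hv]; omega)
          rw [k, Hm.zero_mul, zero_add, sub_zero, bm_eq,
            hc.vecMul_mfil inv_nsnd]
          refine hβ.proj_congr ?_
          have ne : t.1 ≠ t.2 := fun a => by rw [a] at e; omega
          rintro x (rfl | rfl)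
          · exact ⟨fun _ => hv.symm, fun _ => ne⟩
          · exact ⟨fun a => absurd rfl a, fun a => absurd (hv.symm.trans a.symm) ne⟩
        · have k := h.k1p (y := y) e o (hj.mono fun _ a => by rw [a, hv]; omega)
          rw [k, sub_self, Hm.zero_mul, add_zero, h.bp_apply hc, hv]
    · rw [hc.proj_zero fun _ a b => hv (a ▸ b), Hm.zero_mul, hβ.proj_zero]
      rintro x a rfl
      exact hv a
  rw [AddMonoidHom.mem_ker, φa, sub_eq_zero, h.inv_mul, hj.proj_eq] at key
  exact key

end Pool.Agent.Work.MP_9d1ffa_al.Ct.Ru
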