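import Pool.Agent.Work.MP_9d1ffa_al.Rt.RDefs

/-! The first K-group of the obstruction category, and translations of segments in a tree. -/

namespace Pool.Agent.Work.MP_9d1ffa_al

open MulAction

variable {G V X : Type} [Group G] [MulAction G V]

open Classical in
/-- `u` and `u'` are controlled and inverse to each other -/
def InvC (ρ : G →* Equiv.Perm X) (a : Ob X) (u u' : Matrix a.I a.I (ZG G)) : Prop :=
  Ctl ρ a a u ∧ Ctl ρ a a u' ∧ cmul u u' = 1 ∧ cmul u' u = 1

open Classical in
/-- products of commutators of invertible controlled matrices -/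
inductive Com (ρ : G →* Equiv.Perm X) (a : Ob X) : Matrix a.I a.I (ZG G) → Prop
  | one : Com ρ a 1
  | mul (u u' v v' M : Matrix a.I a.I (ZG G)) : InvC ρ a u u' → InvC ρ a v v' → Com ρ a M →
      Com ρ a (cmul (cmul (cmul u v) (cmul u' v')) M)

open Classical in
/-- for every group `K` over `G`, the first K-group of the obstruction category vanishes -/
def VanW (ρ : G →* Equiv.Perm X) : Prop :=
  ∀ (K : Type) [Group K] (φ : K →* G) (a : Ob X) (u u' : Matrix a.I a.I (ZG K)),
    InvC (ρ.comp φ) a u u' → ∃ b : Ob X, Com (ρ.comp φ) (a.sum b) (Matrix.fromBlocks u 0 0 1)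

/-- `s` moves the nondegenerate segment `[a, b]` forward along a geodesic -/
def Trl (T : SimpleGraph V) (a b : V) (s : G) : Prop :=
  a ≠ b ∧ s • a ≠ a ∧ Bw T a (s • a) (s • b) ∧ Bw T a b (s • b)

/-- `D` and `s` lift to a group over `G` with vanishing first K-group, together with the relations
of the HNN extension of `D` along conjugation by `s` -/
def LiftK (ρ : G →* Equiv.Perm X) (D : Subgroup G) (s : G) : Prop :=
  ∃ (H : Type) (_ : Group H) (π : H →* G) (κ : D →* H) (t : H), VanW (ρ.comp π) ∧
    (∀ d : D, π (κ d) = d) ∧ π t = s ∧ ∀ d d' : D, (d' : G) * s = s * d → κ d' * t = t * κ d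

/-- there is no ray of segments `[a, b n]`, each of them moved forward by an element `s n` that
does not lift and sends `b n` to `b (n + 1)` -/
def NoRay (ρ : G →* Equiv.Perm X) (T : SimpleGraph V) : Prop :=
  ¬ ∃ (a : V) (b : ℕ → V) (s : ℕ → G), ∀ n, Trl T a (b n) (s n) ∧
    ¬ LiftK ρ (stabilizer G (a, b n)) (s n) ∧ b (n + 1) = s n • b n

end Pool.Agent.Work.MP_9d1ffa_al
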