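import Pool.Agent.Work.MP_9d1ffa_al.Rt.QA
import Pool.Agent.Work.MP_9d1ffa_al.Rt.LSw

/-! The vertex part of a split automorphism is trivial. -/

namespace Pool.Agent.Work.MP_9d1ffa_al.Ct.Ru

open MonoidAlgebra Rl

set_option linter.unusedSectionVars false
set_option linter.unusedVariables false

variable {X Z G V : Type} [Group G] [MulAction G Z] [MulAction G V] {ρ : G →* Equiv.Perm X}
  {a b : Ob X}

/-- the sum of all shifts absorbs an object -/
noncomputable def tvP (ρ : G →* Equiv.Perm X) (a : Ob X) (φ : a.I → X) (h : (Set.range φ).Finite) :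
    Tv (OC ρ) a :=
  Tv.of (c := swP a φ h) (mk (pmM swE fun _ => 1) (ctl_swE ρ a φ h))
    ⟨val_inj (@pmM_mul_ct _ _ _ _ (fun _ _ => Classical.propDecidable _) _ swE_bij.1 _),
      val_inj (@pmM_ct_mul _ _ _ _ (fun _ _ => Classical.propDecidable _) _ swE_bij _)⟩

theorem posD {π π' : Z → X} (h : ∀ (g : G) z, π (g • z) = ρ g (π z))
    (h' : ∀ (g : G) z, π' (g • z) = ρ g (π' z)) {p : a.I → Z} {q : b.I → Z}
    (hp : (Set.range p).Finite) (hq : (Set.range q).Finite) {φ : a.I → X} {φ' : b.I → X}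
    (k : (Set.range φ).Finite) (k' : (Set.range φ').Finite) (e : ∀ i, φ i = π (p i))
    (e' : ∀ i, φ' i = π' (q i)) {u : (OC ρ).Hom a b} {u' : (OC ρ).Hom b a} (hu : MOn p q Eq u)
    (h1 : u * u' = 1) (h2 : u' * u = 1) : (tvP ρ a φ k).D (tvP ρ b φ' k') u := by
  obtain rfl : φ = _ := funext e
  obtain rfl : φ' = _ := funext e'
  let A : LOb X Z := ⟨a, p, hp⟩
  let B : LOb X Z := ⟨b, q, hq⟩
  let F : Flq (LC ρ (sA Z)) := flqL (π := π) fun g x y e => by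
    rw [show x = g • y from e]
    exact h g y
  let F' : Flq (LC ρ (sA Z)) := flqL (π := π') fun g x y e => by
    rw [show x = g • y from e]
    exact h' g y
  have c : ∀ {x y : Z}, cl G Eq x y ↔ x = y := cl_iff inv_eq
  let U : (LC ρ (sA Z)).Hom A B := lmk u (hu.mono fun _ _ => c.2)
  let U' : (LC ρ (sA Z)).Hom B A := lmk (mfil q p Eq u') ((mOn_mfil _ _ _ _).mono fun _ _ => c.2)
  have k1 : U * U' = 1 := vo_inj (by
    change u * mfil q p Eq u' = 1
    rw [← mfil_mul_left (U := Eq) hu u' inv_eq fun _ _ _ e => by rw [e], h1, (mOn_one p).mfil_eq])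
  have k2 : U' * U = 1 := vo_inj (by
    change mfil q p Eq u' * u = 1
    rw [← mfil_mul_right (U := Eq) u' hu inv_eq fun _ _ _ e => by rw [e], h2, (mOn_one q).mfil_eq])
  have := (voF ρ _).trK (F.D (Tv.of (F.u A) (F.unt A)) (Tv.of (F'.u B) (F'.unt B)) k1 k2)
  change TrK (vo _) at this
  rw [vo_fromBlocks] at this
  exact this

theorem QG_on {P : Type} [MulAction G P] {B₁ B₂ A₁ A₂ I : Ob X} {p₁ : B₁.I → P} {p₂ : B₂.I → P}
    {q : I.I → P} {r₁ : A₁.I → P} {r₂ : A₂.I → P} {U₁ : (OC ρ).Hom B₁ I} {U₂ : (OC ρ).Hom B₂ I}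
    {X₁ : (OC ρ).Hom B₁ A₁} {X₂ : (OC ρ).Hom B₂ A₂} (h₁ : MOn p₁ q Eq U₁)
    (h₂ : MOn p₂ q Eq U₂) (k₁ : MOn p₁ r₁ Eq X₁) (k₂ : MOn p₂ r₂ Eq X₂) :
    MOn (I := B₁ + B₂) (J := I + (A₁ + A₂)) (Sum.elim p₁ p₂) (Sum.elim q (Sum.elim r₁ r₂)) Eq
      (fromCols (fromRows U₁ U₂) (fromBlocks X₁ 0 0 X₂)) :=
  mOn_fromCols.2 ⟨mOn_fromRows.2 ⟨h₁, h₂⟩,
    mOn_fromBlocks.2 ⟨k₁, mOn_zero _ _ _, mOn_zero _ _ _, k₂⟩⟩

theorem QG_fin {P A B : Type} {p : A → P} {q : B → P} (hp : (Set.range p).Finite)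
    (hq : (Set.range q).Finite) : (Set.range (Sum.elim p q)).Finite :=
  (hp.union hq).subset (Set.Sum.elim_range p q).subset

theorem QG_comp {P Q A : Type} {p : A → P} (hp : (Set.range p).Finite) (f : P → Q) :
    (Set.range fun i => f (p i)).Finite :=
  (hp.image f).subset (by
    rintro _ ⟨i, rfl⟩
    exact ⟨_, ⟨i, rfl⟩, rfl⟩)

/-- the torsion of an isomorphism between objects with labels is trivial -/
structure PD (ρ : G →* Equiv.Perm X) (π : V → X) {a b : Ob X} (l : a.I → V) (m : b.I → V)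
    (u : (OC ρ).Hom a b) : Prop where
  hl : (Set.range l).Finite
  hm : (Set.range m).Finite
  d : (tvP ρ a (fun i => π (l i)) (QG_comp hl π)).D (tvP ρ b (fun i => π (m i)) (QG_comp hm π)) u

section

variable {π : V → X} {c : Ob X} {l : a.I → V} {m : b.I → V} {n : c.I → V} {u : (OC ρ).Hom a b}
  {u' : (OC ρ).Hom b a} {v : (OC ρ).Hom b c}

theorem PD.mul (h : PD ρ π l m u) (h' : PD ρ π m n v) : PD ρ π l n (u * v) :=
  ⟨h.hl, h'.hm, h.d.mul h'.d⟩

theorem PD.cancel (h : PD ρ π l m u) (h' : PD ρ π l n (u * v)) : PD ρ π m n v :=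
  ⟨h.hm, h'.hm, h.d.cancel h'.d⟩

theorem pd_rel (h : ∀ (g : G) v, π (g • v) = ρ g (π v)) {l m : a.I → V} (hl : (Set.range l).Finite)
    (hm : (Set.range m).Finite) : PD ρ π l m 1 := by
  have f : (Set.range fun i => (l i, m i)).Finite :=
    (hl.prod hm).subset (by rintro _ ⟨i, rfl⟩; exact ⟨⟨i, rfl⟩, i, rfl⟩)
  exact ⟨hl, hm, posD (Z := V × V) (π := fun x => π x.1) (π' := fun x => π x.2)
    (fun g x => h g x.1) (fun g x => h g x.2) f f _ _ (fun _ => rfl) (fun _ => rfl) (mOn_one _)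
    (one_mul _) (one_mul _)⟩

theorem pd_on (h : ∀ (g : G) v, π (g • v) = ρ g (π v)) (hl : (Set.range l).Finite)
    (hm : (Set.range m).Finite) (hu : MOn l m Eq u) (h1 : u * u' = 1) (h2 : u' * u = 1) :
    PD ρ π l m u :=
  ⟨hl, hm, posD h h hl hm _ _ (fun _ => rfl) (fun _ => rfl) hu h1 h2⟩

theorem PD.trK (h : ∀ (g : G) v, π (g • v) = ρ g (π v)) {u : (OC ρ).Hom a a} (k : PD ρ π l l u) :
    TrK u := (pd_rel h k.hl k.hl).d.trK k.d

end

/-- idempotents that preserve labels split stably -/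
theorem QG_sf {π : Z → X} (h : ∀ (g : G) z, π (g • z) = ρ g (π z)) {p : a.I → Z}
    (hp : (Set.range p).Finite) {E : (OC ρ).Hom a a} (hE : E * E = E) (hm : MOn p p Eq E) :
    ∃ (c b : Ob X) (pc : c.I → Z) (pb : b.I → Z) (U : (OC ρ).Hom b a) (U₂ : (OC ρ).Hom b c)
      (W : (OC ρ).Hom a b) (W₂ : (OC ρ).Hom c b), (Set.range pc).Finite ∧ (Set.range pb).Finite ∧
      MOn pb p Eq U ∧ MOn pb pc Eq U₂ ∧ U * W + U₂ * W₂ = 1 ∧ W * U = E ∧ W * U₂ = 0 ∧
      W₂ * U = 0 ∧ W₂ * U₂ = 1 := by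
  let A : LOb X Z := ⟨a, p, hp⟩
  let F : Flq (LC ρ (sA Z)) := flqL (π := π) fun g x y e => by
    rw [show x = g • y from e]
    exact h g y
  obtain ⟨c, b, U, W, h1, h2⟩ := F.sfi A (lmk E (hm.mono fun _ _ => (cl_iff inv_eq).2)) (vo_inj hE)
  obtain ⟨U, U₂, rfl⟩ := exists_cols U
  obtain ⟨W, W₂, rfl⟩ := exists_rows W
  rw [fromCols_mul_fromRows] at h1
  rw [fromRows_mul_fromCols, fromBlocks_inj] at h2
  exact ⟨c.ob, b.ob, c.lab, b.lab, vo U, vo U₂, vo W, vo W₂, c.fin, b.fin, (Rl.sup_self U).mOn,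
    (Rl.sup_self U₂).mOn, congrArg vo h1, congrArg vo h2.1, congrArg vo h2.2.1,
    congrArg vo h2.2.2.1, congrArg vo h2.2.2.2⟩

theorem gamma_trK {π : V → X} (h : ∀ (g : G) v, π (g • v) = ρ g (π v)) {I : Ob X}
    {z : I.I → V × V} {q : I.I → V} (hz : (Set.range z).Finite) (hq : (Set.range q).Finite)
    {E A B ζ : (OC ρ).Hom I I} (hE : E * E = E) (hm : MOn z z Eq E)
    (hA : MOn z q (fun z v => v = z.2) A) (hB : MOn z q (fun z v => v = z.1) B)
    (e1 : (E * A + (1 - E) * B) * ζ = 1) (e2 : ζ * (E * A + (1 - E) * B) = 1) :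
    TrK (E * A + (1 - E) * B) := by
  have f1 : ∀ (g : G) (x : V × V), π (g • x).1 = ρ g (π x.1) := fun g x => h g x.1
  obtain ⟨a, b, pa, pb, U, U₂, W, W₂, fa, fb, m1, m2, s1, s2, s3, s4, s5⟩ :=
    QG_sf (π := fun x : V × V => π x.1) f1 hz hE hm
  obtain ⟨a', b', pa', pb', U', U₂', W', W₂', fa', fb', m1', m2', t1, t2, t3, t4, t5⟩ :=
    QG_sf (π := fun x : V × V => π x.1) f1 hz (E := 1 - E)
      (by rw [mul_sub, mul_one, sub_mul 1, one_mul, hE, sub_self, sub_zero]) ((mOn_one z).sub hm)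
  have u1 : U * E = U := by
    rw [← s2, ← Hm.mul_assoc, eq_sub_of_add_eq s1, Hm.sub_mul, Hm.mul_assoc, s4]
    simp
  have u2 : U' * E = 0 := by
    have : U' * (1 - E) = U' := by
      rw [← t2, ← Hm.mul_assoc, eq_sub_of_add_eq t1, Hm.sub_mul, Hm.mul_assoc, t4]
      simp
    rwa [Hm.mul_sub, Hm.mul_one, sub_eq_self] at this
  have w1 : E * W = W := by
    rw [← s2, Hm.mul_assoc, eq_sub_of_add_eq s1, Hm.mul_sub, ← Hm.mul_assoc, s3]
    simp
  have w2 : (1 - E) * W' = W' := by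
    rw [← t2, Hm.mul_assoc, eq_sub_of_add_eq t1, Hm.mul_sub, ← Hm.mul_assoc, t3]
    simp
  have u3 : U * (1 - E) = 0 := by rw [Hm.mul_sub, Hm.mul_one, u1, sub_self]
  have u4 : U' * (1 - E) = U' := by rw [Hm.mul_sub, Hm.mul_one, u2, sub_zero]
  have x1 : U * W' = 0 := by rw [← w2, ← Hm.mul_assoc, u3, Hm.zero_mul]
  have x2 : U' * W = 0 := by rw [← w1, ← Hm.mul_assoc, u2, Hm.zero_mul]
  let Θ := fromCols (fromRows U U') (fromBlocks U₂ 0 0 U₂')
  let Θ' := fromRows (fromCols W W') (fromBlocks W₂ 0 0 W₂')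
  have θ1 : Θ * Θ' = 1 := by
    simp [Θ, Θ', fromCols_mul_fromRows, fromRows_mul_fromCols, fromBlocks_multiply,
      fromBlocks_add, x1, x2, s1, t1, fromCols_fromRows_eq_fromBlocks]
  have θ2 : Θ' * Θ = 1 := by
    simp [Θ, Θ', fromCols_mul_fromRows, fromRows_mul_fromCols, fromBlocks_multiply,
      fromCols_mul_fromBlocks, fromBlocks_mul_fromRows, s2, s3, s4, s5, t2, t3, t4, t5,
      fromCols_fromRows_eq_fromBlocks]
  generalize hγ : E * A + (1 - E) * B = γ at e1 e2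
  let Γ : (OC ρ).Hom (I + (a + a')) (I + (a + a')) := fromBlocks γ 0 0 1
  let Y : (OC ρ).Hom (I + (a + a')) (I + (a + a')) := fromBlocks ζ 0 0 1
  have z1 : Γ * Y = 1 := by simp [Γ, Y, fromBlocks_multiply, e1]
  have z2 : Y * Γ = 1 := by simp [Γ, Y, fromBlocks_multiply, e2]
  have γ1 : Θ * Γ = fromCols (fromRows (U * A) (U' * B)) (fromBlocks U₂ 0 0 U₂') := by
    have a1 : U * γ = U * A := by simp [← hγ, Hm.mul_add, ← Hm.mul_assoc, u1, u3]
    have a2 : U' * γ = U' * B := by simp [← hγ, Hm.mul_add, ← Hm.mul_assoc, u2, u4]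
    rw [fromCols_mul_fromBlocks]
    simp [a1, a2]
  have i1 : Inv G fun (z : V × V) (v : V) => v = z.2 := fun g a b h => h ▸ rfl
  have i2 : Inv G fun (z : V × V) (v : V) => v = z.1 := fun g a b h => h ▸ rfl
  have fp0 := QG_fin (QG_comp fb Prod.fst) (QG_comp fb' Prod.fst)
  have fq0 := QG_fin (QG_comp hz Prod.fst) (QG_fin (QG_comp fa Prod.fst) (QG_comp fa' Prod.fst))
  have fp1 := QG_fin (QG_comp fb Prod.snd) (QG_comp fb' Prod.fst)
  have fq1 := QG_fin hq (QG_fin (QG_comp fa Prod.snd) (QG_comp fa' Prod.fst))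
  have T1 := pd_on (a := b + b') (b := I + (a + a')) h fp0 fq0
    (QG_on (fun i j g e => congrArg Prod.fst (m1 i j g e))
      (fun i j g e => congrArg Prod.fst (m1' i j g e))
      (fun i j g e => congrArg Prod.fst (m2 i j g e))
      fun i j g e => congrArg Prod.fst (m2' i j g e)) θ1 θ2
  have T2 := pd_on (a := b + b') (b := I + (a + a')) h fp1 fq1 (u := Θ * Γ) (u' := Y * Θ') (by
      rw [γ1]
      refine QG_on (fun i j g e => ?_) (fun i j g e => ?_) (fun i j g e => ?_) fun i j g e => ?_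
      · obtain ⟨c, rfl, h⟩ := m1.mul hA i1 i j g e
        exact h.symm
      · obtain ⟨c, rfl, h⟩ := m1'.mul hB i2 i j g e
        exact h.symm
      · exact congrArg Prod.snd (m2 i j g e)
      · exact congrArg Prod.fst (m2' i j g e))
    (by rw [Hm.mul_assoc, ← Hm.mul_assoc Γ, z1, Hm.one_mul, θ1])
    (by rw [Hm.mul_assoc, ← Hm.mul_assoc Θ', θ2, Hm.one_mul, z2])
  have T3 := ((pd_rel (a := b + b') h fp0 fp1).mul T2).mul (pd_rel (a := I + (a + a')) h fq1 fq0)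
  rw [Hm.one_mul, Hm.mul_one] at T3
  exact trK_block.1 ((T1.cancel T3).trK h)

end Pool.Agent.Work.MP_9d1ffa_al.Ct.Ru
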