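import Pool.Agent.Work.MP_9d1ffa_al.Rt.QB
import Pool.Agent.Work.MP_9d1ffa_al.Rt.RZ
import Pool.Agent.Work.MP_9d1ffa_al.Rt.RF

/-! Elimination of nilpotent morphisms orbit by orbit, and the induction along rays. -/

namespace Pool.Agent.Work.MP_9d1ffa_al.Ct.Ru

open MonoidAlgebra MulAction

set_option linter.unusedSectionVars false
set_option linter.unusedVariables false

variable {X G P : Type} [Group G] [MulAction G P] [Nonempty X] {ρ : G →* Equiv.Perm X} {I : Ob X}

/-- the morphisms moving along `mv` and lowering the filtration by `w` -/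
def LJ (mv : P → P → Prop) (p : I.I → P) (F : ℕ → AddSubgroup (Vec ρ I)) (w : ℕ)
    (a : (OC ρ).Hom I I) : Prop :=
  MOn p p mv a ∧ Low2 F F w a

section

variable {mv : P → P → Prop} {p : I.I → P} {F : ℕ → AddSubgroup (Vec ρ I)} {k : ℕ}

theorem LJ.zero (w : ℕ) : LJ mv p F w (0 : (OC ρ).Hom I I) := ⟨mOn_zero _ _ _, low2_zero⟩

theorem LJ.add {w : ℕ} {a b : (OC ρ).Hom I I} (ha : LJ mv p F w a) (hb : LJ mv p F w b) :
    LJ mv p F w (a + b) := ⟨ha.1.add hb.1, ha.2.add hb.2⟩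

theorem LJ.neg {w : ℕ} {a : (OC ρ).Hom I I} (ha : LJ mv p F w a) : LJ mv p F w (-a) :=
  ⟨ha.1.neg, ha.2.neg⟩

theorem LJ.mul (hinv : Inv G mv) (htr : ∀ a b c, mv a b → mv b c → mv a c) {w w' : ℕ}
    {a b : (OC ρ).Hom I I} (ha : LJ mv p F w a) (hb : LJ mv p F w' b) :
    LJ mv p F (w + w') (a * b) :=
  ⟨(ha.1.mul hb.1 hinv).mono fun x z ⟨y, h1, h2⟩ => htr x y z h1 h2, ha.2.mul hb.2⟩

theorem LJ.anti (hF : Filt p F k) {w w' : ℕ} (h : w ≤ w') {a : (OC ρ).Hom I I}
    (ha : LJ mv p F w' a) : LJ mv p F w a := ⟨ha.1, ha.2.anti hF h⟩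

theorem LJ.mfil (hF : Filt p F k) {w : ℕ} {a : (OC ρ).Hom I I} (ha : LJ mv p F w a)
    {R : P → P → Prop} (hR : Inv G R) : LJ mv p F w (mfil p p R a) :=
  ⟨ha.1.mfil R, ha.2.mfil hF hF hR⟩

theorem LJ.inv (hinv : Inv G mv) (htr : ∀ a b c, mv a b → mv b c → mv a c) (hF : Filt p F k)
    (n : ℕ) : ∀ (w : ℕ), 1 ≤ w → k ≤ w + n → ∀ a : (OC ρ).Hom I I,
      LJ mv p F w a → ∃ a', LJ mv p F w a' ∧ (1 + a) * (1 + a') = 1 := by
  induction n with
  | zero =>
    intro w hw hk a ha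
    have : a = 0 := ha.2.eq_zero hF hF (by simpa using hk)
    exact ⟨0, LJ.zero w, by rw [this, add_zero, mul_one]⟩
  | succ n ih =>
    intro w hw hk a ha
    have h2 : LJ mv p F (w + 1) (-(a * a)) := (LJ.anti hF (by omega) (ha.mul hinv htr ha)).neg
    obtain ⟨b, hb, e⟩ := ih (w + 1) (by omega) (by omega) _ h2
    have hb' : LJ mv p F w b := hb.anti hF (by omega)
    refine ⟨-a + b + -(a * b), (ha.neg.add hb').add
      (LJ.anti hF (by omega) (ha.mul hinv htr hb')).neg, ?_⟩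
    refine Eq.trans ?_ e
    noncomm_ring

end

theorem lazard (mv : P → P → Prop) (hinv : Inv G mv) (htr : ∀ a b c, mv a b → mv b c → mv a c)
    (p : I.I → P) (hp : (Set.range p).Finite) (ν : (OC ρ).Hom I I) (hν : MOn p p mv ν)
    (hn : NilP p ν)
    (h1 : ∀ (i j : I.I) (g : G), mv (p i) (g • p j) → ∀ a : (OC ρ).Hom I I,
      MOn p p (Orb G (p i) (g • p j)) a → NilP p a → TrK (1 + a)) :
    TrK (1 + ν) := by
  obtain ⟨F, k, hF, hL⟩ := hn
  have key : ∀ (n w : ℕ), 1 ≤ w → k ≤ w + n → ∀ a : (OC ρ).Hom I I, LJ mv p F w a →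
      TrK (1 + a) := by
    intro n
    induction n with
    | zero =>
      intro w hw hk a ha
      have : a = 0 := ha.2.eq_zero hF hF (by simpa using hk)
      rw [this, add_zero]
      exact trK_one
    | succ n ih =>
      intro w hw hk
      have step : ∀ (N : ℕ) (a c : (OC ρ).Hom I I), (prs p p a).ncard < N → LJ mv p F w a →
          LJ mv p F (w + 1) c → TrK (1 + a + c) := by
        intro N
        induction N with
        | zero => intro a c h; omega
        | succ N ihN =>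
          intro a c hN ha hc
          by_cases h0 : a = 0
          · rw [h0, add_zero]
            exact ih (w + 1) (by omega) (by omega) c hc
          obtain ⟨i, j, g, hg⟩ : ∃ i j g, (val a i j).coeff g ≠ 0 := by
            by_contra hne
            push Not at hne
            exact h0 (hom_ext fun i j g => hne i j g)
          have hO := inv_orb (G := G) (p i) (g • p j)
          have ha1 := ha.mfil hF hO
          have ha2 := ha.mfil hF (inv_not hO)
          have hs := mfil_add_not p p (Orb G (p i) (g • p j)) a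
          have hlt := RZ_size_lt hp hp (fun x y => ¬ Orb G (p i) (g • p j) x y) a i j g hg
            (fun h => h ⟨1, by simp, by simp⟩)
          have ht1 := h1 i j g (ha.1 i j g hg) _ (mOn_mfil p p (Orb G (p i) (g • p j)) a)
            ⟨F, k, hF, ha1.2.anti hF hw⟩
          generalize mfil p p (Orb G (p i) (g • p j)) a = a₁ at ha1 hs ht1
          generalize mfil p p (fun x y => ¬ Orb G (p i) (g • p j) x y) a = a₂ at ha2 hs hlt
          obtain ⟨b, hb, e⟩ := LJ.inv hinv htr hF k w hw (by omega) a₁ ha1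
          have hc' : LJ mv p F (w + 1) (c + b * (a₂ + c)) :=
            hc.add (LJ.anti hF (by omega) (hb.mul hinv htr (ha2.add (hc.anti hF (by omega)))))
          have ht2 := ihN a₂ _ (by omega) ha2 hc'
          have hm := ht1.mul ht2
          have : (1 + a₁) * (1 + a₂ + (c + b * (a₂ + c))) = 1 + a + c := by
            have e1 : 1 + a₂ + (c + b * (a₂ + c)) = 1 + (1 + b) * (a₂ + c) := by noncomm_ring
            rw [e1, mul_add, ← mul_assoc, e, ← hs]
            noncomm_ring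
          rwa [this] at hm
      intro a ha
      have := step _ a 0 (Nat.lt_succ_self _) ha (LJ.zero _)
      rwa [add_zero] at this
  exact key k 1 le_rfl (by omega) ν ⟨hν, hL⟩

/-- all nilpotent morphisms along the loop of `s` at `σ` are trivial -/
def LoopK (ρ : G →* Equiv.Perm X) (σ : P) (s : G) : Prop :=
  ∀ (J : Ob X) (b : (OC ρ).Hom J J),
    MOn (fun _ : J.I => σ) (fun _ : J.I => σ) (Orb G σ (s • σ)) b → NilP (fun _ : J.I => σ) b →
      TrK (1 + b)

variable {mv : P → P → Prop} {hull : P → P → P} {sub : P → P → Prop}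

/-- one refinement step -/
theorem refine_step (M : Mach G mv hull sub) {σ τ : P} (hs : mv σ τ)
    (h : ∀ t : G, mv (hull σ τ) (t • hull σ τ) → LoopK ρ (hull σ τ) t) {p : I.I → P}
    (hp : (Set.range p).Finite) (a : (OC ρ).Hom I I) (ha : MOn p p (Orb G σ τ) a)
    (hn : NilP p a) : TrK (1 + a) := by
  classical
  set η := hull σ τ with hη
  let c : P → P → G := fun x y => if e : Orb G σ τ x y then e.choose else 1
  have hc : ∀ x y, Orb G σ τ x y → x = c x y • σ ∧ y = c x y • τ := fun x y e => by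
    simp only [c, dif_pos e]
    exact e.choose_spec
  obtain ⟨L, s, t, γ, u, w, h0, hu, hw, huw⟩ := exists_fac a hp hp c
  have hα : Inv G (Orb G σ η) := inv_orb σ η
  have hβ : Inv G (Orb G η τ) := inv_orb η τ
  have hu' : MOn p (fun _ : L.I => η) (Orb G σ η) u := fun i x g e => by
    obtain ⟨rfl, rfl⟩ := hu i x g e
    exact ⟨_, (hc _ _ (ha _ _ _ (h0 x))).1, rfl⟩
  have hw' : MOn (fun _ : L.I => η) p (Orb G η τ) w := fun x j g e => by
    obtain ⟨rfl, rfl⟩ := hw x j g e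
    refine ⟨1, (one_smul _ _).symm, ?_⟩
    rw [mul_smul, one_smul, inv_smul_eq_iff]
    exact (hc _ _ (ha _ _ _ (h0 x))).2
  rw [← huw]
  refine trK_swap u w (lazard mv M.inv M.tr (fun _ : L.I => η) Set.finite_range_const _ ?_ ?_
    fun i j g hg b hb hbn => h g hg L b hb hbn)
  · refine (hw'.mul hu' hα).mono ?_
    rintro t t' ⟨a, ⟨γ, rfl, rfl⟩, γ', e, rfl⟩
    have h1 : mv (γ • σ) (γ • τ) := M.inv γ _ _ hs
    have h2 : mv (γ' • σ) (γ' • τ) := M.inv γ' _ _ hs
    have h3 := M.step _ _ _ h1 (e ▸ h2)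
    rw [hη, ← M.eqv, ← M.eqv, ← e]
    exact h3
  · refine nilP_transfer p (fun _ : L.I => η) _ _ hα hβ u w hu' hw' ?_ ?_ (huw ▸ hn)
    · rintro t a₁ a₂ ⟨γ, rfl, rfl⟩ ⟨γ', e, rfl⟩
      exact (Machine_fix M hs e).2
    · rintro a t₁ t₂ a' ⟨γ₁, e₁, rfl⟩ ⟨γ₂, e₂, rfl⟩ ⟨δ₁, f₁, f₁'⟩ ⟨δ₂, f₂, f₂'⟩
      have g₁ := (Machine_fix M hs f₁).2
      have g₂ := (Machine_fix M hs f₂).2
      rw [hη, ← M.eqv, ← M.eqv, ← e₁, ← e₂, g₁, g₂, ← f₁', ← f₂']

theorem machine (M : Mach G mv hull sub)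
    (hC : ¬ ∃ (f : ℕ → P) (s : ℕ → G), ∀ n, mv (f n) (s n • f n) ∧ ¬ LoopK ρ (f n) (s n) ∧
      f (n + 1) = hull (f n) (s n • f n))
    {p : I.I → P} (hp : (Set.range p).Finite) (ν : (OC ρ).Hom I I) (hν : MOn p p mv ν)
    (hn : NilP p ν) : TrK (1 + ν) := by
  have claim : ∀ (σ : P) (s : G), mv σ (s • σ) → LoopK ρ σ s := by
    by_contra k
    push Not at k
    obtain ⟨σ, s, k⟩ := k
    have nx : ∀ x : {x : P × G // mv x.1 (x.2 • x.1) ∧ ¬ LoopK ρ x.1 x.2},
        ∃ y : {x : P × G // mv x.1 (x.2 • x.1) ∧ ¬ LoopK ρ x.1 x.2},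
          y.1.1 = hull x.1.1 (x.1.2 • x.1.1) := fun x => by
      by_contra e
      refine x.2.2 fun J b hb hn => refine_step M x.2.1 (fun t ht => ?_) Set.finite_range_const b
        hb hn
      by_contra e'
      exact e ⟨⟨(_, t), ht, e'⟩, rfl⟩
    choose nx hnx using nx
    refine hC ⟨fun n => (nx^[n] ⟨(σ, s), k⟩).1.1, fun n => (nx^[n] ⟨(σ, s), k⟩).1.2, fun n =>
      ⟨(nx^[n] ⟨(σ, s), k⟩).2.1, (nx^[n] ⟨(σ, s), k⟩).2.2, ?_⟩⟩
    simp only [Function.iterate_succ_apply']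
    exact hnx _
  exact lazard mv M.inv M.tr p hp ν hν hn fun i j g hg a ha han =>
    refine_step M hg (fun t ht => claim _ t ht) hp a ha han

end Pool.Agent.Work.MP_9d1ffa_al.Ct.Ru
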