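import Pool.Agent.Work.MP_9d1ffa_al.Rt.QA
import Pool.Agent.Work.MP_9d1ffa_al.Rt.RF

/-! Linearisation of an automorphism along a tree. -/

namespace Pool.Agent.Work.MP_9d1ffa_al.Ct.Ru

open MonoidAlgebra MulAction Pool.Agent.Work.MP_904812_al

set_option linter.unusedSectionVars false
set_option linter.unusedVariables false

variable {X G V : Type} [Group G] [MulAction G V] {ρ : G →* Equiv.Perm X} {I : Ob X}

/-- a replacement of `α` whose terms move by at most `n` -/
def LinN (d : V → V → ℤ) (n : ℕ) (α : (OC ρ).Hom I I) : Prop :=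
  ∃ (J : Ob X) (z : J.I → V × V) (q : J.I → V) (β β' : (OC ρ).Hom J J), (Set.range z).Finite ∧
    (Set.range q).Finite ∧ β * β' = 1 ∧ β' * β = 1 ∧
    (∀ i, (z i).1 = (z i).2 ∨ d (z i).1 (z i).2 = 1) ∧
    MOn z q (fun z v => v = z.2 ∨ d z.1 v ≤ n) β ∧ (TrK β → TrK α)

theorem range_elim {A B C : Type} {f : A → C} {g : B → C} (hf : (Set.range f).Finite)
    (hg : (Set.range g).Finite) : (Set.range (Sum.elim f g)).Finite := by
  rw [Set.Sum.elim_range]
  exact hf.union hg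

theorem linN_step {d : V → V → ℤ} (htr : Tr d) {n : ℕ} {α : (OC ρ).Hom I I}
    (h : LinN d (n + 1) α) : LinN d n α := by
  classical
  obtain ⟨J, z, q, β, β', hz, hq, e1, e2, ha, hon, himp⟩ := h
  obtain ⟨L, s, t, γ, u, w, h0, hu, hw, huw⟩ :=
    exists_fac (mfil z q (fun z v => ¬ (v = z.2 ∨ d z.1 v ≤ n)) β) hz hq fun _ _ => (1 : G)
  have hd : ∀ x, d (z (s x)).1 (γ x • q (t x)) = n + 1 := fun x => by
    have a := (hon.mfil _) _ _ _ (h0 x)
    have b := mOn_mfil _ _ _ _ _ _ _ (h0 x)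
    simp only [not_or] at b
    have := a.resolve_left b.1
    have := b.2
    push_cast at *
    omega
  have hm : ∀ p : (V × V) × V, ∃ m, d p.1.1 p.2 = n + 1 → d p.1.1 m = n ∧ d m p.2 = 1 := fun p => by
    by_cases e : d p.1.1 p.2 = n + 1
    · obtain ⟨m, a, b⟩ := htr.ex_pt p.1.1 p.2 n (by positivity) (by omega)
      exact ⟨m, fun _ => ⟨a, by omega⟩⟩
    · exact ⟨p.2, fun k => absurd k e⟩
  choose m hm using hm
  have fin : (Set.range fun x => (z (s x), γ x • q (t x))).Finite :=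
    (prs_finite hz hq _).subset (by
      rintro _ ⟨x, rfl⟩
      exact ⟨_, _, _, h0 x, rfl⟩)
  have key : fromBlocks (β - u * w) u (-w) (1 : (OC ρ).Hom L L) =
      fromBlocks 1 u 0 1 * fromBlocks β 0 0 1 * fromBlocks 1 0 (-w) 1 := by
    simp only [fromBlocks_multiply, Hm.mul_one, Hm.one_mul, Hm.mul_zero, Hm.zero_mul, add_zero,
      zero_add, Hm.mul_neg, sub_eq_add_neg]
  refine ⟨J + L, Sum.elim z fun x => (m (z (s x), γ x • q (t x)), γ x • q (t x)),
    Sum.elim q fun x => m (z (s x), γ x • q (t x)), fromBlocks (β - u * w) u (-w) 1,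
    fromBlocks β' (-(β' * u)) (w * β') (1 - w * β' * u), range_elim hz ?_, range_elim hq ?_, ?_, ?_,
    ?_, ?_, fun k => himp ?_⟩
  · exact (fin.image fun p => (m p, p.2)).subset (by
      rintro _ ⟨x, rfl⟩
      exact ⟨_, ⟨x, rfl⟩, rfl⟩)
  · exact (fin.image m).subset (by
      rintro _ ⟨x, rfl⟩
      exact ⟨_, ⟨x, rfl⟩, rfl⟩)
  · have a : ∀ {K : Ob X} (x : (OC ρ).Hom J K), β * (β' * x) = x := fun x => by
      rw [← Hm.mul_assoc, e1, Hm.one_mul]
    rw [fromBlocks_multiply, ← fromBlocks_one, fromBlocks_inj]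
    simp only [Hm.sub_mul, Hm.mul_sub, Hm.mul_neg, Hm.neg_mul, Hm.mul_assoc, Hm.mul_one, Hm.one_mul,
      a, e1]
    refine ⟨?_, ?_, ?_, ?_⟩ <;> abel
  · have a : ∀ {K : Ob X} (x : (OC ρ).Hom J K), β' * (β * x) = x := fun x => by
      rw [← Hm.mul_assoc, e2, Hm.one_mul]
    rw [fromBlocks_multiply, ← fromBlocks_one, fromBlocks_inj]
    simp only [Hm.sub_mul, Hm.mul_sub, Hm.mul_neg, Hm.neg_mul, Hm.mul_assoc, Hm.mul_one, Hm.one_mul,
      a, e2]
    refine ⟨?_, ?_, ?_, ?_⟩ <;> abel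
  · rintro (i | x)
    exacts [ha i, Or.inr (hm _ (hd x)).2]
  · refine (mOn_fromBlocks (p := Sum.elim z _) (q := Sum.elim q _)).2 ⟨?_, fun i x g e => ?_,
      MOn.neg fun x j g e => ?_, fun x y g e => ?_⟩
    · rw [huw, sub_eq_of_eq_add (mfil_add_not z q (fun z v => v = z.2 ∨ d z.1 v ≤ n) β).symm]
      exact mOn_mfil _ _ _ _
    · obtain ⟨rfl, rfl⟩ := hu i x g e
      exact Or.inr (by rw [one_smul]; exact (hm (z (s x), γ x • q (t x)) (hd x)).1.le)
    · obtain ⟨rfl, rfl⟩ := hw x j g e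
      exact Or.inl (by rw [inv_one, one_mul]; rfl)
    · have := mOn_one (ρ := ρ) (fun x : L.I => m (z (s x), γ x • q (t x))) x y g e
      refine Or.inr (le_of_eq_of_le ?_ (Int.natCast_nonneg n))
      exact (congrArg (d _) this.symm).trans (htr.self _)
  · rw [key] at k
    have := (trK_lower (-w)).of_mul_right k
    exact trK_block.1 ((trK_upper u).of_mul_left this)

theorem lin {d : V → V → ℤ} (htr : Tr d) (v₀ : V) {α α' : (OC ρ).Hom I I} (h1 : α * α' = 1)
    (h2 : α' * α = 1) : LinN d 0 α := by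
  obtain ⟨N, hN⟩ := ((prs_finite (p := fun _ => v₀) (q := fun _ => v₀) Set.finite_range_const
    Set.finite_range_const α).image fun p => (d p.1 p.2).toNat).bddAbove
  have h : LinN d N α := ⟨I, fun _ => (v₀, v₀), fun _ => v₀, α, α', Set.finite_range_const,
    Set.finite_range_const, h1, h2, fun _ => Or.inl rfl, fun i j g e => Or.inr
      (Int.toNat_le.1 (hN ⟨_, ⟨i, j, g, e, rfl⟩, rfl⟩)), id⟩
  clear hN
  induction N with
  | zero => exact h
  | succ n ih => exact ih (linN_step htr h)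

end Pool.Agent.Work.MP_9d1ffa_al.Ct.Ru
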