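import Pool.Agent.Work.MP_9d1ffa_al.Rt.QL
import Pool.Agent.Work.MP_9d1ffa_al.Rt.RLf
import Pool.Agent.Work.MP_9d1ffa_al.Rt.QDefs
import Pool.Agent.Work.MP_9d1ffa_al.ULift

/-! Nilpotent morphisms along a loop lift to the HNN extension. -/

namespace Pool.Agent.Work.MP_9d1ffa_al.Ct

open MonoidAlgebra MulAction

set_option linter.unusedSectionVars false
set_option linter.unusedVariables false

variable {X G H P : Type} [Group G] [Group H] [MulAction G P] {ρ : G →* Equiv.Perm X}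
  {σ : H →* Equiv.Perm X} {I J : Ob X}

/-- the first K-group vanishes -/
def K1V {O : Type 1} [Add O] [Zero O] (𝒞 : SCat O) : Prop :=
  ∀ (I : O) (u u' : 𝒞.Hom I I), u * u' = 1 → u' * u = 1 → TrK u

theorem invC_val {u u' : (OC ρ).Hom I I} (h1 : u * u' = 1) (h2 : u' * u = 1) :
    InvC ρ I (val u) (val u') :=
  ⟨val_ctl u, val_ctl u', congrArg val h1, congrArg val h2⟩

theorem com_iff {A : (OC ρ).Hom I I} : Com ρ I (val A) ↔ A ∈ Cm (OC ρ) I := by
  constructor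
  · intro h
    generalize e : val A = M at h
    induction h generalizing A with
    | one =>
      rw [show A = 1 from val_inj e]
      exact one_mem _
    | mul u u' v v' M hu hv hM ih =>
      have cM : Ctl ρ I I M := by
        clear ih e
        induction hM with
        | one => exact ctl_one ρ I
        | mul u u' v v' M hu hv _ ih => exact ((hu.1.mul hv.1).mul (hu.2.1.mul hv.2.1)).mul ih
      rw [show A = mk u hu.1 * mk v hv.1 * (mk u' hu.2.1 * mk v' hv.2.1) * mk M cM from val_inj e]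
      exact mul_mem (Submonoid.subset_closure ⟨mk u hu.1, mk u' hu.2.1, mk v hv.1, mk v' hv.2.1,
        val_inj hu.2.2.1, val_inj hu.2.2.2, val_inj hv.2.2.1, val_inj hv.2.2.2, rfl⟩)
        (ih (A := mk M cM) rfl)
  · intro h
    induction h using Submonoid.closure_induction_left with
    | one => exact Com.one
    | mul_left x hx y hy ih =>
      obtain ⟨u, u', v, v', h1, h2, h3, h4, rfl⟩ := hx
      exact Com.mul _ _ _ _ _ (invC_val h1 h2) (invC_val h3 h4) ih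

theorem vanW_iff : VanW ρ ↔ ∀ (K : Type) [Group K] (φ : K →* G), K1V (OC (ρ.comp φ)) := by
  constructor
  · intro h K _ φ a u u' h1 h2
    obtain ⟨b, hb⟩ := h K φ a (val u) (val u') (invC_val h1 h2)
    refine ⟨b, com_iff.1 ?_⟩
    rw [val_fromBlocks]
    exact hb
  · intro h K _ φ a u u' k
    obtain ⟨b, hb⟩ := h K φ a (mk u k.1) (mk u' k.2.1) (val_inj k.2.2.1) (val_inj k.2.2.2)
    have := com_iff.2 hb
    rw [val_fromBlocks] at this
    exact ⟨b, this⟩

/-- the functor induced by a homomorphism -/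
noncomputable def mpF (f : AH σ ρ) : Fn (OC σ) (OC ρ) :=
  ⟨fun a => a, mp f, mp_add f, mp_mul f, fun _ => mp_one f, mp_ct f⟩

theorem exists_lift_set (f : AH σ ρ) {S : Set H} {A : (OC ρ).Hom I J}
    (hA : Sup (· ∈ f.f '' S) A) : ∃ A' : (OC σ).Hom I J, Sup (· ∈ S) A' ∧ mp f A' = A := by
  classical
  let l : G → H := Function.invFunOn f.f S
  have hl : ∀ g ∈ f.f '' S, l g ∈ S ∧ f.f (l g) = g := fun g hg => Function.invFunOn_pos hg
  have key : ∀ i j a, (liftL l (val A i j)).coeff a ≠ 0 →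
      ∃ g, (val A i j).coeff g ≠ 0 ∧ l g = a := fun i j a e => by
    obtain ⟨g, hg, rfl⟩ := Finset.mem_image.1
      (Finsupp.mapDomain_support (f := l) (s := (val A i j).coeff) (Finsupp.mem_support_iff.2 e))
    exact ⟨g, Finsupp.mem_support_iff.1 hg, rfl⟩
  obtain ⟨⟨T, hT⟩, ⟨c, hc⟩, hδ⟩ := val_ctl A
  refine ⟨mk (Matrix.of fun i j => liftL l (val A i j)) ⟨⟨T.image l, fun i j a e => ?_⟩,
    ⟨c, fun i j e => hc i j fun e' => e ?_⟩, fun δ h => ?_⟩, fun i j a e => ?_, val_inj ?_⟩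
  · obtain ⟨g, hg, rfl⟩ := key i j a e
    exact Finset.mem_image_of_mem l (hT i j g hg)
  · rw [Matrix.of_apply, e', map_zero]
  · obtain ⟨n, hn⟩ := hδ δ h
    refine ⟨n, fun i j a hi e => ?_⟩
    obtain ⟨g, hg, rfl⟩ := key i j a e
    rw [← f.h, (hl g (hA i j g hg)).2]
    exact hn i j g hi hg
  · obtain ⟨g, hg, rfl⟩ := key i j a e
    exact (hl g (hA i j g hg)).1
  · funext i j
    refine zg_induction (C := fun x => gm f.f (liftL l x) = x) (by simp)
      (fun x y hx hy => by rw [map_add, map_add, hx, hy]) (fun g n hg => ?_) (hA i j)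
    rw [liftL_single, gm_single, (hl g hg).2]

namespace Ru

variable [Nonempty X]

theorem lift_step' (f : AH σ ρ) {D : Subgroup H} {S : Set H} (hr : ∀ a ∈ S, ∀ d ∈ D, a * d ∈ S)
    (h : Set.InjOn f.f S) {θ : P} (hθ : stabilizer G θ = D.map f.f) {N : AddSubgroup (Vec ρ J)}
    (hN : ∀ s, ∀ x ∈ N, proj (fun _ => θ) (· = s) x ∈ N) {c : H} {w : Vec σ J}
    (h1 : mp f w ∈ N) (h2 : Sup (fun a => c⁻¹ * a ∈ S) w) : w ∈ liftF f D N := fun c' => by
  obtain ⟨c', rfl⟩ := QuotientGroup.mk_surjective c'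
  have e : ∀ a : H, a • ((1 : H) : H ⧸ D) = (c' : H ⧸ D) ↔ c'⁻¹ * a ∈ D := fun a => by
    rw [Quotient.smul_coe, smul_eq_mul, mul_one, eq_comm, QuotientGroup.eq]
  rw [proj_const]
  by_cases k : c⁻¹ * c' ∈ S
  · rw [mp_fm f (T' := fun g => g • θ = f.f c' • θ) h2 fun a ha => ?_,
      ← proj_const θ (· = f.f c' • θ)]
    · exact hN _ _ h1
    rw [e, ← inv_smul_eq_iff, smul_smul, ← mem_stabilizer_iff, hθ, ← map_inv, ← map_mul]
    refine ⟨fun z => ⟨_, z, rfl⟩, fun ⟨d, hd, z⟩ => ?_⟩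
    have := h (hr _ k d hd) ha (by
      simp only [map_mul, map_inv] at z ⊢
      rw [z]
      group)
    rw [mul_assoc, mul_right_inj] at this
    rwa [← this, inv_mul_cancel_left]
  · rw [h2.fm_zero fun a ha z => k ?_, mp_zero]
    · exact zero_mem _
    have := hr _ ha _ (D.inv_mem ((e a).1 z))
    rwa [mul_inv_rev, inv_inv, mul_assoc, mul_inv_cancel_left] at this

theorem low_lift' (f : AH σ ρ) {D : Subgroup H} {S : Set H} (hl : ∀ d ∈ D, ∀ a ∈ S, d * a ∈ S)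
    (hr : ∀ a ∈ S, ∀ d ∈ D, a * d ∈ S) (h : Set.InjOn f.f S) {θ : P}
    (hθ : stabilizer G θ = D.map f.f) {F : ℕ → AddSubgroup (Vec ρ J)} {k : ℕ}
    (hF : Filt (fun _ => θ) F k) {A : (OC σ).Hom J J} (hA : Sup (· ∈ S) A)
    (hL : Low2 F F 1 (mp f A)) :
    Low2 (fun m => liftF f D (F m)) (fun m => liftF f D (F m)) 1 A := by
  intro m y hy
  obtain ⟨s, hs⟩ := exists_pos_finset (fun _ => ((1 : H) : H ⧸ D)) y
  have e : ∀ (s : Finset (H ⧸ D)) (u : H ⧸ D → Vec σ J), (∑ c ∈ s, u c) * A = ∑ c ∈ s, u c * A :=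
    fun s u => map_sum (Hm.rmul A) u s
  rw [← hs.sum_proj, e]
  refine sum_mem fun c _ => ?_
  obtain ⟨c, rfl⟩ := QuotientGroup.mk_surjective c
  refine lift_step' f hr h hθ (hF.gr _) (c := c) ?_ ((sup_coset D c y).mul hA fun a b ha hb => ?_)
  · rw [mp_mul]
    exact hL m _ (hy c)
  · rw [← mul_assoc]
    exact hl _ ha _ hb

theorem loopK_lift {θ : P} {s : G} (h : LiftK ρ (stabilizer G θ) s) : LoopK ρ θ s := by
  obtain ⟨H, _, π, κ, t, hV, h1, h2, h3⟩ := h
  intro J b hb ⟨F, k, hF, hL⟩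
  let f : AH ((ρ.comp π).comp (MonoidHom.id H)) ρ := ⟨π, fun _ => rfl⟩
  let S : Set H := {a | ∃ d d', a = κ d * t * κ d'}
  have inj : Set.InjOn f.f S := by
    rintro _ ⟨d, d', rfl⟩ _ ⟨x, y, rfl⟩ e
    have e' : (d : G) * s * d' = x * s * y := by simpa only [f, map_mul, h1, h2] using e
    have := h3 (d' * y⁻¹) (d⁻¹ * x) (by
      simp only [Subgroup.coe_mul, Subgroup.coe_inv]
      calc (d : G)⁻¹ * x * s = (d : G)⁻¹ * (x * s * y) * (y : G)⁻¹ := by group
        _ = s * (d' * (y : G)⁻¹) := by rw [← e']; group)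
    simp only [map_mul, map_inv] at this
    symm
    calc κ x * t * κ y = κ d * ((κ d)⁻¹ * κ x * t) * κ y := by group
      _ = κ d * t * κ d' := by rw [this]; group
  have hθ : stabilizer G θ = κ.range.map f.f := le_antisymm
    (fun g hg => ⟨_, ⟨⟨g, hg⟩, rfl⟩, h1 _⟩) (by
      rintro _ ⟨_, ⟨d, rfl⟩, rfl⟩
      exact (h1 d).symm ▸ d.2)
  have i : Set.InjOn f.f κ.range := by
    rintro _ ⟨d, rfl⟩ _ ⟨d', rfl⟩ e
    exact congrArg κ (Subtype.ext ((h1 d).symm.trans (e.trans (h1 d'))))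
  obtain ⟨b', hS, rfl⟩ := exists_lift_set f (S := S) (A := b) fun i j g e => by
    obtain ⟨γ, f1, f2⟩ := hb i j g e
    refine ⟨_, ⟨⟨γ, f1.symm⟩, ⟨(γ * s)⁻¹ * g, by
      rw [mem_stabilizer_iff, mul_smul, f2, ← mul_smul γ s, inv_smul_smul]⟩, rfl⟩, ?_⟩
    simp only [f, map_mul, h1, h2]
    exact mul_inv_cancel_left _ _
  have hn : NilP (fun _ : J.I => ((1 : H) : H ⧸ κ.range)) b' :=
    ⟨_, k, filt_lift f i hF, low_lift' f (by
      rintro _ ⟨d, rfl⟩ _ ⟨x, y, rfl⟩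
      exact ⟨d * x, y, by simp only [map_mul, mul_assoc]⟩) (by
      rintro _ ⟨x, y, rfl⟩ _ ⟨d, rfl⟩
      exact ⟨x, y * d, by simp only [map_mul, mul_assoc]⟩) inj hθ hF hS hL⟩
  obtain ⟨C, c1, c2⟩ := isUnit_iff_exists.1 hn.isNilpotent.isUnit_one_add
  have : TrK (mp f (1 + b')) := (mpF f).trK (vanW_iff.1 hV H (MonoidHom.id H) J _ C c1 c2)
  rwa [mp_add, mp_one] at this

end Ru

end Pool.Agent.Work.MP_9d1ffa_al.Ct
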