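import Pool.Agent.Work.MP_9d1ffa_al.Rt.QM
import Pool.Agent.Work.MP_9d1ffa_al.Rt.QG
import Pool.Agent.Work.MP_9d1ffa_al.Rt.QLin
import Pool.Agent.Work.MP_9d1ffa_al.Walls

/-! Vanishing of the first K-group of the obstruction category of an action on a tree. -/

namespace Pool.Agent.Work.MP_9d1ffa_al.Ct.Ru

open MonoidAlgebra MulAction Pool.Agent.Work.MP_904812_al

set_option linter.unusedSectionVars false
set_option linter.unusedVariables false

variable {X G V : Type} [Group G] [MulAction G V] {ρ : G →* Equiv.Perm X}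

theorem k1_tree {T : SimpleGraph V} (hT : T.IsTree)
    (act : ∀ (g : G) (a b : V), T.Adj a b → T.Adj (g • a) (g • b))
    (noinv : ∀ (g : G) (a b : V), T.Adj a b → g • a = b → g • b ≠ a)
    (hF : ∀ v : V, ∃ z : X, ∀ g : G, g • v = v → ρ g z = z) (hC : NoRay ρ T) : K1V (OC ρ) := by
  classical
  intro I α α' h1 h2
  have adj : ∀ x y : V, (T.dist x y : ℤ) = 1 → T.Adj x y := fun x y e =>
    SimpleGraph.dist_eq_one_iff_adj.1 (by exact_mod_cast e)
  obtain ⟨v₀⟩ : Nonempty V := hT.connected.nonempty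
  obtain ⟨π, hπ⟩ : ∃ π : V → X, ∀ (g : G) v, π (g • v) = ρ g (π v) := by
    let _ : MulAction G X := MulAction.compHom X ρ
    exact exists_eqv (ρ := MulAction.toPermHom G V) (V := X) hF
  have : Nonempty X := ⟨π v₀⟩
  have tr := tr_of_isTree hT
  have iso : ∀ (g : G) x y, (T.dist (g • x) (g • y) : ℤ) = T.dist x y := fun g x y => by
    rw [dist_smul hT act]
  obtain ⟨O, oinv, oasym, otot⟩ := exists_orient tr fun g x y e => noinv g x y (adj x y e)
  obtain ⟨J, z₀, q, β, β', hz₀, hq, e1, e2, ha, hon, himp⟩ := lin tr v₀ h1 h2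
  let z : J.I → V × V := fun i => if O (z₀ i) then z₀ i else (z₀ i).swap
  have hz : (Set.range z).Finite :=
    (hz₀.image fun t => if O t then t else t.swap).subset (by
      rintro _ ⟨i, rfl⟩
      exact ⟨_, ⟨i, rfl⟩, rfl⟩)
  have h : CoreH (fun a b => (T.dist a b : ℤ)) O z q β β' := by
    refine ⟨tr, iso, oinv, oasym, fun i => ?_, fun i j g e => ?_, e1, e2⟩
    · by_cases o : O (z₀ i)
      · simp only [z, if_pos o]
        exact (ha i).imp id fun a => ⟨a, o⟩
      · simp only [z, if_neg o]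
        rcases ha i with a | a
        · exact Or.inl a.symm
        · exact Or.inr ⟨(tr.symm _ _).trans a, (otot _ _ a).resolve_left o⟩
    · have : g • q j = (z₀ i).1 ∨ g • q j = (z₀ i).2 := (hon i j g e).symm.imp
        (fun a => (tr.eq_of (le_antisymm a (tr.nonneg _ _))).symm) id
      by_cases o : O (z₀ i)
      · simpa only [z, if_pos o] using this
      · simp only [z, if_neg o]
        exact this.symm
  obtain ⟨ν, k1, k2, k3⟩ := h.nil hz
  have g1 : TrK (gam z q β β') :=
    gamma_trK hπ hz hq h.pim_idem h.pim_on h.bp_on (h.bm_on.mono fun _ _ a => a.1) h.gam_zet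
      h.zet_gam
  have g2 : TrK (1 + ν) := by
    refine machine (mach_tree tr iso) ?_ (zz_fin hz) ν (k1.mono fun _ _ a => stp_mvT tr a) k2
    rintro ⟨f, s, hf⟩
    have e : ∀ n, f n = ((f 0).1, (f n).2) := fun n => by
      induction n with
      | zero => rfl
      | succ n ih =>
        have a := congrArg Prod.fst (hf n).2.2
        have b := congrArg Prod.fst ih
        exact Prod.ext (a.trans b) rfl
    refine hC ⟨(f 0).1, fun n => (f n).2, s, fun n => ⟨?_, fun k => (hf n).2.1 ?_,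
      congrArg Prod.snd (hf n).2.2⟩⟩
    · obtain ⟨a, -, b, c, c'⟩ := e n ▸ (hf n).1
      exact ⟨a, b.symm, Int.ofNat_inj.1 c, Int.ofNat_inj.1 c'⟩
    · rw [e n]
      exact loopK_lift k
  have := (k3 g2).mul g1
  rw [mul_assoc, h.zet_gam, mul_one] at this
  exact himp this

variable {K : Type} [Group K] (φ : K →* G)

theorem liftK_comp {D : Subgroup G} {s : K} (h : LiftK ρ D (φ s)) :
    LiftK (ρ.comp φ) (D.comap φ) s := by
  obtain ⟨H, _, π, κ, t, v, h1, h2, h3⟩ := h
  let L := (π.comp (MonoidHom.fst H K)).eqLocus (φ.comp (MonoidHom.snd H K))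
  let p : L →* H := (MonoidHom.fst H K).comp L.subtype
  let q : L →* K := (MonoidHom.snd H K).comp L.subtype
  have e : (ρ.comp φ).comp q = (ρ.comp π).comp p := MonoidHom.ext fun z => congrArg ρ z.2.symm
  refine ⟨L, inferInstance, q, ((κ.comp (φ.subgroupComap D)).prod (D.comap φ).subtype).codRestrict
    L fun d => h1 _, ⟨(t, s), h2⟩, ?_, fun d => rfl, rfl, fun d d' k => ?_⟩
  · rw [e]
    exact fun M _ ψ => v M (p.comp ψ)
  · exact Subtype.ext (Prod.ext (h3 (φ.subgroupComap D d) (φ.subgroupComap D d')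
      (((map_mul φ _ _).symm.trans (congrArg φ k)).trans (map_mul φ _ _))) k)

theorem vanW_tree {T : SimpleGraph V} (hT : T.IsTree)
    (act : ∀ (g : G) (a b : V), T.Adj a b → T.Adj (g • a) (g • b))
    (noinv : ∀ (g : G) (a b : V), T.Adj a b → g • a = b → g • b ≠ a)
    (hF : ∀ v : V, ∃ z : X, ∀ g : G, g • v = v → ρ g z = z) (hC : NoRay ρ T) : VanW ρ :=
  vanW_iff.2 fun K _ φ => by
    let _ : MulAction K V := MulAction.compHom V φ
    refine k1_tree hT (fun g => act (φ g)) (fun g => noinv (φ g))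
      (fun v => (hF v).imp fun z h g => h (φ g)) ?_
    rintro ⟨a, b, s, h⟩
    exact hC ⟨a, b, fun n => φ (s n), fun n =>
      ⟨(h n).1, fun k => (h n).2.1 (liftK_comp φ k), (h n).2.2⟩⟩

end Pool.Agent.Work.MP_9d1ffa_al.Ct.Ru
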