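import Pool.Agent.Work.MP_9d1ffa_al.Ct.BFn
import Pool.Agent.Work.MP_9d1ffa_al.OK1

-- merged part: Pool.Agent.Work.MP_9d1ffa_al.Rt.RD
section
/-! Controlled morphisms whose bases carry positions in a `G`-set: definitions. -/

namespace Pool.Agent.Work.MP_9d1ffa_al.Ct.Ru

open MonoidAlgebra

set_option linter.unusedSectionVars false
set_option linter.unusedVariables false

variable {X G P Q : Type} [Group G] [MulAction G P] [MulAction G Q] {ρ : G →* Equiv.Perm X}
  {I J : Ob X}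

/-- the morphism moves positions along `R` -/
def MOn (p : I.I → P) (q : J.I → Q) (R : P → Q → Prop) (A : (OC ρ).Hom I J) : Prop :=
  ∀ i j g, (val A i j).coeff g ≠ 0 → R (p i) (g • q j)

/-- the part of a morphism that moves positions along `R` -/
noncomputable def mfil (p : I.I → P) (q : J.I → Q) (R : P → Q → Prop) (A : (OC ρ).Hom I J) :
    (OC ρ).Hom I J :=
  mk (MP_9d1ffa_al.mfil p q R (val A)) ((val_ctl A).mono fun i j g h e => h (by
    classical
    rw [MP_9d1ffa_al.coeff_mfil, e, ite_self]))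

/-- the pairs of positions that occur in a morphism -/
def prs (p : I.I → P) (q : J.I → Q) (A : (OC ρ).Hom I J) : Set (P × Q) :=
  {t | ∃ i j g, (val A i j).coeff g ≠ 0 ∧ t = (p i, g • q j)}

/-- the object with the basis `ι`, the heights of `e k` and the positions of `e k` moved by the
inverse of `γ k` -/
noncomputable def tw (ρ : G →* Equiv.Perm X) (a : Ob X) {ι : Type} (e : ι → a.I) (γ : ι → G)
    (h : ∀ i, {k | e k = i}.Finite) (hγ : (Set.range γ).Finite) : Ob X where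
  I := ι
  t k := a.t (e k)
  x k := (a.x (e k)).mapDomain (ρ (γ k)⁻¹)
  fin n := ((a.fin n).biUnion fun i _ => h i).subset fun k hk => Set.mem_biUnion hk rfl
  pos k := mapDomain_pos _ (a.pos _)
  tot k := (l1_mapDomain_perm _ _).trans (a.tot _)
  cpt := by
    classical
    obtain ⟨F, hF⟩ := a.cpt
    refine ⟨hγ.toFinset.biUnion fun g => F.image (ρ g⁻¹), fun k y hy => ?_⟩
    obtain ⟨z, k1, rfl⟩ := Finset.mem_image.1 (Finsupp.mapDomain_support hy)
    exact Finset.mem_biUnion.2 ⟨γ k, hγ.mem_toFinset.2 ⟨k, rfl⟩,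
      Finset.mem_image_of_mem _ (hF _ z k1)⟩

variable [Nonempty X]

/-- an object with one basis element -/
noncomputable def pt (X : Type) [Nonempty X] : Ob X where
  I := Unit
  t _ := 0
  x _ := Finsupp.single (Classical.arbitrary X) 1
  fin _ := Set.toFinite _
  pos _ y := by
    classical
    rw [Finsupp.single_apply]
    split_ifs <;> norm_num
  tot _ := by rw [l1_single, abs_one]
  cpt := ⟨{Classical.arbitrary X}, fun _ y hy => Finsupp.support_single_subset hy⟩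

/-- finitely supported vectors -/
abbrev Vec (ρ : G →* Equiv.Perm X) (I : Ob X) : Type := (OC ρ).Hom (pt X) I

/-- a row of a morphism -/
noncomputable def row (A : (OC ρ).Hom I J) (i : I.I) : Vec ρ J :=
  mk (Matrix.of fun _ j => val A i j) (by
    obtain ⟨⟨S, hS⟩, ⟨c, hc⟩, -⟩ := val_ctl A
    refine ⟨⟨S, fun _ j g h => hS i j g h⟩, ⟨I.t i + c, fun _ j h => ?_⟩,
      fun δ hδ => ⟨1, fun _ j g h => absurd h (by simp [pt])⟩⟩
    have := hc i j h
    exact ⟨Nat.zero_le _, by simp only [pt]; omega⟩)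

/-- the vector is located at positions in `S` -/
def VOn (p : I.I → P) (S : P → Prop) (x : Vec ρ I) : Prop :=
  ∀ i g, (val x () i).coeff g ≠ 0 → S (g • p i)

/-- the part of a vector located at positions in `S` -/
noncomputable def proj (p : I.I → P) (S : P → Prop) : Vec ρ I →+ Vec ρ I :=
  AddMonoidHom.mk' (fun x => mk (Matrix.of fun u i => fil (fun g => S (g • p i)) (val x u i))
    ((val_ctl x).mono fun u i g h e => h (by
      classical
      rw [Matrix.of_apply, coeff_fil, e, ite_self]))) fun x y => val_inj (by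
    funext u i
    exact map_add (fil _) _ _)

/-- a finite decreasing filtration by subgroups that are sums of their components -/
structure Filt (p : I.I → P) (F : ℕ → AddSubgroup (Vec ρ I)) (k : ℕ) : Prop where
  top : F 0 = ⊤
  anti : ∀ m, F (m + 1) ≤ F m
  bot : F k = ⊥
  gr : ∀ m σ, ∀ x ∈ F m, proj p (· = σ) x ∈ F m

/-- the morphism lowers the filtrations by `w` -/
def Low2 (F : ℕ → AddSubgroup (Vec ρ I)) (F' : ℕ → AddSubgroup (Vec ρ J)) (w : ℕ)
    (A : (OC ρ).Hom I J) : Prop :=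
  ∀ m, ∀ x ∈ F m, x * A ∈ F' (m + w)

/-- nilpotent along every sequence of positions -/
def NilP (p : I.I → P) (A : (OC ρ).Hom I I) : Prop := ∃ F k, Filt p F k ∧ Low2 F F 1 A

/-- two morphisms that are nilpotent along every sequence of positions -/
def Nil2 (p : I.I → P) (q : J.I → Q) (A : (OC ρ).Hom I J) (B : (OC ρ).Hom J I) : Prop :=
  ∃ F F' k, Filt p F k ∧ Filt q F' k ∧ Low2 F F' 1 A ∧ Low2 F' F 1 B

/-- a stably hyperbolic form which reverses positions, with a graded filtration of length `k` -/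
structure Obj (ρ : G →* Equiv.Perm X) (rev : P → P) (ε : ℤˣ) (k : ℕ) : Type 1 where
  I : Ob X
  p : I.I → P
  fp : (Set.range p).Finite
  φ : (OC ρ).Hom I I
  μ : (OC ρ).Hom I I
  F : ℕ → AddSubgroup (Vec ρ I)
  hF : Filt p F k
  onφ : MOn p p (fun a b => b = rev a) φ
  onμ : MOn p p (fun a b => b = rev a) μ
  e1 : sy ε φ * μ = 1
  e2 : μ * sy ε φ = 1
  z : Z ε φ

variable {rev : P → P} {ε : ℤˣ} {k : ℕ}

/-- the adjoint -/
noncomputable def adj (M N : Obj ρ rev ε k) (A : (OC ρ).Hom M.I N.I) : (OC ρ).Hom N.I M.I :=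
  sy ε N.φ * A.ct * M.μ

/-- the morphism moves forward, and it and its adjoint lower the filtrations by `w` -/
def JJ (mv : P → P → Prop) (M N : Obj ρ rev ε k) (w : ℕ) (A : (OC ρ).Hom M.I N.I) : Prop :=
  MOn M.p N.p mv A ∧ Low2 M.F N.F w A ∧ Low2 N.F M.F w (adj M N A)

/-- all perturbations of level `w` are stably hyperbolic -/
def PZ (ρ : G →* Equiv.Perm X) (rev : P → P) (ε : ℤˣ) (k : ℕ) (mv : P → P → Prop) (w : ℕ) :
    Prop :=
  ∀ (M N : Obj ρ rev ε k) (A : (OC ρ).Hom M.I N.I), JJ mv M N w A → Z ε (M.φ + A * N.φ * A.ct)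

/-- the local systems attached to `σ` and `τ` are stably hyperbolic -/
def LocZ (ρ : G →* Equiv.Perm X) (rev : P → P) (ε : ℤˣ) (σ τ η : P) : Prop :=
  ∀ (J : Ob X) (A B : (OC ρ).Hom J J), Sup (fun g => g • τ = rev τ) A →
    Sup (fun g => g • σ = rev σ) B →
    Nil2 (fun _ : J.I => η) (fun _ : J.I => rev η) (sy ε A) (sy ε B) → Z ε (fromBlocks A 1 0 B)

/-- `ψ` is a perturbation of level `j` of the form of `M` -/
def Rep (mv : P → P → Prop) (M : Obj ρ rev ε k) (j : ℕ) (ψ : (OC ρ).Hom M.I M.I) : Prop :=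
  ∃ (N : Obj ρ rev ε k) (U : (OC ρ).Hom M.I M.I) (A : (OC ρ).Hom M.I N.I),
    JJ mv M M j U ∧ JJ mv M N j A ∧ Eqv ε (M.φ + U * sy ε M.φ + A * N.φ * A.ct) ψ

end Pool.Agent.Work.MP_9d1ffa_al.Ct.Ru
end

-- merged part: Pool.Agent.Work.MP_9d1ffa_al.Rt.RB
section
/-! Calculus of morphisms with positions.  Port of the matrix part of `../Basic.lean`: every
statement reduces to coefficients (`hom_ext`, `coeff_mul_ne`, `coeff_ct`, `val_fromRows`, ...). -/

namespace Pool.Agent.Work.MP_9d1ffa_al.Ct.Ru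

open MonoidAlgebra

set_option linter.unusedSectionVars false
set_option linter.unusedVariables false

variable {X G P Q T : Type} [Group G] [MulAction G P] [MulAction G Q] [MulAction G T]
  {ρ : G →* Equiv.Perm X} {I J K L : Ob X} {p : I.I → P} {q : J.I → Q} {r : K.I → T}
  {R R' : P → Q → Prop} {A B : (OC ρ).Hom I J}

open Classical in
theorem coeff_mfil (p : I.I → P) (q : J.I → Q) (R : P → Q → Prop) (A : (OC ρ).Hom I J) (i : I.I)
    (j : J.I) (g : G) :
    (val (mfil p q R A) i j).coeff g = if R (p i) (g • q j) then (val A i j).coeff g else 0 :=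
  MP_9d1ffa_al.coeff_mfil p q R (val A) i j g

theorem MOn.mono (h : MOn p q R A) (hR : ∀ a b, R a b → R' a b) : MOn p q R' A :=
  fun i j g e => hR _ _ (h i j g e)

theorem MOn.and (h : MOn p q R A) (h' : MOn p q R' A) : MOn p q (fun a b => R a b ∧ R' a b) A :=
  fun i j g e => ⟨h i j g e, h' i j g e⟩

theorem mOn_zero (p : I.I → P) (q : J.I → Q) (R : P → Q → Prop) :
    MOn p q R (0 : (OC ρ).Hom I J) := MP_9d1ffa_al.mOn_zero p q R

theorem MOn.add (hA : MOn p q R A) (hB : MOn p q R B) : MOn p q R (A + B) :=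
  MP_9d1ffa_al.MOn.add (A := val A) (B := val B) hA hB

theorem MOn.neg (hA : MOn p q R A) : MOn p q R (-A) := MP_9d1ffa_al.MOn.neg (A := val A) hA

theorem MOn.sub (hA : MOn p q R A) (hB : MOn p q R B) : MOn p q R (A - B) :=
  MP_9d1ffa_al.MOn.sub (A := val A) (B := val B) hA hB

theorem MOn.zsmul (hA : MOn p q R A) (n : ℤ) : MOn p q R (n • A) :=
  MP_9d1ffa_al.MOn.zsmul (A := val A) hA n

theorem mOn_one (p : I.I → P) : MOn p p Eq (1 : (OC ρ).Hom I I) := by
  classical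
  exact MP_9d1ffa_al.mOn_one p

theorem MOn.eq_zero (h : MOn p q (fun _ _ => False) A) : A = 0 :=
  hom_ext fun i j g => by
    by_contra e
    exact h i j g (by simpa [val_zero] using e)

theorem MOn.mul {S : Q → T → Prop} {D : (OC ρ).Hom J K} (hA : MOn p q R A) (hD : MOn q r S D)
    (hS : Inv G S) : MOn p r (fun a c => ∃ b, R a b ∧ S b c) (A * D) := fun i k g e => by
  obtain ⟨j, a, b, rfl, h1, h2⟩ := coeff_mul_ne e
  exact ⟨a • q j, hA i j a h1, by rw [mul_smul]; exact hS a _ _ (hD j k b h2)⟩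

theorem MOn.ct (hA : MOn p q R A) (hR : Inv G R) : MOn q p (fun b a => R a b) A.ct :=
  fun j i g e => by
    rw [coeff_ct] at e
    simpa using hR g _ _ (hA i j _ e)

theorem mOn_mfil (p : I.I → P) (q : J.I → Q) (R : P → Q → Prop) (A : (OC ρ).Hom I J) :
    MOn p q R (mfil p q R A) := MP_9d1ffa_al.mOn_mfil p q R (val A)

theorem MOn.mfil (h : MOn p q R A) (R' : P → Q → Prop) : MOn p q R (mfil p q R' A) :=
  MP_9d1ffa_al.MOn.mfil (A := val A) h R'

theorem MOn.mfil_eq (h : MOn p q R A) : Ru.mfil p q R A = A :=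
  val_inj (MP_9d1ffa_al.MOn.mfil_eq (A := val A) h)

theorem MOn.mfil_zero (h : MOn p q R A) (hR : ∀ a b, R a b → ¬ R' a b) : Ru.mfil p q R' A = 0 :=
  (((h.mfil R').and (mOn_mfil p q R' A)).mono fun a b e => hR a b e.1 e.2).eq_zero

theorem mfil_add_not (p : I.I → P) (q : J.I → Q) (R : P → Q → Prop) (A : (OC ρ).Hom I J) :
    mfil p q R A + mfil p q (fun a b => ¬ R a b) A = A :=
  val_inj (MP_9d1ffa_al.mfil_add_not p q R (val A))

theorem mfil_add (p : I.I → P) (q : J.I → Q) (R : P → Q → Prop) (A B : (OC ρ).Hom I J) :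
    mfil p q R (A + B) = mfil p q R A + mfil p q R B := val_inj (by
  funext i j
  exact map_add (fil _) _ _)

/-- the filter as an additive map -/
noncomputable def mfilH (p : I.I → P) (q : J.I → Q) (R : P → Q → Prop) :
    (OC ρ).Hom I J →+ (OC ρ).Hom I J := AddMonoidHom.mk' (mfil p q R) (mfil_add p q R)

/-- two filters agree on a morphism if the relations agree on its support -/
theorem MOn.mfil_congr {R₁ R₂ : P → Q → Prop} (h : MOn p q R A)
    (hR : ∀ a b, R a b → (R₁ a b ↔ R₂ a b)) : Ru.mfil p q R₁ A = Ru.mfil p q R₂ A :=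
  hom_ext fun i j g => by
    rw [coeff_mfil, coeff_mfil]
    by_cases e : (val A i j).coeff g = 0
    · simp [e]
    · have := hR _ _ (h i j g e)
      by_cases a : R₁ (p i) (g • q j)
      · rw [if_pos a, if_pos (this.1 a)]
      · rw [if_neg a, if_neg fun b => a (this.2 b)]

theorem mfil_ct (hR : Inv G R) (A : (OC ρ).Hom I J) :
    (mfil p q R A).ct = mfil q p (fun b a => R a b) A.ct := hom_ext fun j i g => by
  rw [coeff_ct, coeff_mfil, coeff_mfil, coeff_ct]
  have := hR.iff g (p i) (g⁻¹ • q j)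
  rw [smul_inv_smul] at this
  by_cases a : R (p i) (g⁻¹ • q j)
  · rw [if_pos a, if_pos (this.2 a)]
  · rw [if_neg a, if_neg fun b => a (this.1 b)]

theorem inv_not (hR : Inv G R) : Inv G fun a b => ¬ R a b :=
  fun g a b h e => h ((hR.iff g a b).1 e)

/-- a filter passes through a right factor -/
theorem mfil_mul_right {S : Q → T → Prop} {U : P → T → Prop} {D : (OC ρ).Hom J K}
    (A : (OC ρ).Hom I J) (hD : MOn q r S D) (hS : Inv G S)
    (h : ∀ a b c, S b c → (U a c ↔ R a b)) : mfil p r U (A * D) = mfil p q R A * D := by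
  conv_lhs => rw [← mfil_add_not p q R A, Hm.add_mul, mfil_add]
  rw [(((mOn_mfil p q R A).mul hD hS).mono fun a c ⟨b, h1, h2⟩ => (h a b c h2).2 h1).mfil_eq,
    ((mOn_mfil p q (fun a b => ¬ R a b) A).mul hD hS).mfil_zero
      fun a c ⟨b, h1, h2⟩ e => h1 ((h a b c h2).1 e), add_zero]

/-- a filter passes through a left factor -/
theorem mfil_mul_left {S : Q → T → Prop} {U : P → T → Prop} (hA : MOn p q R A)
    (D : (OC ρ).Hom J K) (hS : Inv G S) (h : ∀ a b c, R a b → (U a c ↔ S b c)) :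
    mfil p r U (A * D) = A * mfil q r S D := by
  conv_lhs => rw [← mfil_add_not q r S D, Hm.mul_add, mfil_add]
  rw [((hA.mul (mOn_mfil q r S D) hS).mono fun a c ⟨b, h1, h2⟩ => (h a b c h1).2 h2).mfil_eq,
    (hA.mul (mOn_mfil q r (fun a b => ¬ S a b) D) (inv_not hS)).mfil_zero
      fun a c ⟨b, h1, h2⟩ e => h2 ((h a b c h1).1 e), add_zero]

theorem mOn_fromRows {p : (I + K).I → P} {A : (OC ρ).Hom I J} {B : (OC ρ).Hom K J} :
    MOn p q R (fromRows A B) ↔
      MOn (fun i => p (Sum.inl i)) q R A ∧ MOn (fun i => p (Sum.inr i)) q R B := by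
  rw [MOn, val_fromRows]
  exact Sum.forall

theorem mOn_fromCols {q : (J + K).I → Q} {A : (OC ρ).Hom I J} {B : (OC ρ).Hom I K} :
    MOn p q R (fromCols A B) ↔
      MOn p (fun i => q (Sum.inl i)) R A ∧ MOn p (fun i => q (Sum.inr i)) R B := by
  rw [MOn, val_fromCols]
  exact (forall_congr' fun i => Sum.forall).trans forall_and

theorem mOn_fromBlocks {p : (I + J).I → P} {q : (K + L).I → Q} {a : (OC ρ).Hom I K}
    {b : (OC ρ).Hom I L} {c : (OC ρ).Hom J K} {d : (OC ρ).Hom J L} :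
    MOn p q R (fromBlocks a b c d) ↔
      MOn (fun i => p (Sum.inl i)) (fun i => q (Sum.inl i)) R a ∧
      MOn (fun i => p (Sum.inl i)) (fun i => q (Sum.inr i)) R b ∧
      MOn (fun i => p (Sum.inr i)) (fun i => q (Sum.inl i)) R c ∧
      MOn (fun i => p (Sum.inr i)) (fun i => q (Sum.inr i)) R d := by
  rw [fromBlocks, mOn_fromRows, mOn_fromCols, mOn_fromCols, and_assoc]

theorem mfil_fromRows {p : (I + K).I → P} (A : (OC ρ).Hom I J) (B : (OC ρ).Hom K J) :
    mfil p q R (fromRows A B) =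
      fromRows (mfil (fun i => p (Sum.inl i)) q R A) (mfil (fun i => p (Sum.inr i)) q R B) :=
  hom_ext fun i j g => by
    rw [coeff_mfil, val_fromRows, val_fromRows]
    rcases i with i | i
    exacts [(coeff_mfil (fun i => p (Sum.inl i)) q R A i j g).symm,
      (coeff_mfil (fun i => p (Sum.inr i)) q R B i j g).symm]

theorem mfil_fromCols {q : (J + K).I → Q} (A : (OC ρ).Hom I J) (B : (OC ρ).Hom I K) :
    mfil p q R (fromCols A B) =
      fromCols (mfil p (fun i => q (Sum.inl i)) R A) (mfil p (fun i => q (Sum.inr i)) R B) :=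
  hom_ext fun i j g => by
    rw [coeff_mfil, val_fromCols, val_fromCols]
    rcases j with j | j
    exacts [(coeff_mfil p (fun i => q (Sum.inl i)) R A i j g).symm,
      (coeff_mfil p (fun i => q (Sum.inr i)) R B i j g).symm]

/-- only finitely many pairs of positions occur -/
theorem prs_finite (hp : (Set.range p).Finite) (hq : (Set.range q).Finite) (A : (OC ρ).Hom I J) :
    (prs p q A).Finite := by
  obtain ⟨S, hS⟩ := (val_ctl A).1
  refine (hp.prod ((S.finite_toSet.prod hq).image fun t => t.1 • t.2)).subset ?_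
  rintro _ ⟨i, j, g, e, rfl⟩
  exact ⟨⟨i, rfl⟩, (g, q j), ⟨hS i j g e, j, rfl⟩, rfl⟩

theorem mOn_prs (p : I.I → P) (q : J.I → Q) (A : (OC ρ).Hom I J) :
    MOn p q (fun a b => (a, b) ∈ prs p q A) A := fun i j g e => ⟨i, j, g, e, rfl⟩

end Pool.Agent.Work.MP_9d1ffa_al.Ct.Ru
end

-- merged part: Pool.Agent.Work.MP_9d1ffa_al.Rt.LC
section
/-! Controlled morphisms between objects with labels. -/

namespace Pool.Agent.Work.MP_9d1ffa_al.Ct.Rl

open MonoidAlgebra

set_option linter.unusedSectionVars false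
set_option linter.unusedVariables false

/-- an object whose basis elements carry finitely many different labels -/
structure LOb (X Z : Type) : Type 1 where
  ob : Ob X
  lab : ob.I → Z
  fin : (Set.range lab).Finite

variable {X Z G : Type} [Group G] [MulAction G Z]

instance lobAdd : Add (LOb X Z) :=
  ⟨fun a b => ⟨a.ob + b.ob, Sum.elim a.lab b.lab, (Set.Sum.elim_range a.lab b.lab).symm ▸ a.fin.union b.fin⟩⟩

instance lobZero : Zero (LOb X Z) := ⟨⟨0, fun i => i.elim, (Set.finite_empty).subset (by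
  rintro _ ⟨i, -⟩
  exact i.elim)⟩⟩

/-- the largest invariant relation below `S` -/
def cl (G : Type) [Group G] [MulAction G Z] (S : Z → Z → Prop) (x y : Z) : Prop :=
  ∀ h : G, S (h • x) (h • y)

theorem inv_cl (S : Z → Z → Prop) : Inv G (cl G S) := fun g x y e h => by
  simpa only [mul_smul] using e (h * g)

theorem cl_iff {S : Z → Z → Prop} (h : Inv G S) {x y : Z} : cl G S x y ↔ S x y :=
  ⟨fun e => by simpa using e 1, fun e g => h g x y e⟩

variable {ρ : G →* Equiv.Perm X} {I J K : LOb X Z}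

/-- the labels are related by `S` -/
def OS (S : Z → Z → Prop) (I J : LOb X Z) (A : (OC ρ).Hom I.ob J.ob) : Prop :=
  Ru.MOn I.lab J.lab (cl G S) A

theorem OS.mul {S S' T : Z → Z → Prop} {A : (OC ρ).Hom I.ob J.ob} {B : (OC ρ).Hom J.ob K.ob}
    (hA : OS S I J A) (hB : OS S' J K B) (h : ∀ x y z, S x y → S' y z → T x z) :
    OS T I K (A * B) :=
  (Ru.MOn.mul hA hB (inv_cl _)).mono fun _ _ ⟨_, h1, h2⟩ g => h _ _ _ (h1 g) (h2 g)

theorem OS.ct {S : Z → Z → Prop} {A : (OC ρ).Hom I.ob J.ob} (hA : OS S I J A) :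
    OS (fun x y => S y x) J I A.ct := Ru.MOn.ct hA (inv_cl _)

theorem OS.mono {S S' : Z → Z → Prop} {A : (OC ρ).Hom I.ob J.ob} (hA : OS S I J A)
    (h : ∀ x y, S x y → S' x y) : OS S' I J A := Ru.MOn.mono hA fun _ _ e g => h _ _ (e g)

theorem os_pm {A : (OC ρ).Hom I.ob J.ob} {e : I.ob.I → J.ob.I} (h : val A = pmM e fun _ => 1)
    {S : Z → Z → Prop} (k : ∀ i (g : G), S (g • I.lab i) (g • J.lab (e i))) : OS S I J A :=
  fun i j g hg h' => by
    classical
    rw [h, pmM, Matrix.of_apply] at hg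
    split_ifs at hg with c
    · have : g = 1 := by
        by_contra c'
        simp [Ne.symm c'] at hg
      rw [this, one_smul, ← c]
      exact k i h'
    · simp at hg

/-- the morphisms that preserve an equivalence relation -/
def lsub (ρ : G →* Equiv.Perm X) (R : Setoid Z) (I J : LOb X Z) :
    AddSubgroup ((OC ρ).Hom I.ob J.ob) where
  carrier := {A | OS R.r I J A}
  zero_mem' := Ru.mOn_zero _ _ _
  add_mem' := Ru.MOn.add
  neg_mem' := Ru.MOn.neg

/-- the category of morphisms that preserve an equivalence relation on the labels -/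
noncomputable def LC (ρ : G →* Equiv.Perm X) (R : Setoid Z) : SCat (LOb X Z) where
  Hom a b := lsub ρ R a b
  acg a b := inferInstance
  mul A B := ⟨A.1 * B.1, OS.mul A.2 B.2 fun _ _ _ => R.iseqv.trans⟩
  one a := ⟨1, (Ru.mOn_one a.lab).mono fun _ _ e g => e ▸ R.iseqv.refl _⟩
  cj A := ⟨A.1.ct, (OS.ct A.2).mono fun _ _ => R.iseqv.symm⟩
  inl a b := ⟨(OC ρ).inl a.ob b.ob, os_pm (J := a + b) rfl fun _ _ => R.iseqv.refl _⟩
  inr a b := ⟨(OC ρ).inr a.ob b.ob, os_pm (J := a + b) rfl fun _ _ => R.iseqv.refl _⟩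
  mul_assoc A B D := Subtype.ext (Hm.mul_assoc A.1 B.1 D.1)
  one_mul A := Subtype.ext (Hm.one_mul A.1)
  mul_one A := Subtype.ext (Hm.mul_one A.1)
  mul_add A B D := Subtype.ext (Hm.mul_add A.1 B.1 D.1)
  add_mul A B D := Subtype.ext (Hm.add_mul A.1 B.1 D.1)
  cj_add A B := Subtype.ext (conjTranspose_add A.1 B.1)
  cj_mul A B := Subtype.ext (conjTranspose_mul A.1 B.1)
  cj_cj A := Subtype.ext (conjTranspose_conjTranspose A.1)
  inl_inl a b := Subtype.ext ((OC ρ).inl_inl a.ob b.ob)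
  inr_inr a b := Subtype.ext ((OC ρ).inr_inr a.ob b.ob)
  inl_inr a b := Subtype.ext ((OC ρ).inl_inr a.ob b.ob)
  total a b := Subtype.ext ((OC ρ).total a.ob b.ob)
  one_zero := Subtype.ext (OC ρ).one_zero

variable {R R' R'' : Setoid Z} {L M : LOb X Z}

/-- the underlying morphism -/
def vo (A : (LC ρ R).Hom I J) : (OC ρ).Hom I.ob J.ob := Subtype.val (p := OS R.r I J) A

/-- the morphism with labels -/
def lmk (A : (OC ρ).Hom I.ob J.ob) (h : OS R.r I J A) : (LC ρ R).Hom I J :=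
  (⟨A, h⟩ : lsub ρ R I J)

theorem vo_os (A : (LC ρ R).Hom I J) : OS R.r I J (vo A) := Subtype.property (p := OS R.r I J) A

@[simp] theorem vo_lmk (A : (OC ρ).Hom I.ob J.ob) (h : OS R.r I J A) : vo (lmk A h) = A := rfl

theorem vo_inj {A B : (LC ρ R).Hom I J} (h : vo A = vo B) : A = B := Subtype.ext h

theorem vo_add (A B : (LC ρ R).Hom I J) : vo (A + B) = vo A + vo B := rfl
theorem vo_neg (A : (LC ρ R).Hom I J) : vo (-A) = -vo A := rfl
theorem vo_sub (A B : (LC ρ R).Hom I J) : vo (A - B) = vo A - vo B := rfl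
theorem vo_zero : vo (0 : (LC ρ R).Hom I J) = 0 := rfl
theorem vo_zsmul (n : ℤ) (A : (LC ρ R).Hom I J) : vo (n • A) = n • vo A := rfl
theorem vo_mul (A : (LC ρ R).Hom I J) (B : (LC ρ R).Hom J L) : vo (A * B) = vo A * vo B := rfl
theorem vo_ct (A : (LC ρ R).Hom I J) : vo A.ct = (vo A).ct := rfl
theorem vo_one : vo (1 : (LC ρ R).Hom I I) = 1 := rfl
theorem vo_fromRows (a : (LC ρ R).Hom I L) (b : (LC ρ R).Hom J L) :
    vo (fromRows a b) = fromRows (vo a) (vo b) := rfl
theorem vo_fromCols (a : (LC ρ R).Hom L I) (b : (LC ρ R).Hom L J) :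
    vo (fromCols a b) = fromCols (vo a) (vo b) := rfl
theorem vo_fromBlocks (a : (LC ρ R).Hom I L) (b : (LC ρ R).Hom I M) (c : (LC ρ R).Hom J L)
    (d : (LC ρ R).Hom J M) : vo (fromBlocks a b c d) = fromBlocks (vo a) (vo b) (vo c) (vo d) := rfl
theorem vo_hyp : vo (hypF (LC ρ R) I) = hypF (OC ρ) I.ob := rfl
theorem vo_sy (ε : ℤˣ) (A : (LC ρ R).Hom I I) : vo (sy ε A) = sy ε (vo A) := rfl

/-- an inclusion of equivalence relations -/
structure AH (R R' : Setoid Z) : Prop where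
  le : ∀ x y, R.r x y → R'.r x y

/-- the same morphism in a larger category -/
def mp (f : AH R R') (A : (LC ρ R).Hom I J) : (LC ρ R').Hom I J := lmk (vo A) ((vo_os A).mono f.le)

/-- the part of a morphism that lies in a smaller category -/
noncomputable def rs (f : AH R R') (A : (LC ρ R').Hom I J) : (LC ρ R).Hom I J :=
  lmk (Ru.mfil I.lab J.lab (cl G R.r) (vo A)) (Ru.mOn_mfil _ _ _ _)

/-- the part of a morphism supported on `S` -/
noncomputable def fm (S : Z → Z → Prop) (A : (LC ρ R).Hom I J) : (LC ρ R).Hom I J :=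
  lmk (Ru.mfil I.lab J.lab (cl G S) (vo A)) (Ru.MOn.mfil (vo_os A) _)

/-- the morphism is supported on `S` -/
def Sup (S : Z → Z → Prop) (A : (LC ρ R).Hom I J) : Prop := OS S I J (vo A)

theorem vo_mp (f : AH R R') (A : (LC ρ R).Hom I J) : vo (mp f A) = vo A := rfl

theorem vo_fm (S : Z → Z → Prop) (A : (LC ρ R).Hom I J) :
    vo (fm S A) = Ru.mfil I.lab J.lab (cl G S) (vo A) := rfl

theorem vo_rs (f : AH R R') (A : (LC ρ R').Hom I J) :
    vo (rs f A) = Ru.mfil I.lab J.lab (cl G R.r) (vo A) := rfl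

/-- all labels are related -/
def sT (Z : Type) : Setoid Z := ⟨fun _ _ => True, ⟨fun _ => trivial, fun _ => trivial, fun _ _ => trivial⟩⟩

/-- equal labels -/
def sA (Z : Type) : Setoid Z := ⟨Eq, eq_equivalence⟩

/-- labels with the same first vertex -/
def sV (V : Type) : Setoid (V × V) :=
  ⟨fun x y => x.1 = y.1, ⟨fun _ => rfl, fun h => h.symm, fun h h' => h.trans h'⟩⟩

/-- a morphism in the category of all morphisms -/
def lt (A : (OC ρ).Hom I.ob J.ob) : (LC ρ (sT Z)).Hom I J := lmk A fun _ _ _ _ _ => trivial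

/-- the same object with other labels -/
def rel (I : LOb X Z) (f : Z → Z) : LOb X Z :=
  ⟨I.ob, fun i => f (I.lab i), (I.fin.image f).subset (by
    rintro _ ⟨i, rfl⟩
    exact ⟨_, ⟨i, rfl⟩, rfl⟩)⟩

end Pool.Agent.Work.MP_9d1ffa_al.Ct.Rl
end

-- merged part: Pool.Agent.Work.MP_9d1ffa_al.Rt.LM
section
/-! Calculus of images, supports, filters and restrictions of morphisms with labels. -/

namespace Pool.Agent.Work.MP_9d1ffa_al.Ct.Rl

open MonoidAlgebra

set_option linter.unusedSectionVars false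
set_option linter.unusedVariables false

variable {X Z G : Type} [Group G] [MulAction G Z] {ρ : G →* Equiv.Perm X} {R R' R'' : Setoid Z}
  {I J L M : LOb X Z}

section Mp

variable (f : AH R R')

theorem mp_mul (A : (LC ρ R).Hom I J) (B : (LC ρ R).Hom J L) : mp f (A * B) = mp f A * mp f B := rfl

theorem mp_add (A B : (LC ρ R).Hom I J) : mp f (A + B) = mp f A + mp f B := rfl

theorem mp_sub (A B : (LC ρ R).Hom I J) : mp f (A - B) = mp f A - mp f B := rfl

theorem mp_neg (A : (LC ρ R).Hom I J) : mp f (-A) = -mp f A := rfl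

theorem mp_zero : mp f (0 : (LC ρ R).Hom I J) = 0 := rfl

theorem mp_one : mp f (1 : (LC ρ R).Hom I I) = 1 := rfl

theorem mp_zsmul (n : ℤ) (A : (LC ρ R).Hom I J) : mp f (n • A) = n • mp f A := rfl

theorem mp_ct (A : (LC ρ R).Hom I J) : mp f A.ct = (mp f A).ct := rfl

theorem mp_sy (ε : ℤˣ) (A : (LC ρ R).Hom I I) : mp f (sy ε A) = sy ε (mp f A) := rfl

theorem mp_fromRows (a : (LC ρ R).Hom I L) (b : (LC ρ R).Hom J L) :
    mp f (fromRows a b) = fromRows (mp f a) (mp f b) := rfl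

theorem mp_fromCols (a : (LC ρ R).Hom I L) (b : (LC ρ R).Hom I M) :
    mp f (fromCols a b) = fromCols (mp f a) (mp f b) := rfl

theorem mp_blocks (a : (LC ρ R).Hom I L) (b : (LC ρ R).Hom I M) (c : (LC ρ R).Hom J L)
    (d : (LC ρ R).Hom J M) :
    mp f (fromBlocks a b c d) = fromBlocks (mp f a) (mp f b) (mp f c) (mp f d) := rfl

theorem mp_toRows₁ (A : (LC ρ R).Hom (I + J) L) : (mp f A).toRows₁ = mp f A.toRows₁ := by
  conv_lhs => rw [← fromRows_toRows A, mp_fromRows, toRows₁_fromRows]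

theorem mp_toRows₂ (A : (LC ρ R).Hom (I + J) L) : (mp f A).toRows₂ = mp f A.toRows₂ := by
  conv_lhs => rw [← fromRows_toRows A, mp_fromRows, toRows₂_fromRows]

theorem mp_toCols₁ (A : (LC ρ R).Hom L (I + J)) : (mp f A).toCols₁ = mp f A.toCols₁ := by
  conv_lhs => rw [← fromCols_toCols A, mp_fromCols, toCols₁_fromCols]

theorem mp_toCols₂ (A : (LC ρ R).Hom L (I + J)) : (mp f A).toCols₂ = mp f A.toCols₂ := by
  conv_lhs => rw [← fromCols_toCols A, mp_fromCols, toCols₂_fromCols]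

theorem mp_toBlocks₁₁ (A : (LC ρ R).Hom (I + J) (L + M)) :
    (mp f A).toBlocks₁₁ = mp f A.toBlocks₁₁ := by
  simp only [SCat.Hom.toBlocks₁₁, mp_toRows₁, mp_toCols₁]

theorem mp_toBlocks₁₂ (A : (LC ρ R).Hom (I + J) (L + M)) :
    (mp f A).toBlocks₁₂ = mp f A.toBlocks₁₂ := by
  simp only [SCat.Hom.toBlocks₁₂, mp_toRows₁, mp_toCols₂]

theorem mp_toBlocks₂₁ (A : (LC ρ R).Hom (I + J) (L + M)) :
    (mp f A).toBlocks₂₁ = mp f A.toBlocks₂₁ := by
  simp only [SCat.Hom.toBlocks₂₁, mp_toRows₂, mp_toCols₁]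

theorem mp_toBlocks₂₂ (A : (LC ρ R).Hom (I + J) (L + M)) :
    (mp f A).toBlocks₂₂ = mp f A.toBlocks₂₂ := by
  simp only [SCat.Hom.toBlocks₂₂, mp_toRows₂, mp_toCols₂]

theorem mp_hyp : mp f (hypF (LC ρ R) I) = hypF (LC ρ R') I := by
  rw [hypF, hypF, mp_blocks, mp_zero, mp_one]

theorem mp_dsum (U : (LC ρ R).Hom (I + I) (I + I)) (V : (LC ρ R).Hom (J + J) (J + J)) :
    mp f (dsum U V) = dsum (mp f U) (mp f V) := by
  simp only [dsum, mp_blocks, mp_zero, mp_toBlocks₁₁, mp_toBlocks₁₂, mp_toBlocks₂₁, mp_toBlocks₂₂]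

/-- the inclusion as a functor -/
def mpF (ρ : G →* Equiv.Perm X) : Fn (LC ρ R) (LC ρ R') :=
  ⟨id, mp f, mp_add f, mp_mul f, fun _ => mp_one f, mp_ct f⟩

theorem eqv_mp {ε : ℤˣ} {a b : (LC ρ R).Hom I I} (h : Eqv ε a b) : Eqv ε (mp f a) (mp f b) :=
  (mpF f ρ).eqv h

theorem z_mp {ε : ℤˣ} {a : (LC ρ R).Hom I I} (h : Ct.Z ε a) : Ct.Z ε (mp f a) := (mpF f ρ).z h

theorem ns_mp {ε : ℤˣ} {a : (LC ρ R).Hom I I} (h : NS ε a) : NS ε (mp f a) := (mpF f ρ).ns h

end Mp

section SupFm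

variable {S S' : Z → Z → Prop} {A B : (LC ρ R).Hom I J}

theorem Sup.mono (h : Sup S A) (hS : ∀ x y, S x y → S' x y) : Sup S' A := OS.mono h hS

theorem Sup.and (h : Sup S A) (h' : Sup S' A) : Sup (fun x y => S x y ∧ S' x y) A :=
  fun i j g e k => ⟨h i j g e k, h' i j g e k⟩

/-- a support condition in terms of entries -/
theorem Sup.mOn (h : Sup S A) : Ru.MOn I.lab J.lab S (vo A) := fun i j g e => by
  simpa using h i j g e 1

theorem sup_of_mOn (hS : Inv G S) (h : Ru.MOn I.lab J.lab S (vo A)) : Sup S A :=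
  Ru.MOn.mono h fun _ _ => (cl_iff hS).2

theorem sup_zero : Sup S (0 : (LC ρ R).Hom I J) := Ru.mOn_zero _ _ _

theorem Sup.add (hA : Sup S A) (hB : Sup S B) : Sup S (A + B) := Ru.MOn.add hA hB

theorem Sup.neg (hA : Sup S A) : Sup S (-A) := Ru.MOn.neg hA

theorem Sup.sub (hA : Sup S A) (hB : Sup S B) : Sup S (A - B) := Ru.MOn.sub hA hB

theorem Sup.zsmul (hA : Sup S A) (n : ℤ) : Sup S (n • A) := Ru.MOn.zsmul hA n

theorem Sup.mul {D : (LC ρ R).Hom J L} {T : Z → Z → Prop} (hA : Sup S A) (hD : Sup S' D)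
    (h : ∀ x y z, S x y → S' y z → T x z) : Sup T (A * D) := OS.mul hA hD h

theorem Sup.ct (hA : Sup S A) : Sup (fun x y => S y x) A.ct := OS.ct hA

theorem Sup.eq_zero (hA : Sup S A) (hA' : Sup S' A) (h : ∀ x y, S x y → ¬ S' x y) : A = 0 :=
  vo_inj (Ru.MOn.eq_zero ((hA.and hA').mOn.mono fun x y e => h x y e.1 e.2))

theorem sup_self (A : (LC ρ R).Hom I J) : Sup R.r A := vo_os A

theorem sup_mp (f : AH R' R) (A : (LC ρ R').Hom I J) : Sup R'.r (mp f A) := vo_os A

theorem sup_mp_iff (f : AH R R') : Sup S (mp f A) ↔ Sup S A := Iff.rfl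

theorem sup_one : Sup Eq (1 : (LC ρ R).Hom J J) :=
  (Ru.mOn_one J.lab).mono fun _ _ e _ => e ▸ rfl

/-- conditions on the labels of the rows -/
theorem sup_row {p : Z → Prop} (h : ∀ i (g : G), p (g • I.lab i)) (A : (LC ρ R).Hom I J) :
    Sup (fun x _ => p x) A := fun i _ _ _ g => h i g

/-- conditions on the labels of the columns -/
theorem sup_col {p : Z → Prop} (h : ∀ j (g : G), p (g • J.lab j)) (A : (LC ρ R).Hom I J) :
    Sup (fun _ y => p y) A := fun _ j g _ k => by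
  rw [smul_smul]
  exact h j _

theorem sup_fromRows {A : (LC ρ R).Hom I L} {B : (LC ρ R).Hom J L} :
    Sup S (fromRows A B) ↔ Sup S A ∧ Sup S B :=
  Ru.mOn_fromRows (p := (I + J).lab) (A := vo A) (B := vo B)

theorem sup_fromCols {A : (LC ρ R).Hom I L} {B : (LC ρ R).Hom I M} :
    Sup S (fromCols A B) ↔ Sup S A ∧ Sup S B :=
  Ru.mOn_fromCols (q := (L + M).lab) (A := vo A) (B := vo B)

theorem sup_fromBlocks {a : (LC ρ R).Hom I L} {b : (LC ρ R).Hom I M} {c : (LC ρ R).Hom J L}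
    {d : (LC ρ R).Hom J M} :
    Sup S (fromBlocks a b c d) ↔ Sup S a ∧ Sup S b ∧ Sup S c ∧ Sup S d := by
  simp only [fromBlocks, sup_fromRows, sup_fromCols, and_assoc]

theorem Sup.toRows₁ {A : (LC ρ R).Hom (I + J) L} (h : Sup S A) : Sup S A.toRows₁ :=
  (sup_fromRows.1 ((fromRows_toRows A).symm ▸ h)).1

theorem Sup.toRows₂ {A : (LC ρ R).Hom (I + J) L} (h : Sup S A) : Sup S A.toRows₂ :=
  (sup_fromRows.1 ((fromRows_toRows A).symm ▸ h)).2

theorem Sup.toCols₁ {A : (LC ρ R).Hom L (I + J)} (h : Sup S A) : Sup S A.toCols₁ :=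
  (sup_fromCols.1 ((fromCols_toCols A).symm ▸ h)).1

theorem Sup.toCols₂ {A : (LC ρ R).Hom L (I + J)} (h : Sup S A) : Sup S A.toCols₂ :=
  (sup_fromCols.1 ((fromCols_toCols A).symm ▸ h)).2

theorem sup_fm (S : Z → Z → Prop) (A : (LC ρ R).Hom I J) : Sup S (fm S A) := Ru.mOn_mfil _ _ _ _

theorem Sup.fm (hA : Sup S A) (T : Z → Z → Prop) : Sup S (fm T A) := Ru.MOn.mfil hA _

theorem Sup.fm_eq (hA : Sup S A) : Rl.fm S A = A := vo_inj (Ru.MOn.mfil_eq hA)

theorem Sup.fm_zero (hA : Sup S A) (h : ∀ x y, S x y → ¬ S' x y) : Rl.fm S' A = 0 :=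
  (hA.fm S').eq_zero (sup_fm S' A) h

theorem Sup.fm_congr {S₁ S₂ : Z → Z → Prop} (hA : Sup S A)
    (h : ∀ x y, S x y → (S₁ x y ↔ S₂ x y)) : Rl.fm S₁ A = Rl.fm S₂ A :=
  vo_inj (Ru.MOn.mfil_congr hA fun _ _ e => forall_congr' fun g => h _ _ (e g))

theorem fm_add (S : Z → Z → Prop) (A B : (LC ρ R).Hom I J) : fm S (A + B) = fm S A + fm S B :=
  vo_inj (Ru.mfil_add _ _ _ (vo A) (vo B))

theorem fm_sub (S : Z → Z → Prop) (A B : (LC ρ R).Hom I J) : fm S (A - B) = fm S A - fm S B :=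
  vo_inj (map_sub (Ru.mfilH I.lab J.lab (cl G S)) (vo A) (vo B))

theorem fm_neg (S : Z → Z → Prop) (A : (LC ρ R).Hom I J) : fm S (-A) = -fm S A :=
  vo_inj (map_neg (Ru.mfilH I.lab J.lab (cl G S)) (vo A))

theorem fm_zsmul (S : Z → Z → Prop) (n : ℤ) (A : (LC ρ R).Hom I J) : fm S (n • A) = n • fm S A :=
  vo_inj (map_zsmul (Ru.mfilH I.lab J.lab (cl G S)) n (vo A))

theorem fm_zero (S : Z → Z → Prop) : fm S (0 : (LC ρ R).Hom I J) = 0 := sup_zero.fm_eq

theorem fm_add_not (hS : Inv G S) (A : (LC ρ R).Hom I J) :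
    fm S A + fm (fun x y => ¬ S x y) A = A := vo_inj (by
  have e : cl G (fun x y => ¬ S x y) = fun x y => ¬ cl G S x y := by
    funext x y
    rw [cl_iff hS, cl_iff (Ru.inv_not hS)]
  rw [vo_add, vo_fm, vo_fm, e, Ru.mfil_add_not])

theorem fm_ct (S : Z → Z → Prop) (A : (LC ρ R).Hom I J) :
    (fm S A).ct = fm (fun x y => S y x) A.ct := vo_inj (Ru.mfil_ct (inv_cl S) (vo A))

theorem fm_fromRows (S : Z → Z → Prop) (a : (LC ρ R).Hom I L) (b : (LC ρ R).Hom J L) :
    fm S (fromRows a b) = fromRows (fm S a) (fm S b) :=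
  vo_inj (Ru.mfil_fromRows (p := (I + J).lab) (vo a) (vo b))

theorem fm_fromCols (S : Z → Z → Prop) (a : (LC ρ R).Hom I L) (b : (LC ρ R).Hom I M) :
    fm S (fromCols a b) = fromCols (fm S a) (fm S b) :=
  vo_inj (Ru.mfil_fromCols (q := (L + M).lab) (vo a) (vo b))

/-- a filter passes through a right factor that does not change the relation -/
theorem fm_mul_right {D : (LC ρ R).Hom J L} {T : Z → Z → Prop} (A : (LC ρ R).Hom I J)
    (hD : Sup S' D) (h : ∀ x y z, S' y z → (T x z ↔ S x y)) : fm T (A * D) = fm S A * D :=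
  vo_inj (Ru.mfil_mul_right (vo A) hD (inv_cl _) fun _ _ _ e =>
    forall_congr' fun g => h _ _ _ (e g))

/-- a filter passes through a left factor that does not change the relation -/
theorem fm_mul_left {T : Z → Z → Prop} (hA : Sup S' A) (D : (LC ρ R).Hom J L)
    (h : ∀ x y z, S' x y → (T x z ↔ S y z)) : fm T (A * D) = A * fm S D :=
  vo_inj (Ru.mfil_mul_left hA (vo D) (inv_cl _) fun _ _ _ e =>
    forall_congr' fun g => h _ _ _ (e g))

theorem sup_sub_fm {T : Z → Z → Prop} (hS : Inv G S) (h : Sup T B) :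
    Sup (fun x y => T x y ∧ ¬ S x y) (B - fm S B) := by
  have e : B - fm S B = fm (fun x y => ¬ S x y) B := by
    rw [sub_eq_iff_eq_add', fm_add_not hS]
  rw [e]
  exact (h.fm _).and (sup_fm _ _)

theorem fm_fm (S S' : Z → Z → Prop) (A : (LC ρ R).Hom I J) :
    fm S (fm S' A) = fm (fun x y => S x y ∧ S' x y) A := vo_inj (hom_ext fun i j g => by
  rw [vo_fm, vo_fm, vo_fm, Ru.coeff_mfil, Ru.coeff_mfil, Ru.coeff_mfil]
  have e : cl G (fun x y => S x y ∧ S' x y) (I.lab i) (g • J.lab j) ↔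
      cl G S (I.lab i) (g • J.lab j) ∧ cl G S' (I.lab i) (g • J.lab j) := forall_and
  by_cases a : cl G S (I.lab i) (g • J.lab j) <;> by_cases b : cl G S' (I.lab i) (g • J.lab j) <;>
    simp [a, b, e])

/-- the filter along a disjoint union -/
theorem fm_or (hS : Inv G S) (h : ∀ x y, S x y → ¬ S' x y) (A : (LC ρ R).Hom I J) :
    fm (fun x y => S x y ∨ S' x y) A = fm S A + fm S' A := by
  rw [← fm_add_not hS (fm _ A), fm_fm, fm_fm]
  congr 2 <;> funext x y <;> apply propext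
  · tauto
  · have := h x y
    tauto

end SupFm

section Rs

variable {f : AH R' R} {S : Z → Z → Prop}

theorem mp_rs (A : (LC ρ R).Hom I J) : mp f (rs f A) = fm R'.r A := rfl

theorem mp_inj (f : AH R' R) {A B : (LC ρ R').Hom I J} (h : mp f A = mp f B) : A = B :=
  vo_inj (congrArg vo h :)

theorem rs_mp (A : (LC ρ R').Hom I J) : rs f (mp f A) = A := mp_inj f (sup_mp f A).fm_eq

theorem Sup.mp_rs {A : (LC ρ R).Hom I J} (h : Sup R'.r A) : mp f (rs f A) = A := h.fm_eq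

theorem rs_add (A B : (LC ρ R).Hom I J) : rs f (A + B) = rs f A + rs f B :=
  mp_inj f (fm_add _ A B)

theorem rs_neg (A : (LC ρ R).Hom I J) : rs f (-A) = -rs f A := mp_inj f (fm_neg _ A)

theorem rs_sub (A B : (LC ρ R).Hom I J) : rs f (A - B) = rs f A - rs f B :=
  mp_inj f (fm_sub _ A B)

theorem rs_zero : rs f (0 : (LC ρ R).Hom I J) = 0 := mp_inj f (fm_zero _)

theorem rs_zsmul (n : ℤ) (A : (LC ρ R).Hom I J) : rs f (n • A) = n • rs f A :=
  mp_inj f (fm_zsmul _ n A)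

theorem rs_ct (A : (LC ρ R).Hom I J) : rs f A.ct = (rs f A).ct := mp_inj f (by
  rw [mp_ct, mp_rs, mp_rs, fm_ct]
  exact (sup_self A.ct).fm_congr fun x y _ => ⟨R'.iseqv.symm, R'.iseqv.symm⟩)

theorem rs_one : rs f (1 : (LC ρ R).Hom I I) = 1 := by rw [← mp_one f, rs_mp]

theorem rs_sy (ε : ℤˣ) (A : (LC ρ R).Hom I I) : sy ε (rs f A) = rs f (sy ε A) := by
  rw [sy, sy, rs_add, rs_zsmul, rs_ct]

theorem Sup.rs_zero {A : (LC ρ R).Hom I J} (hA : Sup S A) (h : ∀ x y, S x y → ¬ R'.r x y) :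
    rs f A = 0 := mp_inj f (hA.fm_zero h)

theorem rs_mul_mp (A : (LC ρ R).Hom I J) (D : (LC ρ R').Hom J L) :
    rs f (A * mp f D) = rs f A * D := mp_inj f (fm_mul_right A (sup_mp f D) fun x y z e =>
  ⟨fun k => R'.iseqv.trans k (R'.iseqv.symm e), fun k => R'.iseqv.trans k e⟩)

theorem rs_mp_mul (D : (LC ρ R').Hom I J) (A : (LC ρ R).Hom J L) :
    rs f (mp f D * A) = D * rs f A := mp_inj f (fm_mul_left (sup_mp f D) A fun x y z e =>
  ⟨fun k => R'.iseqv.trans (R'.iseqv.symm e) k, fun k => R'.iseqv.trans e k⟩)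

theorem rs_fromRows (a : (LC ρ R).Hom I L) (b : (LC ρ R).Hom J L) :
    rs f (fromRows a b) = fromRows (rs f a) (rs f b) := mp_inj f (fm_fromRows _ a b)

theorem rs_fromCols (a : (LC ρ R).Hom I L) (b : (LC ρ R).Hom I M) :
    rs f (fromCols a b) = fromCols (rs f a) (rs f b) := mp_inj f (fm_fromCols _ a b)

theorem rs_blocks (a : (LC ρ R).Hom I L) (b : (LC ρ R).Hom I M) (c : (LC ρ R).Hom J L)
    (d : (LC ρ R).Hom J M) :
    rs f (fromBlocks a b c d) = fromBlocks (rs f a) (rs f b) (rs f c) (rs f d) := by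
  simp only [fromBlocks, rs_fromRows, rs_fromCols]

end Rs

/-- the functor that forgets the labels -/
def voF (ρ : G →* Equiv.Perm X) (R : Setoid Z) : Fn (LC ρ R) (OC ρ) :=
  ⟨LOb.ob, vo, vo_add, vo_mul, fun _ => vo_one, vo_ct⟩

/-- labels do not matter in the category of all morphisms -/
theorem z_of_vo [Nonempty Z] {ε : ℤˣ} {ψ : (LC ρ (sT Z)).Hom I I} (h : Ct.Z ε (vo ψ)) :
    Ct.Z ε ψ := by
  obtain ⟨m, n, g, g', h1, h2, χ, h3⟩ := h
  let z : Z := Classical.arbitrary Z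
  let m' : LOb X Z := ⟨m, fun _ => z, Set.finite_range_const⟩
  let n' : LOb X Z := ⟨n, fun _ => z, Set.finite_range_const⟩
  exact ⟨m', n', lt (I := n' + n') (J := I + (m' + m')) g, lt (J := n' + n') (I := I + (m' + m')) g',
    vo_inj h1, vo_inj h2, lt (I := n' + n') (J := n' + n') χ, vo_inj h3⟩

end Pool.Agent.Work.MP_9d1ffa_al.Ct.Rl
end

-- merged part: Pool.Agent.Work.MP_9d1ffa_al.Rt.RV
section
/-! Calculus of vectors with positions.  Port of the vector part of `../Basic.lean` and of the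
`Low2` lemmas of `../UObj.lean`.  A vector is a morphism from the one point object, `x ᵥ* A` is
`x * A`, the basis vector `i` is `row 1 i`.  A vector is a matrix with one row, so `VOn p S x` is
`MOn (fun _ => ()) p (fun _ b => S b) x` up to unfolding and most proofs follow from `RB` or from
coefficients (`hom_ext`, `coeff_proj`, `coeff_mul_ne`); `val_fin x ()` says that the support is finite. -/

namespace Pool.Agent.Work.MP_9d1ffa_al.Ct.Ru

open MonoidAlgebra

set_option linter.unusedSectionVars false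
set_option linter.unusedVariables false

variable {X G P Q : Type} [Group G] [MulAction G P] [MulAction G Q] [Nonempty X]
  {ρ : G →* Equiv.Perm X} {I J K : Ob X} {p : I.I → P} {q : J.I → Q} {S S' : P → Prop}
  {x y : Vec ρ I}

open Classical in
theorem coeff_proj (p : I.I → P) (S : P → Prop) (x : Vec ρ I) (i : I.I) (g : G) :
    (val (proj p S x) () i).coeff g = if S (g • p i) then (val x () i).coeff g else 0 :=
  coeff_fil _ _ _

theorem vec_ext (h : ∀ i g, (val x () i).coeff g = (val y () i).coeff g) : x = y :=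
  hom_ext fun _ i g => h i g

theorem val_row (A : (OC ρ).Hom I J) (i : I.I) (j : J.I) : val (row A i) () j = val A i j := rfl

theorem RV_ext (h : val x () = val y ()) : x = y := val_inj (funext fun _ => h)

/-- the coordinates of a vector -/
noncomputable def RV_h (ρ : G →* Equiv.Perm X) (I : Ob X) : Vec ρ I →+ (I.I → ZG G) :=
  AddMonoidHom.mk' (fun x => val x ()) fun _ _ => rfl

theorem row_one_mul (A : (OC ρ).Hom I J) (i : I.I) : row 1 i * A = row A i :=
  RV_ext (congrArg (fun B : (OC ρ).Hom I J => val B i) (Hm.one_mul A))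

theorem row_ext {A B : (OC ρ).Hom I J} (h : ∀ i, row A i = row B i) : A = B :=
  val_inj (funext fun i => congrArg (fun z : Vec ρ J => val z ()) (h i))

theorem mOn_iff {R : P → Q → Prop} {A : (OC ρ).Hom I J} :
    MOn p q R A ↔ ∀ i, VOn q (R (p i)) (row A i) := Iff.rfl

theorem VOn.mono (h : VOn p S x) (hS : ∀ a, S a → S' a) : VOn p S' x :=
  fun i g e => hS _ (h i g e)

theorem vOn_zero (p : I.I → P) (S : P → Prop) : VOn p S (0 : Vec ρ I) :=
  MP_9d1ffa_al.vOn_zero p S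

theorem VOn.add (hx : VOn p S x) (hy : VOn p S y) : VOn p S (x + y) :=
  MP_9d1ffa_al.VOn.add (x := val x ()) (y := val y ()) hx hy

theorem VOn.neg (hx : VOn p S x) : VOn p S (-x) :=
  MP_9d1ffa_al.VOn.neg (x := val x ()) hx

theorem VOn.and (h : VOn p S x) (h' : VOn p S' x) : VOn p (fun a => S a ∧ S' a) x :=
  fun i g e => ⟨h i g e, h' i g e⟩

theorem VOn.eq_zero (h : VOn p (fun _ => False) x) : x = 0 :=
  RV_ext (MP_9d1ffa_al.VOn.eq_zero (p := p) (x := val x ()) h)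

theorem vOn_proj (p : I.I → P) (S : P → Prop) (x : Vec ρ I) : VOn p S (proj p S x) :=
  MP_9d1ffa_al.vOn_proj p S (val x ())

theorem VOn.proj (h : VOn p S x) (S' : P → Prop) : VOn p S (proj p S' x) :=
  MP_9d1ffa_al.VOn.proj (x := val x ()) h S'

theorem VOn.proj_eq (h : VOn p S x) : Ru.proj p S x = x :=
  RV_ext (MP_9d1ffa_al.VOn.proj_eq (x := val x ()) h)

theorem VOn.proj_zero (h : VOn p S x) (hS : ∀ a, S a → ¬ S' a) : Ru.proj p S' x = 0 :=
  RV_ext (MP_9d1ffa_al.VOn.proj_zero (x := val x ()) h hS)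

theorem proj_proj (p : I.I → P) (S S' : P → Prop) (x : Vec ρ I) :
    proj p S (proj p S' x) = proj p (fun a => S a ∧ S' a) x :=
  RV_ext (MP_9d1ffa_al.proj_proj p S S' (val x ()))

theorem proj_add_not (p : I.I → P) (S : P → Prop) (x : Vec ρ I) :
    proj p S x + proj p (fun a => ¬ S a) x = x :=
  RV_ext (MP_9d1ffa_al.proj_add_not p S (val x ()))

theorem proj_comp (p : I.I → P) (f : P → Q) (hf : ∀ (g : G) a, f (g • a) = g • f a) (S : Q → Prop)
    (x : Vec ρ I) : proj (fun i => f (p i)) S x = proj p (fun a => S (f a)) x :=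
  vec_ext fun i g => by rw [coeff_proj, coeff_proj, hf]

theorem proj_fromCols (p : (I + J).I → P) (S : P → Prop) (x : Vec ρ I) (y : Vec ρ J) :
    proj p S (fromCols x y) =
      fromCols (proj (fun i => p (Sum.inl i)) S x) (proj (fun i => p (Sum.inr i)) S y) :=
  vec_ext fun i g => by
    rw [coeff_proj, val_fromCols, val_fromCols]
    rcases i with i | i
    exacts [(coeff_proj (fun i => p (Sum.inl i)) S x i g).symm,
      (coeff_proj (fun i => p (Sum.inr i)) S y i g).symm]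

theorem proj_toCols₁ (p : (I + J).I → P) (S : P → Prop) (x : Vec ρ (I + J)) :
    (proj p S x).toCols₁ = proj (fun i => p (Sum.inl i)) S x.toCols₁ := by
  conv_lhs => rw [← fromCols_toCols x, proj_fromCols, toCols₁_fromCols]

theorem proj_toCols₂ (p : (I + J).I → P) (S : P → Prop) (x : Vec ρ (I + J)) :
    (proj p S x).toCols₂ = proj (fun i => p (Sum.inr i)) S x.toCols₂ := by
  conv_lhs => rw [← fromCols_toCols x, proj_fromCols, toCols₂_fromCols]

theorem exists_pos_finset (p : I.I → P) (x : Vec ρ I) : ∃ s : Finset P, VOn p (· ∈ s) x := by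
  classical
  refine ⟨(val_fin x ()).toFinset.biUnion fun i =>
    (val x () i).coeff.support.image fun g => g • p i, fun i g e => ?_⟩
  exact Finset.mem_biUnion.2 ⟨i, (val_fin x ()).mem_toFinset.2 (CA_ne.2 ⟨g, e⟩),
    Finset.mem_image.2 ⟨g, Finsupp.mem_support_iff.2 e, rfl⟩⟩

theorem VOn.sum_proj {s : Finset P} (h : VOn p (· ∈ s) x) :
    ∑ σ ∈ s, Ru.proj p (· = σ) x = x :=
  RV_ext ((map_sum (RV_h ρ I) _ s).trans (MP_9d1ffa_al.VOn.sum_proj (x := val x ()) h))

/-- a vector lies in an additive submonoid as soon as its components do -/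
theorem mem_of_proj {M : Type*} [SetLike M (Vec ρ I)] [AddSubmonoidClass M (Vec ρ I)]
    (p : I.I → P) {N : M} (h : ∀ σ, proj p (· = σ) x ∈ N) : x ∈ N := by
  obtain ⟨s, hs⟩ := exists_pos_finset p x
  rw [← hs.sum_proj]
  exact sum_mem fun σ _ => h σ

theorem VOn.vecMul {R : P → Q → Prop} {A : (OC ρ).Hom I J} (hx : VOn p S x) (hA : MOn p q R A)
    (hR : Inv G R) : VOn q (fun b => ∃ a, S a ∧ R a b) (x * A) := fun j g e => by
  obtain ⟨i, a, b, rfl, h1, h2⟩ := coeff_mul_ne e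
  exact ⟨a • p i, hx i a h1, by rw [mul_smul]; exact hR a _ _ (hA i j b h2)⟩

theorem VOn.vecMul_eq {σ : P} {R : P → Q → Prop} {A : (OC ρ).Hom I J} (hx : VOn p (· = σ) x)
    (hA : MOn p q R A) (hR : Inv G R) : VOn q (R σ) (x * A) :=
  (hx.vecMul hA hR).mono fun _ ⟨_, e, h⟩ => e ▸ h

theorem VOn.vecMul_mfil {σ : P} {R : P → Q → Prop} (hx : VOn p (· = σ) x) (hR : Inv G R)
    (A : (OC ρ).Hom I J) : x * mfil p q R A = Ru.proj q (R σ) (x * A) := by
  have h1 := hx.vecMul_eq (mOn_mfil p q R A) hR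
  have h2 := hx.vecMul_eq (mOn_mfil p q (fun a b => ¬ R a b) A) (inv_not hR)
  conv_rhs => rw [← mfil_add_not p q R A, Hm.mul_add, map_add, h1.proj_eq,
    h2.proj_zero (S' := R σ) (fun _ h => h), add_zero]

variable {F : ℕ → AddSubgroup (Vec ρ I)} {F' : ℕ → AddSubgroup (Vec ρ J)}
  {F'' : ℕ → AddSubgroup (Vec ρ K)} {k k' w w' : ℕ} {A B : (OC ρ).Hom I J}

theorem Filt.antitone (h : Filt p F k) : Antitone F := antitone_nat_of_succ_le h.anti

theorem Filt.proj_mem (h : Filt p F k) (m : ℕ) (S : P → Prop) (hx : x ∈ F m) :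
    proj p S x ∈ F m := by
  refine mem_of_proj p fun σ => ?_
  rw [proj_proj]
  by_cases e : S σ
  · have : (fun a => a = σ ∧ S a) = (· = σ) := by
      funext a; exact propext ⟨fun e => e.1, fun e' => ⟨e', e' ▸ e⟩⟩
    rw [this]; exact h.gr m σ x hx
  · have : proj p (fun a => a = σ ∧ S a) x = 0 :=
      ((vOn_proj p _ x).mono fun a (e' : a = σ ∧ S a) => e (e'.1 ▸ e'.2)).eq_zero
    rw [this]; exact zero_mem _

theorem Filt.coarse (h : Filt p F k) (f : P → Q) (hf : ∀ (g : G) a, f (g • a) = g • f a) :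
    Filt (fun i => f (p i)) F k := by
  refine ⟨h.top, h.anti, h.bot, fun m σ x hx => ?_⟩
  rw [proj_comp p f hf]
  exact h.proj_mem m _ hx

theorem low2_zero : Low2 F F' w (0 : (OC ρ).Hom I J) := fun m x hx => by
  rw [Hm.mul_zero]; exact zero_mem _

theorem Low2.add (hA : Low2 F F' w A) (hB : Low2 F F' w B) : Low2 F F' w (A + B) :=
  fun m x hx => by rw [Hm.mul_add]; exact add_mem (hA m x hx) (hB m x hx)

theorem Low2.zsmul (hA : Low2 F F' w A) (n : ℤ) : Low2 F F' w (n • A) :=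
  fun m x hx => by rw [Hm.mul_smul]; exact zsmul_mem (hA m x hx) n

theorem Low2.neg (hA : Low2 F F' w A) : Low2 F F' w (-A) :=
  fun m x hx => by rw [Hm.mul_neg]; exact neg_mem (hA m x hx)

theorem Low2.mul {D : (OC ρ).Hom J K} (hA : Low2 F F' w A) (hD : Low2 F' F'' w' D) :
    Low2 F F'' (w + w') (A * D) := fun m x hx => by
  rw [← Hm.mul_assoc, ← add_assoc]; exact hD _ _ (hA m x hx)

theorem Low2.anti (hF' : Filt q F' k) (h : w ≤ w') (hA : Low2 F F' w' A) : Low2 F F' w A :=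
  fun m x hx => hF'.antitone (Nat.add_le_add_left h m) (hA m x hx)

theorem Low2.eq_zero (hF : Filt p F k') (hF' : Filt q F' k) (h : k ≤ w) (hA : Low2 F F' w A) :
    A = 0 := by
  refine row_ext fun i => ?_
  have h1 := hA 0 (row 1 i) (by rw [hF.top]; trivial)
  rw [zero_add, row_one_mul] at h1
  have h2 := hF'.antitone h h1
  rw [hF'.bot] at h2
  exact AddSubgroup.mem_bot.1 h2

theorem Low2.mfil (hF : Filt p F k') (hF' : Filt q F' k) (hA : Low2 F F' w A) {R : P → Q → Prop}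
    (hR : Inv G R) : Low2 F F' w (mfil p q R A) := fun m x hx => by
  obtain ⟨s, hs⟩ := exists_pos_finset p x
  rw [← hs.sum_proj, Hm.sum_mul]
  refine sum_mem fun σ _ => ?_
  rw [(vOn_proj p (· = σ) x).vecMul_mfil hR]
  exact hF'.proj_mem _ _ (hA m _ (hF.gr m σ x hx))

theorem NilP.isNilpotent {A : (OC ρ).Hom I I} (h : NilP p A) : IsNilpotent A := by
  obtain ⟨F, k, hF, hA⟩ := h
  have key : ∀ n, Low2 F F n (A ^ n) := by
    intro n
    induction n with
    | zero => intro m x hx; rw [pow_zero, Hm.mul_one]; exact hx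
    | succ n ih => rw [pow_succ]; exact ih.mul hA
  exact ⟨k, (key k).eq_zero hF hF le_rfl⟩

end Pool.Agent.Work.MP_9d1ffa_al.Ct.Ru
end

-- merged part: Pool.Agent.Work.MP_9d1ffa_al.Rt.RN
section
/-! Constructions of graded filtrations.  Port of `../NilT.lean` and of `nilP_of_cone` in
`../NilP.lean`.  The filtrations are additive subgroups (no scalars).  In `nilP_of_cone` show that
EVERY vector lies in `nilPK p ν k`: by `mem_of_proj` it is enough to treat a vector located at one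
position `σ`; then `x * (1 + μ)` is located at positions `τ` with `(σ, τ)` a translate of a member of the
finite set `prs p p (1 + μ)` (`VOn.vecMul_eq` with the relation `∃ g, (g • a, g • b) ∈ prs ..`), so `dp σ τ` is
bounded because `dp` is invariant. -/

namespace Pool.Agent.Work.MP_9d1ffa_al.Ct.Ru

open MonoidAlgebra

set_option linter.unusedSectionVars false
set_option linter.unusedVariables false

variable {X G P Q : Type} [Group G] [MulAction G P] [MulAction G Q] [Nonempty X]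
  {ρ : G →* Equiv.Perm X} {I J : Ob X}

/-- vectors all of whose components are mapped into `N` -/
def NilT_pull (q : J.I → Q) (b : (OC ρ).Hom J I) (N : AddSubgroup (Vec ρ I)) :
    AddSubgroup (Vec ρ J) where
  carrier := {x | ∀ τ, proj q (· = τ) x * b ∈ N}
  add_mem' {x y} hx hy τ := by
    rw [map_add, Hm.add_mul]
    exact N.add_mem (hx τ) (hy τ)
  zero_mem' τ := by
    rw [map_zero, Hm.zero_mul]
    exact N.zero_mem
  neg_mem' {x} hx τ := by
    rw [map_neg, Hm.neg_mul]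
    exact N.neg_mem (hx τ)

theorem NilT_mem {q : J.I → Q} {b : (OC ρ).Hom J I} {N : AddSubgroup (Vec ρ I)} {x : Vec ρ J} :
    x ∈ NilT_pull q b N ↔ ∀ τ, proj q (· = τ) x * b ∈ N := Iff.rfl

theorem NilT_gr {q : J.I → Q} {b : (OC ρ).Hom J I} {N : AddSubgroup (Vec ρ I)} {x : Vec ρ J}
    (hx : x ∈ NilT_pull q b N) (σ : Q) : proj q (· = σ) x ∈ NilT_pull q b N := by
  intro τ
  rw [proj_proj]
  by_cases e : τ = σ
  · simpa [e] using hx σ
  · rw [((vOn_proj q (fun a => a = τ ∧ a = σ) x).mono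
      fun a e' => e (e'.1.symm.trans e'.2)).eq_zero, Hm.zero_mul]
    exact N.zero_mem

/-- transfer from `u * b` to `b * u` -/
theorem nilP_transfer (p : I.I → P) (q : J.I → Q) (α : P → Q → Prop) (β : Q → P → Prop)
    (hα : Inv G α) (hβ : Inv G β) (u : (OC ρ).Hom I J) (b : (OC ρ).Hom J I)
    (hu : MOn p q α u) (hb : MOn q p β b) (hfun : ∀ τ σ₁ σ₂, β τ σ₁ → β τ σ₂ → σ₁ = σ₂)
    (hinj : ∀ σ τ₁ τ₂ σ', α σ τ₁ → α σ τ₂ → β τ₁ σ' → β τ₂ σ' → τ₁ = τ₂)
    (h : NilP p (u * b)) : NilP q (b * u) := by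
  obtain ⟨F, k, hF, hL⟩ := h
  refine ⟨fun m => if m ≤ k then NilT_pull q b (F m) else ⊥, k + 1, ⟨?_, fun m => ?_, by simp,
    fun m σ x hx => ?_⟩, fun m x hx => ?_⟩
  · rw [if_pos (Nat.zero_le k), eq_top_iff]
    exact fun x _ τ => by rw [hF.top]; trivial
  · by_cases e : m + 1 ≤ k
    · rw [if_pos e, if_pos (by omega)]
      exact fun x hx τ => hF.anti m (hx τ)
    · rw [if_neg e]
      exact bot_le
  · by_cases e : m ≤ k
    · simp only [if_pos e] at hx ⊢
      exact NilT_gr hx σ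
    · simp only [if_neg e, AddSubgroup.mem_bot] at hx ⊢
      rw [hx, map_zero]
  · by_cases e : m + 1 ≤ k
    · simp only [if_pos e, if_pos (show m ≤ k by omega)] at hx ⊢
      refine mem_of_proj q (N := (NilT_pull q b (F (m + 1))).comap (Hm.rmul (b * u))) (x := x)
        fun τ τ' => ?_
      change proj q (· = τ') (proj q (· = τ) x * (b * u)) * b ∈ F (m + 1)
      have hy := hx τ
      have h1 := (vOn_proj q (· = τ) x).vecMul_eq hb hβ
      rw [← Hm.mul_assoc]
      generalize proj q (· = τ) x * b = y at hy h1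
      by_cases e1 : ∃ σ, β τ σ
      swap
      · rw [(h1.mono fun a ha => e1 ⟨a, ha⟩).eq_zero, Hm.zero_mul, map_zero, Hm.zero_mul]
        exact zero_mem _
      obtain ⟨σ, hσ⟩ := e1
      have h2 := (h1.mono fun a ha => hfun τ a σ ha hσ).vecMul_eq hu hα
      have h3 := (vOn_proj q (· = τ') (y * u)).vecMul_eq hb hβ
      by_cases e2 : ∃ σ', β τ' σ'
      swap
      · rw [(h3.mono fun a ha => e2 ⟨a, ha⟩).eq_zero]
        exact zero_mem _
      obtain ⟨σ', hσ'⟩ := e2
      by_cases e3 : α σ τ'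
      swap
      · rw [h2.proj_zero (S' := (· = τ')) fun a ha e => e3 (e ▸ ha), Hm.zero_mul]
        exact zero_mem _
      have h4 := (((h2.proj fun a => ¬ a = τ').and (vOn_proj q _ _)).vecMul hb hβ).proj_zero
        (S' := (· = σ')) fun a ⟨c, hc, hc'⟩ e => hc.2 (hinj σ c τ' σ' hc.1 e3 (e ▸ hc') hσ')
      have h5 := hF.gr (m + 1) σ' _ (hL m y hy)
      rwa [← Hm.mul_assoc, ← proj_add_not q (· = τ') (y * u), Hm.add_mul, map_add,
        h4, add_zero, (h3.mono fun a ha => hfun τ' a σ' ha hσ').proj_eq] at h5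
    · simp only [if_neg e, AddSubgroup.mem_bot]
      by_cases e' : m ≤ k
      · simp only [show m = k by omega, le_refl, if_true, hF.bot] at hx
        have : x * b = 0 := mem_of_proj q (N := (Hm.rmul b).ker) (x := x) fun τ => hx τ
        rw [← Hm.mul_assoc, this, Hm.zero_mul]
      · simp only [if_neg e', AddSubgroup.mem_bot] at hx
        rw [hx, Hm.zero_mul]

/-- one step of the kernel filtration -/
def RN_step (p : I.I → P) (ν : (OC ρ).Hom I I) (N : AddSubgroup (Vec ρ I)) :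
    AddSubgroup (Vec ρ I) where
  carrier := {x | ∀ σ τ, proj p (· = τ) (proj p (· = σ) x * ν) ∈ N}
  add_mem' {x y} hx hy σ τ := by
    rw [map_add, Hm.add_mul, map_add]
    exact N.add_mem (hx σ τ) (hy σ τ)
  zero_mem' σ τ := by
    rw [map_zero, Hm.zero_mul, map_zero]
    exact N.zero_mem
  neg_mem' {x} hx σ τ := by
    rw [map_neg, Hm.neg_mul, map_neg]
    exact N.neg_mem (hx σ τ)

/-- the kernel filtration -/
noncomputable def RN_K (p : I.I → P) (ν : (OC ρ).Hom I I) : ℕ → AddSubgroup (Vec ρ I)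
  | 0 => ⊥
  | m + 1 => RN_step p ν (RN_K p ν m)

theorem RN_K_succ {p : I.I → P} {ν : (OC ρ).Hom I I} {m : ℕ} {x : Vec ρ I} :
    x ∈ RN_K p ν (m + 1) ↔ ∀ σ τ, proj p (· = τ) (proj p (· = σ) x * ν) ∈ RN_K p ν m := Iff.rfl

theorem RN_K_mono (p : I.I → P) (ν : (OC ρ).Hom I I) : Monotone (RN_K p ν) := by
  refine monotone_nat_of_le_succ fun m => ?_
  induction m with
  | zero => exact bot_le
  | succ m ih => exact fun x hx σ τ => ih (hx σ τ)

theorem RN_K_of_on {p : I.I → P} {ν : (OC ρ).Hom I I} {m : ℕ} {x : Vec ρ I} {σ : P}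
    (hx : VOn p (· = σ) x) (h : ∀ τ, proj p (· = τ) (x * ν) ∈ RN_K p ν m) :
    x ∈ RN_K p ν (m + 1) := by
  refine RN_K_succ.2 fun σ' τ => ?_
  by_cases e : σ' = σ
  · rw [e, hx.proj_eq]
    exact h τ
  · rw [hx.proj_zero (S' := (· = σ')) fun a h1 h2 => e (h2.symm.trans h1), Hm.zero_mul, map_zero]
    exact zero_mem _

theorem RN_of_K (p : I.I → P) (ν : (OC ρ).Hom I I) (k : ℕ) (h : ∀ x, x ∈ RN_K p ν k) :
    NilP p ν := by
  refine ⟨fun m => RN_K p ν (k - m), k, ⟨?_, fun m => RN_K_mono p ν (by omega), ?_, ?_⟩, ?_⟩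
  · exact eq_top_iff.2 fun x _ => h x
  · rw [Nat.sub_self]
    rfl
  · intro m σ x
    generalize k - m = j
    intro hx
    cases j with
    | zero =>
      rw [AddSubgroup.mem_bot.1 hx, map_zero]
      exact zero_mem _
    | succ j => exact RN_K_of_on (vOn_proj p _ x) (hx σ)
  · intro m x hx
    rcases e : k - m with _ | j
    · simp only [e] at hx
      rw [AddSubgroup.mem_bot.1 hx, Hm.zero_mul]
      exact zero_mem _
    · simp only [e] at hx
      have e' : k - (m + 1) = j := by omega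
      simp only [e']
      exact mem_of_proj p (N := (RN_K p ν j).comap (Hm.rmul ν)) (x := x)
        fun σ => mem_of_proj p (N := RN_K p ν j) (hx σ)

/-- a one step morphism whose inverse moves forward -/
theorem nilP_of_cone (p : I.I → P) (hp : (Set.range p).Finite) (st cone : P → P → Prop)
    (hst : Inv G st) (hcone : Inv G cone) (dp : P → P → ℕ)
    (dpi : ∀ (g : G) σ τ, dp (g • σ) (g • τ) = dp σ τ) (dp0 : ∀ σ, dp σ σ = 0)
    (irr : ∀ σ, ¬ cone σ σ)
    (n1 : ∀ σ σ₁ τ, st σ σ₁ → (τ = σ₁ ∨ cone σ₁ τ) → dp σ τ = dp σ₁ τ + 1)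
    (n2 : ∀ σ σ₁ σ₂ τ, st σ σ₁ → st σ σ₂ → (τ = σ₁ ∨ cone σ₁ τ) → (τ = σ₂ ∨ cone σ₂ τ) →
      σ₁ = σ₂)
    (ν μ : (OC ρ).Hom I I) (hν : MOn p p st ν) (hμ : MOn p p cone μ)
    (h : (1 + ν) * (1 + μ) = 1) : NilP p ν := by
  have hM : MOn p p (fun a b => b = a ∨ cone a b) (1 + μ) :=
    ((mOn_one p).mono fun a b e => Or.inl e.symm).add (hμ.mono fun a b e => Or.inr e)
  have hI : Inv G fun a b : P => b = a ∨ cone a b := fun g a b e =>
    e.imp (fun e => by rw [e]) (hcone g a b)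
  have key : ∀ m σ (x : Vec ρ I), VOn p (· = σ) x →
      VOn p (fun τ => dp σ τ < m) (x * (1 + μ)) → x ∈ RN_K p ν m := by
    intro m
    induction m with
    | zero =>
      intro σ x hx h0
      have h1 := congrArg (proj p (· = σ)) (h0.mono fun a e => Nat.not_lt_zero _ e).eq_zero
      rw [Hm.mul_add, Hm.mul_one, map_add, hx.proj_eq,
        (hx.vecMul_eq hμ hcone).proj_zero (S' := (· = σ)) fun a h1 h2 => irr σ (h2 ▸ h1),
        add_zero, map_zero] at h1
      rw [h1]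
      exact zero_mem _
    | succ m ih =>
      intro σ x hx h0
      refine RN_K_of_on hx fun σ₁ => ?_
      have hy := hx.vecMul_eq hν hst
      by_cases e : st σ σ₁
      swap
      · rw [hy.proj_zero (S' := (· = σ₁)) fun a h1 h2 => e (h2 ▸ h1)]
        exact zero_mem _
      have h1 := (vOn_proj p (· = σ₁) (x * ν)).vecMul_eq hM hI
      have h2 := ((hy.proj fun a => ¬ a = σ₁).and (vOn_proj p _ _)).vecMul hM hI
      have h' : ((1 + ν) * (1 + μ) : (OC ρ).Hom I I) = 1 := h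
      have h3 : x = x * (1 + μ) + proj p (· = σ₁) (x * ν) * (1 + μ) +
          proj p (fun a => ¬ a = σ₁) (x * ν) * (1 + μ) := by
        rw [add_assoc, ← Hm.add_mul, proj_add_not, ← Hm.add_mul]
        conv_lhs => rw [← Hm.mul_one x, ← h', ← Hm.mul_assoc, Hm.mul_add x 1 ν, Hm.mul_one]
      have h4 := congrArg (proj p fun b => b = σ₁ ∨ cone σ₁ b) h3
      rw [map_add, map_add, h1.proj_eq,
        h2.proj_zero (S' := fun b => b = σ₁ ∨ cone σ₁ b) fun b ⟨a, ⟨a1, a2⟩, a3⟩ a4 =>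
          a2 (n2 σ a σ₁ b a1 e a3 a4),
        hx.proj_zero (S' := fun b => b = σ₁ ∨ cone σ₁ b) fun a a1 a2 => by
          have := n1 σ σ₁ a e a2
          rw [a1, dp0] at this
          omega, add_zero, eq_comm, add_eq_zero_iff_neg_eq] at h4
      refine ih σ₁ _ (vOn_proj p _ _) ((h1.and (h4 ▸ (h0.proj _).neg)).mono fun a ⟨a1, a2⟩ => ?_)
      have := n1 σ σ₁ a e a1
      omega
  obtain ⟨k, hk⟩ := ((prs_finite hp hp (1 + μ)).image fun t => dp t.1 t.2).bddAbove
  have hB : MOn p p (fun a b => dp a b < k + 1) (1 + μ) :=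
    (mOn_prs p p (1 + μ)).mono fun a b e => Nat.lt_succ_of_le (hk ⟨_, e, rfl⟩)
  refine RN_of_K p ν (k + 1) fun x => mem_of_proj p fun σ => key _ σ _ (vOn_proj p _ x) ?_
  exact (vOn_proj p _ x).vecMul_eq hB fun g a b e => (dpi g a b).trans_lt e

end Pool.Agent.Work.MP_9d1ffa_al.Ct.Ru
end

-- merged part: Pool.Agent.Work.MP_9d1ffa_al.Rt.RN2
section
/-! Pairs of nilpotent morphisms.  Port of `../UNil2.lean` (its relations `UNil2_D`, `UNil2_A` can be
used as they are).  `x ∘ Sum.inl` is `x.toCols₁`, extension by zero is `fromCols x 0`, that is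
`x * (OC ρ).inl I J`; pull filtrations back with `AddSubgroup.comap (Hm.rmul _)`; use `proj_fromCols`,
`proj_toCols₁`, `mOn_fromBlocks`. -/

namespace Pool.Agent.Work.MP_9d1ffa_al.Ct.Ru

open MonoidAlgebra

set_option linter.unusedSectionVars false
set_option linter.unusedVariables false

variable {X G P Q : Type} [Group G] [MulAction G P] [MulAction G Q] [Nonempty X]
  {ρ : G →* Equiv.Perm X} {I J I' J' : Ob X}

theorem RN2_pl (p : I.I → P) (q : J.I → Q) (S : P ⊕ Q → Prop) (x : Vec ρ (I + J)) :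
    (proj (I := I + J) (Sum.map p q) S x).toCols₁ =
      proj p (fun a => S (Sum.inl a)) x.toCols₁ :=
  (proj_toCols₁ _ S x).trans (proj_comp p Sum.inl (fun _ _ => rfl) S _)

theorem RN2_pr (p : I.I → P) (q : J.I → Q) (S : P ⊕ Q → Prop) (x : Vec ρ (I + J)) :
    (proj (I := I + J) (Sum.map p q) S x).toCols₂ =
      proj q (fun a => S (Sum.inr a)) x.toCols₂ :=
  (proj_toCols₂ _ S x).trans (proj_comp q Sum.inr (fun _ _ => rfl) S _)

theorem RN2_mul (A : (OC ρ).Hom I J) (B : (OC ρ).Hom J I) (x : Vec ρ (I + J)) :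
    x * fromBlocks 0 A B 0 = fromCols (x.toCols₂ * B) (x.toCols₁ * A) := by
  conv_lhs => rw [← fromCols_toCols x, fromCols_mul_fromBlocks]
  simp

/-- extension by zero on the left -/
noncomputable def RN2_L (ρ : G →* Equiv.Perm X) (I J : Ob X) : Vec ρ I →+ Vec ρ (I + J) :=
  AddMonoidHom.mk' (fun x => fromCols x 0) fun x y => by simp

/-- extension by zero on the right -/
noncomputable def RN2_R (ρ : G →* Equiv.Perm X) (I J : Ob X) : Vec ρ J →+ Vec ρ (I + J) :=
  AddMonoidHom.mk' (fun x => fromCols 0 x) fun x y => by simp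

theorem RN2_L_eq (x : Vec ρ I) : RN2_L ρ I J x = fromCols x 0 := rfl

theorem RN2_R_eq (x : Vec ρ J) : RN2_R ρ I J x = fromCols 0 x := rfl

theorem nil2_iff {p : I.I → P} {q : J.I → Q} {A : (OC ρ).Hom I J} {B : (OC ρ).Hom J I} :
    Nil2 p q A B ↔ NilP (I := I + J) (Sum.map p q) (fromBlocks 0 A B 0) := by
  constructor
  · rintro ⟨F, F', k, h1, h2, h3, h4⟩
    refine ⟨fun m => (F m).comap (Hm.rmul ((OC ρ).inl I J).ct) ⊓
      (F' m).comap (Hm.rmul ((OC ρ).inr I J).ct), k, ⟨?_, fun m x hx => ?_, ?_,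
      fun m σ x hx => ?_⟩, fun m x hx => ?_⟩
    · simp [h1.top, h2.top]
    · exact ⟨h1.anti m hx.1, h2.anti m hx.2⟩
    · rw [eq_bot_iff, h1.bot, h2.bot]
      exact fun x hx => ext_cols (B := 0) (hx.1.trans toCols₁_zero.symm)
        (hx.2.trans toCols₂_zero.symm)
    · refine ⟨?_, ?_⟩
      · change (proj (I := I + J) (Sum.map p q) (· = σ) x).toCols₁ ∈ F m
        rw [RN2_pl]
        exact h1.proj_mem m _ hx.1
      · change (proj (I := I + J) (Sum.map p q) (· = σ) x).toCols₂ ∈ F' m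
        rw [RN2_pr]
        exact h2.proj_mem m _ hx.2
    · refine ⟨?_, ?_⟩
      · change (x * fromBlocks 0 A B 0).toCols₁ ∈ F (m + 1)
        rw [RN2_mul, toCols₁_fromCols]
        exact h4 m _ hx.2
      · change (x * fromBlocks 0 A B 0).toCols₂ ∈ F' (m + 1)
        rw [RN2_mul, toCols₂_fromCols]
        exact h3 m _ hx.1
  · rintro ⟨Z, k, h1, h2⟩
    refine ⟨fun m => (Z m).comap (RN2_L ρ I J), fun m => (Z m).comap (RN2_R ρ I J), k,
      ⟨by simp [h1.top], fun m x hx => h1.anti m hx, ?_, fun m σ x hx => ?_⟩,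
      ⟨by simp [h1.top], fun m x hx => h1.anti m hx, ?_, fun m σ x hx => ?_⟩,
      fun m x hx => ?_, fun m x hx => ?_⟩
    · rw [eq_bot_iff, h1.bot]
      intro x hx
      have e : fromCols x (0 : Vec ρ J) = 0 := hx
      simpa using congrArg SCat.Hom.toCols₁ e
    · have e : RN2_L ρ I J (proj p (· = σ) x) =
          proj (I := I + J) (Sum.map p q) (· = Sum.inl σ) (RN2_L ρ I J x) := by
        refine ext_cols ?_ ?_
        · rw [RN2_pl]
          simp only [Sum.inl.injEq, RN2_L_eq, toCols₁_fromCols]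
        · rw [RN2_pr]
          simp only [RN2_L_eq, toCols₂_fromCols, map_zero]
      rw [AddSubgroup.mem_comap, e]
      exact h1.gr m _ _ hx
    · rw [eq_bot_iff, h1.bot]
      intro x hx
      have e : fromCols (0 : Vec ρ I) x = 0 := hx
      simpa using congrArg SCat.Hom.toCols₂ e
    · have e : RN2_R ρ I J (proj q (· = σ) x) =
          proj (I := I + J) (Sum.map p q) (· = Sum.inr σ) (RN2_R ρ I J x) := by
        refine ext_cols ?_ ?_
        · rw [RN2_pl]
          simp only [RN2_R_eq, toCols₁_fromCols, map_zero]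
        · rw [RN2_pr]
          simp only [Sum.inr.injEq, RN2_R_eq, toCols₂_fromCols]
      rw [AddSubgroup.mem_comap, e]
      exact h1.gr m _ _ hx
    · have := h2 m _ hx
      rwa [RN2_mul, RN2_L_eq, toCols₁_fromCols, toCols₂_fromCols, Hm.zero_mul] at this
    · have := h2 m _ hx
      rwa [RN2_mul, RN2_R_eq, toCols₁_fromCols, toCols₂_fromCols, Hm.zero_mul] at this

theorem Nil2.nilP {p : I.I → P} {q : J.I → P} {A : (OC ρ).Hom I J} {B : (OC ρ).Hom J I}
    (h : Nil2 p q A B) : NilP (I := I + J) (Sum.elim p q) (fromBlocks 0 A B 0) := by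
  obtain ⟨Z, k, h1, h2⟩ := nil2_iff.1 h
  have h3 := h1.coarse (Sum.elim id id : P ⊕ P → P) fun g a => by cases a <;> rfl
  have e : (fun i : (I + J).I => (Sum.elim id id : P ⊕ P → P) (Sum.map p q i)) =
      Sum.elim p q := by
    funext i
    cases i <;> rfl
  rw [e] at h3
  exact ⟨Z, k, h3, h2⟩

theorem Nil2.zsmul {p : I.I → P} {q : J.I → Q} {A : (OC ρ).Hom I J} {B : (OC ρ).Hom J I}
    (h : Nil2 p q A B) (a b : ℤ) : Nil2 p q (a • A) (b • B) := by
  obtain ⟨F, F', k, h1, h2, h3, h4⟩ := h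
  exact ⟨F, F', k, h1, h2, h3.zsmul a, h4.zsmul b⟩

theorem nil2_transfer (p : I.I → P) (p' : I'.I → P) (r : J.I → P) (r' : J'.I → P)
    (α β α' β' : P → P → Prop) (hα : Inv G α) (hβ : Inv G β) (hα' : Inv G α') (hβ' : Inv G β')
    (u : (OC ρ).Hom I J) (v : (OC ρ).Hom J I') (u' : (OC ρ).Hom I' J') (v' : (OC ρ).Hom J' I)
    (hu : MOn p r α u) (hv : MOn r p' β v) (hu' : MOn p' r' α' u') (hv' : MOn r' p β' v')
    (hf : ∀ a b c, β a b → β a c → b = c) (hf' : ∀ a b c, β' a b → β' a c → b = c)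
    (hi : ∀ a b c e, α a b → α a c → β b e → β c e → b = c)
    (hi' : ∀ a b c e, α' a b → α' a c → β' b e → β' c e → b = c)
    (h : Nil2 p p' (u * v) (u' * v')) : Nil2 r r' (v * u') (v' * u) := by
  rw [nil2_iff] at h ⊢
  have e1 : fromBlocks 0 (u * v) (u' * v') 0 = fromBlocks u 0 0 u' * fromBlocks 0 v v' 0 := by
    simp [fromBlocks_multiply]
  have e2 : fromBlocks 0 (v * u') (v' * u) 0 = fromBlocks 0 v v' 0 * fromBlocks u 0 0 u' := by
    simp [fromBlocks_multiply]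
  rw [e1] at h
  rw [e2]
  refine nilP_transfer (I := I + I') (J := J + J') (Sum.map p p') (Sum.map r r') (UNil2_D α α')
    (UNil2_A β β') ?_ ?_ _ _ ?_ ?_ ?_ ?_ h
  · rintro g (a | a) (b | b) k
    exacts [hα g a b k, k, k, hα' g a b k]
  · rintro g (a | a) (b | b) k
    exacts [k, hβ g a b k, hβ' g a b k, k]
  · exact mOn_fromBlocks.2 ⟨hu, mOn_zero _ _ _, mOn_zero _ _ _, hu'⟩
  · exact mOn_fromBlocks.2 ⟨mOn_zero _ _ _, hv, hv', mOn_zero _ _ _⟩
  · rintro (a | a) (b | b) (c | c) k1 k2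
    exacts [k1.elim, k1.elim, k2.elim, congrArg _ (hf a b c k1 k2),
      congrArg _ (hf' a b c k1 k2), k2.elim, k1.elim, k1.elim]
  · rintro (a | a) (b | b) (c | c) (e | e) k1 k2 k3 k4
    exacts [k3.elim, congrArg _ (hi a b c e k1 k2 k3 k4), k2.elim, k2.elim, k1.elim, k1.elim,
      k1.elim, k1.elim, k1.elim, k1.elim, k1.elim, k1.elim, k2.elim, k2.elim,
      congrArg _ (hi' a b c e k1 k2 k3 k4), k3.elim]

theorem RN2_step (p : I.I → P) (q : J.I → Q) (α : P → Q → Prop) (β : Q → P → Prop)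
    (hα : Inv G α) (hβ : Inv G β) (u : (OC ρ).Hom I J) (b : (OC ρ).Hom J I)
    (hu : MOn p q α u) (hb : MOn q p β b) (hf : ∀ a b c, β a b → β a c → b = c)
    (hi : ∀ a b c e, α a b → α a c → β b e → β c e → b = c)
    {Z : ℕ → AddSubgroup (Vec ρ I)} {k : ℕ} (hX : Filt p Z k) (hL : Low2 Z Z 1 (u * b))
    (m : ℕ) {x : Vec ρ I} (hx : x ∈ Z m) : x * u ∈ NilT_pull q b (Z (m + 1)) := by
  refine mem_of_proj p (N := (NilT_pull q b (Z (m + 1))).comap (Hm.rmul u)) (x := x)
    fun σ τ' => ?_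
  change proj q (· = τ') (proj p (· = σ) x * u) * b ∈ Z (m + 1)
  have hy := hX.gr m σ x hx
  have h1 := vOn_proj p (· = σ) x
  generalize proj p (· = σ) x = y at hy h1
  have h2 := h1.vecMul_eq hu hα
  have h3 := (vOn_proj q (· = τ') (y * u)).vecMul_eq hb hβ
  by_cases e2 : ∃ σ', β τ' σ'
  swap
  · rw [(h3.mono fun a ha => e2 ⟨a, ha⟩).eq_zero]
    exact zero_mem _
  obtain ⟨σ', hσ'⟩ := e2
  by_cases e3 : α σ τ'
  swap
  · rw [h2.proj_zero (S' := (· = τ')) fun a ha e => e3 (e ▸ ha), Hm.zero_mul]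
    exact zero_mem _
  have h4 := (((h2.proj fun a => ¬ a = τ').and (vOn_proj q _ _)).vecMul hb hβ).proj_zero
    (S' := (· = σ')) fun a ⟨c, hc, hc'⟩ e => hc.2 (hi σ c τ' σ' hc.1 e3 (e ▸ hc') hσ')
  have h5 := hX.gr (m + 1) σ' _ (hL m y hy)
  rwa [← Hm.mul_assoc, ← proj_add_not q (· = τ') (y * u), Hm.add_mul, map_add,
    h4, add_zero, (h3.mono fun a ha => hf τ' a σ' ha hσ').proj_eq] at h5

theorem nil2_of_nilP (p : I.I → P) (q : J.I → Q) (α : P → Q → Prop) (β : Q → P → Prop)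
    (hα : Inv G α) (hβ : Inv G β) (u : (OC ρ).Hom I J) (b : (OC ρ).Hom J I)
    (hu : MOn p q α u) (hb : MOn q p β b) (hf : ∀ a b c, β a b → β a c → b = c)
    (hi : ∀ a b c e, α a b → α a c → β b e → β c e → b = c) (h : NilP p (u * b)) :
    Nil2 p q u b := by
  obtain ⟨Z, k, hX, hL⟩ := h
  have hY : Filt q (fun m => if m ≤ k then NilT_pull q b (Z m) else ⊥) (k + 1) := by
    refine ⟨?_, fun m => ?_, by simp, fun m σ x hx => ?_⟩
    · rw [if_pos (Nat.zero_le k), eq_top_iff]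
      exact fun x _ τ => by rw [hX.top]; trivial
    · by_cases e : m + 1 ≤ k
      · rw [if_pos e, if_pos (by omega)]
        exact fun x hx τ => hX.anti m (hx τ)
      · rw [if_neg e]
        exact bot_le
    · by_cases e : m ≤ k
      · simp only [if_pos e] at hx ⊢
        exact NilT_gr hx σ
      · simp only [if_neg e, AddSubgroup.mem_bot] at hx ⊢
        simp [hx]
  have h1 : ∀ m, ∀ y ∈ (if m ≤ k then NilT_pull q b (Z m) else ⊥), y * b ∈ Z m := by
    intro m y hy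
    by_cases e : m ≤ k
    · rw [if_pos e] at hy
      exact mem_of_proj q (N := (Z m).comap (Hm.rmul b)) (x := y) hy
    · rw [if_neg e, AddSubgroup.mem_bot] at hy
      rw [hy, Hm.zero_mul]
      exact zero_mem _
  have h2 : ∀ m, ∀ x ∈ Z m,
      x * u ∈ (if m + 1 ≤ k then NilT_pull q b (Z (m + 1)) else ⊥) := by
    intro m x hx
    by_cases e : m + 1 ≤ k
    · rw [if_pos e]
      exact RN2_step p q α β hα hβ u b hu hb hf hi hX hL m hx
    · have := hX.antitone (show k ≤ m by omega) hx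
      rw [hX.bot, AddSubgroup.mem_bot] at this
      rw [this, Hm.zero_mul]
      exact zero_mem _
  generalize hYd : (fun m => if m ≤ k then NilT_pull q b (Z m) else ⊥) = Y at hY
  have h1' : ∀ m, ∀ y ∈ Y m, y * b ∈ Z m := hYd ▸ h1
  have h2' : ∀ m, ∀ x ∈ Z m, x * u ∈ Y (m + 1) := hYd ▸ h2
  refine ⟨fun j => Z (j / 2), fun j => Y ((j + 1) / 2), 2 * k + 2,
    ⟨hX.top, fun m => hX.antitone (by omega), ?_, fun m => hX.gr _⟩,
    ⟨hY.top, fun m => hY.antitone (by omega), ?_, fun m => hY.gr _⟩,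
    fun m x hx => ?_, fun m x hx => h1' _ x hx⟩
  · rw [eq_bot_iff, ← hX.bot]
    exact hX.antitone (by omega)
  · rw [eq_bot_iff, ← hY.bot]
    exact hY.antitone (by omega)
  · have e : (m + 1 + 1) / 2 = m / 2 + 1 := by omega
    beta_reduce
    rw [e]
    exact h2' _ x hx

end Pool.Agent.Work.MP_9d1ffa_al.Ct.Ru
end

-- merged part: Pool.Agent.Work.MP_9d1ffa_al.Rt.RO
section
/-! Maps of filtered forms, sums and negatives.  Port of the second half of `../UObj.lean` and of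
`../USum.lean` (`Geo2`, `inv_rev`, `Geo2.rev_inj` are used as they are).  For `adj_mfil` use `mfil_add`,
`MOn.mfil_eq`, `MOn.mfil_zero`.  The filtration of a sum is
`(F m).comap (Hm.rmul (inl).ct) ⊓ (F' m).comap (Hm.rmul (inr).ct)`, i.e. `x.toCols₁ ∈ F m ∧ x.toCols₂ ∈ F' m`. -/

namespace Pool.Agent.Work.MP_9d1ffa_al.Ct.Ru

open MonoidAlgebra

set_option linter.unusedSectionVars false
set_option linter.unusedVariables false

variable {X G P : Type} [Group G] [MulAction G P] [Nonempty X] {ρ : G →* Equiv.Perm X}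
  {rev : P → P} {mv : P → P → Prop} {hull : P → P → P} {ε : ℤˣ} {k : ℕ}
  {M N K : Obj ρ rev ε k} {w w' : ℕ}

theorem Obj.mu_ct (M : Obj ρ rev ε k) : M.μ.ct = (ε : ℤ) • M.μ := inv_ct M.e1 M.e2

theorem RO_adj_zero : adj M N 0 = 0 := by simp [adj]

theorem RO_adj_add (A B : (OC ρ).Hom M.I N.I) : adj M N (A + B) = adj M N A + adj M N B := by
  simp only [adj, conjTranspose_add, Hm.mul_add, Hm.add_mul]

theorem RO_adj_neg (A : (OC ρ).Hom M.I N.I) : adj M N (-A) = -adj M N A := by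
  simp only [adj, conjTranspose_neg, Hm.mul_neg, Hm.neg_mul]

theorem RO_adj_mul (A : (OC ρ).Hom M.I N.I) (B : (OC ρ).Hom N.I K.I) :
    adj M K (A * B) = adj N K B * adj M N A := by
  rw [adj, adj, adj, conjTranspose_mul]
  simp only [Hm.mul_assoc]
  rw [← Hm.mul_assoc N.μ, N.e2, Hm.one_mul]

theorem adj_mul_sy (A : (OC ρ).Hom M.I N.I) : adj M N A * sy ε M.φ = sy ε N.φ * A.ct := by
  rw [adj, Hm.mul_assoc, M.e2, Hm.mul_one]

theorem adj_adj (A : (OC ρ).Hom M.I N.I) : adj N M (adj M N A) = A := by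
  rw [adj, adj, conjTranspose_mul, conjTranspose_mul, conjTranspose_conjTranspose, sy_ct, M.mu_ct]
  simp only [Hm.mul_smul, Hm.smul_mul, eps_eps, Hm.mul_assoc, N.e1, Hm.mul_one]
  rw [← Hm.mul_assoc, M.e1, Hm.one_mul]

theorem mOn_sy (Γ : Geo2 G rev mv hull) {I : Ob X} {p : I.I → P} {φ : (OC ρ).Hom I I}
    (h : MOn p p (fun a b => b = rev a) φ) : MOn p p (fun a b => b = rev a) (sy ε φ) := by
  exact h.add (((h.ct (inv_rev Γ)).mono fun a b e => by rw [e, Γ.rr]).zsmul _)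

theorem mOn_adj (Γ : Geo2 G rev mv hull) {R : P → P → Prop} (hR : Inv G R)
    {A : (OC ρ).Hom M.I N.I} (h : MOn M.p N.p R A) :
    MOn N.p M.p (fun b a => R (rev a) (rev b)) (adj M N A) := by
  refine (((mOn_sy Γ N.onφ).mul (h.ct hR) fun g a b => hR g b a).mul M.onμ (inv_rev Γ)).mono ?_
  rintro b a ⟨c, ⟨d, rfl, h1⟩, rfl⟩
  rwa [Γ.rr]

theorem RO_adj_mfil (Γ : Geo2 G rev mv hull) {R : P → P → Prop} (hR : Inv G R)
    (A : (OC ρ).Hom M.I N.I) :
    adj M N (mfil M.p N.p R A) = mfil N.p M.p (fun b a => R (rev a) (rev b)) (adj M N A) := by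
  have h1 := mOn_adj Γ hR (mOn_mfil M.p N.p R A)
  have h2 := mOn_adj Γ (inv_not hR) (mOn_mfil M.p N.p (fun a b => ¬ R a b) A)
  conv_rhs => rw [← mfil_add_not M.p N.p R A, RO_adj_add]
  rw [mfil_add, h1.mfil_eq, h2.mfil_zero (R' := fun b a => R (rev a) (rev b)) fun _ _ h => h,
    add_zero]

theorem JJ.zero : JJ mv M N w 0 := by
  exact ⟨mOn_zero _ _ _, low2_zero, by rw [RO_adj_zero]; exact low2_zero⟩

theorem JJ.add {A B : (OC ρ).Hom M.I N.I} (hA : JJ mv M N w A) (hB : JJ mv M N w B) :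
    JJ mv M N w (A + B) := by
  exact ⟨hA.1.add hB.1, hA.2.1.add hB.2.1, by rw [RO_adj_add]; exact hA.2.2.add hB.2.2⟩

theorem JJ.neg {A : (OC ρ).Hom M.I N.I} (hA : JJ mv M N w A) : JJ mv M N w (-A) := by
  exact ⟨hA.1.neg, hA.2.1.neg, by rw [RO_adj_neg]; exact hA.2.2.neg⟩

theorem JJ.mul (Γ : Geo2 G rev mv hull) {A : (OC ρ).Hom M.I N.I} {B : (OC ρ).Hom N.I K.I}
    (hA : JJ mv M N w A) (hB : JJ mv N K w' B) : JJ mv M K (w + w') (A * B) := by
  exact ⟨(hA.1.mul hB.1 Γ.inv).mono fun x z ⟨y, h1, h2⟩ => Γ.tr x y z h1 h2, hA.2.1.mul hB.2.1, by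
    rw [RO_adj_mul, add_comm]; exact hB.2.2.mul hA.2.2⟩

theorem JJ.anti (h : w ≤ w') {A : (OC ρ).Hom M.I N.I} (hA : JJ mv M N w' A) : JJ mv M N w A := by
  exact ⟨hA.1, hA.2.1.anti N.hF h, hA.2.2.anti M.hF h⟩

theorem JJ.adj (Γ : Geo2 G rev mv hull) {A : (OC ρ).Hom M.I N.I} (hA : JJ mv M N w A) :
    JJ mv N M w (adj M N A) := by
  exact ⟨(mOn_adj Γ Γ.inv hA.1).mono fun b a h => by simpa only [Γ.rr] using Γ.sym _ _ h, hA.2.2,
    by rw [adj_adj]; exact hA.2.1⟩

theorem JJ.mfil (Γ : Geo2 G rev mv hull) {A : (OC ρ).Hom M.I N.I} (hA : JJ mv M N w A)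
    {R : P → P → Prop} (hR : Inv G R) : JJ mv M N w (mfil M.p N.p R A) := by
  refine ⟨hA.1.mfil R, hA.2.1.mfil M.hF N.hF hR, ?_⟩
  rw [RO_adj_mfil Γ hR]
  exact hA.2.2.mfil N.hF M.hF fun g a b h => by rw [Γ.re, Γ.re]; exact hR g _ _ h

theorem JJ.eq_zero (h : k ≤ w) {A : (OC ρ).Hom M.I N.I} (hA : JJ mv M N w A) : A = 0 := by
  exact hA.2.1.eq_zero M.hF N.hF h

theorem RO_inv_aux (Γ : Geo2 G rev mv hull) (n : ℕ) : ∀ w, 1 ≤ w → k ≤ w + n →
    ∀ U : (OC ρ).Hom M.I M.I, JJ mv M M w U →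
      ∃ U', JJ mv M M w U' ∧ (1 + U) * (1 + U') = 1 ∧ (1 + U') * (1 + U) = 1 := by
  induction n with
  | zero =>
    intro w hw hk U hU
    exact ⟨0, JJ.zero, by simp [hU.eq_zero hk], by simp [hU.eq_zero hk]⟩
  | succ n ih =>
    intro w hw hk U hU
    obtain ⟨V, hV, e1, e2⟩ := ih (w + 1) (by omega) (by omega) (-(U * U))
      ((hU.mul Γ hU).neg.anti (by omega))
    have c1 : (1 + U) * (1 - U) = 1 + -(U * U) := by noncomm_ring
    have c2 : (1 - U) * (1 + U) = 1 + -(U * U) := by noncomm_ring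
    have r : (1 + U) * ((1 - U) * (1 + V)) = 1 := by rw [← mul_assoc, c1, e1]
    have l : (1 + V) * (1 - U) * (1 + U) = 1 := by rw [mul_assoc, c2, e2]
    have e : (1 + V) * (1 - U) = (1 - U) * (1 + V) := left_inv_eq_right_inv l r
    have f : (1 - U) * (1 + V) = 1 + (-U + V + -U * V) := by noncomm_ring
    refine ⟨-U + V + -U * V, (hU.neg.add (hV.anti (by omega))).add
      ((hU.neg.mul Γ hV).anti (by omega)), by rw [← f, r], by rw [← f, ← e, l]⟩

theorem JJ.inv (Γ : Geo2 G rev mv hull) (hw : 1 ≤ w) {U : (OC ρ).Hom M.I M.I}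
    (hU : JJ mv M M w U) :
    ∃ U', JJ mv M M w U' ∧ (1 + U) * (1 + U') = 1 ∧ (1 + U') * (1 + U) = 1 := by
  exact RO_inv_aux Γ k w hw (by omega) U hU

theorem JJ.isUnit (Γ : Geo2 G rev mv hull) (hw : 1 ≤ w) {U : (OC ρ).Hom M.I M.I}
    (hU : JJ mv M M w U) : IsUnit (1 + U) := by
  obtain ⟨U', -, e1, e2⟩ := hU.inv Γ hw
  exact ⟨⟨_, _, e1, e2⟩, rfl⟩

/-- the sum of two filtrations -/
noncomputable def RO_sumF {I J : Ob X} (F : ℕ → AddSubgroup (Vec ρ I))
    (F' : ℕ → AddSubgroup (Vec ρ J)) (m : ℕ) : AddSubgroup (Vec ρ (I + J)) :=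
  (F m).comap (Hm.rmul ((OC ρ).inl I J).ct) ⊓ (F' m).comap (Hm.rmul ((OC ρ).inr I J).ct)

theorem RO_mem {I J : Ob X} {F : ℕ → AddSubgroup (Vec ρ I)} {F' : ℕ → AddSubgroup (Vec ρ J)}
    {m : ℕ} {x : Vec ρ (I + J)} : x ∈ RO_sumF F F' m ↔ x.toCols₁ ∈ F m ∧ x.toCols₂ ∈ F' m :=
  Iff.rfl

theorem RO_filt {I J : Ob X} {p : I.I → P} {q : J.I → P} {F : ℕ → AddSubgroup (Vec ρ I)}
    {F' : ℕ → AddSubgroup (Vec ρ J)} (h : Filt p F k) (h' : Filt q F' k) :
    Filt (I := I + J) (Sum.elim p q) (RO_sumF F F') k where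
  top := by
    rw [eq_top_iff]
    intro x _
    rw [RO_mem, h.top, h'.top]
    exact ⟨trivial, trivial⟩
  anti m x hx := RO_mem.2 ⟨h.anti m (RO_mem.1 hx).1, h'.anti m (RO_mem.1 hx).2⟩
  bot := by
    rw [eq_bot_iff]
    intro x hx
    rw [RO_mem, h.bot, h'.bot, AddSubgroup.mem_bot, AddSubgroup.mem_bot] at hx
    rw [AddSubgroup.mem_bot, ← fromCols_toCols x, hx.1, hx.2, fromCols_zero]
  gr m σ x hx := by
    rw [RO_mem, proj_toCols₁, proj_toCols₂]
    exact ⟨h.gr m σ _ (RO_mem.1 hx).1, h'.gr m σ _ (RO_mem.1 hx).2⟩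

theorem RO_mOn {I J : Ob X} {p : I.I → P} {q : J.I → P} {R : P → P → Prop}
    {A : (OC ρ).Hom I I} {B : (OC ρ).Hom J J} (hA : MOn p p R A) (hB : MOn q q R B) :
    MOn (I := I + J) (J := I + J) (Sum.elim p q) (Sum.elim p q) R (fromBlocks A 0 0 B) :=
  mOn_fromBlocks.2 ⟨hA, mOn_zero _ _ _, mOn_zero _ _ _, hB⟩

/-- the sum of two filtered forms -/
noncomputable def RO_sum (N N' : Obj ρ rev ε k) : Obj ρ rev ε k where
  I := N.I + N'.I
  p := Sum.elim N.p N'.p
  fp := (N.fp.union N'.fp).subset (Set.Sum.elim_range N.p N'.p).subset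
  φ := fromBlocks N.φ 0 0 N'.φ
  μ := fromBlocks N.μ 0 0 N'.μ
  F := RO_sumF N.F N'.F
  hF := RO_filt N.hF N'.hF
  onφ := RO_mOn N.onφ N'.onφ
  onμ := RO_mOn N.onμ N'.onμ
  e1 := by simp [sy_blocks, fromBlocks_multiply, N.e1, N'.e1]
  e2 := by simp [sy_blocks, fromBlocks_multiply, N.e2, N'.e2]
  z := N.z.sum N'.z

/-- the negative of a filtered form -/
noncomputable def RO_neg (N : Obj ρ rev ε k) : Obj ρ rev ε k where
  I := N.I
  p := N.p
  fp := N.fp
  φ := -N.φ
  μ := -N.μ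
  F := N.F
  hF := N.hF
  onφ := N.onφ.neg
  onμ := N.onμ.neg
  e1 := by rw [sy_neg, neg_mul_neg, N.e1]
  e2 := by rw [sy_neg, neg_mul_neg, N.e2]
  z := N.z.neg

theorem RO_sum_adj (M N N' : Obj ρ rev ε k) (A : (OC ρ).Hom M.I N.I) (A' : (OC ρ).Hom M.I N'.I) :
    adj M (RO_sum N N') (fromCols A A') = fromRows (adj M N A) (adj M N' A') := by
  show sy ε (fromBlocks N.φ 0 0 N'.φ) * (fromCols A A').ct * M.μ = _
  rw [sy_blocks, conjTranspose_fromCols_eq_fromRows_conjTranspose, fromBlocks_mul_fromRows,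
    fromRows_mul]
  simp [adj]

theorem exists_sum {M N N' : Obj ρ rev ε k} {A : (OC ρ).Hom M.I N.I} {A' : (OC ρ).Hom M.I N'.I}
    (hA : JJ mv M N w A) (hA' : JJ mv M N' w A') :
    ∃ (K : Obj ρ rev ε k) (Y : (OC ρ).Hom M.I K.I), JJ mv M K w Y ∧
      Y * K.φ * Y.ct = A * N.φ * A.ct + A' * N'.φ * A'.ct := by
  refine ⟨RO_sum N N', fromCols A A', ⟨mOn_fromCols.2 ⟨hA.1, hA'.1⟩, ?_, ?_⟩, ?_⟩
  · intro m x hx
    have e : x * fromCols A A' ∈ RO_sumF N.F N'.F (m + w) := by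
      rw [RO_mem, mul_fromCols, toCols₁_fromCols, toCols₂_fromCols]
      exact ⟨hA.2.1 m x hx, hA'.2.1 m x hx⟩
    exact e
  · intro m y hy
    rw [RO_sum_adj]
    have e := mul_fromRows_eq (I := N.I) (J := N'.I) y (adj M N A) (adj M N' A')
    have h := add_mem (hA.2.2 m _ (RO_mem.1 hy).1) (hA'.2.2 m _ (RO_mem.1 hy).2)
    rw [← e] at h
    exact h
  · show fromCols A A' * fromBlocks N.φ 0 0 N'.φ * (fromCols A A').ct = _
    rw [conjTranspose_fromCols_eq_fromRows_conjTranspose, fromCols_mul_fromBlocks,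
      fromCols_mul_fromRows]
    simp

theorem exists_neg {A : (OC ρ).Hom M.I N.I} (hA : JJ mv M N w A) :
    ∃ (K : Obj ρ rev ε k) (Y : (OC ρ).Hom M.I K.I), JJ mv M K w Y ∧
      Y * K.φ * Y.ct = -(A * N.φ * A.ct) := by
  refine ⟨RO_neg N, A, ⟨hA.1, hA.2.1, ?_⟩, ?_⟩
  · have e : adj M (RO_neg N) A = -adj M N A := by
      show sy ε (-N.φ) * A.ct * M.μ = _
      rw [sy_neg, Hm.neg_mul, Hm.neg_mul, adj]
    rw [e]
    exact hA.2.2.neg
  · show A * -N.φ * A.ct = _
    rw [Hm.mul_neg, Hm.neg_mul]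

end Pool.Agent.Work.MP_9d1ffa_al.Ct.Ru
end
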